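import Pool.Agent.Helper40.AbMot.GDefs

/-!
# Inertia elements in the absolute Galois group
-/

open NumberField

namespace AbMot

/-- `σ` is an inertia element at the prime `v` of `F`: there is a prime `𝔓` above `v` of the ring
of all algebraic integers of `Ω` with `σ x ≡ x` modulo `𝔓` for all algebraic integers `x`
of `Ω`. -/
def IsInert {F Ω : Type} [Field F] [NumberField F] [Field Ω] [Algebra F Ω] (v : Ideal (𝓞 F))
    (σ : Ω ≃ₐ[F] Ω) : Prop :=
  ∃ 𝔓 : Ideal (integralClosure ℤ Ω), 𝔓.IsPrime ∧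
    (∀ (x : 𝓞 F) (y : integralClosure ℤ Ω), (y : Ω) = algebraMap F Ω x → (x ∈ v ↔ y ∈ 𝔓)) ∧
    ∀ x y : integralClosure ℤ Ω, (y : Ω) = σ (x : Ω) → y - x ∈ 𝔓

end AbMot
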