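import Mathlib

/-!
# Hermite-Minkowski for extensions unramified outside a finite set, from a bound on the different
-/

open NumberField

namespace AbMot

lemma discr_le_of_diff_dvd {F K : Type} [Field F] [NumberField F] [Field K] [NumberField K]
    [Algebra F K] (m : ℕ) (hm : m ≠ 0)
    (h : differentIdeal (𝓞 F) (𝓞 K) ∣ Ideal.span {(m : 𝓞 K)}) :
    (discr K).natAbs ≤ m ^ (Module.finrank ℚ K) * (discr F).natAbs ^ Module.finrank F K := by
  have h1 : (discr K).natAbs = Ideal.absNorm (differentIdeal (𝓞 F) (𝓞 K)) *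
      (discr F).natAbs ^ Module.finrank F K :=
    natAbs_discr_eq_absNorm_differentIdeal_mul_natAbs_discr_pow F (𝓞 F) K (𝓞 K)
  have h2 : Ideal.absNorm (Ideal.span {(m : 𝓞 K)}) = m ^ Module.finrank ℚ K := by
    rw [Ideal.absNorm_span_natCast, RingOfIntegers.rank]
  have h3 : Ideal.absNorm (differentIdeal (𝓞 F) (𝓞 K)) ∣ m ^ Module.finrank ℚ K := by
    rw [← h2]
    exact Ideal.absNorm_dvd_absNorm_of_le (Ideal.le_of_dvd h)
  rw [h1]
  exact Nat.mul_le_mul_right _ (Nat.le_of_dvd (by positivity) h3)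

/-- finitely many fields with bounded discriminants in an algebraic closure -/
lemma finite_of_natAbs_discr_le {F Ω : Type} [Field F] [NumberField F] [Field Ω] [Algebra F Ω]
    (N : ℕ) :
    {K : IntermediateField F Ω | ∃ (_ : NumberField K), (discr K).natAbs ≤ N}.Finite := by
  have : CharZero Ω := charZero_of_injective_algebraMap (algebraMap F Ω).injective
  have h1 := NumberField.finite_of_discr_bdd Ω N
  have h2 := h1.image Subtype.val
  refine (h2.preimage (Set.injOn_of_injective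
    (IntermediateField.restrictScalars_injective ℚ (L' := F) (L := Ω)))).subset ?_
  rintro K ⟨hK, hd⟩
  have hfd : FiniteDimensional ℚ (K.restrictScalars ℚ) :=
    inferInstanceAs (FiniteDimensional ℚ K)
  refine ⟨⟨K.restrictScalars ℚ, hfd⟩, ?_, rfl⟩
  have hN : NumberField (K.restrictScalars ℚ) := @NumberField.mk _ _ inferInstance hfd
  have e : K ≃+* K.restrictScalars ℚ := RingEquiv.refl K
  have h3 : discr K = discr (K.restrictScalars ℚ) := discr_eq_discr_of_ringEquiv K e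
  change |discr (K.restrictScalars ℚ)| ≤ (N : ℤ)
  rw [← h3, Int.abs_eq_natAbs]
  exact_mod_cast hd

/-- (c2) -/
theorem hermite_of {F : Type} [Field F] [NumberField F]
    (hdiff : ∀ (K : IntermediateField F (AlgebraicClosure F)) [NumberField K] [IsGalois F K]
      (S : Finset ℕ) (_ : ∀ p ∈ S, p.Prime)
      (_ : ∀ (Q : Ideal (𝓞 K)) (_ : Q.IsPrime), Q ≠ ⊥ → (∀ p ∈ S, (p : 𝓞 K) ∉ Q) →
        Algebra.IsUnramifiedAt (𝓞 F) Q),
      differentIdeal (𝓞 F) (𝓞 K) ∣
        Ideal.span {((Module.finrank F K * ∏ p ∈ S, p : ℕ) : 𝓞 K)})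
    (D : ℕ) (S : Finset ℕ) (hS : ∀ p ∈ S, p.Prime) :
    {K : IntermediateField F (AlgebraicClosure F) | ∃ (_ : NumberField K), IsGalois F K ∧
      Module.finrank F K ≤ D ∧ ∀ (Q : Ideal (𝓞 K)) (_ : Q.IsPrime), Q ≠ ⊥ →
        (∀ p ∈ S, (p : 𝓞 K) ∉ Q) → Algebra.IsUnramifiedAt (𝓞 F) Q}.Finite := by
  have hP0 : 0 < ∏ p ∈ S, p := Finset.prod_pos fun p hp => (hS p hp).pos
  refine (finite_of_natAbs_discr_le ((D * ∏ p ∈ S, p) ^ (Module.finrank ℚ F * D) *
    (discr F).natAbs ^ D)).subset ?_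
  rintro K ⟨hK, hG, hD, hu⟩
  refine ⟨hK, ?_⟩
  have : FiniteDimensional F K := Module.Finite.right ℚ F K
  have hpos : 0 < Module.finrank F K := Module.finrank_pos
  refine (discr_le_of_diff_dvd _ (Nat.mul_ne_zero hpos.ne' hP0.ne') (hdiff K S hS hu)).trans ?_
  have hd : 1 ≤ (discr F).natAbs := Int.natAbs_pos.2 (discr_ne_zero F)
  refine Nat.mul_le_mul ?_ (Nat.pow_le_pow_right hd hD)
  refine (Nat.pow_le_pow_left (Nat.mul_le_mul_right _ hD) _).trans
    (Nat.pow_le_pow_right ?_ ?_)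
  · exact Nat.mul_pos (hpos.trans_le hD) hP0
  · rw [← Module.finrank_mul_finrank ℚ F K]
    exact Nat.mul_le_mul_left _ hD

end AbMot
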