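import Pool.Agent.Helper40.AbMot.Ray

/-!
# Finiteness of the set of algebraic Hecke characters with bounded exponents, values of bounded
degree and ramification in `S`
-/

open NumberField Polynomial

namespace AbMot

/-- roots of unity of bounded degree have bounded order -/
lemma exists_exponent (B : ℕ) : ∃ M : ℕ, 0 < M ∧ ∀ ε : ℂ, (∃ k : ℕ, 0 < k ∧ ε ^ k = 1) →
    (minpoly ℚ ε).natDegree ≤ B → ε ^ M = 1 := by
  classical
  have hfin := Polynomial.finite_mahlerMeasure_le B 1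
  set P := {p : ℤ[X] | p.natDegree ≤ B ∧ (p.map (Int.castRingHom ℂ)).mahlerMeasure ≤ ((1 : NNReal) : ℝ)}
    with hP
  let Z : Set ℂ := ⋃ p ∈ P, {z | z ∈ (p.map (Int.castRingHom ℂ)).roots ∧ ∃ k : ℕ, 0 < k ∧ z ^ k = 1}
  have hZ : Z.Finite := by
    refine hfin.biUnion fun p _ => ?_
    refine Set.Finite.subset (Multiset.finite_toSet (p.map (Int.castRingHom ℂ)).roots) ?_
    intro z hz
    exact hz.1
  have hexp : ∀ s : Finset ℂ, (∀ z ∈ s, ∃ k : ℕ, 0 < k ∧ z ^ k = 1) →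
      ∃ M : ℕ, 0 < M ∧ ∀ z ∈ s, z ^ M = 1 := by
    intro s
    induction s using Finset.induction_on with
    | empty => intro _; exact ⟨1, one_pos, by simp⟩
    | insert a s _ ih =>
      intro h
      obtain ⟨M, hM, hM'⟩ := ih fun z hz => h z (Finset.mem_insert_of_mem hz)
      obtain ⟨k, hk, hk'⟩ := h a (Finset.mem_insert_self a s)
      refine ⟨k * M, Nat.mul_pos hk hM, fun z hz => ?_⟩
      rw [Finset.mem_insert] at hz
      rcases hz with rfl | hz
      · rw [pow_mul, hk', one_pow]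
      · rw [mul_comm, pow_mul, hM' z hz, one_pow]
  obtain ⟨M, hM, hM'⟩ := hexp hZ.toFinset (by
    intro z hz
    rw [Set.Finite.mem_toFinset] at hz
    simp only [Z, Set.mem_iUnion] at hz
    obtain ⟨p, _, hz⟩ := hz
    exact hz.2)
  refine ⟨M, hM, fun ε ⟨k, hk, hεk⟩ hdeg => hM' ε ?_⟩
  rw [Set.Finite.mem_toFinset]
  have hint : IsIntegral ℤ ε := by
    refine ⟨X ^ k - 1, monic_X_pow_sub_C (1 : ℤ) hk.ne', ?_⟩
    simp [hεk]
  set p := minpoly ℤ ε with hp
  have hpm : p.Monic := minpoly.monic hint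
  have hpQ : minpoly ℚ ε = p.map (algebraMap ℤ ℚ) := minpoly.isIntegrallyClosed_eq_field_fractions' ℚ hint
  have hpdeg : p.natDegree ≤ B := by
    have : (minpoly ℚ ε).natDegree = p.natDegree := by
      rw [hpQ]; exact hpm.natDegree_map _
    omega
  have hdvd : p ∣ X ^ k - 1 := by
    apply minpoly.isIntegrallyClosed_dvd hint
    simp [hεk]
  have hroot : ∀ z ∈ (p.map (Int.castRingHom ℂ)).roots, z ^ k = 1 := by
    intro z hz
    have h1 : (p.map (Int.castRingHom ℂ)).eval z = 0 := (mem_roots'.1 hz).2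
    obtain ⟨q, hq⟩ := hdvd
    have h2 : ((X ^ k - 1 : ℤ[X]).map (Int.castRingHom ℂ)).eval z = 0 := by
      rw [hq, Polynomial.map_mul, eval_mul, h1, zero_mul]
    simpa [sub_eq_zero] using h2
  have hmahler : (p.map (Int.castRingHom ℂ)).mahlerMeasure ≤ ((1 : NNReal) : ℝ) := by
    rw [mahlerMeasure_eq_leadingCoeff_mul_prod_roots, (hpm.map _).leadingCoeff, norm_one, one_mul]
    have : (p.map (Int.castRingHom ℂ)).roots.map (fun a => max 1 ‖a‖) =
        (p.map (Int.castRingHom ℂ)).roots.map (fun _ => (1 : ℝ)) := by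
      apply Multiset.map_congr rfl
      intro z hz
      have h1 := hroot z hz
      have h2 : ‖z‖ = 1 := by
        have h3 : ‖z‖ ^ k = 1 := by rw [← norm_pow, h1, norm_one]
        exact (pow_eq_one_iff_of_nonneg (norm_nonneg z) hk.ne').1 h3
      rw [h2, max_self]
    rw [this]
    simp
  simp only [Z, Set.mem_iUnion]
  refine ⟨p, ⟨hpdeg, hmahler⟩, ?_, k, hk, hεk⟩
  rw [mem_roots (hpm.map _).ne_zero, IsRoot.def, eval_map]
  have := minpoly.aeval ℤ ε
  rwa [aeval_def] at this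

variable (F : Type) [Field F] [NumberField F]

/-- the values of algebraic characters lie in a fixed number field, hence quotients of numbers of
bounded degree by them have bounded degree -/
lemma exists_degree_bound (n : ℕ) : ∃ B : ℕ, ∀ (x : ℂ) (e : (F →+* ℂ) → ℕ) (α : 𝓞 F), α ≠ 0 →
    (∃ q : ℚ[X], q ≠ 0 ∧ q.natDegree ≤ n ∧ aeval x q = 0) →
    (minpoly ℚ (x / nrm e α)).natDegree ≤ B := by
  classical
  let E := IntermediateField.normalClosure ℚ F ℂ
  refine ⟨Module.finrank ℚ E * n, ?_⟩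
  rintro x e α hα ⟨q, hq0, hqn, hq⟩
  have hy : nrm e α ∈ E := by
    refine prod_mem fun σ _ => pow_mem ?_ _
    have h1 := AlgHom.fieldRange_le_normalClosure (F := ℚ) (K := F) (L := ℂ) σ.toRatAlgHom
    exact h1 ⟨(α : F), rfl⟩
  have hxalg : IsAlgebraic ℚ x := ⟨q, hq0, hq⟩
  have hxint : IsIntegral E x := hxalg.isIntegral.tower_top
  let K1 : IntermediateField E ℂ := IntermediateField.adjoin E {x}
  have hfd1 : FiniteDimensional E K1 := IntermediateField.adjoin.finiteDimensional hxint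
  have hfin1 : Module.finrank E K1 ≤ n := by
    rw [IntermediateField.adjoin.finrank hxint]
    have h1 : (q.map (algebraMap ℚ E)) ≠ 0 := by
      rwa [Ne, Polynomial.map_eq_zero]
    have h2 : aeval x (q.map (algebraMap ℚ E)) = 0 := by
      rw [aeval_map_algebraMap]; exact hq
    have h3 := natDegree_le_natDegree (minpoly.degree_le_of_ne_zero E x h1 h2)
    rw [natDegree_map] at h3
    exact h3.trans hqn
  have hfd2 : FiniteDimensional ℚ K1 := FiniteDimensional.trans ℚ E K1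
  have hfin2 : Module.finrank ℚ K1 = Module.finrank ℚ E * Module.finrank E K1 :=
    (Module.finrank_mul_finrank ℚ E K1).symm
  have hε : x / nrm e α ∈ K1 := by
    refine div_mem (IntermediateField.mem_adjoin_simple_self E x) ?_
    exact IntermediateField.algebraMap_mem K1 (⟨nrm e α, hy⟩ : E)
  let ε' : K1 := ⟨x / nrm e α, hε⟩
  have h4 : minpoly ℚ (x / nrm e α) = minpoly ℚ ε' :=
    minpoly.algebraMap_eq (B := K1) (B' := ℂ) (algebraMap K1 ℂ).injective ε'
  rw [h4]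
  calc (minpoly ℚ ε').natDegree ≤ Module.finrank ℚ K1 := minpoly.natDegree_le ε'
    _ = Module.finrank ℚ E * Module.finrank E K1 := hfin2
    _ ≤ Module.finrank ℚ E * n := Nat.mul_le_mul_left _ hfin1

omit [NumberField F] in
/-- Hensel lifting of `M`-th roots -/
lemma hensel {R : Type*} [CommRing R] (M s : ℕ) (x : R)
    (hx : ((M * (s * M) ^ 2 : ℕ) : R) ∣ x - 1) (K : ℕ) :
    ∃ y : R, ((s * M : ℕ) : R) ∣ y - 1 ∧ ((M * (s * M) ^ (K + 2) : ℕ) : R) ∣ y ^ M - x := by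
  induction K with
  | zero =>
    refine ⟨1, by simp, ?_⟩
    rw [one_pow, ← neg_sub]
    exact (dvd_neg).2 hx
  | succ K ih =>
    obtain ⟨y, ⟨a, ha⟩, ⟨c, hc⟩⟩ := ih
    obtain ⟨g, hg⟩ := Polynomial.powAddExpansion y (-(((s * M : ℕ) : R) ^ (K + 2) * c)) M
    refine ⟨y + -(((s * M : ℕ) : R) ^ (K + 2) * c), ?_, ?_⟩
    · refine ⟨a - ((s * M : ℕ) : R) ^ (K + 1) * c, ?_⟩
      linear_combination ha
    · obtain ⟨b, hb⟩ : ((s * M : ℕ) : R) ∣ 1 - y ^ (M - 1) := by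
        have h1 : y - 1 ∣ y ^ (M - 1) - 1 := by
          simpa using sub_dvd_pow_sub_pow y 1 (M - 1)
        have h2 : ((s * M : ℕ) : R) ∣ y ^ (M - 1) - 1 := dvd_trans ⟨a, ha⟩ h1
        rw [← neg_sub]
        exact (dvd_neg).2 h2
      rw [hg]
      refine ⟨c * b + g * c ^ 2 * ((s * M : ℕ) : R) ^ K * s, ?_⟩
      push_cast at hc hb ⊢
      linear_combination hc + (M : R) * ((s : R) * M) ^ (K + 2) * c * hb

omit [NumberField F] in
lemma Supp.dvd_pow {S : Finset ℕ} {m : ℕ} (h : Supp S m) : ∃ K : ℕ, m ∣ (∏ p ∈ S, p) ^ K := by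
  obtain ⟨h0, h1⟩ := h
  induction m using Nat.recOnMul with
  | zero => exact absurd rfl h0
  | one => exact ⟨0, one_dvd _⟩
  | prime p hp =>
    refine ⟨1, ?_⟩
    rw [pow_one]
    exact Finset.dvd_prod_of_mem (fun p => p) (h1 p hp dvd_rfl)
  | mul a b iha ihb =>
    obtain ⟨K, hK⟩ := iha (fun h => h0 (by rw [h, zero_mul]))
      (fun p hp hpa => h1 p hp (dvd_mul_of_dvd_left hpa b))
    obtain ⟨K', hK'⟩ := ihb (fun h => h0 (by rw [h, mul_zero]))
      (fun p hp hpb => h1 p hp (dvd_mul_of_dvd_right hpb a))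
    exact ⟨K + K', by rw [pow_add]; exact mul_dvd_mul hK hK'⟩

variable {F}

/-- the value of a character at a principal ideal -/
noncomputable def cv {S : Finset ℕ} (χ : idealsAway F S →* ℂ) (α : 𝓞 F) : ℂ :=
  open Classical in if h : Ideal.span {α} ∈ idealsAway F S then χ ⟨Ideal.span {α}, h⟩ else 0

lemma cv_of_mem {S : Finset ℕ} (χ : idealsAway F S →* ℂ) {α : 𝓞 F}
    (h : Ideal.span {α} ∈ idealsAway F S) : cv χ α = χ ⟨Ideal.span {α}, h⟩ := by
  rw [cv, dif_pos h]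

lemma mul_mem_span {S : Finset ℕ} {α β : 𝓞 F} (ha : Ideal.span {α} ∈ idealsAway F S)
    (hb : Ideal.span {β} ∈ idealsAway F S) : Ideal.span {α * β} ∈ idealsAway F S := by
  rw [← Ideal.span_singleton_mul_span_singleton]; exact mul_mem ha hb

lemma pow_mem_span {S : Finset ℕ} {α : 𝓞 F} (ha : Ideal.span {α} ∈ idealsAway F S) (k : ℕ) :
    Ideal.span {α ^ k} ∈ idealsAway F S := by
  rw [← Ideal.span_singleton_pow]; exact pow_mem ha k

lemma cv_mul {S : Finset ℕ} (χ : idealsAway F S →* ℂ) {α β : 𝓞 F}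
    (ha : Ideal.span {α} ∈ idealsAway F S) (hb : Ideal.span {β} ∈ idealsAway F S) :
    cv χ (α * β) = cv χ α * cv χ β := by
  rw [cv_of_mem χ ha, cv_of_mem χ hb, cv_of_mem χ (mul_mem_span ha hb), ← map_mul]
  congr 1
  apply Subtype.ext
  exact (Ideal.span_singleton_mul_span_singleton α β).symm

lemma cv_one {S : Finset ℕ} (χ : idealsAway F S →* ℂ) : cv χ (1 : 𝓞 F) = 1 := by
  have h : Ideal.span {(1 : 𝓞 F)} ∈ idealsAway F S := by
    rw [Ideal.span_singleton_one, ← Ideal.one_eq_top]; exact one_mem _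
  rw [cv_of_mem χ h, ← map_one χ]
  congr 1
  apply Subtype.ext
  change Ideal.span {(1 : 𝓞 F)} = 1
  rw [Ideal.span_singleton_one, Ideal.one_eq_top]

lemma cv_pow {S : Finset ℕ} (χ : idealsAway F S →* ℂ) {α : 𝓞 F}
    (ha : Ideal.span {α} ∈ idealsAway F S) (k : ℕ) : cv χ (α ^ k) = cv χ α ^ k := by
  induction k with
  | zero => rw [pow_zero, pow_zero, cv_one]
  | succ k ih => rw [pow_succ, cv_mul χ (pow_mem_span ha k) ha, ih, pow_succ]

lemma HasType.cv {S : Finset ℕ} {m : ℕ} {e : (F →+* ℂ) → ℕ} {χ : idealsAway F S →* ℂ}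
    (h : HasType m e χ) {α : 𝓞 F} (ha : Ideal.span {α} ∈ idealsAway F S)
    (h1 : (m : 𝓞 F) ∣ α - 1) (h2 : TotPos α) : AbMot.cv χ α = nrm e α := by
  rw [cv_of_mem χ ha]; exact h α ha h1 h2

lemma ne_zero_of_mem {S : Finset ℕ} {α : 𝓞 F} (ha : Ideal.span {α} ∈ idealsAway F S) : α ≠ 0 := by
  rintro rfl
  apply ha.1
  simp

/-- the conductor can be chosen uniformly -/
lemma exists_uniform_modulus (n : ℕ) : ∃ M : ℕ, 0 < M ∧ ∀ (S : Finset ℕ), (∀ p ∈ S, p.Prime) →
    (∀ p, p.Prime → p ∣ M → p ∈ S) → ∀ (χ : idealsAway F S →* ℂ)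
    (_ : ∀ I, ∃ q : ℚ[X], q ≠ 0 ∧ q.natDegree ≤ n ∧ aeval (χ I) q = 0)
    (m : ℕ) (_ : Supp S m) (e : (F →+* ℂ) → ℕ), HasType m e χ →
      HasType (M * ((∏ p ∈ S, p) * M) ^ 2) e χ := by
  classical
  obtain ⟨B, hB⟩ := exists_degree_bound F n
  obtain ⟨M, hM, hM'⟩ := exists_exponent B
  refine ⟨M, hM, fun S hS hMS χ hχ m hm e hT => ?_⟩
  set s : ℕ := ∏ p ∈ S, p with hs
  have hs0 : s ≠ 0 := Finset.prod_ne_zero_iff.2 fun p hp => (hS p hp).ne_zero
  obtain ⟨k, hk, hray⟩ := exists_pow_ray (F := F) m hm.1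
  -- the quotient by the algebraic character has order dividing `M`
  have hord : ∀ α : 𝓞 F, Ideal.span {α} ∈ idealsAway F S → (cv χ α / nrm e α) ^ M = 1 := by
    intro α hα
    have hα0 := ne_zero_of_mem hα
    have hn := nrm_ne_zero e hα0
    apply hM'
    · refine ⟨k, hk, ?_⟩
      obtain ⟨h1, h2⟩ := hray α hα0 (hm.coprime hα)
      have h3 := hT.cv (pow_mem_span hα k) h1 h2
      rw [cv_pow χ hα, nrm_pow] at h3
      rw [div_pow, h3, div_self (pow_ne_zero _ hn)]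
    · apply hB _ _ _ hα0
      rw [cv_of_mem χ hα]
      exact hχ _
  intro x hx hx1 hx2
  rw [← cv_of_mem χ hx]
  have hx0 := ne_zero_of_mem hx
  obtain ⟨K, hK⟩ := hm.dvd_pow
  rw [← hs] at hK
  obtain ⟨y0, hy01, hy02⟩ := hensel M s x hx1 K
  obtain ⟨c, hcpos, hc0⟩ := exists_add_mul_totPos y0 (m * s) (mul_ne_zero hm.1 hs0)
  set y : 𝓞 F := y0 + (c : 𝓞 F) * ((m * s : ℕ) : 𝓞 F) with hy
  have hys : (s : 𝓞 F) ∣ y - 1 := by
    have h1 : (s : 𝓞 F) ∣ y0 - 1 := dvd_trans ⟨(M : 𝓞 F), by push_cast; ring⟩ hy01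
    have h2 : y - 1 = (y0 - 1) + (s : 𝓞 F) * ((c : 𝓞 F) * (m : 𝓞 F)) := by
      rw [hy]; push_cast; ring
    rw [h2]; exact dvd_add h1 (dvd_mul_right _ _)
  have hymem : Ideal.span {y} ∈ idealsAway F S := span_mem_idealsAway hc0 hys
  have hyM : (m : 𝓞 F) ∣ y ^ M - x := by
    have h1 : (m : 𝓞 F) ∣ y0 ^ M - x := by
      refine dvd_trans (Nat.cast_dvd_cast ?_) hy02
      refine dvd_trans hK ?_
      refine Dvd.dvd.mul_left ?_ M
      rw [mul_pow]
      exact Dvd.dvd.mul_right (pow_dvd_pow s (by omega)) _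
    have h2 : (m : 𝓞 F) ∣ y ^ M - y0 ^ M := by
      refine dvd_trans ?_ (sub_dvd_pow_sub_pow y y0 M)
      exact ⟨(c : 𝓞 F) * (s : 𝓞 F), by rw [hy]; push_cast; ring⟩
    have h3 : y ^ M - x = (y ^ M - y0 ^ M) + (y0 ^ M - x) := by ring
    rw [h3]; exact dvd_add h2 h1
  -- transport along `z ^ (k - 1)`
  obtain ⟨k', rfl⟩ : ∃ k', k = k' + 1 := ⟨k - 1, by omega⟩
  set z : 𝓞 F := y ^ M with hz
  have hzmem : Ideal.span {z} ∈ idealsAway F S := pow_mem_span hymem M
  have hz0 := ne_zero_of_mem hzmem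
  obtain ⟨hz1, hz2⟩ := hray z hz0 (hm.coprime hzmem)
  have hzpos : TotPos z := hcpos.pow M
  have e1 : cv χ (x * z ^ k') = nrm e (x * z ^ k') := by
    apply hT.cv (mul_mem_span hx (pow_mem_span hzmem k'))
    · have h4 : x * z ^ k' - 1 = (z ^ (k' + 1) - 1) - (z - x) * z ^ k' := by ring
      rw [h4]
      exact dvd_sub hz1 (Dvd.dvd.mul_right hyM _)
    · exact hx2.mul (hzpos.pow k')
  have e2 : cv χ (z ^ (k' + 1)) = nrm e (z ^ (k' + 1)) :=
    hT.cv (pow_mem_span hzmem (k' + 1)) hz1 hz2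
  have e3 : cv χ z = nrm e z := by
    have h5 := hord y hymem
    have hny := nrm_ne_zero e hc0
    rw [div_pow, div_eq_one_iff_eq (pow_ne_zero _ hny)] at h5
    rw [hz, cv_pow χ hymem, nrm_pow, h5]
  rw [cv_mul χ hx (pow_mem_span hzmem k'), cv_pow χ hzmem, nrm_mul, nrm_pow, e3] at e1
  exact mul_right_cancel₀ (pow_ne_zero _ (nrm_ne_zero e hz0)) e1

end AbMot
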