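import Pool.Agent.Helper40.AbMot.CFin
import Pool.Agent.Helper40.AbMot.Herm
import Pool.Agent.Helper81.AbMot.WC
import Pool.Agent.Helper81.AbMot.Inrt
import Pool.Agent.Helper81.AbMot.Diff

/-!
# Finiteness of potentially abelian pure `ℤ`-motives: the final theorem
-/

open NumberField

namespace AbMot

/-- Every compatible set of potentially abelian pure `ℤ`-motives over `F` of rank `n` and weight `w`
with good reduction outside `S` consists of finitely many isomorphism classes. -/
theorem finiteness_all {F : Type} [Field F] [NumberField F] {S : Finset ℕ} {n w : ℕ}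
    (hS : ∀ p ∈ S, p.Prime) (𝒯 : Set (AMotive F S n w))
    (h𝒯 : ∀ M ∈ 𝒯, ∀ M' ∈ 𝒯, M.Compatible M') :
    ∃ T : Finset (AMotive F S n w), (T : Set (AMotive F S n w)) ⊆ 𝒯 ∧
      ∀ M ∈ 𝒯, ∃ M' ∈ T, M.Iso M' := by
  refine finiteness_all_of ?_ ?_ ?_ hS 𝒯 h𝒯
  · intro K hK S hS Y hY hYo h
    have : IsGalois K (AlgebraicClosure F) := IsGalois.tower_top_intermediateField K
    exact weak_chebotarev S hS Y hYo h
  · intro K hK hG v hv hv0 h Q hQ hQv
    exact unramified_of_inert K v hv hv0 h Q hQv
  · intro D S hS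
    exact hermite_of (fun K _ _ S hS h => diff_dvd S hS h) D S hS

end AbMot
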