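import Pool.Agent.Helper40.AbMot.InertDef

/-!
# Potentially abelian pure `ℤ`-motives over a number field: definitions

`Ω` is an algebraic closure of the number field `F`, embedded in `ℂ`. A pure `ℤ`-motive over `F` is
given by its Betti lattice `ℤ^n` and the representations `ρ l` of the absolute Galois group of `F` on
its `l`-adic completions. It is potentially abelian (of CM type over `Ω`) if some open subgroup of
the Galois group acts through a commutative group. By the theory of CM motives (Serre, Deligne,
Langlands), over every finite extension `K` over which the motive becomes abelian the Frobenius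
elements at the primes `P` of `K` act by rational matrices `ψ P` independent of `l` and `ψ` is a
sum of algebraic Hecke characters over `ℂ`.
-/

open NumberField

namespace AbMot

/-- the motive becomes abelian over `K`: the Galois group of `K` acts through a commutative
group (on one of the `l`-adic realizations) -/
def AbelianOver {F : Type} [Field F] [NumberField F] {n : ℕ}
    (ρ : ∀ (l : ℕ) [Fact l.Prime], (AlgebraicClosure F ≃ₐ[F] AlgebraicClosure F) →*
      Matrix.GeneralLinearGroup (Fin n) ℤ_[l])
    (K : IntermediateField F (AlgebraicClosure F)) : Prop :=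
  ∃ (l : ℕ) (_ : Fact l.Prime), ∀ g ∈ K.fixingSubgroup, ∀ h ∈ K.fixingSubgroup,
    ρ l g * ρ l h = ρ l h * ρ l g

/-- Potentially abelian pure `ℤ`-motives of rank `n` and weight `w` over `F` with good reduction
outside `S`; the Betti lattice is `ℤ^n`. -/
structure AMotive (F : Type) [Field F] [NumberField F] (S : Finset ℕ) (n w : ℕ) where
  /-- the Galois action on the `l`-adic realization -/
  ρ : ∀ (l : ℕ) [Fact l.Prime], (AlgebraicClosure F ≃ₐ[F] AlgebraicClosure F) →*
    Matrix.GeneralLinearGroup (Fin n) ℤ_[l]
  continuous : ∀ (l : ℕ) [Fact l.Prime], Continuous (ρ l)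
  /-- good reduction outside `S`: the inertia groups away from `S` and `l` act trivially -/
  unramified : ∀ (l : ℕ) [Fact l.Prime] (v : Ideal (𝓞 F)), v.IsPrime → v ≠ ⊥ →
    (∀ p ∈ S, (p : 𝓞 F) ∉ v) → (l : 𝓞 F) ∉ v → ∀ σ, IsInert v σ → ρ l σ = 1
  /-- the motive becomes abelian over some finite extension -/
  potentially_abelian : ∃ (K : IntermediateField F (AlgebraicClosure F)),
    FiniteDimensional F K ∧ AbelianOver ρ K
  /-- over every finite extension over which the motive is abelian it is given by algebraic Hecke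
  characters: the inverse of a Frobenius element at `P` acts by `ψ P` -/
  frobenius : ∀ (K : IntermediateField F (AlgebraicClosure F)) [NumberField K],
    AbelianOver ρ K → ∃ N : ZMotive K S n w, ∀ (l : ℕ) [Fact l.Prime] (P : idealsAway K S),
      (P : Ideal (𝓞 K)).IsPrime → (l : 𝓞 K) ∉ (P : Ideal (𝓞 K)) →
      ∀ σ ∈ K.fixingSubgroup, IsFrob K (P : Ideal (𝓞 K)) σ →
      (ρ l σ : Matrix (Fin n) (Fin n) ℤ_[l]).map (algebraMap ℤ_[l] ℚ_[l]) *
        (N.ψ P : Matrix (Fin n) (Fin n) ℚ).map (algebraMap ℚ ℚ_[l]) = 1

/-- `u` is a homomorphism over `K` from `M` to `M'`: a rational map of the Betti realizations which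
commutes with the action of the Galois group of `K` on all `l`-adic realizations. -/
def AMotive.IsHom {F : Type} [Field F] [NumberField F] {S : Finset ℕ} {n w : ℕ}
    (M M' : AMotive F S n w) (K : IntermediateField F (AlgebraicClosure F))
    (u : Matrix (Fin n) (Fin n) ℚ) : Prop :=
  ∀ (l : ℕ) [Fact l.Prime], ∀ h ∈ K.fixingSubgroup,
    (M'.ρ l h : Matrix (Fin n) (Fin n) ℤ_[l]).map (algebraMap ℤ_[l] ℚ_[l]) *
        u.map (algebraMap ℚ ℚ_[l]) =
      u.map (algebraMap ℚ ℚ_[l]) *
        (M.ρ l h : Matrix (Fin n) (Fin n) ℤ_[l]).map (algebraMap ℤ_[l] ℚ_[l])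

/-- The conjugate by `g` in the absolute Galois group of `F` of a homomorphism over a finite
Galois extension `K` of `F` is again a homomorphism over `K`. (This holds for motives; the
point is that the conjugate is again rational and independent of `l`.) -/
def AMotive.Compatible {F : Type} [Field F] [NumberField F] {S : Finset ℕ} {n w : ℕ}
    (M M' : AMotive F S n w) : Prop :=
  ∀ (K : IntermediateField F (AlgebraicClosure F)) [NumberField K] [IsGalois F K]
    (g : AlgebraicClosure F ≃ₐ[F] AlgebraicClosure F) (u : Matrix (Fin n) (Fin n) ℚ),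
    M.IsHom M' K u → ∃ v : Matrix (Fin n) (Fin n) ℚ, M.IsHom M' K v ∧
      ∀ (l : ℕ) [Fact l.Prime],
        (M'.ρ l g : Matrix (Fin n) (Fin n) ℤ_[l]).map (algebraMap ℤ_[l] ℚ_[l]) *
            u.map (algebraMap ℚ ℚ_[l]) =
          v.map (algebraMap ℚ ℚ_[l]) *
            (M.ρ l g : Matrix (Fin n) (Fin n) ℤ_[l]).map (algebraMap ℤ_[l] ℚ_[l])

/-- Isomorphisms: elements of `GL_n(ℤ)` which commute with the action of the absolute Galois group
of `F` on all `l`-adic realizations. -/
def AMotive.Iso {F : Type} [Field F] [NumberField F] {S : Finset ℕ} {n w : ℕ}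
    (M M' : AMotive F S n w) : Prop :=
  ∃ u : Matrix.GeneralLinearGroup (Fin n) ℤ,
    ∀ (l : ℕ) [Fact l.Prime] (g : AlgebraicClosure F ≃ₐ[F] AlgebraicClosure F),
      (u : Matrix (Fin n) (Fin n) ℤ).map (algebraMap ℤ ℤ_[l]) *
          (M.ρ l g : Matrix (Fin n) (Fin n) ℤ_[l]) =
        (M'.ρ l g : Matrix (Fin n) (Fin n) ℤ_[l]) *
          (u : Matrix (Fin n) (Fin n) ℤ).map (algebraMap ℤ ℤ_[l])

end AbMot
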