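import Pool.Agent.Helper40.AbMot.CMain

/-!
# Finiteness of potentially abelian pure `ℤ`-motives
-/

open NumberField

namespace AbMot

variable {F : Type} [Field F] [NumberField F] {S : Finset ℕ} {n w : ℕ}

/-- the fields cut out by the reduction modulo `3` form a finite set -/
lemma AMotive.fld_mem
    (hI : ∀ (K : IntermediateField F (AlgebraicClosure F)) [NumberField K] [IsGalois F K]
      (v : Ideal (𝓞 F)) (_ : v.IsPrime) (_ : v ≠ ⊥)
      (_ : ∀ σ : AlgebraicClosure F ≃ₐ[F] AlgebraicClosure F, IsInert v σ → σ ∈ K.fixingSubgroup)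
      (Q : Ideal (𝓞 K)) [Q.IsPrime] (_ : Q.comap (algebraMap (𝓞 F) (𝓞 K)) = v),
      Algebra.IsUnramifiedAt (𝓞 F) Q)
    (M : AMotive F S n w) :
    M.fld ∈ {K : IntermediateField F (AlgebraicClosure F) | ∃ (_ : NumberField K), IsGalois F K ∧
      Module.finrank F K ≤ Nat.card (Matrix.GeneralLinearGroup (Fin n) (ZMod 3)) ∧
      ∀ (Q : Ideal (𝓞 K)) (_ : Q.IsPrime), Q ≠ ⊥ →
        (∀ p ∈ insert 3 S, (p : 𝓞 K) ∉ Q) → Algebra.IsUnramifiedAt (𝓞 F) Q} := by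
  have h1 : NumberField M.fld := M.numberField_fld
  have h2 : IsGalois F M.fld := M.isGalois_fld
  refine ⟨h1, h2, M.finrank_fld, fun Q hQ hQ0 hQS => ?_⟩
  have hcast : ∀ p : ℕ, (p : 𝓞 F) ∈ Q.comap (algebraMap (𝓞 F) (𝓞 M.fld)) ↔
      (p : 𝓞 M.fld) ∈ Q := by
    intro p
    rw [Ideal.mem_comap, map_natCast]
  refine hI M.fld (Q.comap (algebraMap (𝓞 F) (𝓞 M.fld))) inferInstance ?_ (fun σ hσ => ?_) Q rfl
  · intro h3
    exact hQ0 (Ideal.eq_bot_of_comap_eq_bot h3)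
  · rw [M.fixingSubgroup_fld, MonoidHom.mem_ker]
    have h4 := M.unramified 3 (Q.comap (algebraMap (𝓞 F) (𝓞 M.fld))) inferInstance (by
      intro h3
      exact hQ0 (Ideal.eq_bot_of_comap_eq_bot h3)) (fun p hp h5 =>
        hQS p (Finset.mem_insert_of_mem hp) ((hcast p).1 h5)) (fun h5 =>
        hQS 3 (Finset.mem_insert_self 3 S) ((hcast 3).1 h5)) σ hσ
    rw [AMotive.red, MonoidHom.comp_apply, h4, map_one]

theorem finiteness_all_of
    (hWC : ∀ (K : IntermediateField F (AlgebraicClosure F)) [NumberField K],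
      WeakChebotarev K (AlgebraicClosure F))
    (hI : ∀ (K : IntermediateField F (AlgebraicClosure F)) [NumberField K] [IsGalois F K]
      (v : Ideal (𝓞 F)) (_ : v.IsPrime) (_ : v ≠ ⊥)
      (_ : ∀ σ : AlgebraicClosure F ≃ₐ[F] AlgebraicClosure F, IsInert v σ → σ ∈ K.fixingSubgroup)
      (Q : Ideal (𝓞 K)) [Q.IsPrime] (_ : Q.comap (algebraMap (𝓞 F) (𝓞 K)) = v),
      Algebra.IsUnramifiedAt (𝓞 F) Q)
    (hH : ∀ (D : ℕ) (S : Finset ℕ) (_ : ∀ p ∈ S, p.Prime),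
      {K : IntermediateField F (AlgebraicClosure F) | ∃ (_ : NumberField K), IsGalois F K ∧
        Module.finrank F K ≤ D ∧ ∀ (Q : Ideal (𝓞 K)) (_ : Q.IsPrime), Q ≠ ⊥ →
        (∀ p ∈ S, (p : 𝓞 K) ∉ Q) → Algebra.IsUnramifiedAt (𝓞 F) Q}.Finite)
    (hS : ∀ p ∈ S, p.Prime) (𝒯 : Set (AMotive F S n w))
    (h𝒯 : ∀ M ∈ 𝒯, ∀ M' ∈ 𝒯, M.Compatible M') :
    ∃ T : Finset (AMotive F S n w), (T : Set (AMotive F S n w)) ⊆ 𝒯 ∧
      ∀ M ∈ 𝒯, ∃ M' ∈ T, M.Iso M' := by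
  classical
  have hfin := hH (Nat.card (Matrix.GeneralLinearGroup (Fin n) (ZMod 3))) (insert 3 S) (by
    intro p hp
    rcases Finset.mem_insert.1 hp with rfl | hp
    · exact Nat.prime_three
    · exact hS p hp)
  have key : ∀ K ∈ hfin.toFinset, ∃ T : Finset (AMotive F S n w),
      (T : Set (AMotive F S n w)) ⊆ 𝒯 ∧
      ∀ M ∈ 𝒯, AbelianOver M.ρ K → ∃ M' ∈ T, M.Iso M' := by
    intro K hK
    rw [Set.Finite.mem_toFinset] at hK
    obtain ⟨h1, h2, -⟩ := hK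
    exact finiteness_fixed (hWC K) hS 𝒯 h𝒯
  choose! T hT hT' using key
  refine ⟨hfin.toFinset.biUnion T, ?_, fun M hM => ?_⟩
  · intro M hM
    rw [Finset.mem_coe, Finset.mem_biUnion] at hM
    obtain ⟨K, hK, hMK⟩ := hM
    exact hT K hK hMK
  · have h1 : M.fld ∈ hfin.toFinset := by
      rw [Set.Finite.mem_toFinset]
      exact M.fld_mem hI
    obtain ⟨M', hM', h2⟩ := hT' M.fld h1 M hM (M.abelianOver_fld hWC hS)
    exact ⟨M', Finset.mem_biUnion.2 ⟨M.fld, h1, hM'⟩, h2⟩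

end AbMot
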