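import Pool.Agent.Helper40.AbMot.PMain
import Pool.Agent.Helper40.AbMot.CDefs
import Pool.Agent.Helper81.AbMot.FE

/-!
# Homomorphisms over `K` and commutativity
-/

open NumberField Polynomial

namespace AbMot

variable {F : Type} [Field F] [NumberField F] {K : IntermediateField F (AlgebraicClosure F)}
  [NumberField K] {S : Finset ℕ} {n w : ℕ}

lemma ofZ_rho_mul {G : Type} [Group G] (ρ : Fam G n) (l : ℕ) [Fact l.Prime] (g g' : G) :
    rl l ρ (g * g') = rl l ρ g * rl l ρ g' := by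
  rw [← ofZ_mul, ← Units.val_mul, ← map_mul]

lemma ofZ_rho_one {G : Type} [Group G] (ρ : Fam G n) (l : ℕ) [Fact l.Prime] :
    rl l ρ 1 = 1 := by
  rw [rl, map_one, Units.val_one, ofZ_one]

lemma continuous_rl {G : Type} [Group G] [TopologicalSpace G] (ρ : Fam G n) (l : ℕ)
    [Fact l.Prime] (h : Continuous (ρ l)) : Continuous fun g => rl l ρ g := by
  have h2 : Continuous fun g => (ρ l g : Matrix (Fin n) (Fin n) ℤ_[l]) :=
    Units.continuous_val.comp h
  exact h2.matrix_map continuous_subtype_val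

/-- the subgroup of all `g` with `ρ' g u = u ρ g` -/
noncomputable def eqSub {G : Type} [Group G] (ρ ρ' : Fam G n) (l : ℕ) [Fact l.Prime]
    (u : Matrix (Fin n) (Fin n) ℚ_[l]) : Subgroup G where
  carrier := {g | rl l ρ' g * u = u * rl l ρ g}
  mul_mem' := by
    intro a b ha hb
    simp only [Set.mem_ofPred_eq] at ha hb ⊢
    rw [ofZ_rho_mul, ofZ_rho_mul, Matrix.mul_assoc, hb, ← Matrix.mul_assoc, ha, Matrix.mul_assoc]
  one_mem' := by
    simp only [Set.mem_ofPred_eq]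
    rw [ofZ_rho_one, ofZ_rho_one, Matrix.one_mul, Matrix.mul_one]
  inv_mem' := by
    intro a ha
    simp only [Set.mem_ofPred_eq] at ha ⊢
    have h1 : rl l ρ' a⁻¹ * rl l ρ' a = 1 := by
      rw [← ofZ_rho_mul, inv_mul_cancel, ofZ_rho_one]
    have h2 : rl l ρ a * rl l ρ a⁻¹ = 1 := by
      rw [← ofZ_rho_mul, mul_inv_cancel, ofZ_rho_one]
    calc rl l ρ' a⁻¹ * u
        = rl l ρ' a⁻¹ * (u * rl l ρ a) * rl l ρ a⁻¹ := by
          rw [Matrix.mul_assoc, Matrix.mul_assoc u, h2, Matrix.mul_one]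
      _ = (rl l ρ' a⁻¹ * rl l ρ' a) * u * rl l ρ a⁻¹ := by
          rw [← ha]; simp only [Matrix.mul_assoc]
      _ = _ := by rw [h1, Matrix.one_mul]

lemma isClosed_eqSub {G : Type} [Group G] [TopologicalSpace G] (ρ ρ' : Fam G n) (l : ℕ)
    [Fact l.Prime] (u : Matrix (Fin n) (Fin n) ℚ_[l]) (h : Continuous (ρ l))
    (h' : Continuous (ρ' l)) : IsClosed (eqSub ρ ρ' l u : Set G) :=
  isClosed_eq ((continuous_rl ρ' l h').matrix_mul continuous_const)
    (continuous_const.matrix_mul (continuous_rl ρ l h))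

lemma mem_idealsAway_of_prime {P : Ideal (𝓞 K)} (hP : P.IsPrime) (hP0 : P ≠ ⊥)
    (h : ∀ p ∈ S, (p : 𝓞 K) ∉ P) : P ∈ idealsAway K S := by
  have hmax : P.IsMaximal := hP.isMaximal hP0
  refine ⟨hP0, fun p hp => ?_⟩
  rw [Ideal.isCoprime_iff_sup_eq]
  exact hmax.1.2 (P ⊔ Ideal.span {(p : 𝓞 K)}) (by
    refine lt_of_le_of_ne le_sup_left fun h3 => h p hp ?_
    rw [h3]
    exact Ideal.mem_sup_right (Ideal.mem_span_singleton_self _))

/-- maps intertwining the Frobenius operators intertwine the Galois actions -/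
lemma PMotive.dense' (hWC : WeakChebotarev K (AlgebraicClosure F)) (hS : ∀ p ∈ S, p.Prime)
    (X X' : PMotive F K S n w) (u : Matrix (Fin n) (Fin n) ℚ)
    (hu : ∀ I, u * (X.base.ψ I : Matrix (Fin n) (Fin n) ℚ) =
      (X'.base.ψ I : Matrix (Fin n) (Fin n) ℚ) * u) (l : ℕ) [hl : Fact l.Prime]
    (h : AlgebraicClosure F ≃ₐ[F] AlgebraicClosure F) (hh : h ∈ K.fixingSubgroup) :
    rl l X'.ρ h * toQ l u = toQ l u * rl l X.ρ h := by
  have key := frob_dense_rel K hWC (insert l S) (by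
    intro p hp
    rcases Finset.mem_insert.1 hp with rfl | hp
    · exact hl.out.ne_zero
    · exact (hS p hp).ne_zero) (eqSub X.ρ X'.ρ l (toQ l u))
    (isClosed_eqSub _ _ _ _ (X.continuous l) (X'.continuous l)) (by
    intro P hP hP0 hPS σ hσ hF
    have hPm := mem_idealsAway_of_prime hP hP0
      (fun p hp => hPS p (Finset.mem_insert_of_mem hp))
    have hlP := hPS l (Finset.mem_insert_self l S)
    have e1 : rl l X'.ρ σ * toQ l (X'.base.ψ ⟨P, hPm⟩ : Matrix (Fin n) (Fin n) ℚ) = 1 :=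
      X'.frob l ⟨P, hPm⟩ hP hlP σ hσ hF
    have e2 : toQ l (X.base.ψ ⟨P, hPm⟩ : Matrix (Fin n) (Fin n) ℚ) * rl l X.ρ σ = 1 :=
      mul_eq_one_comm.1 (X.frob l ⟨P, hPm⟩ hP hlP σ hσ hF)
    change rl l X'.ρ σ * toQ l u = toQ l u * rl l X.ρ σ
    calc rl l X'.ρ σ * toQ l u
        = rl l X'.ρ σ * toQ l (u * (X.base.ψ ⟨P, hPm⟩ : Matrix (Fin n) (Fin n) ℚ)) *
            rl l X.ρ σ := by
          rw [toQ_mul, Matrix.mul_assoc, Matrix.mul_assoc (toQ l u), e2, Matrix.mul_one]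
      _ = (rl l X'.ρ σ * toQ l (X'.base.ψ ⟨P, hPm⟩ : Matrix (Fin n) (Fin n) ℚ)) * toQ l u *
            rl l X.ρ σ := by rw [hu, toQ_mul]; simp only [Matrix.mul_assoc]
      _ = _ := by rw [e1, Matrix.one_mul])
  exact key hh

/-- maps intertwining the Galois actions intertwine the Frobenius operators -/
lemma PMotive.frob_of_gal (X X' : PMotive F K S n w) (u : Matrix (Fin n) (Fin n) ℚ)
    (hu : ∀ (l : ℕ) [Fact l.Prime], ∀ h ∈ K.fixingSubgroup,
      rl l X'.ρ h * toQ l u = toQ l u * rl l X.ρ h) :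
    ∀ I, u * (X.base.ψ I : Matrix (Fin n) (Fin n) ℚ) =
      (X'.base.ψ I : Matrix (Fin n) (Fin n) ℚ) * u := by
  have : IsGalois K (AlgebraicClosure F) := IsGalois.tower_top_intermediateField K
  have hprime : ∀ (P : Ideal (𝓞 K)) (hP : P ∈ idealsAway K S), P.IsPrime →
      u * (X.base.ψ ⟨P, hP⟩ : Matrix (Fin n) (Fin n) ℚ) =
        (X'.base.ψ ⟨P, hP⟩ : Matrix (Fin n) (Fin n) ℚ) * u := by
    intro P hP hprime
    obtain ⟨σK, hσK⟩ := wc_exists_frob (Ω := AlgebraicClosure F) P hprime hP.1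
    obtain ⟨l, hl, hlP⟩ : ∃ (l : ℕ) (_ : Fact l.Prime), (l : 𝓞 K) ∉ P := by
      by_cases h2 : ((2 : ℕ) : 𝓞 K) ∈ P
      · refine ⟨3, ⟨Nat.prime_three⟩, fun h3 => hprime.ne_top ?_⟩
        rw [Ideal.eq_top_iff_one]
        have h4 := P.sub_mem h3 h2
        have h5 : ((3 : ℕ) : 𝓞 K) - ((2 : ℕ) : 𝓞 K) = 1 := by push_cast; norm_num
        rwa [h5] at h4
      · exact ⟨2, ⟨Nat.prime_two⟩, h2⟩
    have hF : IsFrob K P ((K.fixingSubgroupEquiv.symm σK : K.fixingSubgroup) :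
        AlgebraicClosure F ≃ₐ[F] AlgebraicClosure F) := by
      obtain ⟨𝔓, hp, h1, h2⟩ := hσK
      exact ⟨𝔓, hp, h1, h2⟩
    obtain ⟨σ, hσ⟩ : ∃ σ, σ = ((K.fixingSubgroupEquiv.symm σK : K.fixingSubgroup) :
        AlgebraicClosure F ≃ₐ[F] AlgebraicClosure F) := ⟨_, rfl⟩
    have hσH : σ ∈ K.fixingSubgroup := by rw [hσ]; exact (K.fixingSubgroupEquiv.symm σK).2
    rw [← hσ] at hF
    have e1 : toQ l (X'.base.ψ ⟨P, hP⟩ : Matrix (Fin n) (Fin n) ℚ) * rl l X'.ρ σ = 1 :=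
      mul_eq_one_comm.1 (X'.frob l ⟨P, hP⟩ hprime hlP σ hσH hF)
    have e2 : rl l X.ρ σ * toQ l (X.base.ψ ⟨P, hP⟩ : Matrix (Fin n) (Fin n) ℚ) = 1 :=
      X.frob l ⟨P, hP⟩ hprime hlP σ hσH hF
    apply toQ_injective l
    rw [toQ_mul, toQ_mul]
    calc toQ l u * toQ l (X.base.ψ ⟨P, hP⟩ : Matrix (Fin n) (Fin n) ℚ)
        = (toQ l (X'.base.ψ ⟨P, hP⟩ : Matrix (Fin n) (Fin n) ℚ) * rl l X'.ρ σ) * toQ l u *
            toQ l (X.base.ψ ⟨P, hP⟩ : Matrix (Fin n) (Fin n) ℚ) := by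
          rw [e1, Matrix.one_mul]
      _ = toQ l (X'.base.ψ ⟨P, hP⟩ : Matrix (Fin n) (Fin n) ℚ) * toQ l u * (rl l X.ρ σ *
            toQ l (X.base.ψ ⟨P, hP⟩ : Matrix (Fin n) (Fin n) ℚ)) := by
          rw [Matrix.mul_assoc _ (rl l X'.ρ σ), hu l σ hσH]; simp only [Matrix.mul_assoc]
      _ = _ := by rw [e2, Matrix.mul_one]
  have hall : ∀ (I : Ideal (𝓞 K)) (hI : I ∈ idealsAway K S),
      u * (X.base.ψ ⟨I, hI⟩ : Matrix (Fin n) (Fin n) ℚ) =
        (X'.base.ψ ⟨I, hI⟩ : Matrix (Fin n) (Fin n) ℚ) * u := by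
    intro I
    induction I using UniqueFactorizationMonoid.induction_on_prime with
    | h₁ => intro h; exact absurd rfl h.1
    | h₂ J hJ =>
      intro h
      have h1 : (⟨J, h⟩ : idealsAway K S) = 1 := Subtype.ext (Ideal.isUnit_iff.1 hJ |>.trans
        Ideal.one_eq_top.symm)
      rw [h1, map_one, map_one, Units.val_one, Matrix.mul_one, Matrix.one_mul]
    | h₃ J P hJ hP ih =>
      intro h
      have hPp : P.IsPrime := Ideal.isPrime_of_prime hP
      have hPm : P ∈ idealsAway K S := by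
        refine ⟨hP.ne_zero, fun p hp => ?_⟩
        exact (h.2 p hp).of_mul_left_left
      have hJm : J ∈ idealsAway K S := ⟨hJ, fun p hp => (h.2 p hp).of_mul_left_right⟩
      have h1 : (⟨P * J, h⟩ : idealsAway K S) = ⟨P, hPm⟩ * ⟨J, hJm⟩ := rfl
      rw [h1, map_mul, map_mul, Units.val_mul, Units.val_mul, ← Matrix.mul_assoc,
        hprime P hPm hPp, Matrix.mul_assoc, ih hJm, Matrix.mul_assoc]
  exact fun I => hall I.1 I.2

/-- the `K`-structure of a motive which is abelian over `K` -/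
noncomputable def AMotive.toP (M : AMotive F S n w) (h : AbelianOver M.ρ K) :
    PMotive F K S n w where
  base := (M.frobenius K h).choose
  ρ := M.ρ
  continuous := M.continuous
  frob := (M.frobenius K h).choose_spec

/-- a motive which is abelian over `K` has commutative Galois image for all `l` -/
lemma AMotive.comm_all (hWC : WeakChebotarev K (AlgebraicClosure F)) (hS : ∀ p ∈ S, p.Prime)
    (M : AMotive F S n w) (h : AbelianOver M.ρ K) (l : ℕ) [Fact l.Prime] :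
    ∀ g ∈ K.fixingSubgroup, ∀ g' ∈ K.fixingSubgroup, M.ρ l g * M.ρ l g' = M.ρ l g' * M.ρ l g := by
  let X := M.toP h
  -- all Galois elements commute with the Frobenius operators
  have h1 : ∀ (g : AlgebraicClosure F ≃ₐ[F] AlgebraicClosure F), g ∈ K.fixingSubgroup →
      ∀ I, rl l X.ρ g * toQ l (X.base.ψ I : Matrix (Fin n) (Fin n) ℚ) =
        toQ l (X.base.ψ I : Matrix (Fin n) (Fin n) ℚ) * rl l X.ρ g := by
    intro g hg I
    refine PMotive.dense' hWC hS X X _ (fun J => ?_) l g hg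
    rw [← Units.val_mul, ← Units.val_mul, ← map_mul, ← map_mul, mul_comm]
  have hl : Fact l.Prime := inferInstance
  intro g hg g' hg'
  have key := frob_dense_rel K hWC (insert l S) (by
    intro p hp
    rcases Finset.mem_insert.1 hp with rfl | hp
    · exact hl.out.ne_zero
    · exact (hS p hp).ne_zero) (eqSub X.ρ X.ρ l (rl l X.ρ g))
    (isClosed_eqSub _ _ _ _ (X.continuous l) (X.continuous l)) (by
    intro P hP hP0 hPS σ hσ hF
    have hPm := mem_idealsAway_of_prime hP hP0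
      (fun p hp => hPS p (Finset.mem_insert_of_mem hp))
    have hlP := hPS l (Finset.mem_insert_self l S)
    have e1 : rl l X.ρ σ * toQ l (X.base.ψ ⟨P, hPm⟩ : Matrix (Fin n) (Fin n) ℚ) = 1 :=
      X.frob l ⟨P, hPm⟩ hP hlP σ hσ hF
    have e2 := mul_eq_one_comm.1 e1
    change rl l X.ρ σ * rl l X.ρ g = rl l X.ρ g * rl l X.ρ σ
    calc rl l X.ρ σ * rl l X.ρ g
        = rl l X.ρ σ * (rl l X.ρ g * toQ l (X.base.ψ ⟨P, hPm⟩ : Matrix (Fin n) (Fin n) ℚ)) *
            rl l X.ρ σ := by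
          rw [Matrix.mul_assoc, Matrix.mul_assoc (rl l X.ρ g), e2, Matrix.mul_one]
      _ = (rl l X.ρ σ * toQ l (X.base.ψ ⟨P, hPm⟩ : Matrix (Fin n) (Fin n) ℚ)) * rl l X.ρ g *
            rl l X.ρ σ := by rw [h1 g hg]; simp only [Matrix.mul_assoc]
      _ = _ := by rw [e1, Matrix.one_mul])
  have h2 : rl l X.ρ g' * rl l X.ρ g = rl l X.ρ g * rl l X.ρ g' := key hg'
  rw [← ofZ_rho_mul, ← ofZ_rho_mul] at h2
  have h3 := ofZ_injective l h2
  have h4 := Units.ext h3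
  rw [map_mul, map_mul] at h4
  exact h4.symm

end AbMot
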