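import Mathlib

/-!
# Minkowski's lemma and commutativity of groups of `l`-adic matrices congruent to `1`
-/

namespace AbMot

/-- divisibility by `l ^ k` -/
def Dv {M : Type} [AddCommGroup M] (l k : ℕ) : AddSubgroup M where
  carrier := {y | ∃ z, y = (l ^ k) • z}
  add_mem' := by
    rintro _ _ ⟨a, rfl⟩ ⟨b, rfl⟩
    exact ⟨a + b, by rw [smul_add]⟩
  zero_mem' := ⟨0, by rw [smul_zero]⟩
  neg_mem' := by
    rintro _ ⟨a, rfl⟩
    exact ⟨-a, by rw [smul_neg]⟩

section
variable {M : Type} [AddCommGroup M] {l : ℕ}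

lemma Dv.mono {k k' : ℕ} (h : k ≤ k') : (Dv l k' : AddSubgroup M) ≤ Dv l k := by
  rintro _ ⟨z, rfl⟩
  exact ⟨(l ^ (k' - k)) • z, by rw [smul_smul, ← pow_add, Nat.add_sub_cancel' h]⟩

lemma Dv.smul {k j : ℕ} {y : M} (hy : y ∈ (Dv l k : AddSubgroup M)) {c : ℕ} (hc : l ^ j ∣ c) :
    c • y ∈ (Dv l (k + j) : AddSubgroup M) := by
  obtain ⟨z, rfl⟩ := hy
  obtain ⟨d, rfl⟩ := hc
  refine ⟨d • z, ?_⟩
  rw [smul_smul, smul_smul]
  congr 1
  ring

lemma Dv.smul' {k : ℕ} {y : M} (hy : y ∈ (Dv l k : AddSubgroup M)) (c : ℕ) :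
    c • y ∈ (Dv l k : AddSubgroup M) := (Dv l k).nsmul_mem hy c

/-- division by a number prime to `l` -/
lemma Dv.of_smul_coprime {k : ℕ} {y : M} {q : ℕ} (hq : Nat.Coprime q l)
    (hy : q • y ∈ (Dv l k : AddSubgroup M)) : y ∈ (Dv l k : AddSubgroup M) := by
  have h1 : IsCoprime (q : ℤ) ((l ^ k : ℕ) : ℤ) := Nat.isCoprime_iff_coprime.2 (hq.pow_right k)
  obtain ⟨a, b, hab⟩ := h1
  have h2 : y = a • (q • y) + (l ^ k) • (b • y) := by
    have h3 : ((a * (q : ℤ) + b * ((l ^ k : ℕ) : ℤ)) : ℤ) • y = y := by rw [hab, one_smul]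
    rw [add_smul, mul_smul, mul_smul] at h3
    rw [natCast_zsmul] at h3
    conv_lhs => rw [← h3]
    congr 1
    rw [smul_comm, natCast_zsmul]
  rw [h2]
  exact (Dv l k).add_mem ((Dv l k).zsmul_mem hy a) ⟨b • y, rfl⟩

end

/-- **Minkowski's lemma** -/
lemma minkowski_prime {M : Type} [AddCommGroup M] {l : ℕ} (hl : l.Prime) (hl3 : 3 ≤ l)
    (htf : ∀ x : M, l • x = 0 → x = 0)
    (hsep : ∀ x : M, (∀ k, x ∈ (Dv l k : AddSubgroup M)) → x = 0)
    (T : M →ₗ[ℤ] M) {q : ℕ} (hq : q.Prime) (hT : T ^ q = 1)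
    (hT1 : ∀ y, T y - y ∈ (Dv l 1 : AddSubgroup M)) : ∀ y, T y = y := by
  let N : M →ₗ[ℤ] M := T - 1
  have hN : ∀ y, N y = T y - y := fun y => rfl
  have hbin : ∀ y, q • N y = - ∑ j ∈ Finset.Ico 2 (q + 1), (q.choose j) • (N ^ j) y := by
    intro y
    have h1 : (N + 1) ^ q = ∑ m ∈ Finset.range (q + 1), N ^ m * 1 ^ (q - m) * (q.choose m) :=
      (Commute.one_right N).add_pow q
    have h2 : N + 1 = T := by simp [N]
    rw [h2, hT] at h1
    have h3 := LinearMap.congr_fun h1 y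
    simp only [one_pow, mul_one, LinearMap.sum_apply] at h3
    rw [Finset.range_eq_Ico, Finset.sum_eq_sum_Ico_succ_bot (by omega),
      Finset.sum_eq_sum_Ico_succ_bot (by have := hq.two_le; omega)] at h3
    have h4 : ∀ m, (N ^ m * ((q.choose m : ℕ) : M →ₗ[ℤ] M)) y = (q.choose m) • (N ^ m) y := by
      intro m
      rw [← Nat.cast_comm, ← nsmul_eq_mul, LinearMap.smul_apply]
    simp only [h4] at h3
    simp only [pow_zero, Nat.choose_zero_right, one_smul, zero_add, pow_one,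
      Nat.choose_one_right] at h3
    have h5 : q • N y + ∑ j ∈ Finset.Ico 2 (q + 1), (q.choose j) • (N ^ j) y = 0 := by
      have h6 : y = y + (q • N y + ∑ j ∈ Finset.Ico 2 (q + 1), (q.choose j) • (N ^ j) y) := h3
      exact (left_eq_add.1 h6)
    exact eq_neg_of_add_eq_zero_left h5
  have hpow : ∀ k, (∀ y, N y ∈ (Dv l k : AddSubgroup M)) → ∀ j, ∀ y,
      (N ^ j) y ∈ (Dv l (j * k) : AddSubgroup M) := by
    intro k hk j
    induction j with
    | zero => intro y; exact ⟨y, by simp⟩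
    | succ j ih =>
      intro y
      obtain ⟨z, hz⟩ := hk y
      obtain ⟨z', hz'⟩ := ih z
      refine ⟨z', ?_⟩
      rw [pow_succ, Module.End.mul_apply, hz, map_nsmul, hz', smul_smul, ← pow_add]
      congr 2
      ring
  have hmain : ∀ k, 1 ≤ k → ∀ y, N y ∈ (Dv l k : AddSubgroup M) := by
    intro k hk
    induction k, hk using Nat.le_induction with
    | base => exact hT1
    | succ k hk ih =>
      intro y
      have hj : ∀ j, 2 ≤ j → (N ^ j) y ∈ (Dv l (2 * k) : AddSubgroup M) := fun j hj =>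
        Dv.mono (Nat.mul_le_mul_right k hj) (hpow k ih j y)
      by_cases hql : q = l
      · subst hql
        have h1 : q • N y ∈ (Dv q (k + 2) : AddSubgroup M) := by
          rw [hbin]
          refine (Dv q (k + 2)).neg_mem ((Dv q (k + 2)).sum_mem fun j hjm => ?_)
          rw [Finset.mem_Ico] at hjm
          by_cases hjq : j = q
          · subst hjq
            refine Dv.smul' (Dv.mono ?_ (hpow k ih j y)) _
            nlinarith
          · have h2 : q ^ 1 ∣ q.choose j := by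
              rw [pow_one]
              exact hq.dvd_choose_self (by omega) (by omega)
            exact Dv.mono (by omega) (Dv.smul (hj j hjm.1) h2)
        obtain ⟨z, hz⟩ := h1
        refine ⟨z, ?_⟩
        have h2 : q • (N y - (q ^ (k + 1)) • z) = 0 := by
          rw [smul_sub, hz, smul_smul, ← pow_succ', sub_self]
        exact sub_eq_zero.1 (htf _ h2)
      · have h1 : q • N y ∈ (Dv l (k + 1) : AddSubgroup M) := by
          rw [hbin]
          refine (Dv l (k + 1)).neg_mem ((Dv l (k + 1)).sum_mem fun j hjm => ?_)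
          rw [Finset.mem_Ico] at hjm
          exact Dv.smul' (Dv.mono (by omega) (hj j hjm.1)) _
        exact Dv.of_smul_coprime ((Nat.coprime_primes hq hl).2 hql) h1
  intro y
  have h1 : N y = 0 := hsep _ fun k => by
    rcases Nat.eq_zero_or_pos k with rfl | hk
    · exact ⟨N y, by simp⟩
    · exact hmain k hk y
  rw [hN] at h1
  exact sub_eq_zero.1 h1

/-- a vector fixed by a power of an operator congruent to `1` is fixed by the operator -/
lemma fixed_of_pow_fixed {M : Type} [AddCommGroup M] {l : ℕ} (hl : l.Prime) (hl3 : 3 ≤ l)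
    (htf : ∀ x : M, l • x = 0 → x = 0)
    (hsep : ∀ x : M, (∀ k, x ∈ (Dv l k : AddSubgroup M)) → x = 0)
    (T : M →ₗ[ℤ] M) (hT1 : ∀ y, T y - y ∈ (Dv l 1 : AddSubgroup M)) (m : ℕ) (hm : 0 < m) :
    ∀ y, (T ^ m) y = y → T y = y := by
  induction m using Nat.strong_induction_on with
  | _ m ih =>
  intro y hy
  by_cases hm1 : m = 1
  · subst hm1
    simpa using hy
  obtain ⟨q, hq, m', rfl⟩ := Nat.exists_prime_and_dvd hm1
  have hm' : 0 < m' := Nat.pos_of_mul_pos_left hm |> fun h => by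
    rcases Nat.eq_zero_or_pos m' with h0 | h0
    · subst h0; simp at hm
    · exact h0
  let T' : M →ₗ[ℤ] M := T ^ m'
  have hT'1 : ∀ y, T' y - y ∈ (Dv l 1 : AddSubgroup M) := by
    have h1 : ∀ j y, (T ^ j) y - y ∈ (Dv l 1 : AddSubgroup M) := by
      intro j
      induction j with
      | zero => intro y; simp [(Dv l 1 : AddSubgroup M).zero_mem]
      | succ j ihj =>
        intro y
        have h2 : (T ^ (j + 1)) y - y = ((T ^ j) (T y) - T y) + (T y - y) := by
          rw [pow_succ, Module.End.mul_apply]; abel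
        rw [h2]
        exact (Dv l 1).add_mem (ihj _) (hT1 _)
    exact h1 m'
  let W : Submodule ℤ M := LinearMap.ker (T' ^ q - 1)
  have hW : ∀ x, x ∈ W ↔ (T' ^ q) x = x := by
    intro x
    rw [LinearMap.mem_ker, LinearMap.sub_apply, Module.End.one_apply, sub_eq_zero]
  have hWst : ∀ x ∈ W, T' x ∈ W := by
    intro x hx
    rw [hW] at hx ⊢
    rw [← Module.End.mul_apply, ← pow_succ, pow_succ', Module.End.mul_apply, hx]
  let TW : W →ₗ[ℤ] W := T'.restrict hWst
  have hTW : ∀ j (x : W), (((TW ^ j) x : W) : M) = (T' ^ j) (x : M) := by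
    intro j
    induction j with
    | zero => intro x; rfl
    | succ j ihj =>
      intro x
      rw [pow_succ, Module.End.mul_apply, ihj, pow_succ, Module.End.mul_apply]
      rfl
  have hDvW : ∀ k (x : W), (x : M) ∈ (Dv l k : AddSubgroup M) → x ∈ (Dv l k : AddSubgroup W) := by
    rintro k ⟨x, hx⟩ ⟨z, hz⟩
    have hlk : ∀ (k : ℕ) (v : M), (l ^ k) • v = 0 → v = 0 := by
      intro k
      induction k with
      | zero => intro v hv; simpa using hv
      | succ k ihk =>
        intro v hv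
        rw [pow_succ, mul_smul] at hv
        exact htf _ (ihk _ hv)
    refine ⟨⟨z, ?_⟩, Subtype.ext hz⟩
    rw [hW] at hx ⊢
    have hz' : x = (l ^ k) • z := hz
    rw [hz', map_nsmul] at hx
    have h1 : (l ^ k) • ((T' ^ q) z - z) = 0 := by rw [smul_sub, hx, sub_self]
    exact sub_eq_zero.1 (hlk k _ h1)
  have h1 := minkowski_prime (M := W) hl hl3
    (fun x hx => Subtype.ext (htf _ (congrArg Subtype.val hx)))
    (fun x hx => Subtype.ext (hsep _ fun k => by
      obtain ⟨z, hz⟩ := hx k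
      exact ⟨z, congrArg Subtype.val hz⟩)) TW hq (by
      refine LinearMap.ext fun x => Subtype.ext ?_
      rw [hTW]
      exact (hW _).1 x.2) (fun x => hDvW 1 _ (hT'1 x))
  have hyW : y ∈ W := by
    rw [hW]
    have h2 : T' ^ q = T ^ (q * m') := by rw [← pow_mul, mul_comm]
    rw [h2]
    exact hy
  have h2 := congrArg Subtype.val (h1 ⟨y, hyW⟩)
  exact ih m' (by
    have := hq.two_le
    nlinarith) hm' y h2

/-- a group of `l`-adic matrices congruent to `1` modulo an odd prime `l` is commutative if a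
subgroup of finite index is -/
theorem commutative_of_finiteIndex {G : Type} [Group G] {n : ℕ} {l : ℕ} [hl : Fact l.Prime]
    (hl3 : 3 ≤ l) (ρ : G →* Matrix.GeneralLinearGroup (Fin n) ℤ_[l])
    (hρ : ∀ g, ∃ Z : Matrix (Fin n) (Fin n) ℤ_[l],
      (ρ g : Matrix (Fin n) (Fin n) ℤ_[l]) - 1 = l • Z)
    (H : Subgroup G) [H.FiniteIndex] (hH : ∀ h ∈ H, ∀ h' ∈ H, ρ h * ρ h' = ρ h' * ρ h) :
    ∀ g g', ρ g * ρ g' = ρ g' * ρ g := by
  -- commuting with a power
  have key : ∀ (g : G) (y : Matrix (Fin n) (Fin n) ℤ_[l]) (m : ℕ), 0 < m →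
      (ρ (g ^ m) : Matrix (Fin n) (Fin n) ℤ_[l]) * y = y * ρ (g ^ m) →
      (ρ g : Matrix (Fin n) (Fin n) ℤ_[l]) * y = y * ρ g := by
    intro g y m hm hy
    let T : Matrix (Fin n) (Fin n) ℤ_[l] →ₗ[ℤ] Matrix (Fin n) (Fin n) ℤ_[l] :=
      { toFun := fun y => (ρ g : Matrix (Fin n) (Fin n) ℤ_[l]) * y *
          ((ρ g⁻¹ : Matrix.GeneralLinearGroup (Fin n) ℤ_[l]) : Matrix (Fin n) (Fin n) ℤ_[l])
        map_add' := fun a b => by rw [Matrix.mul_add, Matrix.add_mul]
        map_smul' := fun r a => by rw [Matrix.mul_smul, Matrix.smul_mul]; rfl }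
    have hTm : ∀ (j : ℕ) (y : Matrix (Fin n) (Fin n) ℤ_[l]), (T ^ j) y =
        (ρ (g ^ j) : Matrix (Fin n) (Fin n) ℤ_[l]) * y *
          ((ρ (g ^ j)⁻¹ : Matrix.GeneralLinearGroup (Fin n) ℤ_[l]) :
            Matrix (Fin n) (Fin n) ℤ_[l]) := by
      intro j
      induction j with
      | zero => intro y; simp
      | succ j ih =>
        intro y
        have h1 : (ρ (g ^ (j + 1)) : Matrix (Fin n) (Fin n) ℤ_[l]) =
            (ρ g : Matrix (Fin n) (Fin n) ℤ_[l]) * (ρ (g ^ j) : Matrix (Fin n) (Fin n) ℤ_[l]) := by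
          rw [pow_succ', map_mul, Units.val_mul]
        have h2 : ((ρ (g ^ (j + 1))⁻¹ : Matrix.GeneralLinearGroup (Fin n) ℤ_[l]) :
            Matrix (Fin n) (Fin n) ℤ_[l]) = ((ρ (g ^ j)⁻¹ :
              Matrix.GeneralLinearGroup (Fin n) ℤ_[l]) : Matrix (Fin n) (Fin n) ℤ_[l]) *
            ((ρ g⁻¹ : Matrix.GeneralLinearGroup (Fin n) ℤ_[l]) :
              Matrix (Fin n) (Fin n) ℤ_[l]) := by
          rw [pow_succ', mul_inv_rev, map_mul, Units.val_mul]
        rw [pow_succ', Module.End.mul_apply, ih, h1, h2]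
        change (ρ g : Matrix (Fin n) (Fin n) ℤ_[l]) * (_ * y * _) * _ = _
        simp only [Matrix.mul_assoc]
    have hinv : ∀ x : G, ((ρ x⁻¹ : Matrix.GeneralLinearGroup (Fin n) ℤ_[l]) :
        Matrix (Fin n) (Fin n) ℤ_[l]) * (ρ x : Matrix (Fin n) (Fin n) ℤ_[l]) = 1 := by
      intro x
      rw [← Units.val_mul, ← map_mul, inv_mul_cancel, map_one, Units.val_one]
    have hinv' : ∀ x : G, (ρ x : Matrix (Fin n) (Fin n) ℤ_[l]) *
        ((ρ x⁻¹ : Matrix.GeneralLinearGroup (Fin n) ℤ_[l]) :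
        Matrix (Fin n) (Fin n) ℤ_[l]) = 1 := by
      intro x
      rw [← Units.val_mul, ← map_mul, mul_inv_cancel, map_one, Units.val_one]
    have hlne : (l : ℤ_[l]) ≠ 0 := by exact_mod_cast hl.out.ne_zero
    have h1 := fixed_of_pow_fixed (M := Matrix (Fin n) (Fin n) ℤ_[l]) hl.out hl3
      (by
        intro x hx
        ext i j
        have h1 := congrFun (congrFun hx i) j
        rw [Matrix.smul_apply, nsmul_eq_mul, Matrix.zero_apply] at h1
        rw [(mul_eq_zero.1 h1).resolve_left hlne]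
        rfl)
      (by
        intro x hx
        ext i j
        have h1 : ∀ k : ℕ, ‖x i j‖ ≤ (l : ℝ) ^ (-(k : ℤ)) := by
          intro k
          obtain ⟨z, hz⟩ := hx k
          have h2 : x i j = (l : ℤ_[l]) ^ k * z i j := by
            rw [hz, Matrix.smul_apply, nsmul_eq_mul]
            push_cast
            rfl
          rw [PadicInt.norm_le_pow_iff_mem_span_pow, Ideal.mem_span_singleton]
          exact ⟨z i j, h2⟩
        have h2 : Filter.Tendsto (fun k : ℕ => (l : ℝ) ^ (-(k : ℤ))) Filter.atTop (nhds 0) := by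
          have h3 : ∀ k : ℕ, (l : ℝ) ^ (-(k : ℤ)) = ((l : ℝ)⁻¹) ^ k := by
            intro k
            rw [zpow_neg, zpow_natCast, inv_pow]
          simp only [h3]
          apply tendsto_pow_atTop_nhds_zero_of_lt_one (by positivity)
          apply inv_lt_one_of_one_lt₀
          exact_mod_cast hl.out.one_lt
        have h3 : ‖x i j‖ ≤ 0 := ge_of_tendsto' h2 h1
        exact norm_le_zero_iff.1 h3)
      T (by
        intro y
        obtain ⟨Z, hZ⟩ := hρ g
        refine ⟨(Z * y - y * Z) * ((ρ g⁻¹ : Matrix.GeneralLinearGroup (Fin n) ℤ_[l]) :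
          Matrix (Fin n) (Fin n) ℤ_[l]), ?_⟩
        have h1 : (ρ g : Matrix (Fin n) (Fin n) ℤ_[l]) = 1 + l • Z := by
          rw [← hZ]; abel
        have h2 : T y - y = ((ρ g : Matrix (Fin n) (Fin n) ℤ_[l]) * y - y * ρ g) *
            ((ρ g⁻¹ : Matrix.GeneralLinearGroup (Fin n) ℤ_[l]) :
            Matrix (Fin n) (Fin n) ℤ_[l]) := by
          rw [Matrix.sub_mul, Matrix.mul_assoc y, hinv', Matrix.mul_one]
          rfl
        rw [h2, h1, pow_one]
        simp only [Matrix.add_mul, Matrix.mul_add, Matrix.one_mul, Matrix.mul_one,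
          smul_mul_assoc, mul_smul_comm, add_sub_add_left_eq_sub, ← smul_sub]) m hm y (by
        rw [hTm, hy, Matrix.mul_assoc, hinv', Matrix.mul_one])
    have h2 : (ρ g : Matrix (Fin n) (Fin n) ℤ_[l]) * y *
        ((ρ g⁻¹ : Matrix.GeneralLinearGroup (Fin n) ℤ_[l]) : Matrix (Fin n) (Fin n) ℤ_[l]) = y := h1
    calc (ρ g : Matrix (Fin n) (Fin n) ℤ_[l]) * y
        = (ρ g : Matrix (Fin n) (Fin n) ℤ_[l]) * y *
          (((ρ g⁻¹ : Matrix.GeneralLinearGroup (Fin n) ℤ_[l]) : Matrix (Fin n) (Fin n) ℤ_[l]) *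
            ρ g) := by rw [hinv, Matrix.mul_one]
      _ = y * ρ g := by rw [← Matrix.mul_assoc, h2]
  have hcast : ∀ a b : G, (ρ a : Matrix (Fin n) (Fin n) ℤ_[l]) *
      (ρ b : Matrix (Fin n) (Fin n) ℤ_[l]) = (ρ b : Matrix (Fin n) (Fin n) ℤ_[l]) *
      (ρ a : Matrix (Fin n) (Fin n) ℤ_[l]) ↔ ρ a * ρ b = ρ b * ρ a := by
    intro a b
    rw [← Units.val_mul, ← Units.val_mul, Units.val_inj]
  have hidx : H.index ≠ 0 := Subgroup.FiniteIndex.index_ne_zero
  have hcentral : ∀ h ∈ H, ∀ g, ρ g * ρ h = ρ h * ρ g := by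
    intro h hh g
    obtain ⟨m, hm, _, hgm⟩ := Subgroup.exists_pow_mem_of_index_ne_zero hidx g
    rw [← hcast]
    apply key g _ m hm
    rw [hcast]
    exact hH _ hgm _ hh
  intro g g'
  obtain ⟨m, hm, _, hgm⟩ := Subgroup.exists_pow_mem_of_index_ne_zero hidx g
  rw [← hcast]
  apply key g _ m hm
  rw [hcast]
  exact (hcentral _ hgm g').symm

end AbMot
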