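import Pool.Agent.Helper40.AbMot.CLem
import Pool.Agent.Helper40.AbMot.MinkL

/-!
# Finiteness of potentially abelian pure `ℤ`-motives: reduction to the case of a fixed field
-/

open NumberField

namespace AbMot

variable {F : Type} [Field F] [NumberField F] {S : Finset ℕ} {n w : ℕ}

/-- the reduction modulo `3` of the `3`-adic realization -/
noncomputable def AMotive.red (M : AMotive F S n w) :
    (AlgebraicClosure F ≃ₐ[F] AlgebraicClosure F) →*
      Matrix.GeneralLinearGroup (Fin n) (ZMod 3) :=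
  (Matrix.GeneralLinearGroup.map (PadicInt.toZMod (p := 3))).comp (M.ρ 3)

lemma isOpen_toZMod (p : ℕ) [hp : Fact p.Prime] (a : ZMod p) :
    IsOpen {x : ℤ_[p] | PadicInt.toZMod x = a} := by
  rw [Metric.isOpen_iff]
  intro x hx
  refine ⟨1, one_pos, fun y hy => ?_⟩
  have h1 : y - x ∈ RingHom.ker (PadicInt.toZMod (p := p)) := by
    rw [PadicInt.ker_toZMod, IsLocalRing.mem_maximalIdeal, PadicInt.mem_nonunits]
    rw [Metric.mem_ball, dist_eq_norm] at hy
    exact hy
  rw [RingHom.mem_ker, map_sub, sub_eq_zero] at h1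
  exact h1.trans hx

lemma AMotive.mem_ker_red (M : AMotive F S n w) (g : AlgebraicClosure F ≃ₐ[F] AlgebraicClosure F) :
    g ∈ M.red.ker ↔ ∀ i j, PadicInt.toZMod ((M.ρ 3 g : Matrix (Fin n) (Fin n) ℤ_[3]) i j) =
      (1 : Matrix (Fin n) (Fin n) (ZMod 3)) i j := by
  rw [MonoidHom.mem_ker, ← Units.val_inj, ← Matrix.ext_iff]
  rfl

lemma AMotive.isOpen_ker (M : AMotive F S n w) :
    IsOpen (M.red.ker : Set (AlgebraicClosure F ≃ₐ[F] AlgebraicClosure F)) := by
  have h1 : (M.red.ker : Set (AlgebraicClosure F ≃ₐ[F] AlgebraicClosure F)) =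
      ⋂ i, ⋂ j, (fun g => (M.ρ 3 g : Matrix (Fin n) (Fin n) ℤ_[3]) i j) ⁻¹'
        {x : ℤ_[3] | PadicInt.toZMod x = (1 : Matrix (Fin n) (Fin n) (ZMod 3)) i j} := by
    ext g
    rw [SetLike.mem_coe, M.mem_ker_red]
    simp only [Set.mem_iInter, Set.mem_preimage, Set.mem_ofPred_eq]
  rw [h1]
  refine isOpen_iInter_of_finite fun i => isOpen_iInter_of_finite fun j => ?_
  refine IsOpen.preimage ?_ (isOpen_toZMod 3 _)
  exact (Units.continuous_val.comp (M.continuous 3)).matrix_elem i j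

/-- the field cut out by the reduction modulo `3` -/
noncomputable def AMotive.fld (M : AMotive F S n w) :
    IntermediateField F (AlgebraicClosure F) := IntermediateField.fixedField M.red.ker

lemma AMotive.fixingSubgroup_fld (M : AMotive F S n w) :
    M.fld.fixingSubgroup = M.red.ker := by
  have h1 := InfiniteGalois.fixingSubgroup_fixedField
    (k := F) (K := AlgebraicClosure F) ⟨M.red.ker, M.red.ker.isClosed_of_isOpen M.isOpen_ker⟩
  exact h1

lemma AMotive.finite_fld (M : AMotive F S n w) : FiniteDimensional F M.fld := by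
  rw [← InfiniteGalois.isOpen_iff_finite]
  change IsOpen (M.fld.fixingSubgroup : Set (AlgebraicClosure F ≃ₐ[F] AlgebraicClosure F))
  rw [M.fixingSubgroup_fld]
  exact M.isOpen_ker

lemma AMotive.isGalois_fld (M : AMotive F S n w) : IsGalois F M.fld := by
  rw [← InfiniteGalois.normal_iff_isGalois, M.fixingSubgroup_fld]
  infer_instance

lemma AMotive.finrank_fld (M : AMotive F S n w) :
    Module.finrank F M.fld ≤ Nat.card (Matrix.GeneralLinearGroup (Fin n) (ZMod 3)) := by
  rw [IntermediateField.finrank_eq_fixingSubgroup_index, M.fixingSubgroup_fld,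
    Subgroup.index_ker]
  exact Nat.card_le_card_of_injective _ Subtype.val_injective

lemma AMotive.numberField_fld (M : AMotive F S n w) : NumberField M.fld :=
  haveI := M.finite_fld
  NumberField.of_module_finite F M.fld

lemma AMotive.sub_one_mem (M : AMotive F S n w)
    (g : AlgebraicClosure F ≃ₐ[F] AlgebraicClosure F) (hg : g ∈ M.fld.fixingSubgroup) :
    ∃ Z : Matrix (Fin n) (Fin n) ℤ_[3],
      (M.ρ 3 g : Matrix (Fin n) (Fin n) ℤ_[3]) - 1 = (3 : ℕ) • Z := by
  rw [M.fixingSubgroup_fld, M.mem_ker_red] at hg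
  have h1 : ∀ i j, ∃ z : ℤ_[3],
      ((M.ρ 3 g : Matrix (Fin n) (Fin n) ℤ_[3]) - 1) i j = (3 : ℕ) • z := by
    intro i j
    have h2 : ((M.ρ 3 g : Matrix (Fin n) (Fin n) ℤ_[3]) - 1) i j ∈
        RingHom.ker (PadicInt.toZMod (p := 3)) := by
      rw [RingHom.mem_ker, Matrix.sub_apply, map_sub, hg i j, sub_eq_zero, Matrix.one_apply,
        Matrix.one_apply]
      split_ifs <;> simp
    rw [PadicInt.ker_toZMod, PadicInt.maximalIdeal_eq_span_p, Ideal.mem_span_singleton] at h2
    obtain ⟨z, hz⟩ := h2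
    exact ⟨z, by rw [hz, nsmul_eq_mul]⟩
  choose Z hZ using h1
  exact ⟨Matrix.of Z, by ext i j; rw [hZ i j]; rfl⟩

/-- the motive is abelian over the field cut out by the reduction modulo `3` -/
lemma AMotive.abelianOver_fld
    (hWC : ∀ (K : IntermediateField F (AlgebraicClosure F)) [NumberField K],
      WeakChebotarev K (AlgebraicClosure F)) (hS : ∀ p ∈ S, p.Prime)
    (M : AMotive F S n w) : AbelianOver M.ρ M.fld := by
  obtain ⟨K0, hfin, hab⟩ := M.potentially_abelian
  have : NumberField K0 := NumberField.of_module_finite F K0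
  have hcomm := M.comm_all (hWC K0) hS hab 3
  have hfi : (K0.fixingSubgroup).FiniteIndex := by
    constructor
    rw [← IntermediateField.finrank_eq_fixingSubgroup_index]
    exact Module.finrank_pos.ne'
  refine ⟨3, inferInstance, fun g hg h hh => ?_⟩
  have key := commutative_of_finiteIndex (G := M.fld.fixingSubgroup) (l := 3) le_rfl
    ((M.ρ 3).comp M.fld.fixingSubgroup.subtype) (fun x => M.sub_one_mem x.1 x.2)
    (K0.fixingSubgroup.subgroupOf M.fld.fixingSubgroup) (fun x hx y hy =>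
      hcomm x.1 (Subgroup.mem_subgroupOf.1 hx) y.1 (Subgroup.mem_subgroupOf.1 hy))
  exact key ⟨g, hg⟩ ⟨h, hh⟩

/-- compatibility of the `K`-structures -/
lemma AMotive.compatible_toP {K : IntermediateField F (AlgebraicClosure F)} [NumberField K]
    [IsGalois F K] (hWC : WeakChebotarev K (AlgebraicClosure F)) (hS : ∀ p ∈ S, p.Prime)
    (M M' : AMotive F S n w) (h : AbelianOver M.ρ K) (h' : AbelianOver M'.ρ K)
    (hc : M.Compatible M') : (M.toP h).Compatible (M'.toP h') := by
  intro g u hu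
  obtain ⟨v, hv, hvg⟩ := hc K g u (fun l _ x hx =>
    PMotive.dense' hWC hS (M.toP h) (M'.toP h') u hu l x hx)
  exact ⟨v, PMotive.frob_of_gal (M.toP h) (M'.toP h') v hv, hvg⟩

/-- finiteness for a fixed field `K` -/
lemma finiteness_fixed {K : IntermediateField F (AlgebraicClosure F)} [NumberField K]
    [IsGalois F K] (hWC : WeakChebotarev K (AlgebraicClosure F)) (hS : ∀ p ∈ S, p.Prime)
    (𝒯 : Set (AMotive F S n w)) (h𝒯 : ∀ M ∈ 𝒯, ∀ M' ∈ 𝒯, M.Compatible M') :
    ∃ T : Finset (AMotive F S n w), (T : Set (AMotive F S n w)) ⊆ 𝒯 ∧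
      ∀ M ∈ 𝒯, AbelianOver M.ρ K → ∃ M' ∈ T, M.Iso M' := by
  classical
  obtain ⟨T1, hT1, hT1'⟩ := finiteness_potential (K := K) hWC hS
    {X : PMotive F K S n w | ∃ M ∈ 𝒯, ∃ h : AbelianOver M.ρ K, M.toP h = X} (by
      rintro _ ⟨M, hM, h, rfl⟩ _ ⟨M', hM', h', rfl⟩
      exact M.compatible_toP hWC hS M' h h' (h𝒯 M hM M' hM'))
  have h1 : ∀ X : T1, ∃ M ∈ 𝒯, ∃ h : AbelianOver M.ρ K, M.toP h = X.1 := fun X => hT1 X.2
  choose f hf hf' hf'' using h1
  refine ⟨Finset.univ.image f, ?_, fun M hM hab => ?_⟩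
  · intro M hM
    rw [Finset.mem_coe, Finset.mem_image] at hM
    obtain ⟨X, _, rfl⟩ := hM
    exact hf X
  · obtain ⟨X, hX, u, _, hu⟩ := hT1' (M.toP hab) ⟨M, hM, hab, rfl⟩
    refine ⟨f ⟨X, hX⟩, Finset.mem_image_of_mem _ (Finset.mem_univ _), u, fun l _ g => ?_⟩
    have h2 : (f ⟨X, hX⟩).ρ = X.ρ := congrArg (fun Y : PMotive F K S n w => Y.ρ) (hf'' ⟨X, hX⟩)
    have h3 := hu l g
    rw [← h2] at h3
    exact h3

end AbMot
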