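import Pool.Agent.Helper40.AbMot.LinAlg

/-!
# Finiteness of forms: the group theoretic core
-/

open Polynomial Module Matrix

namespace AbMot

/-- families of `l`-adic representations -/
abbrev Fam (G : Type) [Group G] (n : ℕ) :=
  ∀ (l : ℕ) [Fact l.Prime], G →* Matrix.GeneralLinearGroup (Fin n) ℤ_[l]

/-- a rational matrix as an `l`-adic matrix -/
noncomputable abbrev toQ {n : ℕ} (l : ℕ) [Fact l.Prime] (M : Matrix (Fin n) (Fin n) ℚ) :
    Matrix (Fin n) (Fin n) ℚ_[l] := M.map (algebraMap ℚ ℚ_[l])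

/-- an integral `l`-adic matrix as an `l`-adic matrix -/
noncomputable abbrev ofZ {n : ℕ} (l : ℕ) [Fact l.Prime] (M : Matrix (Fin n) (Fin n) ℤ_[l]) :
    Matrix (Fin n) (Fin n) ℚ_[l] := M.map (algebraMap ℤ_[l] ℚ_[l])

/-- the `l`-adic matrix by which `g` acts -/
noncomputable abbrev rl {G : Type} [Group G] {n : ℕ} (l : ℕ) [Fact l.Prime] (ρ : Fam G n) (g : G) :
    Matrix (Fin n) (Fin n) ℚ_[l] := ofZ l (ρ l g : Matrix (Fin n) (Fin n) ℤ_[l])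

section
variable {n : ℕ} (l : ℕ) [Fact l.Prime]

lemma toQ_mul (X Y : Matrix (Fin n) (Fin n) ℚ) : toQ l (X * Y) = toQ l X * toQ l Y :=
  Matrix.map_mul

lemma toQ_one : toQ l (1 : Matrix (Fin n) (Fin n) ℚ) = 1 :=
  Matrix.map_one _ (map_zero _) (map_one _)

lemma toQ_injective : Function.Injective (toQ (n := n) l) :=
  Matrix.map_injective (algebraMap ℚ ℚ_[l]).injective

lemma ofZ_mul (X Y : Matrix (Fin n) (Fin n) ℤ_[l]) : ofZ l (X * Y) = ofZ l X * ofZ l Y :=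
  Matrix.map_mul

lemma ofZ_one : ofZ l (1 : Matrix (Fin n) (Fin n) ℤ_[l]) = 1 :=
  Matrix.map_one _ (map_zero _) (map_one _)

lemma ofZ_injective : Function.Injective (ofZ (n := n) l) :=
  Matrix.map_injective (IsFractionRing.injective ℤ_[l] ℚ_[l])

lemma toQ_rat (X : Matrix (Fin n) (Fin n) ℤ) :
    toQ l (rat X) = ofZ l (X.map (algebraMap ℤ ℤ_[l])) := by
  ext i j
  simp [rat]

end

/-- **Finiteness of forms** -/
theorem core {G : Type} [Group G] (H : Subgroup G) [H.Normal] [H.FiniteIndex] {n : ℕ}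
    {f : ℤ[X]} (hf : Squarefree (f.map (Int.castRingHom ℚ))) (A : Matrix (Fin n) (Fin n) ℤ)
    (hA : aeval A f = 0) (𝒮 : Set (Fam G n))
    (hcomp : ∀ ρ ∈ 𝒮, ∀ ρ' ∈ 𝒮, ∀ (g : G) (c : Matrix (Fin n) (Fin n) ℚ),
      c * rat A = rat A * c → ∃ v : Matrix (Fin n) (Fin n) ℚ, v * rat A = rat A * v ∧
        ∀ (l : ℕ) [Fact l.Prime], rl l ρ' g * toQ l c = toQ l v * rl l ρ g)
    (hH : ∀ ρ ∈ 𝒮, ∀ ρ' ∈ 𝒮, ∀ h ∈ H, ∀ (l : ℕ) [Fact l.Prime], ρ l h = ρ' l h)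
    (hHc : ∀ ρ ∈ 𝒮, ∀ h ∈ H, ∀ c : Matrix (Fin n) (Fin n) ℚ, c * rat A = rat A * c →
      ∀ (l : ℕ) [Fact l.Prime], rl l ρ h * toQ l c = toQ l c * rl l ρ h) :
    ∃ T : Set (Fam G n), T ⊆ 𝒮 ∧ T.Finite ∧ ∀ ρ ∈ 𝒮, ∃ ρ' ∈ T,
      ∃ u : Matrix.GeneralLinearGroup (Fin n) ℤ,
        (u : Matrix (Fin n) (Fin n) ℤ) * A = A * u ∧
        ∀ (l : ℕ) [Fact l.Prime] (g : G),
          (u : Matrix (Fin n) (Fin n) ℤ).map (algebraMap ℤ ℤ_[l]) * (ρ l g : Matrix _ _ ℤ_[l]) =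
            (ρ' l g : Matrix _ _ ℤ_[l]) *
              (u : Matrix (Fin n) (Fin n) ℤ).map (algebraMap ℤ ℤ_[l]) := by
  classical
  rcases 𝒮.eq_empty_or_nonempty with h𝒮 | ⟨ρ0, hρ0⟩
  · exact ⟨∅, Set.empty_subset _, Set.finite_empty, fun ρ hρ => by simp [h𝒮] at hρ⟩
  have hfact2 : Fact (Nat.Prime 2) := ⟨Nat.prime_two⟩
  -- units
  have hinv : ∀ (ρ : Fam G n) (l : ℕ) [Fact l.Prime] (g : G),
      rl l ρ g * rl l ρ g⁻¹ = 1 := by
    intro ρ l _ g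
    rw [← ofZ_mul, ← Units.val_mul, ← map_mul, mul_inv_cancel, map_one, Units.val_one, ofZ_one]
  have hmul : ∀ (ρ : Fam G n) (l : ℕ) [Fact l.Prime] (g g' : G),
      rl l ρ (g * g') = rl l ρ g * rl l ρ g' := by
    intro ρ l _ g g'
    rw [← ofZ_mul, ← Units.val_mul, ← map_mul]
  have hcancelQ : ∀ (ρ : Fam G n) (l : ℕ) [Fact l.Prime] (g : G)
      (X Y : Matrix (Fin n) (Fin n) ℚ_[l]), X * rl l ρ g = Y * rl l ρ g → X = Y := by
    intro ρ l _ g X Y h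
    have h1 := congrArg (fun Z => Z * rl l ρ g⁻¹) h
    simp only [Matrix.mul_assoc, hinv, Matrix.mul_one] at h1
    exact h1
  have hcancel : ∀ (ρ : Fam G n) (g : G) (v v' : Matrix (Fin n) (Fin n) ℚ),
      toQ 2 v * rl 2 ρ g = toQ 2 v' * rl 2 ρ g → v = v' := by
    intro ρ g v v' h
    exact toQ_injective 2 (hcancelQ ρ 2 g _ _ h)
  -- the cocycles
  have ha : ∀ ρ ∈ 𝒮, ∀ g : G, ∃ a : Matrix (Fin n) (Fin n) ℤ, a * A = A * a ∧
      ∀ (l : ℕ) [Fact l.Prime], rl l ρ g = toQ l (rat a) * rl l ρ0 g := by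
    intro ρ hρ g
    obtain ⟨v, hv, hvl⟩ := hcomp ρ0 hρ0 ρ hρ g 1 (by rw [Matrix.one_mul, Matrix.mul_one])
    have hvl' : ∀ (l : ℕ) [Fact l.Prime], rl l ρ g = toQ l v * rl l ρ0 g := by
      intro l _
      rw [← hvl l, toQ_one, Matrix.mul_one]
    obtain ⟨a, ha⟩ := exists_int_of_padic v (by
      intro l _
      refine ⟨(ρ l g : Matrix _ _ ℤ_[l]) * (ρ0 l g⁻¹ : Matrix _ _ ℤ_[l]), ?_⟩
      have h1 : toQ l v = rl l ρ g * rl l ρ0 g⁻¹ := by
        rw [hvl' l, Matrix.mul_assoc, hinv, Matrix.mul_one]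
      rw [← ofZ_mul] at h1
      exact h1)
    refine ⟨a, ?_, fun l _ => by rw [ha]; exact hvl' l⟩
    apply rat_injective
    rw [rat_mul, rat_mul, ha, hv]
  choose! a haA hal using ha
  -- the semilinearity relation
  let Cc : Set (Matrix (Fin n) (Fin n) ℚ) := {c | c * rat A = rat A * c}
  let R : G → Matrix (Fin n) (Fin n) ℚ → Matrix (Fin n) (Fin n) ℚ → Prop := fun g c v =>
    ∀ (l : ℕ) [Fact l.Prime], rl l ρ0 g * toQ l c = toQ l v * rl l ρ0 g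
  have hRex : ∀ g, ∀ c ∈ Cc, ∃ v ∈ Cc, R g c v := fun g c hc => hcomp ρ0 hρ0 ρ0 hρ0 g c hc
  have hRuniq : ∀ g c v v', R g c v → R g c v' → v = v' := by
    intro g c v v' h h'
    apply hcancel ρ0 g
    rw [← h 2, ← h' 2]
  have hRinv : ∀ g, ∀ c ∈ Cc, ∃ c0 ∈ Cc, R g c0 c := by
    intro g c hc
    obtain ⟨c0, hc0, h0⟩ := hRex g⁻¹ c hc
    refine ⟨c0, hc0, fun l _ => ?_⟩
    have h1 := h0 l
    calc rl l ρ0 g * toQ l c0
        = rl l ρ0 g * (toQ l c0 * rl l ρ0 g⁻¹) * rl l ρ0 g := by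
          have h2 := hinv ρ0 l g⁻¹
          rw [inv_inv] at h2
          rw [Matrix.mul_assoc, Matrix.mul_assoc (toQ l c0), h2, Matrix.mul_one]
      _ = (rl l ρ0 g * rl l ρ0 g⁻¹) * toQ l c * rl l ρ0 g := by
          rw [← h1]; simp only [Matrix.mul_assoc]
      _ = _ := by rw [hinv, Matrix.one_mul]
  have hRmul : ∀ g g' c v w, R g' c v → R g v w → R (g * g') c w := by
    intro g g' c v w h h' l _
    rw [hmul, Matrix.mul_assoc, h l, ← Matrix.mul_assoc, h' l, Matrix.mul_assoc]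
  have hRH : ∀ h ∈ H, ∀ c ∈ Cc, R h c c := fun h hh c hc l _ => hHc ρ0 hρ0 h hh c hc l
  have hRcoset : ∀ (g g' : G), (g : G ⧸ H) = (g' : G ⧸ H) → ∀ c ∈ Cc, ∀ v, R g c v → R g' c v := by
    intro g g' hgg c hc v h
    have h1 : g' = g * (g⁻¹ * g') := by group
    rw [h1]
    exact hRmul _ _ _ _ _ (hRH _ (QuotientGroup.eq.1 hgg) c hc) h
  -- the rational semilinear maps
  have hs : ∀ g, ∃ s : Matrix (Fin n) (Fin n) ℚ, s.det ≠ 0 ∧ ∀ c ∈ Cc, ∀ v, R g c v →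
      s * c = v * s := by
    intro g
    have hdet : (rl 2 ρ0 g).det ≠ 0 := by
      intro h0
      have h1 := congrArg Matrix.det (hinv ρ0 2 g)
      rw [Matrix.det_mul, h0, zero_mul, Matrix.det_one] at h1
      exact zero_ne_one h1
    obtain ⟨s, hs, hΦ⟩ := exists_rat_intertwiner (E := ℚ_[2])
      {q : Matrix (Fin n) (Fin n) ℚ × Matrix (Fin n) (Fin n) ℚ | q.1 ∈ Cc ∧ R g q.1 q.2}
      (rl 2 ρ0 g) hdet (fun q hq => hq.2 2)
    exact ⟨s, hs, fun c hc v hv => hΦ (c, v) ⟨hc, hv⟩⟩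
  choose s hsdet hsR using hs
  have hfin : Finite (G ⧸ H) := Subgroup.finite_quotient_of_finiteIndex
  have hftype : Fintype (G ⧸ H) := Fintype.ofFinite _
  let o : G ⧸ H → G := Quotient.out
  have ho : ∀ γ : G ⧸ H, (o γ : G ⧸ H) = γ := fun γ => Quotient.out_eq' γ
  have ho1 : o 1 ∈ H := by
    rw [← QuotientGroup.eq_one_iff, ho]
  let σ : G ⧸ H → Matrix (Fin n) (Fin n) ℚ := fun γ => if γ = 1 then 1 else s (o γ)
  have hσ1 : σ 1 = 1 := by simp [σ]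
  have hσdet : ∀ γ, (σ γ).det ≠ 0 := by
    intro γ
    by_cases h : γ = 1
    · subst h; rw [hσ1, Matrix.det_one]; exact one_ne_zero
    · simp only [σ, if_neg h]; exact hsdet _
  have hσR : ∀ γ, ∀ c ∈ Cc, ∀ v, R (o γ) c v → σ γ * c = v * σ γ := by
    intro γ c hc v hv
    by_cases h : γ = 1
    · subst h
      rw [hσ1, Matrix.one_mul, Matrix.mul_one]
      exact hRuniq _ _ _ _ (hRH _ ho1 c hc) hv
    · simp only [σ, if_neg h]; exact hsR _ c hc v hv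
  -- inverses
  choose τ hτ1 hτ2 using fun γ => show ∃ τ : Matrix (Fin n) (Fin n) ℚ, σ γ * τ = 1 ∧ τ * σ γ = 1 from
    ⟨(σ γ)⁻¹, Matrix.mul_nonsing_inv _ (isUnit_iff_ne_zero.2 (hσdet γ)),
      Matrix.nonsing_inv_mul _ (isUnit_iff_ne_zero.2 (hσdet γ))⟩
  have hAC : rat A ∈ Cc := rfl
  have hfA : aeval (rat A) (f.map (Int.castRingHom ℚ)) = 0 := by
    have h1 := aeval_mapMat (Int.castRingHom ℚ) A f
    rw [hA, map_zero] at h1
    exact h1.symm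
  have hbic : ∀ Z : Matrix (Fin n) (Fin n) ℚ, (∀ c ∈ Cc, c * Z = Z * c) →
      ∃ p : ℚ[X], Z = aeval (rat A) p := fun Z hZ => exists_poly_of_commute hf hfA Z hZ
  have hRo : ∀ γ γ', ∀ c ∈ Cc, ∀ v w, R (o γ') c v → R (o γ) v w → R (o (γ * γ')) c w := by
    intro γ γ' c hc v w h h'
    refine hRcoset (o γ * o γ') _ ?_ c hc w (hRmul _ _ _ _ _ h h')
    rw [QuotientGroup.mk_mul, ho, ho, ho]
  -- the factor set
  have hecomm : ∀ γ γ', ∀ c ∈ Cc, c * (σ γ * σ γ' * τ (γ * γ')) = (σ γ * σ γ' * τ (γ * γ')) * c := by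
    intro γ γ' c hc
    obtain ⟨c0, hc0, h0⟩ := hRinv (o (γ * γ')) c hc
    obtain ⟨c1, hc1, h1⟩ := hRex (o γ') c0 hc0
    obtain ⟨c2, hc2, h2⟩ := hRex (o γ) c1 hc1
    have h3 : c2 = c := hRuniq _ _ _ _ (hRo γ γ' c0 hc0 c1 c2 h1 h2) h0
    rw [h3] at h2
    have e1 := hσR (γ * γ') c0 hc0 c h0
    have e2 := hσR γ' c0 hc0 c1 h1
    have e3 := hσR γ c1 hc1 c h2
    have e4 : τ (γ * γ') * c = c0 * τ (γ * γ') := by
      calc τ (γ * γ') * c = τ (γ * γ') * (c * σ (γ * γ')) * τ (γ * γ') := by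
            rw [Matrix.mul_assoc, Matrix.mul_assoc c, hτ1, Matrix.mul_one]
        _ = (τ (γ * γ') * σ (γ * γ')) * c0 * τ (γ * γ') := by
            rw [← e1]; simp only [Matrix.mul_assoc]
        _ = _ := by rw [hτ2, Matrix.one_mul]
    calc c * (σ γ * σ γ' * τ (γ * γ')) = (c * σ γ) * σ γ' * τ (γ * γ') := by
          simp only [Matrix.mul_assoc]
      _ = σ γ * (c1 * σ γ') * τ (γ * γ') := by rw [← e3]; simp only [Matrix.mul_assoc]
      _ = σ γ * σ γ' * (c0 * τ (γ * γ')) := by rw [← e2]; simp only [Matrix.mul_assoc]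
      _ = _ := by rw [← e4]; simp only [Matrix.mul_assoc]
  choose ε hε using fun γ γ' => hbic _ (hecomm γ γ')
  have hσσ : ∀ γ γ', σ γ * σ γ' = aeval (rat A) (ε γ γ') * σ (γ * γ') := by
    intro γ γ'
    rw [← hε, Matrix.mul_assoc, hτ2, Matrix.mul_one]
  have hinvcomm : ∀ γ γ', ∀ c ∈ Cc, c * (σ (γ * γ') * τ γ' * τ γ) = (σ (γ * γ') * τ γ' * τ γ) * c := by
    intro γ γ' c hc
    have h1 : (σ γ * σ γ' * τ (γ * γ')) * (σ (γ * γ') * τ γ' * τ γ) = 1 := by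
      calc _ = σ γ * σ γ' * (τ (γ * γ') * σ (γ * γ')) * τ γ' * τ γ := by
            simp only [Matrix.mul_assoc]
        _ = σ γ * (σ γ' * τ γ') * τ γ := by
            rw [hτ2, Matrix.mul_one]; simp only [Matrix.mul_assoc]
        _ = 1 := by rw [hτ1, Matrix.mul_one, hτ1]
    have h2 : (σ (γ * γ') * τ γ' * τ γ) * (σ γ * σ γ' * τ (γ * γ')) = 1 := mul_eq_one_comm.1 h1
    set Z := σ (γ * γ') * τ γ' * τ γ
    set W := σ γ * σ γ' * τ (γ * γ')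
    calc c * Z = (Z * W) * c * Z := by rw [h2, Matrix.one_mul]
      _ = Z * (c * W) * Z := by rw [show c * W = W * c from hecomm γ γ' c hc, Matrix.mul_assoc Z W c]
      _ = Z * c * (W * Z) := by simp only [Matrix.mul_assoc]
      _ = _ := by rw [h1, Matrix.mul_one]
  choose ε' hε' using fun γ γ' => hbic _ (hinvcomm γ γ')
  have hεε' : ∀ γ γ', aeval (rat A) (ε γ γ') * aeval (rat A) (ε' γ γ') = 1 := by
    intro γ γ'
    rw [← hε, ← hε']
    calc _ = σ γ * σ γ' * (τ (γ * γ') * σ (γ * γ')) * τ γ' * τ γ := by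
          simp only [Matrix.mul_assoc]
      _ = σ γ * (σ γ' * τ γ') * τ γ := by
          rw [hτ2, Matrix.mul_one]; simp only [Matrix.mul_assoc]
      _ = 1 := by rw [hτ1, Matrix.mul_one, hτ1]
  -- the conjugation polynomials
  have hhcomm : ∀ γ, ∀ c ∈ Cc, c * (τ γ * rat A * σ γ) = (τ γ * rat A * σ γ) * c := by
    intro γ c hc
    obtain ⟨v, hv, h1⟩ := hRex (o γ) c hc
    have e1 := hσR γ c hc v h1
    have e2 : c * τ γ = τ γ * v := by
      calc c * τ γ = τ γ * (σ γ * c) * τ γ := by rw [← Matrix.mul_assoc, hτ2, Matrix.one_mul]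
        _ = τ γ * v * (σ γ * τ γ) := by rw [e1]; simp only [Matrix.mul_assoc]
        _ = _ := by rw [hτ1, Matrix.mul_one]
    calc c * (τ γ * rat A * σ γ) = (c * τ γ) * rat A * σ γ := by simp only [Matrix.mul_assoc]
      _ = τ γ * (v * rat A) * σ γ := by rw [e2]; simp only [Matrix.mul_assoc]
      _ = τ γ * rat A * (v * σ γ) := by
          have hv' : v * rat A = rat A * v := hv
          rw [hv']; simp only [Matrix.mul_assoc]
      _ = _ := by rw [← e1]; simp only [Matrix.mul_assoc]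
  choose hp hhp using fun γ => hbic _ (hhcomm γ)
  have hAσ : ∀ γ, rat A * σ γ = σ γ * aeval (rat A) (hp γ) := by
    intro γ
    rw [← hhp, ← Matrix.mul_assoc, ← Matrix.mul_assoc, hτ1, Matrix.one_mul]
  -- common denominator
  have hN : ∃ N : ℤ, N ≠ 0 ∧ ∀ γ, ∃ Y : Matrix (Fin n) (Fin n) ℤ, rat Y = (N : ℚ) • σ γ := by
    choose k hk Y hY using fun γ => exists_int_multiple (σ γ)
    refine ⟨∏ γ, k γ, Finset.prod_ne_zero_iff.2 fun γ _ => hk γ, fun γ => ?_⟩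
    refine ⟨(∏ γ' ∈ Finset.univ.erase γ, k γ') • Y γ, ?_⟩
    ext i j
    have h1 : (∏ γ', k γ') = k γ * ∏ γ' ∈ Finset.univ.erase γ, k γ' :=
      (Finset.mul_prod_erase Finset.univ k (Finset.mem_univ γ)).symm
    rw [h1]
    simp only [rat, Matrix.map_apply, Matrix.smul_apply, smul_eq_mul, map_mul, Int.cast_mul]
    simp only [eq_intCast]
    push_cast
    rw [hY]
    ring
  obtain ⟨N, hN0, hNY⟩ := hN
  choose Y hY using hNY
  have hNq : (N : ℚ) ≠ 0 := by exact_mod_cast hN0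
  -- the tuples
  let tup : Fam G n → (Option (G ⧸ H) → Matrix (Fin n) (Fin n) ℤ) := fun ρ i =>
    match i with
    | none => A
    | some γ => a ρ (o γ) * Y γ
  have htup : ∀ ρ γ, rat (tup ρ (some γ)) = (N : ℚ) • (rat (a ρ (o γ)) * σ γ) := by
    intro ρ γ
    change rat (a ρ (o γ) * Y γ) = _
    rw [rat_mul, hY, Matrix.mul_smul]
  have haC : ∀ ρ ∈ 𝒮, ∀ g, rat (a ρ g) ∈ Cc := by
    intro ρ hρ g
    change rat (a ρ g) * rat A = rat A * rat (a ρ g)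
    rw [← rat_mul, ← rat_mul, haA ρ hρ g]
  have hrlH : ∀ ρ ∈ 𝒮, ∀ h ∈ H, ∀ (l : ℕ) [Fact l.Prime], rl l ρ h = rl l ρ0 h := by
    intro ρ hρ h hh l _
    change ofZ l (ρ l h : Matrix (Fin n) (Fin n) ℤ_[l]) = ofZ l (ρ0 l h : Matrix (Fin n) (Fin n) ℤ_[l])
    rw [hH ρ hρ ρ0 hρ0 h hh l]
  have haH : ∀ ρ ∈ 𝒮, ∀ h ∈ H, rat (a ρ h) = 1 := by
    intro ρ hρ h hh
    apply hcancel ρ0 h
    rw [← hal ρ hρ h 2, toQ_one, Matrix.one_mul]
    exact hrlH ρ hρ h hh 2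
  have hcoc : ∀ ρ ∈ 𝒮, ∀ γ γ' v, R (o γ) (rat (a ρ (o γ'))) v →
      rat (a ρ (o γ)) * v = rat (a ρ (o (γ * γ'))) := by
    intro ρ hρ γ γ' v hv
    apply hcancel ρ0 (o γ * o γ')
    have hh : (o (γ * γ'))⁻¹ * (o γ * o γ') ∈ H := by
      rw [← QuotientGroup.eq, QuotientGroup.mk_mul, ho, ho, ho]
    have h1 : o γ * o γ' = o (γ * γ') * ((o (γ * γ'))⁻¹ * (o γ * o γ')) := by group
    have e1 : toQ 2 (rat (a ρ (o γ)) * v) * rl 2 ρ0 (o γ * o γ') = rl 2 ρ (o γ * o γ') := by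
      calc toQ 2 (rat (a ρ (o γ)) * v) * rl 2 ρ0 (o γ * o γ')
          = toQ 2 (rat (a ρ (o γ))) * (toQ 2 v * rl 2 ρ0 (o γ)) * rl 2 ρ0 (o γ') := by
            rw [toQ_mul, hmul ρ0]; simp only [Matrix.mul_assoc]
        _ = (toQ 2 (rat (a ρ (o γ))) * rl 2 ρ0 (o γ)) *
              (toQ 2 (rat (a ρ (o γ'))) * rl 2 ρ0 (o γ')) := by
            rw [← hv 2]; simp only [Matrix.mul_assoc]
        _ = _ := by rw [← hal ρ hρ, ← hal ρ hρ, ← hmul ρ]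
    have e2 : toQ 2 (rat (a ρ (o (γ * γ')))) * rl 2 ρ0 (o γ * o γ') = rl 2 ρ (o γ * o γ') := by
      rw [h1, hmul ρ0, hmul ρ, ← Matrix.mul_assoc, ← hal ρ hρ, hrlH ρ hρ _ hh 2]
    rw [e1, e2]
  have hgood : ∀ ρ ∈ 𝒮, TGood f N hp (fun γ γ' => Polynomial.C (N : ℚ) * ε γ γ')
      (fun γ γ' => Polynomial.C (N : ℚ)⁻¹ * ε' γ γ') (tup ρ) := by
    intro ρ hρ
    have hcA : ∀ g, ∀ p : ℚ[X], aeval (rat A) p * rat (a ρ g) = rat (a ρ g) * aeval (rat A) p := by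
      intro g p
      exact aeval_intertwine (haC ρ hρ g).symm p
    constructor
    · exact hA
    · rw [htup, hσ1, haH ρ hρ _ ho1, Matrix.one_mul]
    · intro γ γ'
      obtain ⟨v, hvC, hv⟩ := hRex (o γ) _ (haC ρ hρ (o γ'))
      rw [htup, htup, htup]
      change _ = aeval (rat A) (Polynomial.C (N : ℚ) * ε γ γ') * _
      rw [map_mul, aeval_C, Algebra.algebraMap_eq_smul_one]
      simp only [Matrix.smul_mul, Matrix.mul_smul, Matrix.one_mul]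
      congr 2
      calc rat (a ρ (o γ)) * σ γ * (rat (a ρ (o γ')) * σ γ')
          = rat (a ρ (o γ)) * (σ γ * rat (a ρ (o γ'))) * σ γ' := by simp only [Matrix.mul_assoc]
        _ = (rat (a ρ (o γ)) * v) * (σ γ * σ γ') := by
            rw [hσR γ _ (haC ρ hρ (o γ')) v hv]; simp only [Matrix.mul_assoc]
        _ = rat (a ρ (o (γ * γ'))) * aeval (rat A) (ε γ γ') * σ (γ * γ') := by
            rw [hcoc ρ hρ γ γ' v hv, hσσ]; simp only [Matrix.mul_assoc]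
        _ = _ := by rw [← hcA]; simp only [Matrix.mul_assoc]
    · intro γ γ'
      change aeval (rat A) (Polynomial.C (N : ℚ) * ε γ γ') *
        aeval (rat A) (Polynomial.C (N : ℚ)⁻¹ * ε' γ γ') = 1
      rw [map_mul, map_mul, aeval_C, aeval_C, Algebra.algebraMap_eq_smul_one,
        Algebra.algebraMap_eq_smul_one]
      simp only [Matrix.smul_mul, Matrix.mul_smul, Matrix.one_mul, smul_smul]
      rw [hεε', inv_mul_cancel₀ hNq, one_smul]
    · intro γ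
      rw [htup]
      change rat A * _ = _ * aeval (rat A) (hp γ)
      rw [Matrix.mul_smul, Matrix.smul_mul]
      congr 1
      have h1 : rat A * rat (a ρ (o γ)) = rat (a ρ (o γ)) * rat A := (haC ρ hρ (o γ)).symm
      rw [← Matrix.mul_assoc, h1, Matrix.mul_assoc, hAσ, Matrix.mul_assoc]
  obtain ⟨T0, hT0, hT0A⟩ := finT_tgood hf hN0 hp (fun γ γ' => Polynomial.C (N : ℚ) * ε γ γ')
      (fun γ γ' => Polynomial.C (N : ℚ)⁻¹ * ε' γ γ') n
  let rp : (Option (G ⧸ H) → Matrix (Fin n) (Fin n) ℤ) → Fam G n := fun B =>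
    if h : ∃ ρ, ρ ∈ 𝒮 ∧ IsoT (tup ρ) B then h.choose else ρ0
  refine ⟨rp '' T0, ?_, hT0.image rp, ?_⟩
  · rintro _ ⟨B, hB, rfl⟩
    by_cases h : ∃ ρ, ρ ∈ 𝒮 ∧ IsoT (tup ρ) B
    · simp only [rp, dif_pos h]
      exact h.choose_spec.1
    · simp only [rp, dif_neg h]
      exact hρ0
  · intro ρ hρ
    obtain ⟨B, hB, hρB⟩ := hT0A (tup ρ) (hgood ρ hρ)
    have hex : ∃ ρ, ρ ∈ 𝒮 ∧ IsoT (tup ρ) B := ⟨ρ, hρ, hρB⟩
    obtain ⟨ρ', hρ'⟩ : ∃ ρ', ρ' = rp B := ⟨_, rfl⟩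
    have hρ'2 : ρ' ∈ 𝒮 ∧ IsoT (tup ρ') B := by
      rw [hρ']
      simp only [rp, dif_pos hex]
      exact hex.choose_spec
    refine ⟨ρ', ⟨B, hB, hρ'.symm⟩, ?_⟩
    obtain ⟨P, Q, hPQ, hQP, hPt⟩ := (hρB.trans hρ'2.2.symm).exists_conj
    have hPi : ∀ i, P * tup ρ i = tup ρ' i * P := by
      intro i
      rw [hPt, Matrix.mul_assoc, hQP, Matrix.mul_one]
    have hPA : P * A = A * P := hPi none
    have hPC : rat P ∈ Cc := by
      change rat P * rat A = rat A * rat P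
      rw [← rat_mul, ← rat_mul, hPA]
    refine ⟨⟨P, Q, hPQ, hQP⟩, hPA, fun l _ g => ?_⟩
    change P.map (algebraMap ℤ ℤ_[l]) * (ρ l g : Matrix (Fin n) (Fin n) ℤ_[l]) =
      (ρ' l g : Matrix (Fin n) (Fin n) ℤ_[l]) * P.map (algebraMap ℤ ℤ_[l])
    apply ofZ_injective l
    rw [ofZ_mul, ofZ_mul, ← toQ_rat]
    change toQ l (rat P) * rl l ρ g = rl l ρ' g * toQ l (rat P)
    obtain ⟨γ, hγ⟩ : ∃ γ : G ⧸ H, γ = (g : G ⧸ H) := ⟨_, rfl⟩
    have hh : (o γ)⁻¹ * g ∈ H := by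
      rw [← QuotientGroup.eq, ho, hγ]
    obtain ⟨h, hhdef⟩ : ∃ h, h = (o γ)⁻¹ * g := ⟨_, rfl⟩
    rw [← hhdef] at hh
    have hg : g = o γ * h := by rw [hhdef]; group
    obtain ⟨w, hwC, hw⟩ := hRex (o γ) _ hPC
    have e1 : rat P * rat (a ρ (o γ)) = rat (a ρ' (o γ)) * w := by
      have h1 : rat P * rat (tup ρ (some γ)) = rat (tup ρ' (some γ)) * rat P := by
        have h0 := congrArg rat (hPi (some γ))
        exact (rat_mul _ _).symm.trans (h0.trans (rat_mul _ _))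
      rw [htup, htup, Matrix.mul_smul, Matrix.smul_mul] at h1
      have h2 : rat P * (rat (a ρ (o γ)) * σ γ) = rat (a ρ' (o γ)) * σ γ * rat P :=
        smul_right_injective _ hNq h1
      have h3 : rat P * rat (a ρ (o γ)) * σ γ = rat (a ρ' (o γ)) * w * σ γ := by
        rw [Matrix.mul_assoc, h2, Matrix.mul_assoc, hσR γ _ hPC w hw, Matrix.mul_assoc]
      have h4 := congrArg (fun Z => Z * τ γ) h3
      simp only [Matrix.mul_assoc, hτ1, Matrix.mul_one] at h4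
      exact h4
    calc toQ l (rat P) * rl l ρ g
        = toQ l (rat P) * (toQ l (rat (a ρ (o γ))) * rl l ρ0 (o γ) * rl l ρ0 h) := by
          rw [hg, hmul ρ, ← hal ρ hρ, hrlH ρ hρ h hh l]
      _ = toQ l (rat P * rat (a ρ (o γ))) * rl l ρ0 (o γ) * rl l ρ0 h := by
          rw [toQ_mul]; simp only [Matrix.mul_assoc]
      _ = toQ l (rat (a ρ' (o γ))) * (toQ l w * rl l ρ0 (o γ)) * rl l ρ0 h := by
          rw [e1, toQ_mul]; simp only [Matrix.mul_assoc]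
      _ = toQ l (rat (a ρ' (o γ))) * rl l ρ0 (o γ) * (toQ l (rat P) * rl l ρ0 h) := by
          rw [← hw l]; simp only [Matrix.mul_assoc]
      _ = (toQ l (rat (a ρ' (o γ))) * rl l ρ0 (o γ)) * rl l ρ0 h * toQ l (rat P) := by
          rw [← hHc ρ0 hρ0 h hh _ hPC l]; simp only [Matrix.mul_assoc]
      _ = rl l ρ' (o γ) * rl l ρ' h * toQ l (rat P) := by
          rw [← hal ρ' hρ'2.1, hrlH ρ' hρ'2.1 h hh l]
      _ = _ := by rw [← hmul ρ', ← hg]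

end AbMot
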