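import Mathlib

/-!
# Abelian (CM) `ℤ`-motives over a number field: definitions

By the theory of abelian `l`-adic representations and CM motives (Serre, Deligne, Langlands), a pure
`ℚ`-motive over a number field `F` with abelian Galois image and good reduction outside a finite
set `S` of rational primes is the same thing as an algebraic Hecke character of `F` with values in
`GL_n(ℚ)` and with conductor supported on `S`, and a Galois stable lattice in its adelic
realization is the same thing as a `ℤ`-lattice (here `ℤ^n`) which is, for every prime `l`, stable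
at `l` under the Frobenius elements at all places of `F` away from `l` and `S`.
-/

open NumberField

namespace AbMot

/-- The monoid of nonzero ideals of the ring of integers of `F` which are prime to all `p ∈ S`. -/
def idealsAway (F : Type) [Field F] [NumberField F] (S : Finset ℕ) :
    Submonoid (Ideal (𝓞 F)) where
  carrier := {I | I ≠ ⊥ ∧ ∀ p ∈ S, IsCoprime I (Ideal.span {(p : 𝓞 F)})}
  mul_mem' := fun ha hb => ⟨mul_ne_zero ha.1 hb.1, fun p hp => (ha.2 p hp).mul_left (hb.2 p hp)⟩
  one_mem' := ⟨one_ne_zero, fun _ _ => isCoprime_one_left⟩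

/-- A totally positive algebraic integer. -/
def TotPos {F : Type} [Field F] [NumberField F] (α : 𝓞 F) : Prop :=
  ∀ σ : F →+* ℝ, 0 < σ (α : F)

/-- `χ` is an algebraic Hecke character of `F`, unramified outside `S`, pure of weight `w` and
effective: there are a modulus `m` with all its prime factors in `S` and exponents `e σ ≥ 0`,
`e σ + e (conj σ) = w`, such that `χ ((α)) = ∏ σ(α)^(e σ)` for all totally positive `α` prime to
`S` with `α ≡ 1 mod m`. -/
def IsHecke {F : Type} [Field F] [NumberField F] (S : Finset ℕ) (w : ℕ)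
    (χ : idealsAway F S →* ℂ) : Prop :=
  ∃ m : ℕ, m ≠ 0 ∧ (∀ p : ℕ, p.Prime → p ∣ m → p ∈ S) ∧
    ∃ e : (F →+* ℂ) → ℕ, (∀ σ, e σ + e (ComplexEmbedding.conjugate σ) = w) ∧
      ∀ (α : 𝓞 F) (h : Ideal.span {α} ∈ idealsAway F S), (m : 𝓞 F) ∣ α - 1 → TotPos α →
        χ ⟨Ideal.span {α}, h⟩ = ∏ σ : F →+* ℂ, (σ (α : F)) ^ (e σ)

/-- Abelian pure `ℤ`-motives of rank `n` and weight `w` over `F` with good reduction outside
`S`: the lattice is `ℤ^n` and `ψ P` is the action of the Frobenius at `P` on the rational Betti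
realization `ℚ^n`. -/
structure ZMotive (F : Type) [Field F] [NumberField F] (S : Finset ℕ) (n w : ℕ) where
  /-- the Frobenius action -/
  ψ : idealsAway F S →* Matrix.GeneralLinearGroup (Fin n) ℚ
  /-- for every prime `l` the lattice `ℤ_(l)^n` is stable under all Frobenius elements away from
  `l` (and `S`) -/
  stable : ∀ l : ℕ, l.Prime → ∀ I : idealsAway F S,
    IsCoprime (I : Ideal (𝓞 F)) (Ideal.span {(l : 𝓞 F)}) → ∀ i j,
      ¬ l ∣ ((ψ I : Matrix (Fin n) (Fin n) ℚ) i j).den ∧
      ¬ l ∣ (((ψ I)⁻¹ : Matrix.GeneralLinearGroup (Fin n) ℚ) i j).den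
  /-- over `ℂ` the Frobenius action is a direct sum of algebraic Hecke characters of weight `w` -/
  hecke : ∃ (χ : Fin n → (idealsAway F S →* ℂ)) (C : Matrix.GeneralLinearGroup (Fin n) ℂ),
    (∀ i, IsHecke S w (χ i)) ∧
    ∀ I, (ψ I : Matrix (Fin n) (Fin n) ℚ).map (algebraMap ℚ ℂ) =
      (C : Matrix (Fin n) (Fin n) ℂ) * Matrix.diagonal (fun i => χ i I) *
        ((C⁻¹ : Matrix.GeneralLinearGroup (Fin n) ℂ) : Matrix (Fin n) (Fin n) ℂ)

/-- Isomorphisms of abelian `ℤ`-motives: an element of `GL_n(ℤ)` which intertwines the Frobenius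
actions. -/
def ZMotive.Iso {F : Type} [Field F] [NumberField F] {S : Finset ℕ} {n w : ℕ}
    (M M' : ZMotive F S n w) : Prop :=
  ∃ g : Matrix.GeneralLinearGroup (Fin n) ℤ, ∀ I,
    (g : Matrix (Fin n) (Fin n) ℤ).map (algebraMap ℤ ℚ) * (M.ψ I : Matrix (Fin n) (Fin n) ℚ) =
      (M'.ψ I : Matrix (Fin n) (Fin n) ℚ) * (g : Matrix (Fin n) (Fin n) ℤ).map (algebraMap ℤ ℚ)

end AbMot
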