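import Pool.Agent.Helper40.AbMot.Defs

/-!
# Pure `ℤ`-motives over `F` which become abelian over `K`: definitions

`Ω` is the algebraic closure of `F`, `K ⊆ Ω` is a finite Galois extension of `F`. The Betti lattice
(for an embedding of `Ω` in `ℂ`) is `ℤ^n`, its `l`-adic completions carry the representations `ρ l`
of the absolute Galois group of `F`, and the geometric Frobenius elements at the primes `P` of `K`
act on `ℚ^n` by rational matrices `ψ P` independent of `l`.
-/

open NumberField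

namespace AbMot

/-- `σ` is an (arithmetic) Frobenius element at the prime `P` of `K`: there is a prime `𝔓` above `P`
of the ring of all algebraic integers of `Ω` with `σ x ≡ x ^ N(P)` modulo `𝔓` for all algebraic
integers `x` of `Ω`. -/
def IsFrob {F Ω : Type} [Field F] [Field Ω] [Algebra F Ω] (K : IntermediateField F Ω)
    [NumberField K] (P : Ideal (𝓞 K)) (σ : Ω ≃ₐ[F] Ω) : Prop :=
  ∃ 𝔓 : Ideal (integralClosure ℤ Ω), 𝔓.IsPrime ∧
    (∀ (x : 𝓞 K) (y : integralClosure ℤ Ω), (y : Ω) = ((x : K) : Ω) → (x ∈ P ↔ y ∈ 𝔓)) ∧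
    ∀ x y : integralClosure ℤ Ω, (y : Ω) = σ (x : Ω) → y - x ^ (Ideal.absNorm P) ∈ 𝔓

/-- Pure `ℤ`-motives of rank `n` and weight `w` over `F` which are abelian over `K`, where they have
good reduction outside `S`: the lattice is `ℤ^n`. -/
structure PMotive (F : Type) [Field F] [NumberField F]
    (K : IntermediateField F (AlgebraicClosure F)) [NumberField K] (S : Finset ℕ) (n w : ℕ) where
  /-- the motive over `K` -/
  base : ZMotive K S n w
  /-- the Galois action of the absolute Galois group of `F` on the `l`-adic realization -/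
  ρ : ∀ (l : ℕ) [Fact l.Prime], (AlgebraicClosure F ≃ₐ[F] AlgebraicClosure F) →*
    Matrix.GeneralLinearGroup (Fin n) ℤ_[l]
  continuous : ∀ (l : ℕ) [Fact l.Prime], Continuous (ρ l)
  /-- the inverse of a Frobenius element at a prime `P` of `K` away from `S` and `l` acts by
  `ψ P` -/
  frob : ∀ (l : ℕ) [Fact l.Prime] (P : idealsAway K S), (P : Ideal (𝓞 K)).IsPrime →
    (l : 𝓞 K) ∉ (P : Ideal (𝓞 K)) → ∀ σ ∈ K.fixingSubgroup, IsFrob K (P : Ideal (𝓞 K)) σ →
    (ρ l σ : Matrix (Fin n) (Fin n) ℤ_[l]).map (algebraMap ℤ_[l] ℚ_[l]) *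
      (base.ψ P : Matrix (Fin n) (Fin n) ℚ).map (algebraMap ℚ ℚ_[l]) = 1

/-- Galois conjugation by elements of the absolute Galois group of `F` preserves the space of
homomorphisms over `K` from `M` to `M'`. (For motives this is clear, since a Galois conjugate of a
homomorphism over `K` is again a homomorphism over `K`.) -/
def PMotive.Compatible {F : Type} [Field F] [NumberField F]
    {K : IntermediateField F (AlgebraicClosure F)} [NumberField K] {S : Finset ℕ} {n w : ℕ}
    (M M' : PMotive F K S n w) : Prop :=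
  ∀ (g : AlgebraicClosure F ≃ₐ[F] AlgebraicClosure F) (u : Matrix (Fin n) (Fin n) ℚ),
    (∀ I, u * (M.base.ψ I : Matrix (Fin n) (Fin n) ℚ) =
      (M'.base.ψ I : Matrix (Fin n) (Fin n) ℚ) * u) →
    ∃ v : Matrix (Fin n) (Fin n) ℚ,
      (∀ I, v * (M.base.ψ I : Matrix (Fin n) (Fin n) ℚ) =
        (M'.base.ψ I : Matrix (Fin n) (Fin n) ℚ) * v) ∧
      ∀ (l : ℕ) [Fact l.Prime],
        (M'.ρ l g : Matrix (Fin n) (Fin n) ℤ_[l]).map (algebraMap ℤ_[l] ℚ_[l]) *
            u.map (algebraMap ℚ ℚ_[l]) =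
          v.map (algebraMap ℚ ℚ_[l]) *
            (M.ρ l g : Matrix (Fin n) (Fin n) ℤ_[l]).map (algebraMap ℤ_[l] ℚ_[l])

/-- Isomorphisms over `F`: elements of `GL_n(ℤ)` which intertwine the Frobenius actions and the
actions of the absolute Galois group of `F`. -/
def PMotive.Iso {F : Type} [Field F] [NumberField F]
    {K : IntermediateField F (AlgebraicClosure F)} [NumberField K] {S : Finset ℕ} {n w : ℕ}
    (M M' : PMotive F K S n w) : Prop :=
  ∃ u : Matrix.GeneralLinearGroup (Fin n) ℤ,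
    (∀ I, (u : Matrix (Fin n) (Fin n) ℤ).map (algebraMap ℤ ℚ) *
        (M.base.ψ I : Matrix (Fin n) (Fin n) ℚ) =
      (M'.base.ψ I : Matrix (Fin n) (Fin n) ℚ) *
        (u : Matrix (Fin n) (Fin n) ℤ).map (algebraMap ℤ ℚ)) ∧
    ∀ (l : ℕ) [Fact l.Prime] (g : AlgebraicClosure F ≃ₐ[F] AlgebraicClosure F),
      (u : Matrix (Fin n) (Fin n) ℤ).map (algebraMap ℤ ℤ_[l]) *
          (M.ρ l g : Matrix (Fin n) (Fin n) ℤ_[l]) =
        (M'.ρ l g : Matrix (Fin n) (Fin n) ℤ_[l]) *
          (u : Matrix (Fin n) (Fin n) ℤ).map (algebraMap ℤ ℤ_[l])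

end AbMot
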