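import Pool.Agent.Helper40.AbMot.FrobDef
import Pool.Agent.Helper40.AbMot.GDefs

/-!
# Density of the Frobenius elements
-/

open NumberField Topology

namespace AbMot

/-- the statement of the weak form of the density theorem of Chebotarev -/
def WeakChebotarev (K Ω : Type) [Field K] [NumberField K] [Field Ω] [Algebra K Ω] : Prop :=
  ∀ (S : Finset ℕ), (∀ p ∈ S, p ≠ 0) → ∀ (Y : Subgroup (Ω ≃ₐ[K] Ω)), Y.Normal →
    IsOpen (Y : Set (Ω ≃ₐ[K] Ω)) →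
    (∀ P : Ideal (𝓞 K), P.IsPrime → P ≠ ⊥ → (∀ p ∈ S, (p : 𝓞 K) ∉ P) →
      ∀ σ : Ω ≃ₐ[K] Ω, IsFrobK P σ → σ ∈ Y) → Y = ⊤

lemma IsFrobK.conj {K Ω : Type} [Field K] [NumberField K] [Field Ω] [Algebra K Ω]
    {P : Ideal (𝓞 K)} {σ : Ω ≃ₐ[K] Ω} (h : IsFrobK P σ) (τ : Ω ≃ₐ[K] Ω) :
    IsFrobK P (τ * σ * τ⁻¹) := by
  obtain ⟨𝔓, hp, h1, h2⟩ := h
  let e : integralClosure ℤ Ω ≃ₐ[ℤ] integralClosure ℤ Ω :=
    ((τ⁻¹).restrictScalars ℤ).mapIntegralClosure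
  have he : ∀ x : integralClosure ℤ Ω, (e x : Ω) = τ⁻¹ (x : Ω) := fun x => rfl
  refine ⟨𝔓.comap e, Ideal.comap_isPrime e 𝔓, ?_, ?_⟩
  · intro x y hxy
    rw [Ideal.mem_comap]
    apply h1
    rw [he, hxy]
    exact (τ⁻¹).commutes (x : K)
  · intro x y hxy
    rw [Ideal.mem_comap, map_sub, map_pow]
    apply h2
    rw [he, he, hxy]
    simp

variable {K Ω : Type} [Field K] [NumberField K] [Field Ω] [Algebra K Ω]

/-- a closed subgroup containing almost all Frobenius elements is everything -/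
theorem frob_dense [IsGalois K Ω] (hWC : WeakChebotarev K Ω) (S : Finset ℕ)
    (hS : ∀ p ∈ S, p ≠ 0) (Z : Subgroup (Ω ≃ₐ[K] Ω)) (hZ : IsClosed (Z : Set (Ω ≃ₐ[K] Ω)))
    (h : ∀ P : Ideal (𝓞 K), P.IsPrime → P ≠ ⊥ → (∀ p ∈ S, (p : 𝓞 K) ∉ P) →
      ∀ σ : Ω ≃ₐ[K] Ω, IsFrobK P σ → σ ∈ Z) : Z = ⊤ := by
  let 𝓕 : Set (Ω ≃ₐ[K] Ω) := {σ | ∃ P : Ideal (𝓞 K), P.IsPrime ∧ P ≠ ⊥ ∧
    (∀ p ∈ S, (p : 𝓞 K) ∉ P) ∧ IsFrobK P σ}
  let N := Subgroup.normalClosure 𝓕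
  have hNZ : N ≤ Z := by
    refine (Subgroup.closure_le Z).2 ?_
    intro x hx
    rw [Group.mem_conjugatesOfSet_iff] at hx
    obtain ⟨a, ⟨P, hP, hP0, hPS, ha⟩, hax⟩ := hx
    obtain ⟨c, rfl⟩ := isConj_iff.1 hax
    exact h P hP hP0 hPS _ (ha.conj c)
  rw [eq_top_iff]
  intro g _
  by_contra hg
  have hopen : {x | g * x ∈ (Z : Set (Ω ≃ₐ[K] Ω))ᶜ} ∈ 𝓝 (1 : Ω ≃ₐ[K] Ω) := by
    have h1 : IsOpen {x : Ω ≃ₐ[K] Ω | g * x ∈ (Z : Set (Ω ≃ₐ[K] Ω))ᶜ} :=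
      hZ.isOpen_compl.preimage (continuous_const_mul g)
    apply h1.mem_nhds
    simpa using hg
  obtain ⟨E, hE, hEn, hEs⟩ := (krullTopology_mem_nhds_one_iff_of_normal K Ω _).1 hopen
  have hEgal : IsGalois K E := { }
  have hUn : E.fixingSubgroup.Normal := (InfiniteGalois.normal_iff_isGalois E).2 hEgal
  have hY := hWC S hS (N ⊔ E.fixingSubgroup) inferInstance
    (Subgroup.isOpen_mono le_sup_right E.fixingSubgroup_isOpen)
    (fun P hP hP0 hPS σ hσ => Subgroup.mem_sup_left (Subgroup.subset_normalClosure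
      ⟨P, hP, hP0, hPS, hσ⟩))
  have hg' : g ∈ N ⊔ E.fixingSubgroup := by rw [hY]; trivial
  rw [Subgroup.mem_sup_of_normal_left] at hg'
  obtain ⟨y, hy, u, hu, hyu⟩ := hg'
  have h1 := hEs (inv_mem hu)
  apply h1
  have h2 : g * u⁻¹ = y := by rw [← hyu]; group
  change g * u⁻¹ ∈ (Z : Set (Ω ≃ₐ[K] Ω))
  rw [h2]
  exact hNZ hy

/-- density of Frobenius elements, relative version -/
theorem frob_dense_rel {F Ω : Type} [Field F] [Field Ω] [Algebra F Ω] [IsGalois F Ω]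
    (K : IntermediateField F Ω) [NumberField K] (hWC : WeakChebotarev K Ω) (S : Finset ℕ)
    (hS : ∀ p ∈ S, p ≠ 0) (Z : Subgroup (Ω ≃ₐ[F] Ω)) (hZ : IsClosed (Z : Set (Ω ≃ₐ[F] Ω)))
    (h : ∀ P : Ideal (𝓞 K), P.IsPrime → P ≠ ⊥ → (∀ p ∈ S, (p : 𝓞 K) ∉ P) →
      ∀ σ ∈ K.fixingSubgroup, IsFrob K P σ → σ ∈ Z) : K.fixingSubgroup ≤ Z := by
  let r : (Ω ≃ₐ[K] Ω) →* (Ω ≃ₐ[F] Ω) :=
    K.fixingSubgroup.subtype.comp K.fixingSubgroupEquiv.symm.toMonoidHom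
  have hr : ∀ (σ : Ω ≃ₐ[K] Ω) x, r σ x = σ x := fun σ x => rfl
  have hrcont : Continuous r := by
    apply continuous_of_continuousAt_one r
    intro s hs
    rw [map_one] at hs
    obtain ⟨E, hE, hEs⟩ := (krullTopology_mem_nhds_one_iff F Ω s).1 hs
    rw [Filter.mem_map]
    let b := Module.finBasis F E
    let E' : IntermediateField K Ω := IntermediateField.adjoin K (Set.range fun i => ((b i : E) : Ω))
    have hE' : FiniteDimensional K E' := by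
      have : Algebra.IsAlgebraic K Ω := Algebra.IsAlgebraic.tower_top (K := F) K
      apply IntermediateField.finiteDimensional_adjoin
      intro x _
      exact (Algebra.IsAlgebraic.isAlgebraic x).isIntegral
    refine (krullTopology_mem_nhds_one_iff K Ω _).2 ⟨E', hE', ?_⟩
    intro σ hσ
    apply hEs
    change r σ ∈ E.fixingSubgroup
    rw [IntermediateField.mem_fixingSubgroup_iff]
    intro x hx
    rw [hr]
    have hσ' : ∀ i, σ ((b i : E) : Ω) = ((b i : E) : Ω) := by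
      intro i
      exact (IntermediateField.mem_fixingSubgroup_iff E' σ).1 hσ _
        (IntermediateField.subset_adjoin K _ ⟨i, rfl⟩)
    have h1 : x = ∑ i, (b.repr ⟨x, hx⟩ i) • ((b i : E) : Ω) := by
      have h2 := congrArg E.val (b.sum_repr ⟨x, hx⟩)
      rw [map_sum] at h2
      simp only [map_smul] at h2
      exact h2.symm
    rw [h1, ← hr, map_sum]
    refine Finset.sum_congr rfl fun i _ => ?_
    rw [map_smul, hr, hσ']
  have h2 := frob_dense hWC S hS (Z.comap r) (hZ.preimage hrcont) (by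
    intro P hP hP0 hPS σ hσ
    rw [Subgroup.mem_comap]
    refine h P hP hP0 hPS _ (K.fixingSubgroupEquiv.symm σ).2 ?_
    obtain ⟨𝔓, hp, h1, h2⟩ := hσ
    exact ⟨𝔓, hp, h1, h2⟩)
  intro g hg
  have h3 : K.fixingSubgroupEquiv ⟨g, hg⟩ ∈ Z.comap r := by rw [h2]; trivial
  rw [Subgroup.mem_comap] at h3
  have h4 : r (K.fixingSubgroupEquiv ⟨g, hg⟩) = g := by
    change ((K.fixingSubgroupEquiv.symm (K.fixingSubgroupEquiv ⟨g, hg⟩) : K.fixingSubgroup) :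
      Ω ≃ₐ[F] Ω) = g
    rw [MulEquiv.symm_apply_apply]
  rw [h4] at h3
  exact h3

end AbMot
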