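import Pool.Agent.Helper40.AbMot.Defs

/-!
# Pure `ℤ`-motives which are abelian over `K`, with a finite group acting compatibly on `K`

The case of the trivial group is `ZMotive`. The main case is `G = {1, c}` acting on `K` through an
automorphism `c` which is complex conjugation for some embedding of `K` (so the fixed field `F` has a
real place which becomes complex in `K`): then `ρ c` is the action of complex conjugation (the Frobenius at
infinity) on the Betti realization, and the structure is that of a pure `ℤ`-motive over `F` which
becomes abelian over `K`.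
-/

open NumberField

namespace AbMot

/-- The action of an automorphism of `K` on the ideals prime to `S`. -/
def galIdeal {K : Type} [Field K] [NumberField K] (S : Finset ℕ) (σ : K ≃+* K) :
    idealsAway K S →* idealsAway K S where
  toFun I := ⟨(I : Ideal (𝓞 K)).map (RingOfIntegers.mapRingEquiv σ), by
    constructor
    · rw [Ne, Ideal.map_eq_bot_iff_of_injective (RingOfIntegers.mapRingEquiv σ).injective]
      exact I.2.1
    · intro p hp
      have h := I.2.2 p hp
      rw [Ideal.isCoprime_iff_sup_eq] at h ⊢
      have h2 : (Ideal.span {(p : 𝓞 K)}).map (RingOfIntegers.mapRingEquiv σ) =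
          Ideal.span {(p : 𝓞 K)} := by
        rw [Ideal.map_span, Set.image_singleton, map_natCast]
      rw [← h2, ← Ideal.map_sup, h, Ideal.map_top]⟩
  map_one' := by
    apply Subtype.ext
    change (1 : Ideal (𝓞 K)).map (RingOfIntegers.mapRingEquiv σ) = 1
    rw [Ideal.one_eq_top, Ideal.map_top]
  map_mul' I J := by
    apply Subtype.ext
    exact Ideal.map_mul _ _ _

/-- Pure `ℤ`-motives of rank `n` and weight `w`, abelian over `K`, with good reduction outside
`S`, together with a compatible action of the finite group `G` (which acts on `K` through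
`act`) on the lattice `ℤ^n`. -/
structure EMotive (K : Type) [Field K] [NumberField K] (G : Type) [Group G]
    (act : G →* RingAut K) (S : Finset ℕ) (n w : ℕ) extends ZMotive K S n w where
  /-- the action of `G` on the lattice -/
  ρ : G →* Matrix.GeneralLinearGroup (Fin n) ℤ
  /-- the Frobenius at `g P` is conjugate to the Frobenius at `P` by the action of `g` -/
  equivariant : ∀ (g : G) (I : idealsAway K S),
    (ρ g : Matrix (Fin n) (Fin n) ℤ).map (algebraMap ℤ ℚ) * (ψ I : Matrix (Fin n) (Fin n) ℚ) =
      (ψ (galIdeal S (act g) I) : Matrix (Fin n) (Fin n) ℚ) *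
        (ρ g : Matrix (Fin n) (Fin n) ℤ).map (algebraMap ℤ ℚ)

/-- Isomorphisms: elements of `GL_n(ℤ)` which intertwine the Frobenius actions and the actions
of `G`. -/
def EMotive.Iso {K : Type} [Field K] [NumberField K] {G : Type} [Group G]
    {act : G →* RingAut K} {S : Finset ℕ} {n w : ℕ} (M M' : EMotive K G act S n w) : Prop :=
  ∃ u : Matrix.GeneralLinearGroup (Fin n) ℤ,
    (∀ I, (u : Matrix (Fin n) (Fin n) ℤ).map (algebraMap ℤ ℚ) *
        (M.ψ I : Matrix (Fin n) (Fin n) ℚ) =
      (M'.ψ I : Matrix (Fin n) (Fin n) ℚ) * (u : Matrix (Fin n) (Fin n) ℤ).map (algebraMap ℤ ℚ)) ∧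
    ∀ g, u * M.ρ g = M'.ρ g * u

end AbMot
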