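import Mathlib

/-!
# Jordan-Zassenhaus for `ℤ[x]/(f)`: equivalence of integer matrices
-/

open Polynomial Module Matrix

namespace AbMot

/-- Two integer matrices (possibly with different index types) are equivalent if there is an
isomorphism of the lattices which intertwines them. -/
def IsoM {m n : Type} [Fintype m] [Fintype n] (A : Matrix m m ℤ) (B : Matrix n n ℤ) : Prop :=
  ∃ e : (m → ℤ) ≃ₗ[ℤ] (n → ℤ), ∀ x, e (A *ᵥ x) = B *ᵥ (e x)

section iso
variable {m n k : Type} [Fintype m] [Fintype n] [Fintype k]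

lemma IsoM.refl (A : Matrix m m ℤ) : IsoM A A := ⟨LinearEquiv.refl ℤ _, fun _ => rfl⟩

lemma IsoM.symm {A : Matrix m m ℤ} {B : Matrix n n ℤ} (h : IsoM A B) : IsoM B A := by
  obtain ⟨e, he⟩ := h
  refine ⟨e.symm, fun x => ?_⟩
  apply e.injective
  rw [he]; simp

lemma IsoM.trans {A : Matrix m m ℤ} {B : Matrix n n ℤ} {C : Matrix k k ℤ}
    (h : IsoM A B) (h' : IsoM B C) : IsoM A C := by
  obtain ⟨e, he⟩ := h
  obtain ⟨e', he'⟩ := h'
  refine ⟨e.trans e', fun x => ?_⟩
  simp [he, he']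

/-- intertwining passes to polynomials -/
lemma intertwine_aeval [DecidableEq m] [DecidableEq n] {R : Type*} [CommRing R]
    {A : Matrix m m R} {B : Matrix n n R}
    (e : (m → R) →ₗ[R] (n → R)) (he : ∀ x, e (A *ᵥ x) = B *ᵥ (e x)) (f : R[X]) (x : m → R) :
    e ((aeval A f) *ᵥ x) = (aeval B f) *ᵥ (e x) := by
  induction f using Polynomial.induction_on' generalizing x with
  | add p q hp hq => simp [Matrix.add_mulVec, hp, hq]
  | monomial k a =>
    simp only [aeval_monomial]
    induction k generalizing x with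
    | zero =>
      simp only [pow_zero, mul_one]
      rw [Algebra.algebraMap_eq_smul_one, Algebra.algebraMap_eq_smul_one, Matrix.smul_mulVec,
        Matrix.smul_mulVec, Matrix.one_mulVec, Matrix.one_mulVec, map_smul]
    | succ k ih =>
      rw [pow_succ, ← mul_assoc, ← Matrix.mulVec_mulVec, ih, he, Matrix.mulVec_mulVec, mul_assoc,
        ← pow_succ]

lemma IsoM.aeval [DecidableEq m] [DecidableEq n] {A : Matrix m m ℤ} {B : Matrix n n ℤ}
    (h : IsoM A B) (f : ℤ[X]) (hA : Polynomial.aeval A f = 0) : Polynomial.aeval B f = 0 := by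
  obtain ⟨e, he⟩ := h
  apply Matrix.toLin'.injective
  refine LinearMap.ext fun x => ?_
  have h1 := intertwine_aeval (e : (m → ℤ) →ₗ[ℤ] (n → ℤ)) he f (e.symm x)
  rw [hA] at h1
  simp only [Matrix.zero_mulVec, map_zero, LinearEquiv.coe_coe, LinearEquiv.apply_symm_apply] at h1
  rw [Matrix.toLin'_apply, ← h1, map_zero, LinearMap.zero_apply]

end iso

/-- a property of integer matrices of size `n` which only holds on finitely many classes -/
def FinCls {n : Type} [Fintype n] (P : Matrix n n ℤ → Prop) : Prop :=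
  ∃ T : Set (Matrix n n ℤ), T.Finite ∧ ∀ A, P A → ∃ B ∈ T, IsoM A B

lemma FinCls.mono {n : Type} [Fintype n] {P Q : Matrix n n ℤ → Prop} (h : FinCls Q)
    (hPQ : ∀ A, P A → Q A) : FinCls P := by
  obtain ⟨T, hT, h⟩ := h
  exact ⟨T, hT, fun A hA => h A (hPQ A hA)⟩

lemma FinCls.union {n : Type} [Fintype n] {ι : Type*} {I : Set ι} (hI : I.Finite)
    {P : ι → Matrix n n ℤ → Prop} (h : ∀ i ∈ I, FinCls (P i)) :
    FinCls (fun A => ∃ i ∈ I, P i A) := by
  choose! T hT h using h
  refine ⟨⋃ i ∈ I, T i, hI.biUnion hT, ?_⟩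
  rintro A ⟨i, hi, hA⟩
  obtain ⟨B, hB, hAB⟩ := h i hi A hA
  exact ⟨B, Set.mem_biUnion hi hB, hAB⟩

lemma FinCls.of_key {n : Type} [Fintype n] {κ : Type*} {K : Set κ} (hK : K.Finite)
    {P : Matrix n n ℤ → Prop} (rel : κ → Matrix n n ℤ → Prop)
    (h1 : ∀ A, P A → ∃ k ∈ K, rel k A)
    (h2 : ∀ k A B, rel k A → rel k B → IsoM A B) : FinCls P := by
  classical
  let c : κ → Matrix n n ℤ := fun k => if h : ∃ A, rel k A then h.choose else 0
  refine ⟨c '' K, hK.image c, fun A hA => ?_⟩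
  obtain ⟨k, hk, hkA⟩ := h1 A hA
  refine ⟨c k, ⟨k, hk, rfl⟩, h2 k A (c k) hkA ?_⟩
  have h : ∃ A, rel k A := ⟨A, hkA⟩
  simp only [c, dif_pos h]
  exact h.choose_spec

/-- the Sylvester operator -/
def syl {d e : Type} [Fintype d] [Fintype e] (A1 : Matrix d d ℤ) (A2 : Matrix e e ℤ) :
    Matrix d e ℤ →ₗ[ℤ] Matrix d e ℤ where
  toFun X := A1 * X - X * A2
  map_add' X Y := by simp only [Matrix.mul_add, Matrix.add_mul]; abel
  map_smul' k X := by simp [smul_sub]

lemma isoM_blocks_of_syl {d e : Type} [Fintype d] [Fintype e] [DecidableEq d] [DecidableEq e]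
    (A1 : Matrix d d ℤ) (A2 : Matrix e e ℤ) (B Y : Matrix d e ℤ) :
    IsoM (fromBlocks A1 B 0 A2) (fromBlocks A1 (B + syl A1 A2 Y) 0 A2) := by
  let U : Matrix (d ⊕ e) (d ⊕ e) ℤ := fromBlocks 1 (-Y) 0 1
  let V : Matrix (d ⊕ e) (d ⊕ e) ℤ := fromBlocks 1 Y 0 1
  have hUV : U * V = 1 := by simp [U, V, fromBlocks_multiply]
  have hVU : V * U = 1 := by simp [U, V, fromBlocks_multiply]
  refine ⟨LinearEquiv.ofLinearMap (Matrix.toLin' U) (Matrix.toLin' V) ?_ ?_, ?_⟩
  · rw [← Matrix.toLin'_mul, hUV, Matrix.toLin'_one]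
  · rw [← Matrix.toLin'_mul, hVU, Matrix.toLin'_one]
  · intro x
    simp only [LinearEquiv.coe_ofLinearMap, Matrix.toLin'_apply, Matrix.mulVec_mulVec]
    congr 1
    simp only [U, fromBlocks_multiply, syl, LinearMap.coe_mk, AddHom.coe_mk]
    simp only [Matrix.one_mul, Matrix.mul_zero, Matrix.zero_mul, Matrix.mul_one, add_zero,
      zero_add, Matrix.neg_mul, Matrix.mul_neg, neg_zero]
    congr 1
    abel

/-- conjugating the diagonal blocks -/
lemma isoM_blocks_of_iso {d e d' e' : Type} [Fintype d] [Fintype e] [DecidableEq d] [DecidableEq e]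
    [Fintype d'] [Fintype e'] [DecidableEq d'] [DecidableEq e']
    {A1 : Matrix d d ℤ} {A2 : Matrix e e ℤ} {A1' : Matrix d' d' ℤ} {A2' : Matrix e' e' ℤ}
    (B : Matrix d e ℤ) (h1 : IsoM A1 A1') (h2 : IsoM A2 A2') :
    ∃ B', IsoM (fromBlocks A1 B 0 A2) (fromBlocks A1' B' 0 A2') := by
  obtain ⟨e1, he1⟩ := h1
  obtain ⟨e2, he2⟩ := h2
  let B' : Matrix d' e' ℤ := LinearMap.toMatrix' (e1.toLinearMap ∘ₗ (Matrix.toLin' B) ∘ₗ
    e2.symm.toLinearMap)
  refine ⟨B', ((LinearEquiv.sumArrowLequivProdArrow d e ℤ ℤ).trans (e1.prodCongr e2)).trans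
    (LinearEquiv.sumArrowLequivProdArrow d' e' ℤ ℤ).symm, ?_⟩
  intro x
  obtain ⟨y, z, rfl⟩ : ∃ y z, x = Sum.elim y z := ⟨x ∘ Sum.inl, x ∘ Sum.inr, by
    ext i; cases i <;> rfl⟩
  rw [fromBlocks_mulVec]
  have hB : B' *ᵥ e2 z = e1 (B *ᵥ z) := by
    rw [← Matrix.toLin'_apply]
    simp [B']
  ext i
  cases i with
  | inl i =>
    simp [LinearEquiv.trans_apply, LinearEquiv.sumArrowLequivProdArrow, Equiv.sumArrowEquivProdArrow,
      fromBlocks_mulVec, hB, he1]
  | inr i =>
    simp [LinearEquiv.trans_apply, LinearEquiv.sumArrowLequivProdArrow, Equiv.sumArrowEquivProdArrow,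
      fromBlocks_mulVec, hB, he2]

/-- the splitting over `ℚ` -/
lemma exists_syl_rat {d e : Type} [Fintype d] [Fintype e] [DecidableEq d] [DecidableEq e]
    (f : ℚ[X]) (hf : Squarefree f) (A1 : Matrix d d ℚ) (A2 : Matrix e e ℚ) (B : Matrix d e ℚ)
    (h : aeval (fromBlocks A1 B 0 A2) f = 0) : ∃ X : Matrix d e ℚ, B = A1 * X - X * A2 := by
  classical
  set C : Matrix (d ⊕ e) (d ⊕ e) ℚ := fromBlocks A1 B 0 A2 with hC
  have hss : Module.End.IsSemisimple (Matrix.toLin' C) := by
    refine Module.End.isSemisimple_of_squarefree_aeval_eq_zero hf ?_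
    have := congrArg (Matrix.toLinAlgEquiv') h
    rw [map_zero, ← Polynomial.aeval_algHom_apply] at this
    exact this
  rw [Module.End.isSemisimple_iff] at hss
  let W : Submodule ℚ (d ⊕ e → ℚ) :=
    LinearMap.ker (LinearMap.funLeft ℚ ℚ (Sum.inr : e → d ⊕ e))
  have hWmem : ∀ v : d ⊕ e → ℚ, v ∈ W ↔ ∀ i, v (Sum.inr i) = 0 := by
    intro v
    simp only [W, LinearMap.mem_ker]
    constructor
    · intro h i
      exact congrFun h i
    · intro h
      ext i
      exact h i
  have hCinr : ∀ (v : d ⊕ e → ℚ), (C *ᵥ v) ∘ Sum.inr = A2 *ᵥ (v ∘ Sum.inr) := by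
    intro v
    rw [hC, fromBlocks_mulVec]
    ext i; simp
  have hCinl : ∀ (v : d ⊕ e → ℚ), (C *ᵥ v) ∘ Sum.inl = A1 *ᵥ (v ∘ Sum.inl) + B *ᵥ (v ∘ Sum.inr) := by
    intro v
    rw [hC, fromBlocks_mulVec]
    ext i; simp
  have hWinv : W ∈ Module.End.invtSubmodule (Matrix.toLin' C) := by
    rw [Module.End.mem_invtSubmodule]
    intro v hv
    rw [Submodule.mem_comap, Matrix.toLin'_apply, hWmem]
    rw [hWmem] at hv
    intro i
    have h1 := congrFun (hCinr v) i
    simp only [Function.comp] at h1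
    rw [h1]
    have h2 : v ∘ Sum.inr = 0 := by ext i; exact hv i
    rw [h2]; simp
  obtain ⟨W', hW'inv, hWW'⟩ := hss W hWinv
  rw [Module.End.mem_invtSubmodule] at hW'inv
  -- the graph
  have hex : ∀ j : e, ∃ w ∈ W', ∀ i, w (Sum.inr i) = (Pi.single j (1 : ℚ) : e → ℚ) i := by
    intro j
    have hmem : (Sum.elim 0 (Pi.single j (1 : ℚ)) : d ⊕ e → ℚ) ∈ W ⊔ W' := by
      rw [hWW'.sup_eq_top]; trivial
    obtain ⟨u, hu, w, hw, huw⟩ := Submodule.mem_sup.1 hmem
    refine ⟨w, hw, fun i => ?_⟩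
    have h1 := congrFun huw (Sum.inr i)
    simp only [Pi.add_apply, Sum.elim_inr] at h1
    rw [(hWmem u).1 hu i, zero_add] at h1
    exact h1
  choose w hw hwr using hex
  let X : Matrix d e ℚ := fun i j => w j (Sum.inl i)
  have hgraph : ∀ y : e → ℚ, (Sum.elim (X *ᵥ y) y : d ⊕ e → ℚ) ∈ W' := by
    intro y
    have h1 : (Sum.elim (X *ᵥ y) y : d ⊕ e → ℚ) = ∑ j, y j • w j := by
      ext i
      cases i with
      | inl i =>
        simp only [Sum.elim_inl, Finset.sum_apply, Pi.smul_apply, smul_eq_mul, Matrix.mulVec,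
          dotProduct, X]
        exact Finset.sum_congr rfl fun j _ => mul_comm _ _
      | inr i =>
        simp only [Sum.elim_inr, Finset.sum_apply, Pi.smul_apply, smul_eq_mul, hwr]
        simp [Pi.single_apply]
    rw [h1]
    exact Submodule.sum_mem _ fun j _ => Submodule.smul_mem _ _ (hw j)
  refine ⟨-X, ?_⟩
  apply Matrix.toLin'.injective
  refine LinearMap.ext fun y => ?_
  simp only [Matrix.toLin'_apply]
  have h1 := hW'inv (hgraph y)
  rw [Submodule.mem_comap, Matrix.toLin'_apply] at h1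
  have h2 := Submodule.sub_mem _ h1 (hgraph (A2 *ᵥ y))
  have h3 : (C *ᵥ (Sum.elim (X *ᵥ y) y) - Sum.elim (X *ᵥ (A2 *ᵥ y)) (A2 *ᵥ y) : d ⊕ e → ℚ) ∈ W := by
    rw [hWmem]
    intro i
    have h4 := congrFun (hCinr (Sum.elim (X *ᵥ y) y)) i
    simp only [Function.comp] at h4
    simp only [Pi.sub_apply, h4, Sum.elim_inr]
    simp
  have h5 := hWW'.disjoint.le_bot ⟨h3, h2⟩
  rw [Submodule.mem_bot] at h5
  have h6 : ∀ i, (A1 *ᵥ (X *ᵥ y) + B *ᵥ y) i - (X *ᵥ (A2 *ᵥ y)) i = 0 := by
    intro i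
    have h7 := congrFun h5 (Sum.inl i)
    have h8 := congrFun (hCinl (Sum.elim (X *ᵥ y) y)) i
    simp only [Function.comp] at h8
    simp only [Pi.sub_apply, h8, Sum.elim_inl, Pi.zero_apply] at h7
    exact h7
  ext i
  have h9 := h6 i
  simp only [Pi.add_apply] at h9
  simp only [Matrix.sub_mulVec, ← Matrix.mulVec_mulVec,
    Matrix.neg_mulVec, Matrix.mulVec_neg, Pi.sub_apply, Pi.neg_apply]
  linarith

lemma aeval_mapMat {n : Type} [Fintype n] [DecidableEq n] {R S : Type*} [CommRing R] [CommRing S]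
    (φ : R →+* S) (A : Matrix n n R) (f : R[X]) :
    φ.mapMatrix (aeval A f) = aeval (φ.mapMatrix A) (f.map φ) := by
  apply Polynomial.map_aeval_eq_aeval_map
  ext a i j
  simp [Matrix.algebraMap_matrix_apply]
  split_ifs <;> simp

/-- clearing denominators of a rational matrix -/
lemma exists_int_multiple {d e : Type} [Finite d] [Finite e] (X : Matrix d e ℚ) :
    ∃ k : ℤ, k ≠ 0 ∧ ∃ Y : Matrix d e ℤ, ∀ i j, (Y i j : ℚ) = k * X i j := by
  have := Fintype.ofFinite d
  have := Fintype.ofFinite e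
  let k : ℕ := ∏ p : d × e, (X p.1 p.2).den
  have hk : k ≠ 0 := Finset.prod_ne_zero_iff.2 fun p _ => (X p.1 p.2).den_nz
  have h : ∀ i j, ∃ y : ℤ, (y : ℚ) = (k : ℤ) * X i j := by
    intro i j
    obtain ⟨c, hc⟩ : (X i j).den ∣ k :=
      Finset.dvd_prod_of_mem (fun p : d × e => (X p.1 p.2).den) (Finset.mem_univ (i, j))
    refine ⟨c * (X i j).num, ?_⟩
    rw [hc]
    push_cast
    have h2 : ((X i j).den : ℚ) * X i j = (X i j).num := Rat.den_mul_eq_num _
    linear_combination (-(c : ℚ)) * h2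
  choose Y hY using h
  exact ⟨k, by exact_mod_cast hk, Y, hY⟩

/-- the class of the off-diagonal block is torsion -/
lemma exists_syl_torsion {d e : Type} [Fintype d] [Fintype e] [DecidableEq d] [DecidableEq e]
    (f : ℤ[X]) (hf : Squarefree (f.map (Int.castRingHom ℚ))) (A1 : Matrix d d ℤ) (A2 : Matrix e e ℤ)
    (B : Matrix d e ℤ) (h : aeval (fromBlocks A1 B 0 A2) f = 0) :
    ∃ k : ℤ, k ≠ 0 ∧ ∃ Y : Matrix d e ℤ, k • B = syl A1 A2 Y := by
  classical
  have h1 : aeval (fromBlocks (A1.map (Int.castRingHom ℚ)) (B.map (Int.castRingHom ℚ)) 0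
      (A2.map (Int.castRingHom ℚ))) (f.map (Int.castRingHom ℚ)) = 0 := by
    have h2 : fromBlocks (A1.map (Int.castRingHom ℚ)) (B.map (Int.castRingHom ℚ)) 0
      (A2.map (Int.castRingHom ℚ)) = (Int.castRingHom ℚ).mapMatrix (fromBlocks A1 B 0 A2) := by
      rw [RingHom.mapMatrix_apply, Matrix.fromBlocks_map]
      congr 1
    rw [h2, ← aeval_mapMat, h, map_zero]
  obtain ⟨X, hX⟩ := exists_syl_rat _ hf _ _ _ h1
  obtain ⟨k, hk, Y, hY⟩ := exists_int_multiple X
  refine ⟨k, hk, Y, ?_⟩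
  ext i j
  have h3 := congrFun (congrFun hX i) j
  have h4 : ((k • B) i j : ℚ) = ((syl A1 A2 Y) i j : ℤ) := by
    simp only [syl, LinearMap.coe_mk, AddHom.coe_mk, Matrix.sub_apply, Matrix.mul_apply,
      Matrix.smul_apply, Int.cast_sub, Int.cast_sum, Int.cast_mul, hY, smul_eq_mul]
    simp only [Matrix.map_apply, eq_intCast, Matrix.sub_apply, Matrix.mul_apply] at h3
    rw [h3, mul_sub, Finset.mul_sum, Finset.mul_sum]
    congr 1
    · exact Finset.sum_congr rfl fun _ _ => by ring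
    · exact Finset.sum_congr rfl fun _ _ => by ring
  exact_mod_cast h4


/-- a pure stable sublattice gives a block triangular form -/
lemma exists_blocks {n : ℕ} (A : Matrix (Fin n) (Fin n) ℤ) (N : Submodule ℤ (Fin n → ℤ))
    (hN : ∀ x ∈ N, A *ᵥ x ∈ N) (htf : ∀ (k : ℤ) (x : Fin n → ℤ), k ≠ 0 → k • x ∈ N → x ∈ N)
    (hN0 : N ≠ ⊥) (hN1 : N ≠ ⊤) :
    ∃ d e : ℕ, 0 < d ∧ 0 < e ∧ d + e = n ∧ ∃ (A1 : Matrix (Fin d) (Fin d) ℤ)
      (A2 : Matrix (Fin e) (Fin e) ℤ) (B : Matrix (Fin d) (Fin e) ℤ),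
      IsoM A (fromBlocks A1 B 0 A2) := by
  classical
  have htf' : Module.IsTorsionFree ℤ ((Fin n → ℤ) ⧸ N) := by
    constructor
    intro k hk x y hxy
    have hk0 : k ≠ 0 := hk.ne_zero
    obtain ⟨x, rfl⟩ := N.mkQ_surjective x
    obtain ⟨y, rfl⟩ := N.mkQ_surjective y
    have h1 : N.mkQ (k • (x - y)) = 0 := by
      simp only [map_smul, map_sub, smul_sub]
      exact sub_eq_zero.2 hxy
    rw [Submodule.mkQ_apply, Submodule.Quotient.mk_eq_zero] at h1
    have h2 := htf k _ hk0 h1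
    rw [← sub_eq_zero, ← map_sub, Submodule.mkQ_apply, Submodule.Quotient.mk_eq_zero]
    exact h2
  have hfree : Module.Free ℤ ((Fin n → ℤ) ⧸ N) := Module.free_of_finite_type_torsion_free'
  have hfreeN : Module.Free ℤ N := inferInstance
  have hfinN : Module.Finite ℤ N := inferInstance
  obtain ⟨s, hs⟩ := Module.projective_lifting_property N.mkQ LinearMap.id N.mkQ_surjective
  have hs' : ∀ q, N.mkQ (s q) = q := fun q => LinearMap.congr_fun hs q
  have hcompl : IsCompl N (LinearMap.range s) := by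
    constructor
    · rw [Submodule.disjoint_def]
      rintro x hx ⟨q, rfl⟩
      have h1 := hs' q
      rw [Submodule.mkQ_apply, (Submodule.Quotient.mk_eq_zero N).2 hx] at h1
      rw [← h1, map_zero]
    · rw [codisjoint_iff, eq_top_iff]
      intro x _
      have h1 : x - s (N.mkQ x) ∈ N := by
        rw [← Submodule.Quotient.mk_eq_zero, ← Submodule.mkQ_apply, map_sub, hs', sub_self]
      have h2 : x = (x - s (N.mkQ x)) + s (N.mkQ x) := by abel
      rw [h2]
      exact Submodule.add_mem_sup h1 ⟨_, rfl⟩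
  have hsinj : Function.Injective s := fun x y hxy => by rw [← hs' x, ← hs' y, hxy]
  let bN := Module.finBasis ℤ N
  let bQ := Module.finBasis ℤ ((Fin n → ℤ) ⧸ N)
  let b : Basis (Fin (finrank ℤ N) ⊕ Fin (finrank ℤ ((Fin n → ℤ) ⧸ N))) ℤ (Fin n → ℤ) :=
    (bN.prod (bQ.map (LinearEquiv.ofInjective s hsinj))).map
      (Submodule.prodEquivOfIsCompl N (LinearMap.range s) hcompl)
  have hbinl : ∀ i, b (Sum.inl i) ∈ N := by
    intro i
    simp [b]
  have hrepr : ∀ x ∈ N, ∀ j, b.repr x (Sum.inr j) = 0 := by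
    intro x hx j
    have h1 : (Submodule.prodEquivOfIsCompl N (LinearMap.range s) hcompl).symm x = (⟨x, hx⟩, 0) := by
      rw [LinearEquiv.symm_apply_eq]
      simp
    simp [b, h1]
  let C := LinearMap.toMatrix b b (Matrix.toLin' A)
  have hiso : IsoM A C := by
    refine ⟨b.equivFun, fun x => ?_⟩
    have h1 := LinearMap.toMatrix_mulVec_repr b b (Matrix.toLin' A) x
    simp only [Basis.equivFun_apply, C]
    rw [h1, Matrix.toLin'_apply]
  have hC21 : C.toBlocks₂₁ = 0 := by
    ext i j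
    simp only [C, Matrix.toBlocks₂₁, Matrix.of_apply, LinearMap.toMatrix_apply, Matrix.zero_apply,
      Matrix.toLin'_apply]
    exact hrepr _ (hN _ (hbinl j)) i
  refine ⟨finrank ℤ N, finrank ℤ ((Fin n → ℤ) ⧸ N), ?_, ?_, ?_, C.toBlocks₁₁, C.toBlocks₂₂,
    C.toBlocks₁₂, ?_⟩
  · rw [Module.finrank_pos_iff (R := ℤ)]
    exact Submodule.nontrivial_iff_ne_bot.2 hN0
  · rw [Module.finrank_pos_iff (R := ℤ)]
    exact Submodule.Quotient.nontrivial_iff.2 hN1
  · rw [add_comm, Submodule.finrank_quotient_add_finrank]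
    simp
  · rw [← hC21, Matrix.fromBlocks_toBlocks]
    exact hiso


/-- extensions with fixed diagonal blocks fall into finitely many classes -/
lemma finCls_blocks {n d e : ℕ} (f : ℤ[X]) (hf : Squarefree (f.map (Int.castRingHom ℚ)))
    (A1 : Matrix (Fin d) (Fin d) ℤ) (A2 : Matrix (Fin e) (Fin e) ℤ) :
    FinCls (fun A : Matrix (Fin n) (Fin n) ℤ =>
      aeval A f = 0 ∧ ∃ B, IsoM A (fromBlocks A1 B 0 A2)) := by
  classical
  let H := Matrix (Fin d) (Fin e) ℤ
  let R : Submodule ℤ H := LinearMap.range (syl A1 A2)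
  have hfin : Finite (Submodule.torsion ℤ (H ⧸ R)) := by
    apply Module.finite_of_fg_torsion
    exact Submodule.torsion_isTorsion
  refine FinCls.of_key (κ := H ⧸ R) (K := (Submodule.torsion ℤ (H ⧸ R) : Set (H ⧸ R)))
    (Set.toFinite _) (fun q A => ∃ B, R.mkQ B = q ∧ IsoM A (fromBlocks A1 B 0 A2)) ?_ ?_
  · rintro A ⟨hA, B, hB⟩
    refine ⟨R.mkQ B, ?_, B, rfl, hB⟩
    have h1 := hB.aeval f hA
    obtain ⟨k, hk, Y, hY⟩ := exists_syl_torsion f hf A1 A2 B h1
    rw [SetLike.mem_coe, Submodule.mem_torsion_iff]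
    refine ⟨⟨k, mem_nonZeroDivisors_of_ne_zero hk⟩, ?_⟩
    change k • R.mkQ B = 0
    rw [← map_smul, hY, Submodule.mkQ_apply, Submodule.Quotient.mk_eq_zero]
    exact ⟨Y, rfl⟩
  · rintro q A A' ⟨B, hB, hA⟩ ⟨B', hB', hA'⟩
    have h1 : R.mkQ B' = R.mkQ B := by rw [hB, hB']
    rw [Submodule.mkQ_apply, Submodule.mkQ_apply, Submodule.Quotient.eq] at h1
    obtain ⟨Y, hY⟩ := h1
    have h2 : B' = B + syl A1 A2 Y := by rw [hY]; abel
    refine hA.trans ?_
    refine IsoM.trans ?_ hA'.symm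
    rw [h2]
    exact isoM_blocks_of_syl A1 A2 B Y

/-- finitely many lattices between a finitely generated lattice and a multiple of it -/
lemma finite_between {V : Type*} [AddCommGroup V] (I : Submodule ℤ V) (hI : I.FG)
    (c : ℤ) (hc : c ≠ 0) :
    {L : Submodule ℤ V | (∀ x ∈ I, c • x ∈ L) ∧ L ≤ I}.Finite := by
  classical
  have : Module.Finite ℤ I := Module.Finite.iff_fg.2 hI
  let J : Submodule ℤ I := LinearMap.range (c • (LinearMap.id : I →ₗ[ℤ] I))
  have hfin : Finite (I ⧸ J) := by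
    apply Module.finite_of_fg_torsion
    intro q
    obtain ⟨x, rfl⟩ := J.mkQ_surjective q
    refine ⟨⟨c, mem_nonZeroDivisors_of_ne_zero hc⟩, ?_⟩
    change c • J.mkQ x = 0
    rw [← map_smul, Submodule.mkQ_apply, Submodule.Quotient.mk_eq_zero]
    exact ⟨x, rfl⟩
  have hfin2 : Finite (Submodule ℤ (I ⧸ J)) :=
    Finite.of_injective (fun L => (L : Set (I ⧸ J))) SetLike.coe_injective
  have hinj : Set.InjOn (fun L : Submodule ℤ V => (L.comap I.subtype).map J.mkQ)
      {L : Submodule ℤ V | (∀ x ∈ I, c • x ∈ L) ∧ L ≤ I} := by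
    rintro L ⟨hL1, hL2⟩ L' ⟨hL1', hL2'⟩ h
    have key : ∀ L : Submodule ℤ V, (∀ x ∈ I, c • x ∈ L) → L ≤ I →
        L = (((L.comap I.subtype).map J.mkQ).comap J.mkQ).map I.subtype := by
      intro L h1 h2
      rw [Submodule.comap_map_eq, Submodule.ker_mkQ, sup_eq_left.2, Submodule.map_comap_subtype,
        inf_eq_right.2 h2]
      rintro _ ⟨x, rfl⟩
      simp only [LinearMap.smul_apply, LinearMap.id_apply, Submodule.mem_comap,
        Submodule.subtype_apply, Submodule.coe_smul]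
      exact h1 x x.2
    rw [key L hL1 hL2, key L' hL1' hL2']
    simp only at h
    rw [h]
  exact Set.Finite.of_injOn (t := Set.univ) (fun _ _ => Set.mem_univ _) hinj Set.finite_univ

/-- an integer multiple of any finitely generated piece lies in `ℤ[θ]` -/
lemma exists_mul_mem_adjoin {K : Type*} [Field K] [CharZero K] [Algebra ℚ K] (θ : K)
    (hθ : Algebra.adjoin ℚ {θ} = ⊤) (s : Finset K) :
    ∃ c : ℤ, c ≠ 0 ∧ ∀ x ∈ s, (c : K) * x ∈ Algebra.adjoin ℤ {θ} := by
  classical
  induction s using Finset.induction_on with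
  | empty => exact ⟨1, one_ne_zero, by simp⟩
  | insert a s _ ih =>
    obtain ⟨c, hc, h⟩ := ih
    have ha : a ∈ Algebra.adjoin ℚ {θ} := by rw [hθ]; trivial
    rw [Algebra.adjoin_singleton_eq_range_aeval] at ha
    obtain ⟨g, hg⟩ := ha
    obtain ⟨b, hb, hb2⟩ := IsLocalization.integerNormalization_spec (nonZeroDivisors ℤ) g
    have hb0 : b ≠ 0 := nonZeroDivisors.ne_zero hb
    have h1 : (b : K) * a ∈ Algebra.adjoin ℤ {θ} := by
      rw [Algebra.adjoin_singleton_eq_range_aeval]
      refine ⟨IsLocalization.integerNormalization (nonZeroDivisors ℤ) g, ?_⟩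
      change aeval θ _ = _
      rw [← Polynomial.aeval_map_algebraMap ℚ, hb2]
      change aeval θ g = a at hg
      rw [map_zsmul, hg, zsmul_eq_mul]
    refine ⟨c * b, mul_ne_zero hc hb0, ?_⟩
    intro x hx
    rw [Finset.mem_insert] at hx
    rcases hx with rfl | hx
    · push_cast
      rw [mul_assoc, ← zsmul_eq_mul]
      exact zsmul_mem h1 c
    · push_cast
      rw [mul_comm (c : K), mul_assoc, ← zsmul_eq_mul]
      exact zsmul_mem (h x hx) b

/-- finitely many `θ`-stable lattices in a number field `K = ℚ(θ)` up to scaling -/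
theorem finite_lattices {K : Type*} [Field K] [NumberField K] (θ : K)
    (hθ : Algebra.adjoin ℚ {θ} = ⊤) :
    ∃ T : Set (Submodule ℤ K), T.Finite ∧ ∀ L : Submodule ℤ K, L.FG → L ≠ ⊥ →
      (∀ x ∈ L, θ * x ∈ L) → ∃ c : K, c ≠ 0 ∧ L.map (LinearMap.mulLeft ℤ c) ∈ T := by
  classical
  -- conductor
  obtain ⟨s, hs⟩ : (⊤ : Submodule ℤ (NumberField.RingOfIntegers K)).FG := Module.Finite.fg_top
  obtain ⟨c, hc, hcs⟩ := exists_mul_mem_adjoin θ hθ
    (s.image (algebraMap (NumberField.RingOfIntegers K) K))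
  have hcO : ∀ a : NumberField.RingOfIntegers K,
      (c : K) * (algebraMap (NumberField.RingOfIntegers K) K a) ∈ Algebra.adjoin ℤ {θ} := by
    intro a
    have ha : a ∈ Submodule.span ℤ (s : Set (NumberField.RingOfIntegers K)) := by
      rw [hs]; trivial
    induction ha using Submodule.span_induction with
    | mem x hx => exact hcs _ (Finset.mem_image_of_mem _ hx)
    | zero => simp
    | add x y _ _ hx hy =>
      rw [map_add, mul_add]; exact add_mem hx hy
    | smul k x _ hx =>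
      rw [map_zsmul, mul_smul_comm]; exact zsmul_mem hx k
  let O := NumberField.RingOfIntegers K
  let U := (FractionalIdeal (nonZeroDivisors O) K)ˣ
  let rep : ClassGroup O → Submodule ℤ K := fun q =>
    if h : ∃ I : U, ClassGroup.mk K I = q then
      ((h.choose : FractionalIdeal (nonZeroDivisors O) K) : Submodule O K).restrictScalars ℤ else ⊥
  have hrepfg : ∀ q, (rep q).FG := by
    intro q
    by_cases h : ∃ I : U, ClassGroup.mk K I = q
    · simp only [rep, dif_pos h]
      exact Submodule.FG.restrictScalars (FractionalIdeal.fg_unit _)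
    · simp only [rep, dif_neg h]
      exact Submodule.fg_bot
  refine ⟨⋃ q : ClassGroup O, {L : Submodule ℤ K | (∀ x ∈ rep q, c • x ∈ L) ∧ L ≤ rep q}, ?_, ?_⟩
  · exact Set.finite_iUnion fun q => finite_between (rep q) (hrepfg q) c hc
  · intro L hLfg hL0 hLθ
    have hLadj : ∀ y ∈ Algebra.adjoin ℤ {θ}, ∀ x ∈ L, y * x ∈ L := by
      intro y hy
      induction hy using Algebra.adjoin_induction with
      | mem z hz =>
        rw [Set.mem_singleton_iff] at hz
        rw [hz]; exact hLθ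
      | algebraMap r =>
        intro x hx
        have : (algebraMap ℤ K r) * x = r • x := by simp
        rw [this]; exact L.smul_mem r hx
      | add y z _ _ hy hz => intro x hx; rw [add_mul]; exact L.add_mem (hy x hx) (hz x hx)
      | mul y z _ _ hy hz => intro x hx; rw [mul_assoc]; exact hy _ (hz x hx)
    let S : Submodule O K := Submodule.span O (L : Set K)
    have hS' : ∀ x ∈ S, ∀ b : O, c • (b • x) ∈ L := by
      intro x hx
      induction hx using Submodule.span_induction with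
      | mem x hx =>
        intro b
        have : c • (b • x) = ((c : K) * algebraMap O K b) * x := by
          rw [zsmul_eq_mul, Algebra.smul_def, mul_assoc]
        rw [this]; exact hLadj _ (hcO b) x hx
      | zero => intro b; simp
      | add x y _ _ hx hy => intro b; rw [smul_add, smul_add]; exact L.add_mem (hx b) (hy b)
      | smul a x _ hx => intro b; rw [smul_smul]; exact hx _
    have hS : ∀ x ∈ S, c • x ∈ L := fun x hx => by simpa using hS' x hx 1
    have hLS : ∀ x ∈ L, x ∈ S := fun x hx => Submodule.subset_span hx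
    have hSfg : S.FG := by
      obtain ⟨t, ht⟩ := hLfg
      refine ⟨t, le_antisymm (Submodule.span_mono ?_) ?_⟩
      · rw [← ht]; exact Submodule.subset_span
      · refine Submodule.span_le.2 ?_
        intro x hx
        rw [SetLike.mem_coe, ← ht] at hx
        exact Submodule.span_le_restrictScalars ℤ O _ hx
    let FI : FractionalIdeal (nonZeroDivisors O) K := ⟨S, FractionalIdeal.isFractional_of_fg hSfg⟩
    have hFI0 : FI ≠ 0 := by
      intro h
      apply hL0
      rw [eq_bot_iff]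
      intro x hx
      have h1 : x ∈ FI := hLS x hx
      rw [h, FractionalIdeal.mem_zero_iff] at h1
      rw [Submodule.mem_bot]; exact h1
    let I : U := Units.mk0 FI hFI0
    have hq : ∃ J : U, ClassGroup.mk K J = ClassGroup.mk K I := ⟨I, rfl⟩
    have hJ := hq.choose_spec
    set J : U := hq.choose with hJdef
    have hrep : rep (ClassGroup.mk K I) =
        ((J : FractionalIdeal (nonZeroDivisors O) K) : Submodule O K).restrictScalars ℤ := by
      simp only [rep, dif_pos hq, hJdef]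
    have h1 : ClassGroup.mk K (J * I⁻¹) = 1 := by
      rw [map_mul, map_inv, hJ, mul_inv_cancel]
    rw [ClassGroup.mk_eq_one_iff] at h1
    obtain ⟨z, hz⟩ := h1
    have hz' : (J * I⁻¹ : U) = (FractionalIdeal.spanSingleton (nonZeroDivisors O) z :
        FractionalIdeal (nonZeroDivisors O) K) := by
      apply FractionalIdeal.coeToSubmodule_injective
      change ((J * I⁻¹ : U) : FractionalIdeal (nonZeroDivisors O) K).coeToSubmodule =
        (FractionalIdeal.spanSingleton (nonZeroDivisors O) z).coeToSubmodule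
      rw [FractionalIdeal.coe_spanSingleton]
      exact hz
    have hJI : (J : FractionalIdeal (nonZeroDivisors O) K) =
        FractionalIdeal.spanSingleton (nonZeroDivisors O) z * FI := by
      have : (J : FractionalIdeal (nonZeroDivisors O) K) = ((J * I⁻¹ : U) * I : U) := by
        rw [inv_mul_cancel_right]
      rw [this, Units.val_mul, hz']
      rfl
    have hz0 : z ≠ 0 := by
      rintro rfl
      rw [FractionalIdeal.spanSingleton_zero, zero_mul] at hJI
      exact J.ne_zero hJI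
    refine ⟨z, hz0, Set.mem_iUnion.2 ⟨ClassGroup.mk K I, ?_, ?_⟩⟩
    · intro x hx
      rw [hrep, Submodule.restrictScalars_mem, hJI] at hx
      have hx' : x ∈ FractionalIdeal.spanSingleton (nonZeroDivisors O) z * FI := hx
      rw [FractionalIdeal.mem_singleton_mul] at hx'
      obtain ⟨y, hy, rfl⟩ := hx'
      refine ⟨c • y, hS y hy, ?_⟩
      rw [LinearMap.mulLeft_apply, mul_smul_comm]
    · rintro _ ⟨x, hx, rfl⟩
      rw [hrep, Submodule.restrictScalars_mem, hJI]
      change z * x ∈ FractionalIdeal.spanSingleton (nonZeroDivisors O) z * FI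
      rw [FractionalIdeal.mem_singleton_mul]
      exact ⟨x, hLS x hx, rfl⟩

/-- base case: a cyclic vector killed by an irreducible polynomial -/
lemma finCls_irred {n : ℕ} (p : ℚ[X]) (hp : Irreducible p) (hpm : p.Monic) :
    FinCls (fun A : Matrix (Fin n) (Fin n) ℤ => ∃ v : Fin n → ℚ, v ≠ 0 ∧
      (aeval (A.map (Int.castRingHom ℚ)) p) *ᵥ v = 0 ∧
      ∀ w : Fin n → ℚ, ∃ g : ℚ[X], w = (aeval (A.map (Int.castRingHom ℚ)) g) *ᵥ v) := by
  classical
  have : Fact (Irreducible p) := ⟨hp⟩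
  have : CharZero (AdjoinRoot p) :=
    charZero_of_injective_algebraMap (algebraMap ℚ (AdjoinRoot p)).injective
  have hfd : @FiniteDimensional ℚ (AdjoinRoot p) _ _ (AdjoinRoot.instAlgebra p).toModule :=
    (AdjoinRoot.powerBasis hp.ne_zero).finite
  have hsub : (AdjoinRoot.instAlgebra p : Algebra ℚ (AdjoinRoot p)) = DivisionRing.toRatAlgebra :=
    Subsingleton.elim _ _
  have : NumberField (AdjoinRoot p) := by
    refine @NumberField.mk _ _ inferInstance ?_
    rw [← hsub]
    exact hfd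
  let θ : AdjoinRoot p := AdjoinRoot.root p
  have hθ : @Algebra.adjoin ℚ (AdjoinRoot p) _ _ DivisionRing.toRatAlgebra {θ} = ⊤ := by
    rw [← hsub]
    exact AdjoinRoot.adjoinRoot_eq_top
  obtain ⟨T, hT, hTL⟩ := finite_lattices θ hθ
  refine FinCls.of_key (κ := Submodule ℤ (AdjoinRoot p)) hT
    (fun L A => ∃ h : ∀ x ∈ L, θ * x ∈ L, ∃ e : L ≃ₗ[ℤ] (Fin n → ℤ),
      ∀ x : L, e ⟨θ * x, h x x.2⟩ = A *ᵥ (e x)) ?_ ?_
  · rintro A ⟨v, hv0, hpv, hcyc⟩
    set Aq : Matrix (Fin n) (Fin n) ℚ := A.map (Int.castRingHom ℚ) with hAq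
    -- the evaluation map
    let ev : ℚ[X] →ₗ[ℚ] (Fin n → ℚ) :=
      { toFun := fun g => (aeval Aq g) *ᵥ v
        map_add' := fun g h => by rw [map_add, Matrix.add_mulVec]
        map_smul' := fun r g => by rw [map_smul, Matrix.smul_mulVec]; rfl }
    have hev_mod : ∀ g : ℚ[X], ev (g %ₘ p) = ev g := by
      intro g
      have h1 : g = g %ₘ p + (g /ₘ p) * p := by
        rw [mul_comm]; exact (Polynomial.modByMonic_add_div g p).symm
      have h2 : ev ((g /ₘ p) * p) = 0 := by
        change (aeval Aq ((g /ₘ p) * p)) *ᵥ v = 0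
        rw [map_mul, ← Matrix.mulVec_mulVec, hpv, Matrix.mulVec_zero]
      conv_rhs => rw [h1, map_add, h2, add_zero]
    let κ : AdjoinRoot p →+ (Fin n → ℚ) :=
      ev.toAddMonoidHom.comp (AdjoinRoot.modByMonicHom hpm).toAddMonoidHom
    have hκmk : ∀ g : ℚ[X], κ (AdjoinRoot.mk p g) = (aeval Aq g) *ᵥ v := by
      intro g
      change ev (AdjoinRoot.modByMonicHom hpm (AdjoinRoot.mk p g)) = ev g
      rw [AdjoinRoot.modByMonicHom_mk, hev_mod]
    have hκθ : ∀ x, κ (θ * x) = Aq *ᵥ (κ x) := by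
      intro x
      obtain ⟨g, rfl⟩ := AdjoinRoot.mk_surjective x
      have h1 : θ * AdjoinRoot.mk p g = AdjoinRoot.mk p (X * g) := by
        rw [map_mul, AdjoinRoot.mk_X]
      rw [h1, hκmk, hκmk, map_mul, aeval_X, Matrix.mulVec_mulVec]
    have hκinj : Function.Injective κ := by
      rw [injective_iff_map_eq_zero]
      intro x hx
      obtain ⟨g, rfl⟩ := AdjoinRoot.mk_surjective x
      rw [hκmk] at hx
      by_contra hg
      rw [AdjoinRoot.mk_eq_zero] at hg
      have hcop : IsCoprime p g := (Irreducible.coprime_iff_not_dvd hp).2 hg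
      obtain ⟨a, b, hab⟩ := hcop
      apply hv0
      have h1 : (aeval Aq (a * p + b * g)) *ᵥ v = v := by
        rw [hab, map_one, Matrix.one_mulVec]
      rw [map_add, map_mul, map_mul, Matrix.add_mulVec, ← Matrix.mulVec_mulVec, hpv,
        ← Matrix.mulVec_mulVec, hx] at h1
      rw [← h1]; simp
    have hκsurj : Function.Surjective κ := by
      intro w
      obtain ⟨g, hg⟩ := hcyc w
      exact ⟨AdjoinRoot.mk p g, by rw [hκmk, hg]⟩
    -- the inclusion of the lattice
    let inc : (Fin n → ℤ) →+ (Fin n → ℚ) :=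
      { toFun := fun m i => (m i : ℚ)
        map_zero' := by ext i; simp
        map_add' := fun x y => by ext i; simp }
    have hincinj : Function.Injective inc := by
      intro x y h
      ext i
      have := congrFun h i
      simpa [inc] using this
    have hincA : ∀ m, inc (A *ᵥ m) = Aq *ᵥ (inc m) := by
      intro m
      ext i
      simp [inc, hAq, Matrix.mulVec, dotProduct]
    let κe : AdjoinRoot p ≃+ (Fin n → ℚ) := AddEquiv.ofBijective κ ⟨hκinj, hκsurj⟩
    let j : (Fin n → ℤ) →ₗ[ℤ] AdjoinRoot p := (κe.symm.toAddMonoidHom.comp inc).toIntLinearMap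
    have hj : ∀ m, κ (j m) = inc m := fun m => κe.apply_symm_apply (inc m)
    have hjinj : Function.Injective j := by
      intro x y h
      apply hincinj
      rw [← hj, ← hj, h]
    have hjθ : ∀ m, θ * j m = j (A *ᵥ m) := by
      intro m
      apply hκinj
      rw [hκθ, hj, hj, hincA]
    let L : Submodule ℤ (AdjoinRoot p) := LinearMap.range j
    have hLθ : ∀ x ∈ L, θ * x ∈ L := by
      rintro _ ⟨m, rfl⟩
      exact ⟨A *ᵥ m, (hjθ m).symm⟩
    have hLfg : L.FG := by
      have : (LinearMap.range j).FG := by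
        rw [LinearMap.range_eq_map]
        exact Submodule.FG.map _ Module.Finite.fg_top
      exact this
    have hL0 : L ≠ ⊥ := by
      intro h
      obtain ⟨i, hi⟩ : ∃ i, v i ≠ 0 := by
        by_contra hcon
        push Not at hcon
        exact hv0 (funext hcon)
      have h1 : j (Pi.single i 1) ∈ L := ⟨_, rfl⟩
      rw [h, Submodule.mem_bot] at h1
      have h2 := hjinj (h1.trans (map_zero j).symm)
      have h3 := congrFun h2 i
      simp at h3
    obtain ⟨c, hc, hcT⟩ := hTL L hLfg hL0 hLθ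
    refine ⟨_, hcT, ?_, ?_⟩
    · rintro _ ⟨x, hx, rfl⟩
      refine ⟨θ * x, hLθ x hx, ?_⟩
      simp only [LinearMap.mulLeft_apply]; ring
    · let j' : (Fin n → ℤ) →ₗ[ℤ] AdjoinRoot p := (LinearMap.mulLeft ℤ c) ∘ₗ j
      have hj'inj : Function.Injective j' := by
        intro x y h
        simp only [j', LinearMap.comp_apply, LinearMap.mulLeft_apply] at h
        exact hjinj (mul_left_cancel₀ hc h)
      have hrange : LinearMap.range j' = L.map (LinearMap.mulLeft ℤ c) := by
        simp only [j', L, LinearMap.range_comp]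
      have hj'mem : ∀ m, j' m ∈ L.map (LinearMap.mulLeft ℤ c) := by
        intro m; rw [← hrange]; exact ⟨m, rfl⟩
      let j'' : (Fin n → ℤ) →ₗ[ℤ] (L.map (LinearMap.mulLeft ℤ c)) := j'.codRestrict _ hj'mem
      have hbij : Function.Bijective j'' := by
        constructor
        · intro x y h
          exact hj'inj (congrArg Subtype.val h)
        · rintro ⟨y, hy⟩
          rw [← hrange] at hy
          obtain ⟨m, rfl⟩ := hy
          exact ⟨m, rfl⟩
      let E : (Fin n → ℤ) ≃ₗ[ℤ] (L.map (LinearMap.mulLeft ℤ c)) := LinearEquiv.ofBijective j'' hbij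
      refine ⟨E.symm, ?_⟩
      intro x
      obtain ⟨m, rfl⟩ := E.surjective x
      rw [E.symm_apply_apply, LinearEquiv.symm_apply_eq]
      apply Subtype.ext
      change θ * (c * j m) = c * j (A *ᵥ m)
      rw [← hjθ]; ring
  · rintro L A B ⟨h, e, he⟩ ⟨h', e', he'⟩
    refine ⟨e.symm.trans e', fun x => ?_⟩
    obtain ⟨y, rfl⟩ := e.surjective x
    rw [← he]
    simp only [LinearEquiv.trans_apply, LinearEquiv.symm_apply_apply]
    exact he' y

lemma FinCls.or {n : Type} [Fintype n] {P Q : Matrix n n ℤ → Prop} (hP : FinCls P)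
    (hQ : FinCls Q) : FinCls (fun A => P A ∨ Q A) := by
  obtain ⟨T, hT, h⟩ := hP
  obtain ⟨T', hT', h'⟩ := hQ
  refine ⟨T ∪ T', hT.union hT', ?_⟩
  rintro A (hA | hA)
  · obtain ⟨B, hB, hAB⟩ := h A hA
    exact ⟨B, Or.inl hB, hAB⟩
  · obtain ⟨B, hB, hAB⟩ := h' A hA
    exact ⟨B, Or.inr hB, hAB⟩

lemma aeval_blocks {d e : Type} [Fintype d] [Fintype e] [DecidableEq d] [DecidableEq e]
    (A1 : Matrix d d ℤ) (A2 : Matrix e e ℤ) (B : Matrix d e ℤ) (f : ℤ[X]) :
    ∃ X, aeval (fromBlocks A1 B 0 A2) f = fromBlocks (aeval A1 f) X 0 (aeval A2 f) := by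
  induction f using Polynomial.induction_on' with
  | add p q hp hq =>
    obtain ⟨X, hX⟩ := hp
    obtain ⟨Y, hY⟩ := hq
    exact ⟨X + Y, by rw [map_add, hX, hY, fromBlocks_add, map_add, map_add, add_zero]⟩
  | monomial k a =>
    have h : ∃ X, (fromBlocks A1 B 0 A2) ^ k = fromBlocks (A1 ^ k) X 0 (A2 ^ k) := by
      induction k with
      | zero => exact ⟨0, by simp⟩
      | succ k ih =>
        obtain ⟨X, hX⟩ := ih
        refine ⟨A1 ^ k * B + X * A2, ?_⟩
        rw [pow_succ, hX, fromBlocks_multiply]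
        simp [pow_succ]
    obtain ⟨X, hX⟩ := h
    refine ⟨a • X, ?_⟩
    simp only [aeval_monomial, hX, Algebra.algebraMap_eq_smul_one, smul_mul_assoc, one_mul,
      fromBlocks_smul, smul_zero]

/-- **Jordan-Zassenhaus** for `ℤ[x]/(f)`, `f` squarefree over `ℚ` -/
theorem jz (f : ℤ[X]) (hf : Squarefree (f.map (Int.castRingHom ℚ))) (n : ℕ) :
    FinCls (fun A : Matrix (Fin n) (Fin n) ℤ => aeval A f = 0) := by
  classical
  induction n using Nat.strong_induction_on with
  | _ n ih =>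
  rcases Nat.eq_zero_or_pos n with rfl | hn
  · exact ⟨Set.univ, Set.toFinite _, fun A _ => ⟨A, Set.mem_univ _, IsoM.refl A⟩⟩
  set fq := f.map (Int.castRingHom ℚ) with hfq
  have hfq0 : fq ≠ 0 := hf.ne_zero
  have ih' : ∀ m, ∃ T : Set (Matrix (Fin m) (Fin m) ℤ), T.Finite ∧
      (m < n → ∀ A : Matrix (Fin m) (Fin m) ℤ, aeval A f = 0 → ∃ B ∈ T, IsoM A B) := by
    intro m
    by_cases hm : m < n
    · obtain ⟨T, hT, h⟩ := ih m hm
      exact ⟨T, hT, fun _ => h⟩
    · exact ⟨∅, Set.finite_empty, fun h => absurd h hm⟩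
  choose T hT hTA using ih'
  -- the two cases
  have case1 : FinCls (fun A : Matrix (Fin n) (Fin n) ℤ =>
      ∃ p ∈ ((UniqueFactorizationMonoid.normalizedFactors fq).toFinset : Set ℚ[X]),
        ∃ v : Fin n → ℚ, v ≠ 0 ∧
      (aeval (A.map (Int.castRingHom ℚ)) p) *ᵥ v = 0 ∧
      ∀ w : Fin n → ℚ, ∃ g : ℚ[X], w = (aeval (A.map (Int.castRingHom ℚ)) g) *ᵥ v) := by
    refine FinCls.union (Finset.finite_toSet _) fun p hp => ?_
    have hp' : p ∈ UniqueFactorizationMonoid.normalizedFactors fq := by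
      rw [Finset.mem_coe, Multiset.mem_toFinset] at hp; exact hp
    have hirr := UniqueFactorizationMonoid.irreducible_of_normalized_factor p hp'
    have hnorm := UniqueFactorizationMonoid.normalize_normalized_factor p hp'
    refine finCls_irred p hirr ?_
    rw [← hnorm]
    exact Polynomial.monic_normalize hirr.ne_zero
  have case2 : FinCls (fun A : Matrix (Fin n) (Fin n) ℤ =>
      ∃ q ∈ ((Finset.range n ×ˢ Finset.range n : Finset (ℕ × ℕ)) : Set (ℕ × ℕ)),
        ∃ A1 ∈ T q.1, ∃ A2 ∈ T q.2, aeval A f = 0 ∧ ∃ B, IsoM A (fromBlocks A1 B 0 A2)) := by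
    refine FinCls.union (Finset.finite_toSet _) fun q _ => ?_
    refine FinCls.union (hT q.1) fun A1 _ => ?_
    refine FinCls.union (hT q.2) fun A2 _ => ?_
    exact finCls_blocks f hf A1 A2
  refine (case1.or case2).mono ?_
  intro A hA
  set Aq : Matrix (Fin n) (Fin n) ℚ := A.map (Int.castRingHom ℚ) with hAq
  have hfAq : aeval Aq fq = 0 := by
    have h := aeval_mapMat (Int.castRingHom ℚ) A f
    rw [hA, map_zero] at h
    exact h.symm
  by_cases hsimple : ∀ W : Submodule ℚ (Fin n → ℚ), (∀ w ∈ W, Aq *ᵥ w ∈ W) → W = ⊥ ∨ W = ⊤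
  · left
    -- an irreducible factor with a kernel
    have hex : ∃ p ∈ UniqueFactorizationMonoid.normalizedFactors fq, ∃ v : Fin n → ℚ, v ≠ 0 ∧
        (aeval Aq p) *ᵥ v = 0 := by
      by_contra hcon
      push Not at hcon
      have hprod : ∀ s : Multiset ℚ[X],
          (∀ p ∈ s, p ∈ UniqueFactorizationMonoid.normalizedFactors fq) →
          ∀ v : Fin n → ℚ, (aeval Aq s.prod) *ᵥ v = 0 → v = 0 := by
        intro s
        induction s using Multiset.induction_on with
        | empty => intro _ v hv; simpa using hv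
        | cons p s ihs =>
          intro hs v hv
          rw [Multiset.prod_cons, mul_comm, map_mul, ← Matrix.mulVec_mulVec] at hv
          have h1 := ihs (fun q hq => hs q (Multiset.mem_cons_of_mem hq)) _ hv
          by_contra hv0
          exact hcon p (hs p (Multiset.mem_cons_self p s)) v hv0 h1
      obtain ⟨u, hu⟩ := UniqueFactorizationMonoid.prod_normalizedFactors hfq0
      have h1 : ∀ v : Fin n → ℚ, v = 0 := by
        intro v
        apply hprod _ (fun p hp => hp) v
        have h2 : (UniqueFactorizationMonoid.normalizedFactors fq).prod = fq * (↑u⁻¹ : ℚ[X]) :=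
          (Units.eq_mul_inv_iff_mul_eq u).2 hu
        rw [h2, map_mul, hfAq, Matrix.zero_mul, Matrix.zero_mulVec]
      have h3 := h1 (fun _ => 1)
      have h4 := congrFun h3 ⟨0, hn⟩
      simp at h4
    obtain ⟨p, hp, v, hv0, hpv⟩ := hex
    refine ⟨p, by rw [Finset.mem_coe, Multiset.mem_toFinset]; exact hp, v, hv0, hpv, ?_⟩
    let W : Submodule ℚ (Fin n → ℚ) :=
      { carrier := {w | ∃ g : ℚ[X], w = (aeval Aq g) *ᵥ v}
        add_mem' := by
          rintro _ _ ⟨g, rfl⟩ ⟨h, rfl⟩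
          exact ⟨g + h, by rw [map_add, Matrix.add_mulVec]⟩
        zero_mem' := ⟨0, by simp⟩
        smul_mem' := by
          rintro r _ ⟨g, rfl⟩
          exact ⟨r • g, by rw [map_smul, Matrix.smul_mulVec]⟩ }
    have hW : W = ⊥ ∨ W = ⊤ := by
      apply hsimple
      rintro _ ⟨g, rfl⟩
      exact ⟨X * g, by rw [map_mul, aeval_X, Matrix.mulVec_mulVec]⟩
    rcases hW with hW | hW
    · exfalso
      have h1 : v ∈ W := ⟨1, by simp⟩
      rw [hW, Submodule.mem_bot] at h1
      exact hv0 h1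
    · intro w
      have h1 : w ∈ W := by rw [hW]; trivial
      exact h1
  · right
    push Not at hsimple
    obtain ⟨W, hWst, hW0, hW1⟩ := hsimple
    let inc : (Fin n → ℤ) →ₗ[ℤ] (Fin n → ℚ) :=
      { toFun := fun m i => (m i : ℚ)
        map_add' := fun x y => by ext i; simp
        map_smul' := fun r x => by ext i; simp }
    have hincA : ∀ m, inc (A *ᵥ m) = Aq *ᵥ (inc m) := by
      intro m
      ext i
      simp [inc, hAq, Matrix.mulVec, dotProduct]
    let N : Submodule ℤ (Fin n → ℤ) := (W.restrictScalars ℤ).comap inc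
    have hmemN : ∀ m, m ∈ N ↔ inc m ∈ W := fun m => Iff.rfl
    have hNst : ∀ x ∈ N, A *ᵥ x ∈ N := by
      intro x hx
      rw [hmemN, hincA]
      exact hWst _ hx
    have hNtf : ∀ (k : ℤ) (x : Fin n → ℤ), k ≠ 0 → k • x ∈ N → x ∈ N := by
      intro k x hk hx
      rw [hmemN] at hx ⊢
      have hkq : (k : ℚ) ≠ 0 := by exact_mod_cast hk
      have h1 : inc x = (k : ℚ)⁻¹ • inc (k • x) := by
        ext i
        simp [inc, hkq]
      rw [h1]
      exact W.smul_mem _ hx
    have hN0 : N ≠ ⊥ := by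
      intro hN
      apply hW0
      rw [eq_bot_iff]
      intro w hw
      obtain ⟨k, hk, Y, hY⟩ := exists_int_multiple (fun i (_ : Fin 1) => w i)
      have h1 : inc (fun i => Y i 0) = (k : ℚ) • w := by
        ext i
        simp [inc, hY]
      have h2 : (fun i => Y i 0) ∈ N := by
        rw [hmemN, h1]; exact W.smul_mem _ hw
      rw [hN, Submodule.mem_bot] at h2
      rw [h2, map_zero] at h1
      have hkq : (k : ℚ) ≠ 0 := by exact_mod_cast hk
      rw [Submodule.mem_bot]
      exact (smul_eq_zero.1 h1.symm).resolve_left hkq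
    have hN1 : N ≠ ⊤ := by
      intro hN
      apply hW1
      rw [eq_top_iff]
      intro w _
      have h1 : w = ∑ i, w i • inc (Pi.single i 1) := by
        ext j
        simp [inc, Pi.single_apply]
      rw [h1]
      refine W.sum_mem fun i _ => W.smul_mem _ ?_
      rw [← hmemN, hN]
      trivial
    obtain ⟨d, e, hd, he, hde, A1, A2, B, hB⟩ := exists_blocks A N hNst hNtf hN0 hN1
    have h1 := hB.aeval f hA
    obtain ⟨X, hX⟩ := aeval_blocks A1 A2 B f
    rw [hX] at h1
    have hA1 : aeval A1 f = 0 := by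
      ext i j
      exact congrFun (congrFun h1 (Sum.inl i)) (Sum.inl j)
    have hA2 : aeval A2 f = 0 := by
      ext i j
      exact congrFun (congrFun h1 (Sum.inr i)) (Sum.inr j)
    obtain ⟨A1', hA1', hiso1⟩ := hTA d (by omega) A1 hA1
    obtain ⟨A2', hA2', hiso2⟩ := hTA e (by omega) A2 hA2
    obtain ⟨B', hB'⟩ := isoM_blocks_of_iso B hiso1 hiso2
    refine ⟨(d, e), ?_, A1', hA1', A2', hA2', hA, B', hB.trans hB'⟩
    simp only [Finset.coe_product, Set.mem_prod, Finset.coe_range, Set.mem_Iio]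
    omega

end AbMot
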