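import Pool.Agent.Helper40.AbMot.Simp
import Pool.Agent.Helper76.AbMot.Base

/-!
# Lattices in a simple tuple
-/

open Polynomial Module Matrix

namespace AbMot

/-- integral tuples in a simple rational tuple fall into finitely many classes -/
lemma finT_of_isoQ {ι : Type} {n : ℕ} (hn : 0 < n) (B : ι → Matrix (Fin n) (Fin n) ℚ)
    (hB : SimpleQ B) :
    FinT (fun A : ι → Matrix (Fin n) (Fin n) ℤ => IsoQ (fun i => rat (A i)) B) := by
  classical
  let U := FreeAlgebra ℚ ι
  let V := Fin n → ℚ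
  let π : U →ₐ[ℚ] Module.End ℚ V := FreeAlgebra.lift ℚ fun i => Matrix.toLin' (B i)
  let _ : Module U V := Module.compHom V (π : U →+* Module.End ℚ V)
  have hsmul : ∀ (u : U) (v : V), u • v = π u v := fun u v => rfl
  have hι : ∀ (i : ι) (v : V), FreeAlgebra.ι ℚ i • v = B i *ᵥ v := by
    intro i v
    have h1 : π (FreeAlgebra.ι ℚ i) = Matrix.toLin' (B i) :=
      congrFun (FreeAlgebra.ι_comp_lift (R := ℚ) fun i => Matrix.toLin' (B i)) i
    rw [hsmul, h1, Matrix.toLin'_apply]
  have : IsScalarTower ℚ U V := by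
    constructor
    intro q u v
    rw [hsmul, hsmul, map_smul, LinearMap.smul_apply]
  have hnt : Nontrivial V := by
    have : Nonempty (Fin n) := ⟨⟨0, hn⟩⟩
    infer_instance
  have hsimp : IsSimpleModule U V := by
    rw [isSimpleModule_iff]
    constructor
    intro W
    have h1 : W.restrictScalars ℚ = ⊥ ∨ W.restrictScalars ℚ = ⊤ := by
      apply hB
      intro i w hw
      rw [← hι]
      exact W.smul_mem _ hw
    rcases h1 with h1 | h1
    · left
      rw [eq_bot_iff]
      intro x hx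
      have h2 : x ∈ W.restrictScalars ℚ := hx
      rw [h1] at h2
      exact h2
    · right
      rw [eq_top_iff]
      intro x _
      have h2 : x ∈ W.restrictScalars ℚ := by rw [h1]; trivial
      exact h2
  obtain ⟨T, hT, hTL⟩ := finite_lattices_simple (U := U) (V := V) (Set.range (FreeAlgebra.ι ℚ))
    (FreeAlgebra.adjoin_range_ι ℚ ι)
  refine FinT.of_key (κ := Submodule ℤ V) hT
    (fun L A => ∃ h : ∀ i, ∀ x ∈ L, B i *ᵥ x ∈ L, ∃ e : L ≃ₗ[ℤ] (Fin n → ℤ),
      ∀ i, ∀ x : L, e ⟨B i *ᵥ x, h i x x.2⟩ = A i *ᵥ (e x)) ?_ ?_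
  · rintro A ⟨e, he⟩
    let inc : (Fin n → ℤ) →ₗ[ℤ] (Fin n → ℚ) :=
      { toFun := fun m i => (m i : ℚ)
        map_add' := fun x y => by ext i; simp
        map_smul' := fun r x => by ext i; simp }
    have hincinj : Function.Injective inc := by
      intro x y h
      ext i
      have := congrFun h i
      simpa [inc] using this
    have hincA : ∀ i m, inc (A i *ᵥ m) = rat (A i) *ᵥ (inc m) := by
      intro k m
      ext i
      simp [inc, Matrix.mulVec, dotProduct]
    let j : (Fin n → ℤ) →ₗ[ℤ] V := (e.toLinearMap.restrictScalars ℤ) ∘ₗ inc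
    have hj : ∀ m, j m = e (inc m) := fun m => rfl
    let L : Submodule ℤ V := LinearMap.range j
    have hLfg : L.FG := by
      have : (LinearMap.range j).FG := by
        rw [LinearMap.range_eq_map]
        exact Submodule.FG.map _ Module.Finite.fg_top
      exact this
    have hLspan : ∀ v : V, ∃ k : ℤ, k ≠ 0 ∧ k • v ∈ L := by
      intro v
      obtain ⟨k, hk, Y, hY⟩ := exists_int_multiple (fun i (_ : Fin 1) => e.symm v i)
      refine ⟨k, hk, fun i => Y i 0, ?_⟩
      rw [hj]
      have h1 : inc (fun i => Y i 0) = k • e.symm v := by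
        ext i
        simp [inc, hY]
      rw [h1, map_zsmul, LinearEquiv.apply_symm_apply]
    have hjB : ∀ i m, B i *ᵥ j m = j (A i *ᵥ m) := by
      intro i m
      rw [hj, hj, hincA, he]
    have hLst : ∀ u ∈ Set.range (FreeAlgebra.ι ℚ), ∀ x ∈ L, (u : U) • x ∈ L := by
      rintro _ ⟨i, rfl⟩ _ ⟨m, rfl⟩
      rw [hι, hjB]
      exact ⟨_, rfl⟩
    obtain ⟨d, hd⟩ := hTL L hLfg hLspan hLst
    have hdB : ∀ i v, d (B i *ᵥ v) = B i *ᵥ d v := by
      intro i v
      rw [← hι, ← hι, map_smul]
    refine ⟨_, hd, ?_, ?_⟩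
    · rintro i _ ⟨x, hx, rfl⟩
      refine ⟨B i *ᵥ x, ?_, hdB i x⟩
      obtain ⟨m, rfl⟩ := hx
      rw [hjB]
      exact ⟨_, rfl⟩
    · let j' : (Fin n → ℤ) →ₗ[ℤ] V := (d.toLinearMap.restrictScalars ℤ) ∘ₗ j
      have hj'inj : Function.Injective j' := by
        intro x y h
        exact hincinj (e.injective (d.injective h))
      have hrange : LinearMap.range j' = L.map (d.toLinearMap.restrictScalars ℤ) := by
        simp only [j', L, LinearMap.range_comp]
      let j'' : (Fin n → ℤ) →ₗ[ℤ] (L.map (d.toLinearMap.restrictScalars ℤ)) :=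
        j'.codRestrict _ (fun m => by rw [← hrange]; exact ⟨m, rfl⟩)
      have hbij : Function.Bijective j'' := by
        constructor
        · intro x y h
          exact hj'inj (congrArg Subtype.val h)
        · rintro ⟨y, hy⟩
          rw [← hrange] at hy
          obtain ⟨m, rfl⟩ := hy
          exact ⟨m, rfl⟩
      let E : (Fin n → ℤ) ≃ₗ[ℤ] (L.map (d.toLinearMap.restrictScalars ℤ)) :=
        LinearEquiv.ofBijective j'' hbij
      refine ⟨E.symm, ?_⟩
      intro i x
      obtain ⟨m, rfl⟩ := E.surjective x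
      rw [E.symm_apply_apply, LinearEquiv.symm_apply_eq]
      apply Subtype.ext
      change B i *ᵥ (d (j m)) = d (j (A i *ᵥ m))
      rw [← hjB, hdB]
  · rintro L A A' ⟨h, e, he⟩ ⟨h', e', he'⟩
    refine ⟨e.symm.trans e', fun i x => ?_⟩
    obtain ⟨y, rfl⟩ := e.surjective x
    rw [← he]
    simp only [LinearEquiv.trans_apply, LinearEquiv.symm_apply_apply]
    exact he' i y

variable {G : Type} [Group G]

/-- **Jordan-Zassenhaus** for good tuples -/
theorem finT_good [Finite G] {f : ℤ[X]} (hf : Squarefree (f.map (Int.castRingHom ℚ)))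
    (h : G → ℚ[X]) (n : ℕ) :
    FinT (fun A : Option G → Matrix (Fin n) (Fin n) ℤ => Good f h A) := by
  refine jzT (fun n A => Good f h A) ?_ ?_ ?_ n
  · intro n d e A A1 A2 B hA hAB
    exact (hA.of_iso hAB).blocks
  · intro n d e A A1 A2 B hA hAB
    exact (hA.of_iso hAB).tor hf
  · intro n hn
    obtain ⟨R, hR, hRs, hRA⟩ := Good.finite_types hf h hn
    refine (FinT.union hR fun B hB => finT_of_isoQ hn B (hRs B hB)).mono ?_
    rintro A ⟨hA, hs⟩
    exact hRA A hA hs

end AbMot
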