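import Pool.Agent.Helper40.AbMot.Sep

/-!
# Finiteness of the set of abelian `ℤ`-motives
-/

open NumberField Polynomial

namespace AbMot

/-- conjugates of diagonal matrices -/
noncomputable def dHom {n : ℕ} (C : Matrix.GeneralLinearGroup (Fin n) ℂ) :
    (Fin n → ℂ) →ₐ[ℂ] Matrix (Fin n) (Fin n) ℂ where
  toFun d := (C : Matrix (Fin n) (Fin n) ℂ) * Matrix.diagonal d *
    ((C⁻¹ : Matrix.GeneralLinearGroup (Fin n) ℂ) : Matrix (Fin n) (Fin n) ℂ)
  map_one' := by
    have h : (Matrix.diagonal (1 : Fin n → ℂ)) = 1 := Matrix.diagonal_one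
    rw [h, mul_one, ← Units.val_mul, mul_inv_cancel, Units.val_one]
  map_mul' x y := by
    have h : ((C⁻¹ : Matrix.GeneralLinearGroup (Fin n) ℂ) : Matrix (Fin n) (Fin n) ℂ) *
        (C : Matrix (Fin n) (Fin n) ℂ) = 1 := by
      rw [← Units.val_mul, inv_mul_cancel, Units.val_one]
    have h2 : Matrix.diagonal (x * y) = Matrix.diagonal x * Matrix.diagonal y :=
      (Matrix.diagonal_mul_diagonal x y).symm
    rw [h2]
    calc _ = (C : Matrix (Fin n) (Fin n) ℂ) * Matrix.diagonal x * (1 * Matrix.diagonal y) *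
        ((C⁻¹ : Matrix.GeneralLinearGroup (Fin n) ℂ) : Matrix (Fin n) (Fin n) ℂ) := by
          simp only [one_mul, mul_assoc]
      _ = _ := by rw [← h]; simp only [mul_assoc]
  map_zero' := by
    have h : (Matrix.diagonal (0 : Fin n → ℂ)) = 0 := Matrix.diagonal_zero
    rw [h, mul_zero, zero_mul]
  map_add' x y := by
    have h2 : Matrix.diagonal (x + y) = Matrix.diagonal x + Matrix.diagonal y :=
      (Matrix.diagonal_add x y).symm
    rw [h2, mul_add, add_mul]
  commutes' r := by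
    have h : Matrix.diagonal (algebraMap ℂ (Fin n → ℂ) r) = r • (1 : Matrix (Fin n) (Fin n) ℂ) := by
      ext i j
      by_cases hij : i = j
      · subst hij; simp
      · simp [hij]
    rw [h, Algebra.algebraMap_eq_smul_one, mul_smul_comm, mul_one, smul_mul_assoc, ← Units.val_mul,
      mul_inv_cancel, Units.val_one]

lemma dHom_injective {n : ℕ} (C : Matrix.GeneralLinearGroup (Fin n) ℂ) :
    Function.Injective (dHom C) := by
  intro x y h
  have h1 : (C : Matrix (Fin n) (Fin n) ℂ) * Matrix.diagonal x *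
    ((C⁻¹ : Matrix.GeneralLinearGroup (Fin n) ℂ) : Matrix (Fin n) (Fin n) ℂ) =
    (C : Matrix (Fin n) (Fin n) ℂ) * Matrix.diagonal y *
    ((C⁻¹ : Matrix.GeneralLinearGroup (Fin n) ℂ) : Matrix (Fin n) (Fin n) ℂ) := h
  have h2 := (Units.mul_left_inj _).1 h1
  have h3 := (Units.mul_right_inj _).1 h2
  exact Matrix.diagonal_injective h3

lemma aeval_dHom {n : ℕ} (C : Matrix.GeneralLinearGroup (Fin n) ℂ) (d : Fin n → ℂ) (G : ℂ[X]) :
    aeval (dHom C d) G = dHom C (fun i => G.eval (d i)) := by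
  rw [Polynomial.aeval_algHom_apply]
  congr 1
  funext i
  simp

variable {F : Type} [Field F] [NumberField F]

/-- the complexification of rational matrices -/
noncomputable abbrev cplx (n : ℕ) : Matrix (Fin n) (Fin n) ℚ →+* Matrix (Fin n) (Fin n) ℂ :=
  (algebraMap ℚ ℂ).mapMatrix

lemma cplx_injective (n : ℕ) : Function.Injective (cplx n) := by
  intro A B h
  ext i j
  have h1 := congrFun (congrFun h i) j
  simpa using h1

lemma ZMotive.exists_diag {S : Finset ℕ} {n w : ℕ} (M : ZMotive F S n w) :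
    ∃ (χ : Fin n → (idealsAway F S →* ℂ)) (C : Matrix.GeneralLinearGroup (Fin n) ℂ),
      (∀ i, χ i ∈ heckeSet F S n w) ∧
      ∀ I, cplx n (M.ψ I : Matrix (Fin n) (Fin n) ℚ) = dHom C (fun i => χ i I) := by
  obtain ⟨χ, C, h1, h2⟩ := M.hecke
  have h2' : ∀ I, cplx n (M.ψ I : Matrix (Fin n) (Fin n) ℚ) = dHom C (fun i => χ i I) := h2
  refine ⟨χ, C, fun i => ⟨h1 i, fun I => ?_, fun I => ?_⟩, h2'⟩
  · -- nonvanishing
    let ψ' := ((M.ψ I)⁻¹ : Matrix.GeneralLinearGroup (Fin n) ℚ)
    have h3 : (M.ψ I : Matrix (Fin n) (Fin n) ℚ) * (ψ' : Matrix (Fin n) (Fin n) ℚ) = 1 := by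
      rw [← Units.val_mul, mul_inv_cancel, Units.val_one]
    have h4 := congrArg (cplx n) h3
    rw [map_mul, h2' I, map_one] at h4
    have h5 : IsUnit (dHom C (fun i => χ i I)) := IsUnit.of_mul_eq_one _ h4
    intro h0
    -- the idempotent at `i` kills it
    have h6 : dHom C (fun i => χ i I) * dHom C (Pi.single i 1) = 0 := by
      rw [← map_mul, ← map_zero (dHom C)]
      congr 1
      funext j
      by_cases hj : j = i
      · subst hj; simp [h0]
      · simp [hj]
    have h7 : dHom C (Pi.single i 1) = 0 := by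
      have := h5.mul_right_eq_zero.1 h6
      exact this
    have h8 := dHom_injective C (h7.trans (map_zero (dHom C)).symm)
    have h9 := congrFun h8 i
    simp at h9
  · -- characteristic polynomial
    let q := (M.ψ I : Matrix (Fin n) (Fin n) ℚ).charpoly
    refine ⟨q, (Matrix.charpoly_monic _).ne_zero, ?_, ?_⟩
    · rw [Matrix.charpoly_natDegree_eq_dim, Fintype.card_fin]
    · have h3 : aeval (M.ψ I : Matrix (Fin n) (Fin n) ℚ) q = 0 := Matrix.aeval_self_charpoly _
      have h4 := aeval_mapMat (algebraMap ℚ ℂ) (M.ψ I : Matrix (Fin n) (Fin n) ℚ) q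
      rw [h3, map_zero] at h4
      have h5 : (algebraMap ℚ ℂ).mapMatrix (M.ψ I : Matrix (Fin n) (Fin n) ℚ) =
        dHom C (fun i => χ i I) := h2' I
      rw [h5, aeval_dHom] at h4
      have h6 := dHom_injective C (h4.symm.trans (map_zero (dHom C)).symm)
      have h7 := congrFun h6 i
      simp only [Pi.zero_apply, eval_map_algebraMap] at h7
      exact h7

/-- the combination of Frobenius matrices with coefficients `c` -/
noncomputable def ZMotive.comb {S : Finset ℕ} {n w : ℕ} (M : ZMotive F S n w)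
    (c : idealsAway F S →₀ ℤ) : Matrix (Fin n) (Fin n) ℚ :=
  c.sum fun I z => z • (M.ψ I : Matrix (Fin n) (Fin n) ℚ)

/-- the value of a combination at a character -/
noncomputable def cval {S : Finset ℕ} (c : idealsAway F S →₀ ℤ) (χ : idealsAway F S →* ℂ) : ℂ :=
  c.sum fun I z => (z : ℂ) * χ I

lemma ZMotive.cplx_comb {S : Finset ℕ} {n w : ℕ} (M : ZMotive F S n w)
    {χ : Fin n → (idealsAway F S →* ℂ)} {C : Matrix.GeneralLinearGroup (Fin n) ℂ}
    (h : ∀ I, cplx n (M.ψ I : Matrix (Fin n) (Fin n) ℚ) = dHom C (fun i => χ i I))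
    (c : idealsAway F S →₀ ℤ) : cplx n (M.comb c) = dHom C (fun i => cval c (χ i)) := by
  rw [ZMotive.comb, Finsupp.sum, map_sum]
  have h1 : ∀ I ∈ c.support, cplx n (c I • (M.ψ I : Matrix (Fin n) (Fin n) ℚ)) =
      dHom C (fun i => (c I : ℂ) * χ i I) := by
    intro I _
    rw [map_zsmul, h, ← map_zsmul]
    congr 1
    funext i
    simp
  rw [Finset.sum_congr rfl h1, ← map_sum]
  congr 1
  funext i
  rw [Finset.sum_apply]
  rfl

/-- ideals whose norm is prime to `l` are prime to `l` -/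
lemma coprime_of_absNorm {I : Ideal (𝓞 F)} {N : ℕ} (hI : Ideal.absNorm I ∣ N) {l : ℕ}
    (hl : Nat.Coprime N l) : IsCoprime I (Ideal.span {(l : 𝓞 F)}) := by
  have h1 : IsCoprime ((Ideal.absNorm I : ℕ) : ℤ) (l : ℤ) :=
    Nat.isCoprime_iff_coprime.2 (hl.coprime_dvd_left hI)
  obtain ⟨a, b, hab⟩ := h1
  rw [Ideal.isCoprime_iff_exists]
  refine ⟨(a : 𝓞 F) * ((Ideal.absNorm I : ℕ) : 𝓞 F), I.mul_mem_left _ (Ideal.absNorm_mem I),
    (b : 𝓞 F) * (l : 𝓞 F), Ideal.mul_mem_left _ _ (Ideal.mem_span_singleton_self _), ?_⟩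
  exact_mod_cast congrArg (Int.cast : ℤ → 𝓞 F) hab

lemma absNorm_coprime {S : Finset ℕ} (hS : ∀ p ∈ S, p.Prime) {I : Ideal (𝓞 F)}
    (hI : I ∈ idealsAway F S) {p : ℕ} (hp : p ∈ S) : Nat.Coprime (Ideal.absNorm I) p := by
  rw [Nat.coprime_comm, Nat.Prime.coprime_iff_not_dvd (hS p hp)]
  intro hdvd
  obtain ⟨P, hP, hPp, hPI⟩ := Ideal.exists_isMaximal_dvd_of_dvd_absNorm' (hS p hp) I hdvd
  have h1 : (p : 𝓞 F) ∈ P := by
    have h2 : (p : ℤ) ∈ P.under ℤ := by rw [hPp]; exact Ideal.mem_span_singleton_self _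
    have h3 : algebraMap ℤ (𝓞 F) (p : ℤ) ∈ P := h2
    simpa using h3
  have h4 := Ideal.isCoprime_iff_sup_eq.1 (hI.2 p hp)
  apply hP.ne_top
  rw [eq_top_iff, ← h4]
  refine sup_le (Ideal.le_of_dvd hPI) ?_
  rw [Ideal.span_le, Set.singleton_subset_iff]
  exact h1

/-- a rational section of `ℚ → ℂ` applied to the coefficients of a polynomial -/
lemma exists_rational_poly (G : ℂ[X]) : ∃ G' : ℚ[X], ∀ (n : ℕ) (u v : Matrix (Fin n) (Fin n) ℚ),
    cplx n u = aeval (cplx n v) G → u = aeval v G' := by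
  obtain ⟨π, hπ⟩ := LinearMap.exists_leftInverse_of_injective (Algebra.linearMap ℚ ℂ) (by
    rw [LinearMap.ker_eq_bot]; exact (algebraMap ℚ ℂ).injective)
  have hπ1 : ∀ q : ℚ, π (algebraMap ℚ ℂ q) = q := fun q => LinearMap.congr_fun hπ q
  refine ⟨∑ k ∈ Finset.range (G.natDegree + 1), monomial k (π (G.coeff k)), fun n u v h => ?_⟩
  rw [map_sum]
  ext i j
  have h1 := congrFun (congrFun h i) j
  rw [aeval_eq_sum_range' (n := G.natDegree + 1) (Nat.lt_succ_self _), Matrix.sum_apply] at h1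
  have h2 : ∀ k ∈ Finset.range (G.natDegree + 1), (G.coeff k • cplx n v ^ k) i j =
      ((v ^ k) i j) • G.coeff k := by
    intro k _
    rw [← map_pow, Matrix.smul_apply, RingHom.mapMatrix_apply, Matrix.map_apply, smul_eq_mul,
      Algebra.smul_def, mul_comm]
  rw [Finset.sum_congr rfl h2, RingHom.mapMatrix_apply, Matrix.map_apply] at h1
  have h3 := congrArg π h1
  rw [hπ1, map_sum] at h3
  rw [h3, Matrix.sum_apply]
  refine Finset.sum_congr rfl fun k _ => ?_
  rw [map_smul, aeval_monomial, Algebra.algebraMap_eq_smul_one, smul_mul_assoc, one_mul,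
    Matrix.smul_apply, smul_eq_mul, smul_eq_mul, mul_comm]

/-- a universal integral combination of Frobenius matrices -/
theorem exists_universal (S : Finset ℕ) (hS : ∀ p ∈ S, p.Prime) (n w : ℕ) :
    ∃ (D : ℤ) (c : idealsAway F S →₀ ℤ), D ≠ 0 ∧ Set.InjOn (cval c) (heckeSet F S n w) ∧
      ∀ M : ZMotive F S n w, ∃ A : Matrix (Fin n) (Fin n) ℤ,
        A.map (Int.castRingHom ℚ) = D • M.comb c := by
  classical
  have hfin := finite_heckeSet (F := F) S hS n w
  -- first combination
  let X1 : Finset (idealsAway F S → ℂ) := hfin.toFinset.image fun χ I => χ I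
  obtain ⟨c1, hc1⟩ := exists_sep X1
  have hc1' : Set.InjOn (cval c1) (heckeSet F S n w) := by
    intro χ hχ χ' hχ' h
    have h1 : (fun I => χ I) ∈ X1 := Finset.mem_image_of_mem _ (hfin.mem_toFinset.2 hχ)
    have h2 : (fun I => χ' I) ∈ X1 := Finset.mem_image_of_mem _ (hfin.mem_toFinset.2 hχ')
    exact DFunLike.coe_injective (hc1 h1 h2 h)
  -- its support
  let N1 : ℕ := ∏ I ∈ c1.support, Ideal.absNorm (I : Ideal (𝓞 F))
  have hN1 : N1 ≠ 0 := Finset.prod_ne_zero_iff.2 fun I _ => by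
    rw [Ne, Ideal.absNorm_eq_zero_iff]; exact I.2.1
  have hN1S : ∀ p ∈ S, Nat.Coprime N1 p := fun p hp =>
    Nat.Coprime.prod_left fun I _ => absNorm_coprime hS I.2 hp
  -- second combination
  let ι := {I : idealsAway F S // IsCoprime (I : Ideal (𝓞 F)) (Ideal.span {(N1 : 𝓞 F)})}
  let X2 : Finset (ι → ℂ) := hfin.toFinset.image fun χ I => χ I.1
  obtain ⟨c2, hc2⟩ := exists_sep X2
  let c2' : idealsAway F S →₀ ℤ := c2.embDomain ⟨Subtype.val, Subtype.val_injective⟩
  have hc2val : ∀ χ : idealsAway F S →* ℂ, cval c2' χ = c2.sum fun I z => (z : ℂ) * χ I.1 := by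
    intro χ
    rw [cval, Finsupp.sum_embDomain]
    rfl
  have hc2' : Set.InjOn (cval c2') (heckeSet F S n w) := by
    intro χ hχ χ' hχ' h
    have h1 : (fun I : ι => χ I.1) ∈ X2 := Finset.mem_image_of_mem _ (hfin.mem_toFinset.2 hχ)
    have h2 : (fun I : ι => χ' I.1) ∈ X2 := Finset.mem_image_of_mem _ (hfin.mem_toFinset.2 hχ')
    rw [hc2val, hc2val] at h
    have h3 := hc2 h1 h2 h
    obtain ⟨m, hm, e, _, hT⟩ := isHecke_iff.1 hχ.1
    obtain ⟨m', hm', e', _, hT'⟩ := isHecke_iff.1 hχ'.1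
    exact (ext_of_coprime hS (hm.mul hm') (hT.of_dvd (dvd_mul_right m m'))
      (hT'.of_dvd (dvd_mul_left m' m)) N1 hN1 hN1S
      (fun I hI => congrFun h3 (⟨I, hI⟩ : ι))).2
  have hc2supp : ∀ I ∈ c2'.support, IsCoprime (I : Ideal (𝓞 F)) (Ideal.span {(N1 : 𝓞 F)}) := by
    intro I hI
    rw [Finsupp.support_embDomain, Finset.mem_map] at hI
    obtain ⟨J, _, rfl⟩ := hI
    exact J.2
  -- the universal polynomial
  let G : ℂ[X] := Lagrange.interpolate hfin.toFinset (cval c2') (cval c1)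
  have hG : ∀ χ ∈ heckeSet F S n w, G.eval (cval c2' χ) = cval c1 χ := fun χ hχ =>
    Lagrange.eval_interpolate_at_node (cval c1) (by
      rw [hfin.coe_toFinset]; exact hc2') (hfin.mem_toFinset.2 hχ)
  obtain ⟨G', hG'⟩ := exists_rational_poly G
  obtain ⟨D, hD, hDG⟩ := IsLocalization.integerNormalization_spec (nonZeroDivisors ℤ) G'
  set g : ℤ[X] := IsLocalization.integerNormalization (nonZeroDivisors ℤ) G' with hg
  have hD0 : D ≠ 0 := nonZeroDivisors.ne_zero hD
  refine ⟨D, c1, hD0, hc1', fun M => ?_⟩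
  obtain ⟨χ, C, hχ, hdiag⟩ := M.exists_diag
  have huv : M.comb c1 = aeval (M.comb c2') G' := by
    apply hG'
    rw [M.cplx_comb hdiag, M.cplx_comb hdiag, aeval_dHom]
    congr 1
    funext i
    exact (hG _ (hχ i)).symm
  have huv2 : D • M.comb c1 = aeval (M.comb c2') g := by
    rw [← aeval_map_algebraMap ℚ, hDG, map_zsmul, ← huv]
  apply exists_int_of_forall_loc
  intro l hl
  by_cases hlN : l ∣ N1
  · rw [huv2]
    apply aeval_mem_locMat hl
    refine sum_mem fun I hI => zsmul_mem ?_ _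
    rw [mem_locMat hl]
    intro i j
    refine (M.stable l hl I ?_ i j).1
    obtain ⟨c, hc⟩ := hlN
    have h1 := hc2supp I hI
    rw [hc, Nat.cast_mul, ← Ideal.span_singleton_mul_span_singleton] at h1
    exact h1.of_mul_right_left
  · apply zsmul_mem
    refine sum_mem fun I hI => zsmul_mem ?_ _
    rw [mem_locMat hl]
    intro i j
    refine (M.stable l hl I ?_ i j).1
    refine coprime_of_absNorm (Finset.dvd_prod_of_mem (fun I : idealsAway F S =>
      Ideal.absNorm (I : Ideal (𝓞 F))) hI) ?_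
    rw [Nat.coprime_comm, Nat.Prime.coprime_iff_not_dvd hl]
    exact hlN

/-- a squarefree integral polynomial which kills finitely many algebraic numbers -/
lemma exists_squarefree_poly (Z : Finset ℂ) (hZ : ∀ z ∈ Z, IsAlgebraic ℚ z) :
    ∃ f : ℤ[X], Squarefree (f.map (Int.castRingHom ℚ)) ∧ ∀ z ∈ Z, aeval z f = 0 := by
  classical
  let P : Finset ℚ[X] := Z.image fun z => minpoly ℚ z
  let q : ℚ[X] := ∏ p ∈ P, p
  have hirr : ∀ p ∈ P, Irreducible p ∧ p.Monic := by
    intro p hp
    obtain ⟨z, hz, rfl⟩ := Finset.mem_image.1 hp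
    exact ⟨minpoly.irreducible (hZ z hz).isIntegral, minpoly.monic (hZ z hz).isIntegral⟩
  have hq : Squarefree q := by
    apply Finset.squarefree_prod_of_pairwise_isCoprime (f := fun p => p)
    · intro p hp p' hp' hne
      have h1 := hirr p hp
      have h2 := hirr p' hp'
      refine ((Irreducible.coprime_iff_not_dvd h1.1).2 fun hdvd => hne ?_).isRelPrime
      exact eq_of_monic_of_associated h1.2 h2.2 (h1.1.associated_of_dvd h2.1 hdvd)
    · intro p hp
      exact (hirr p hp).1.squarefree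
  obtain ⟨b, hb, hbq⟩ := IsLocalization.integerNormalization_spec (nonZeroDivisors ℤ) q
  have hb0 : (b : ℚ) ≠ 0 := by exact_mod_cast nonZeroDivisors.ne_zero hb
  refine ⟨IsLocalization.integerNormalization (nonZeroDivisors ℤ) q, ?_, ?_⟩
  · have h1 : (IsLocalization.integerNormalization (nonZeroDivisors ℤ) q).map (Int.castRingHom ℚ) =
        b • q := hbq
    rw [h1]
    have h2 : b • q = C (b : ℚ) * q := by
      rw [← smul_eq_C_mul, Int.cast_smul_eq_zsmul]
    have hu : IsUnit (C (b : ℚ)) := (isUnit_C).2 (isUnit_iff_ne_zero.2 hb0)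
    rw [h2]
    exact hq.squarefree_of_dvd ((associated_unit_mul_left q _ hu).dvd)
  · intro z hz
    rw [← aeval_map_algebraMap ℚ, hbq, map_zsmul]
    have h3 : aeval z q = 0 := by
      simp only [q, map_prod]
      exact Finset.prod_eq_zero (Finset.mem_image_of_mem (fun z => minpoly ℚ z) hz)
        (minpoly.aeval ℚ z)
    rw [h3, smul_zero]

/-- **Finiteness of abelian `ℤ`-motives** -/
theorem finiteness (S : Finset ℕ) (hS : ∀ p ∈ S, p.Prime) (n w : ℕ) :
    ∃ T : Finset (ZMotive F S n w), ∀ M : ZMotive F S n w, ∃ M' ∈ T, M.Iso M' := by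
  classical
  obtain ⟨D, c, hD, hc, hA⟩ := exists_universal (F := F) S hS n w
  choose A hA using hA
  have hfin := finite_heckeSet (F := F) S hS n w
  have hDC : (D : ℂ) ≠ 0 := by exact_mod_cast hD
  -- eigenvalues
  let z : (idealsAway F S →* ℂ) → ℂ := fun χ => (D : ℂ) * cval c χ
  have hzinj : Set.InjOn z (heckeSet F S n w) := by
    intro χ hχ χ' hχ' h
    exact hc hχ hχ' (mul_left_cancel₀ hDC h)
  have hzalg : ∀ χ ∈ heckeSet F S n w, IsAlgebraic ℚ (z χ) := by
    intro χ hχ
    refine IsAlgebraic.mul (isAlgebraic_intCast D) ?_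
    rw [cval, Finsupp.sum]
    rw [isAlgebraic_iff_isIntegral]
    refine IsIntegral.sum _ fun I _ => ?_
    rw [← isAlgebraic_iff_isIntegral]
    refine IsAlgebraic.mul (isAlgebraic_intCast _) ?_
    obtain ⟨q, hq0, _, hq⟩ := hχ.2.2 I
    exact ⟨q, hq0, hq⟩
  obtain ⟨f, hf, hfz⟩ := exists_squarefree_poly (hfin.toFinset.image z) (by
    intro y hy
    obtain ⟨χ, hχ, rfl⟩ := Finset.mem_image.1 hy
    exact hzalg χ (hfin.mem_toFinset.1 hχ))
  -- complexification of `A M`
  have hAC : ∀ (M : ZMotive F S n w) (χ : Fin n → (idealsAway F S →* ℂ))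
      (C : Matrix.GeneralLinearGroup (Fin n) ℂ),
      (∀ I, cplx n (M.ψ I : Matrix (Fin n) (Fin n) ℚ) = dHom C (fun i => χ i I)) →
      (A M).map (Int.castRingHom ℂ) = dHom C (fun i => z (χ i)) := by
    intro M χ C h
    have h1 : (A M).map (Int.castRingHom ℂ) = cplx n ((A M).map (Int.castRingHom ℚ)) := by
      ext i j
      simp
    rw [h1, hA, map_zsmul, M.cplx_comb h, ← map_zsmul]
    congr 1
    funext i
    simp [z]
  have hAf : ∀ M : ZMotive F S n w, aeval (A M) f = 0 := by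
    intro M
    obtain ⟨χ, C, hχ, hdiag⟩ := M.exists_diag
    have h1 := aeval_mapMat (Int.castRingHom ℂ) (A M) f
    have h2 : (Int.castRingHom ℂ).mapMatrix (A M) = dHom C (fun i => z (χ i)) := hAC M χ C hdiag
    rw [h2, aeval_dHom] at h1
    have h3 : (fun i => (f.map (Int.castRingHom ℂ)).eval (z (χ i))) = 0 := by
      funext i
      have h4 := hfz (z (χ i)) (Finset.mem_image_of_mem z (hfin.mem_toFinset.2 (hχ i)))
      rw [eval_map]
      exact h4
    rw [h3, map_zero] at h1
    ext i j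
    have h5 := congrFun (congrFun h1 i) j
    simpa using h5
  obtain ⟨T, hT, hTA⟩ := jz f hf n
  -- equivalent matrices give isomorphic motives
  have key : ∀ M M' : ZMotive F S n w, IsoM (A M) (A M') → M.Iso M' := by
    rintro M M' ⟨e, he⟩
    obtain ⟨χ, C, hχ, hdiag⟩ := M.exists_diag
    obtain ⟨χ', C', hχ', hdiag'⟩ := M'.exists_diag
    let g1 : Matrix (Fin n) (Fin n) ℤ := LinearMap.toMatrix' e.toLinearMap
    let g2 : Matrix (Fin n) (Fin n) ℤ := LinearMap.toMatrix' e.symm.toLinearMap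
    have h12 : g1 * g2 = 1 := by
      simp only [g1, g2]
      rw [← LinearMap.toMatrix'_comp]
      simp
    have h21 : g2 * g1 = 1 := by
      simp only [g1, g2]
      rw [← LinearMap.toMatrix'_comp]
      simp
    let g : Matrix.GeneralLinearGroup (Fin n) ℤ := ⟨g1, g2, h12, h21⟩
    have hgA : g1 * A M = A M' * g1 := by
      apply Matrix.toLin'.injective
      refine LinearMap.ext fun x => ?_
      rw [Matrix.toLin'_mul, Matrix.toLin'_mul, LinearMap.comp_apply, LinearMap.comp_apply]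
      simp only [g1, Matrix.toLin'_toMatrix', Matrix.toLin'_apply]
      exact he x
    refine ⟨g, fun I => ?_⟩
    -- interpolation
    let G : ℂ[X] := Lagrange.interpolate hfin.toFinset z (fun χ => χ I)
    have hG : ∀ χ ∈ heckeSet F S n w, G.eval (z χ) = χ I := fun χ hχ =>
      Lagrange.eval_interpolate_at_node (fun χ : idealsAway F S →* ℂ => χ I) (by
        rw [hfin.coe_toFinset]; exact hzinj) (hfin.mem_toFinset.2 hχ)
    have e1 : cplx n (M.ψ I : Matrix (Fin n) (Fin n) ℚ) =
        aeval ((A M).map (Int.castRingHom ℂ)) G := by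
      rw [hAC M χ C hdiag, aeval_dHom, hdiag]
      congr 1
      funext i
      exact (hG _ (hχ i)).symm
    have e2 : cplx n (M'.ψ I : Matrix (Fin n) (Fin n) ℚ) =
        aeval ((A M').map (Int.castRingHom ℂ)) G := by
      rw [hAC M' χ' C' hdiag', aeval_dHom, hdiag']
      congr 1
      funext i
      exact (hG _ (hχ' i)).symm
    have hgAC : g1.map (Int.castRingHom ℂ) * (A M).map (Int.castRingHom ℂ) =
        (A M').map (Int.castRingHom ℂ) * g1.map (Int.castRingHom ℂ) := by
      rw [← Matrix.map_mul, ← Matrix.map_mul, hgA]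
    have hpoly : ∀ H : ℂ[X], g1.map (Int.castRingHom ℂ) * aeval ((A M).map (Int.castRingHom ℂ)) H =
        aeval ((A M').map (Int.castRingHom ℂ)) H * g1.map (Int.castRingHom ℂ) := by
      intro H
      induction H using Polynomial.induction_on' with
      | add p q hp hq => rw [map_add, map_add, mul_add, add_mul, hp, hq]
      | monomial k a =>
        have hk : g1.map (Int.castRingHom ℂ) * ((A M).map (Int.castRingHom ℂ)) ^ k =
            ((A M').map (Int.castRingHom ℂ)) ^ k * g1.map (Int.castRingHom ℂ) := by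
          induction k with
          | zero => simp
          | succ k ih => rw [pow_succ, ← mul_assoc, ih, mul_assoc, hgAC, ← mul_assoc, ← pow_succ]
        rw [aeval_monomial, aeval_monomial, Algebra.algebraMap_eq_smul_one,
          smul_mul_assoc, smul_mul_assoc, one_mul, one_mul, mul_smul_comm, smul_mul_assoc, hk]
    apply cplx_injective n
    rw [map_mul, map_mul, e1, e2]
    have h3 : cplx n (((g : Matrix.GeneralLinearGroup (Fin n) ℤ) : Matrix (Fin n) (Fin n) ℤ).map
        (algebraMap ℤ ℚ)) = g1.map (Int.castRingHom ℂ) := by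
      ext i j
      simp [g]
    rw [h3]
    exact hpoly G
  -- choose representatives
  let rp : Matrix (Fin n) (Fin n) ℤ → Option (ZMotive F S n w) := fun B =>
    if h : ∃ M, IsoM (A M) B then some h.choose else none
  let T' : Finset (ZMotive F S n w) := (hT.toFinset.image rp).eraseNone
  refine ⟨T', fun M => ?_⟩
  obtain ⟨B, hB, hMB⟩ := hTA (A M) (hAf M)
  have hex : ∃ M, IsoM (A M) B := ⟨M, hMB⟩
  refine ⟨hex.choose, ?_, key _ _ (hMB.trans hex.choose_spec.symm)⟩
  rw [Finset.mem_eraseNone, Finset.mem_image]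
  refine ⟨B, hT.mem_toFinset.2 hB, ?_⟩
  simp only [rp, dif_pos hex]

end AbMot
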