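import Pool.Agent.Helper40.AbMot.EDefs
import Pool.Agent.Helper40.AbMot.Main
import Pool.Agent.Helper40.AbMot.Lat

/-!
# Finiteness of equivariant abelian `ℤ`-motives
-/

open NumberField Polynomial

namespace AbMot

variable {K : Type} [Field K] [NumberField K]

lemma galIdeal_comp (S : Finset ℕ) (σ τ : RingAut K) (I : idealsAway K S) :
    galIdeal S σ (galIdeal S τ I) = galIdeal S (σ * τ) I := by
  apply Subtype.ext
  change ((I : Ideal (𝓞 K)).map (RingOfIntegers.mapRingEquiv τ)).map
    (RingOfIntegers.mapRingEquiv σ) = (I : Ideal (𝓞 K)).map (RingOfIntegers.mapRingEquiv (σ * τ))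
  rw [← Ideal.map_coe (RingOfIntegers.mapRingEquiv τ), ← Ideal.map_coe (RingOfIntegers.mapRingEquiv σ),
    Ideal.map_map]
  rfl

lemma galIdeal_one (S : Finset ℕ) (I : idealsAway K S) :
    galIdeal S (1 : RingAut K) I = I := by
  apply Subtype.ext
  change (I : Ideal (𝓞 K)).map (RingOfIntegers.mapRingEquiv (1 : RingAut K)) = I
  have h : ((RingOfIntegers.mapRingEquiv (1 : RingAut K) : 𝓞 K ≃+* 𝓞 K) : 𝓞 K →+* 𝓞 K) =
      RingHom.id _ := by
    ext x
    rfl
  rw [← Ideal.map_coe (RingOfIntegers.mapRingEquiv (1 : RingAut K)), h, Ideal.map_id]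

variable {G : Type} [Group G] {act : G →* RingAut K} {S : Finset ℕ} {n w : ℕ}

/-- the transported combination -/
noncomputable def galComb (act : G →* RingAut K) (c : idealsAway K S →₀ ℤ) (g : G) :
    idealsAway K S →₀ ℤ := c.mapDomain (galIdeal S (act g⁻¹))

lemma EMotive.comb_rho (M : EMotive K G act S n w) (c : idealsAway K S →₀ ℤ) (g : G) :
    M.toZMotive.comb c * rat (M.ρ g : Matrix (Fin n) (Fin n) ℤ) =
      rat (M.ρ g : Matrix (Fin n) (Fin n) ℤ) * M.toZMotive.comb (galComb act c g) := by
  classical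
  have h1 : M.toZMotive.comb (galComb act c g) =
      c.sum fun I z => z • (M.ψ (galIdeal S (act g⁻¹) I) : Matrix (Fin n) (Fin n) ℚ) := by
    rw [ZMotive.comb, galComb, Finsupp.sum_mapDomain_index]
    · intro I; simp
    · intro I a b; rw [add_smul]
  rw [h1, ZMotive.comb, Finsupp.sum, Finsupp.sum, Finset.sum_mul, Finset.mul_sum]
  refine Finset.sum_congr rfl fun I _ => ?_
  rw [smul_mul_assoc, mul_smul_comm]
  congr 1
  have h2 := M.equivariant g (galIdeal S (act g⁻¹) I)
  rw [galIdeal_comp, ← map_mul, mul_inv_cancel, map_one, galIdeal_one] at h2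
  exact h2.symm

/-- **Finiteness of equivariant abelian `ℤ`-motives** -/
theorem finiteness_equivariant [Finite G] (act : G →* RingAut K) (S : Finset ℕ)
    (hS : ∀ p ∈ S, p.Prime) (n w : ℕ) :
    ∃ T : Finset (EMotive K G act S n w), ∀ M : EMotive K G act S n w, ∃ M' ∈ T, M.Iso M' := by
  classical
  obtain ⟨D, c, hD, hc, hA⟩ := exists_universal (F := K) S hS n w
  choose A hA using hA
  have hfin := finite_heckeSet (F := K) S hS n w
  have hDC : (D : ℂ) ≠ 0 := by exact_mod_cast hD
  -- eigenvalues
  let z : (idealsAway K S →* ℂ) → ℂ := fun χ => (D : ℂ) * cval c χ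
  have hzinj : Set.InjOn z (heckeSet K S n w) := by
    intro χ hχ χ' hχ' h
    exact hc hχ hχ' (mul_left_cancel₀ hDC h)
  have hzalg : ∀ χ ∈ heckeSet K S n w, IsAlgebraic ℚ (z χ) := by
    intro χ hχ
    refine IsAlgebraic.mul (isAlgebraic_intCast D) ?_
    rw [cval, Finsupp.sum]
    rw [isAlgebraic_iff_isIntegral]
    refine IsIntegral.sum _ fun I _ => ?_
    rw [← isAlgebraic_iff_isIntegral]
    refine IsAlgebraic.mul (isAlgebraic_intCast _) ?_
    obtain ⟨q, hq0, _, hq⟩ := hχ.2.2 I
    exact ⟨q, hq0, hq⟩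
  obtain ⟨f, hf, hfz⟩ := exists_squarefree_poly (hfin.toFinset.image z) (by
    intro y hy
    obtain ⟨χ, hχ, rfl⟩ := Finset.mem_image.1 hy
    exact hzalg χ (hfin.mem_toFinset.1 hχ))
  -- complexification of `A M`
  have hAC : ∀ (M : ZMotive K S n w) (χ : Fin n → (idealsAway K S →* ℂ))
      (C : Matrix.GeneralLinearGroup (Fin n) ℂ),
      (∀ I, cplx n (M.ψ I : Matrix (Fin n) (Fin n) ℚ) = dHom C (fun i => χ i I)) →
      (A M).map (Int.castRingHom ℂ) = dHom C (fun i => z (χ i)) := by
    intro M χ C h
    have h1 : (A M).map (Int.castRingHom ℂ) = cplx n ((A M).map (Int.castRingHom ℚ)) := by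
      ext i j
      simp
    rw [h1, hA, map_zsmul, M.cplx_comb h, ← map_zsmul]
    congr 1
    funext i
    simp [z]
  have hAf : ∀ M : ZMotive K S n w, aeval (A M) f = 0 := by
    intro M
    obtain ⟨χ, C, hχ, hdiag⟩ := M.exists_diag
    have h1 := aeval_mapMat (Int.castRingHom ℂ) (A M) f
    have h2 : (Int.castRingHom ℂ).mapMatrix (A M) = dHom C (fun i => z (χ i)) := hAC M χ C hdiag
    rw [h2, aeval_dHom] at h1
    have h3 : (fun i => (f.map (Int.castRingHom ℂ)).eval (z (χ i))) = 0 := by
      funext i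
      have h4 := hfz (z (χ i)) (Finset.mem_image_of_mem z (hfin.mem_toFinset.2 (hχ i)))
      rw [eval_map]
      exact h4
    rw [h3, map_zero] at h1
    ext i j
    have h5 := congrFun (congrFun h1 i) j
    simpa using h5
  -- the universal conjugation polynomials
  have hH : ∀ g : G, ∃ h : ℚ[X], ∀ M : EMotive K G act S n w,
      D • M.toZMotive.comb (galComb act c g) = aeval (rat (A M.toZMotive)) h := by
    intro g
    let H : ℂ[X] := Lagrange.interpolate hfin.toFinset z
      (fun χ => (D : ℂ) * cval (galComb act c g) χ)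
    have hHe : ∀ χ ∈ heckeSet K S n w, H.eval (z χ) = (D : ℂ) * cval (galComb act c g) χ :=
      fun χ hχ => Lagrange.eval_interpolate_at_node
        (fun χ : idealsAway K S →* ℂ => (D : ℂ) * cval (galComb act c g) χ) (by
          rw [hfin.coe_toFinset]; exact hzinj) (hfin.mem_toFinset.2 hχ)
    obtain ⟨h, hh⟩ := exists_rational_poly H
    refine ⟨h, fun M => hh n _ _ ?_⟩
    obtain ⟨χ, C, hχ, hdiag⟩ := M.toZMotive.exists_diag
    have h1 : cplx n (rat (A M.toZMotive)) = (A M.toZMotive).map (Int.castRingHom ℂ) := by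
      ext i j
      simp
    rw [h1, hAC _ χ C hdiag, aeval_dHom, map_zsmul, M.toZMotive.cplx_comb hdiag, ← map_zsmul]
    congr 1
    funext i
    rw [hHe _ (hχ i)]
    simp
  choose h hh using hH
  -- the tuples
  let tup : EMotive K G act S n w → (Option G → Matrix (Fin n) (Fin n) ℤ) := fun M i =>
    match i with
    | none => A M.toZMotive
    | some g => (M.ρ g : Matrix (Fin n) (Fin n) ℤ)
  have hgood : ∀ M, Good f h (tup M) := by
    intro M
    constructor
    · exact hAf M.toZMotive
    · change ((M.ρ 1 : Matrix.GeneralLinearGroup (Fin n) ℤ) : Matrix (Fin n) (Fin n) ℤ) = 1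
      rw [map_one, Units.val_one]
    · intro g g'
      change ((M.ρ (g * g') : Matrix.GeneralLinearGroup (Fin n) ℤ) : Matrix (Fin n) (Fin n) ℤ) = _
      rw [map_mul, Units.val_mul]
    · intro g
      change rat (A M.toZMotive) * rat (M.ρ g : Matrix (Fin n) (Fin n) ℤ) =
        rat (M.ρ g : Matrix (Fin n) (Fin n) ℤ) * aeval (rat (A M.toZMotive)) (h g)
      rw [← hh g M, mul_smul_comm, ← M.comb_rho c g, ← smul_mul_assoc, ← hA]
  obtain ⟨T, hT, hTA⟩ := finT_good hf h n
  -- equivalent tuples give isomorphic motives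
  have key : ∀ M M' : EMotive K G act S n w, IsoT (tup M) (tup M') → M.Iso M' := by
    rintro M M' ⟨e, he⟩
    obtain ⟨χ, C, hχ, hdiag⟩ := M.toZMotive.exists_diag
    obtain ⟨χ', C', hχ', hdiag'⟩ := M'.toZMotive.exists_diag
    let g1 : Matrix (Fin n) (Fin n) ℤ := LinearMap.toMatrix' e.toLinearMap
    let g2 : Matrix (Fin n) (Fin n) ℤ := LinearMap.toMatrix' e.symm.toLinearMap
    have h12 : g1 * g2 = 1 := by
      simp only [g1, g2]
      rw [← LinearMap.toMatrix'_comp]
      simp
    have h21 : g2 * g1 = 1 := by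
      simp only [g1, g2]
      rw [← LinearMap.toMatrix'_comp]
      simp
    let g : Matrix.GeneralLinearGroup (Fin n) ℤ := ⟨g1, g2, h12, h21⟩
    have hgall : ∀ i, g1 * tup M i = tup M' i * g1 := by
      intro i
      apply Matrix.toLin'.injective
      refine LinearMap.ext fun x => ?_
      rw [Matrix.toLin'_mul, Matrix.toLin'_mul, LinearMap.comp_apply, LinearMap.comp_apply]
      simp only [g1, Matrix.toLin'_toMatrix', Matrix.toLin'_apply]
      exact he i x
    have hgA : g1 * A M.toZMotive = A M'.toZMotive * g1 := hgall none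
    refine ⟨g, fun I => ?_, fun k => ?_⟩
    · -- interpolation
      let P : ℂ[X] := Lagrange.interpolate hfin.toFinset z (fun χ => χ I)
      have hP : ∀ χ ∈ heckeSet K S n w, P.eval (z χ) = χ I := fun χ hχ =>
        Lagrange.eval_interpolate_at_node (fun χ : idealsAway K S →* ℂ => χ I) (by
          rw [hfin.coe_toFinset]; exact hzinj) (hfin.mem_toFinset.2 hχ)
      have e1 : cplx n (M.ψ I : Matrix (Fin n) (Fin n) ℚ) =
          aeval ((A M.toZMotive).map (Int.castRingHom ℂ)) P := by
        rw [hAC M.toZMotive χ C hdiag, aeval_dHom, hdiag]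
        congr 1
        funext i
        exact (hP _ (hχ i)).symm
      have e2 : cplx n (M'.ψ I : Matrix (Fin n) (Fin n) ℚ) =
          aeval ((A M'.toZMotive).map (Int.castRingHom ℂ)) P := by
        rw [hAC M'.toZMotive χ' C' hdiag', aeval_dHom, hdiag']
        congr 1
        funext i
        exact (hP _ (hχ' i)).symm
      have hgAC : g1.map (Int.castRingHom ℂ) * (A M.toZMotive).map (Int.castRingHom ℂ) =
          (A M'.toZMotive).map (Int.castRingHom ℂ) * g1.map (Int.castRingHom ℂ) := by
        rw [← Matrix.map_mul, ← Matrix.map_mul, hgA]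
      have hpoly : ∀ H : ℂ[X], g1.map (Int.castRingHom ℂ) *
          aeval ((A M.toZMotive).map (Int.castRingHom ℂ)) H =
          aeval ((A M'.toZMotive).map (Int.castRingHom ℂ)) H * g1.map (Int.castRingHom ℂ) := by
        intro H
        induction H using Polynomial.induction_on' with
        | add p q hp hq => rw [map_add, map_add, mul_add, add_mul, hp, hq]
        | monomial k a =>
          have hk : g1.map (Int.castRingHom ℂ) * ((A M.toZMotive).map (Int.castRingHom ℂ)) ^ k =
              ((A M'.toZMotive).map (Int.castRingHom ℂ)) ^ k * g1.map (Int.castRingHom ℂ) := by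
            induction k with
            | zero => simp
            | succ k ih => rw [pow_succ, ← mul_assoc, ih, mul_assoc, hgAC, ← mul_assoc, ← pow_succ]
          rw [aeval_monomial, aeval_monomial, Algebra.algebraMap_eq_smul_one,
            smul_mul_assoc, smul_mul_assoc, one_mul, one_mul, mul_smul_comm, smul_mul_assoc, hk]
      apply cplx_injective n
      rw [map_mul, map_mul, e1, e2]
      have h3 : cplx n (((g : Matrix.GeneralLinearGroup (Fin n) ℤ) : Matrix (Fin n) (Fin n) ℤ).map
          (algebraMap ℤ ℚ)) = g1.map (Int.castRingHom ℂ) := by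
        ext i j
        simp [g]
      rw [h3]
      exact hpoly P
    · apply Units.ext
      rw [Units.val_mul, Units.val_mul]
      exact hgall (some k)
  -- choose representatives
  let rp : (Option G → Matrix (Fin n) (Fin n) ℤ) → Option (EMotive K G act S n w) := fun B =>
    if h : ∃ M, IsoT (tup M) B then some h.choose else none
  let T' : Finset (EMotive K G act S n w) := (hT.toFinset.image rp).eraseNone
  refine ⟨T', fun M => ?_⟩
  obtain ⟨B, hB, hMB⟩ := hTA (tup M) (hgood M)
  have hex : ∃ M, IsoT (tup M) B := ⟨M, hMB⟩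
  refine ⟨hex.choose, ?_, key _ _ (hMB.trans hex.choose_spec.symm)⟩
  rw [Finset.mem_eraseNone, Finset.mem_image]
  refine ⟨B, hT.mem_toFinset.2 hB, ?_⟩
  simp only [rp, dif_pos hex]

end AbMot
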