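import Pool.Agent.Helper40.AbMot.EMain

/-!
# MP_78e9a5_nt: Shafarevich finiteness for pure `ℤ`-motives which are abelian over `K`, with a
finite group acting compatibly on `K`

* `G = 1`: pure `ℤ`-motives over `K` with abelian Galois image.
* `G = {1, c}` with `c` a complex conjugation: pure `ℤ`-motives over `K^c` which become abelian over
  `K` (for instance CM elliptic curves over `ℚ` and the motives of CM newforms).
-/

open NumberField

namespace AbMot.Equivariant

/-- For every number field `K`, every finite group `G` acting on `K`, every finite set `S` of
primes and all `n`, `w` there are only finitely many isomorphism classes of pure `ℤ`-motives of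
rank `n` and weight `w`, abelian over `K`, with good reduction outside `S`, together with a
compatible action of `G` on the lattice. -/
theorem result (K : Type) [Field K] [NumberField K] (G : Type) [Group G] [Finite G]
    (act : G →* RingAut K) (S : Finset ℕ) (hS : ∀ p ∈ S, p.Prime) (n w : ℕ) :
    ∃ T : Finset (AbMot.EMotive K G act S n w),
      ∀ M : AbMot.EMotive K G act S n w, ∃ M' ∈ T, M.Iso M' :=
  AbMot.finiteness_equivariant act S hS n w

end AbMot.Equivariant
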