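import Pool.Agent.Helper40.AbMot.Bound

/-!
# Finiteness of the set of Hecke characters
-/

open NumberField Polynomial

namespace AbMot

variable {F : Type} [Field F] [NumberField F]

/-- two ideals are ray equivalent modulo `m` -/
def RayEq (S : Finset ℕ) (m : ℕ) (I I' : idealsAway F S) : Prop :=
  ∃ (β γ : 𝓞 F) (hβ : Ideal.span {β} ∈ idealsAway F S) (hγ : Ideal.span {γ} ∈ idealsAway F S),
    (m : 𝓞 F) ∣ β - 1 ∧ TotPos β ∧ (m : 𝓞 F) ∣ γ - 1 ∧ TotPos γ ∧
      (⟨Ideal.span {β}, hβ⟩ : idealsAway F S) * I = (⟨Ideal.span {γ}, hγ⟩ : idealsAway F S) * I'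

lemma RayEq.apply {S : Finset ℕ} {m : ℕ} {I I' : idealsAway F S} (h : RayEq S m I I')
    {e : (F →+* ℂ) → ℕ} : ∃ u v : ℂ, u ≠ 0 ∧ ∀ χ : idealsAway F S →* ℂ, HasType m e χ →
      u * χ I = v * χ I' := by
  obtain ⟨β, γ, hβ, hγ, h1, h2, h3, h4, h5⟩ := h
  refine ⟨nrm e β, nrm e γ, nrm_ne_zero e (ne_zero_of_mem hβ), fun χ hχ => ?_⟩
  have h6 := congrArg χ h5
  rwa [map_mul, map_mul, hχ β hβ h1 h2, hχ γ hγ h3 h4] at h6

/-- there are finitely many ray classes -/
lemma exists_ray_reps (S : Finset ℕ) (m : ℕ) (hm : Supp S m) :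
    ∃ G : Set (idealsAway F S), G.Finite ∧ ∀ I, ∃ I' ∈ G, RayEq S m I I' := by
  classical
  obtain ⟨k, hk, hray⟩ := exists_pow_ray (F := F) m hm.1
  obtain ⟨k', rfl⟩ : ∃ k', k = k' + 1 := ⟨k - 1, by omega⟩
  let h := Nat.card (ClassGroup (𝓞 F))
  have hh : 0 < h := Nat.card_pos
  obtain ⟨h', hh'⟩ : ∃ h', h = h' + 1 := ⟨h - 1, by omega⟩
  let cl : idealsAway F S → ClassGroup (𝓞 F) := fun I =>
    ClassGroup.mk0 ⟨(I : Ideal (𝓞 F)), mem_nonZeroDivisors_of_ne_zero I.2.1⟩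
  let rp : ClassGroup (𝓞 F) → idealsAway F S := fun c => if h : ∃ I, cl I = c then h.choose else 1
  have hrp : ∀ I, cl (rp (cl I)) = cl I := by
    intro I
    have h1 : ∃ J, cl J = cl I := ⟨I, rfl⟩
    simp only [rp, dif_pos h1]
    exact h1.choose_spec
  have hcl_mul : ∀ I J, cl (I * J) = cl I * cl J := by
    intro I J
    simp only [cl]
    rw [← map_mul]
    rfl
  have hcl_pow : ∀ I (k : ℕ), cl (I ^ k) = cl I ^ k := by
    intro I k
    induction k with
    | zero =>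
      rw [pow_zero, pow_zero]
      simp only [cl]
      rw [← map_one ClassGroup.mk0]
      rfl
    | succ k ih => rw [pow_succ, hcl_mul, ih, pow_succ]
  have hprinc : ∀ I : idealsAway F S, ∃ α : 𝓞 F, ((I * (rp (cl I)) ^ h' : idealsAway F S) :
      Ideal (𝓞 F)) = Ideal.span {α} := by
    intro I
    have h1 : cl (I * (rp (cl I)) ^ h') = 1 := by
      rw [hcl_mul, hcl_pow, hrp, ← pow_succ', ← hh']
      exact pow_card_eq_one'
    simp only [cl] at h1
    rw [ClassGroup.mk0_eq_one_iff] at h1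
    obtain ⟨α, hα⟩ := h1
    exact ⟨α, hα⟩
  choose α hα using hprinc
  have hαmem : ∀ I, Ideal.span {α I} ∈ idealsAway F S := by
    intro I
    rw [← hα]; exact Subtype.mem _
  have hm' : (Ideal.span {(m : 𝓞 F)}) ≠ ⊥ := by
    rw [Ne, Ideal.span_singleton_eq_bot]
    exact_mod_cast hm.1
  have hfin : Finite (𝓞 F ⧸ Ideal.span {(m : 𝓞 F)}) := Ideal.finiteQuotientOfFreeOfNeBot _ hm'
  have hfinR : Finite (F →+* ℝ) := by
    apply Finite.of_injective (fun σ : F →+* ℝ => Complex.ofRealHom.comp σ)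
    intro σ τ h
    ext x
    have := RingHom.congr_fun h x
    simpa using this
  let key : idealsAway F S → ClassGroup (𝓞 F) × (𝓞 F ⧸ Ideal.span {(m : 𝓞 F)}) ×
      ((F →+* ℝ) → Prop) := fun I =>
    (cl I, Ideal.Quotient.mk _ (α I), fun σ => 0 < σ (α I : F))
  have hkey : ∀ I I', key I = key I' → RayEq S m I I' := by
    intro I I' hII
    simp only [key, Prod.mk.injEq] at hII
    obtain ⟨h1, h2, h3⟩ := hII
    rw [Ideal.Quotient.eq, Ideal.mem_span_singleton] at h2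
    have hI0 := ne_zero_of_mem (hαmem I)
    have hI0' := ne_zero_of_mem (hαmem I')
    obtain ⟨h4, h5⟩ := hray (α I) hI0 (hm.coprime (hαmem I))
    have hsign : ∀ σ : F →+* ℝ, 0 < σ (α I' : F) * σ (α I : F) := by
      intro σ
      have h6 : (0 < σ (α I : F)) = (0 < σ (α I' : F)) := congrFun h3 σ
      have h7 : σ (α I : F) ≠ 0 := by
        rw [Ne, map_eq_zero]; exact_mod_cast hI0
      have h8 : σ (α I' : F) ≠ 0 := by
        rw [Ne, map_eq_zero]; exact_mod_cast hI0'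
      rcases lt_or_gt_of_ne h7 with h9 | h9
      · have h10 : ¬ 0 < σ (α I' : F) := by rw [← h6]; exact not_lt.2 h9.le
        exact mul_pos_of_neg_of_neg (lt_of_le_of_ne (not_lt.1 h10) h8) h9
      · have h10 : 0 < σ (α I' : F) := by rw [← h6]; exact h9
        exact mul_pos h10 h9
    refine ⟨α I' * α I ^ k', α I ^ (k' + 1), mul_mem_span (hαmem I') (pow_mem_span (hαmem I) k'),
      pow_mem_span (hαmem I) (k' + 1), ?_, ?_, h4, h5, ?_⟩
    · have h6 : α I' * α I ^ k' - 1 = (α I ^ (k' + 1) - 1) - (α I - α I') * α I ^ k' := by ring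
      rw [h6]
      exact dvd_sub h4 (Dvd.dvd.mul_right h2 _)
    · intro σ
      have h7 : σ (α I : F) ≠ 0 := by
        rw [Ne, map_eq_zero]; exact_mod_cast hI0
      have h8 := h5 σ
      have h9 : ∀ j : ℕ, σ ((α I ^ j : 𝓞 F) : F) = σ (α I : F) ^ j := by
        intro j
        have : ((α I ^ j : 𝓞 F) : F) = (α I : F) ^ j := map_pow (algebraMap (𝓞 F) F) _ _
        rw [this, map_pow]
      rw [h9] at h8
      rw [coe_mul', map_mul, h9]
      have h10 : σ (α I' : F) * σ (α I : F) ^ k' * (σ (α I : F)) ^ 2 =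
          (σ (α I' : F) * σ (α I : F)) * σ (α I : F) ^ (k' + 1) := by ring
      have h11 : 0 < σ (α I' : F) * σ (α I : F) ^ k' * (σ (α I : F)) ^ 2 := by
        rw [h10]; exact mul_pos (hsign σ) h8
      exact (mul_pos_iff_of_pos_right (by positivity)).1 h11
    · apply Subtype.ext
      change Ideal.span {α I' * α I ^ k'} * (I : Ideal (𝓞 F)) =
        Ideal.span {α I ^ (k' + 1)} * (I' : Ideal (𝓞 F))
      have hJ0 : (((rp (cl I)) ^ h' : idealsAway F S) : Ideal (𝓞 F)) ≠ 0 :=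
        ((rp (cl I)) ^ h' : idealsAway F S).2.1
      have e1 : (I : Ideal (𝓞 F)) * (((rp (cl I)) ^ h' : idealsAway F S) : Ideal (𝓞 F)) =
          Ideal.span {α I} := hα I
      have e2 : (I' : Ideal (𝓞 F)) * (((rp (cl I)) ^ h' : idealsAway F S) : Ideal (𝓞 F)) =
          Ideal.span {α I'} := by
        rw [h1]; exact hα I'
      apply mul_right_cancel₀ hJ0
      rw [mul_assoc, e1, mul_assoc, e2, Ideal.span_singleton_mul_span_singleton,
        Ideal.span_singleton_mul_span_singleton]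
      congr 2
      ring
  let rep : ClassGroup (𝓞 F) × (𝓞 F ⧸ Ideal.span {(m : 𝓞 F)}) × ((F →+* ℝ) → Prop) →
      idealsAway F S := fun q => if h : ∃ I, key I = q then h.choose else 1
  refine ⟨Set.range rep, Set.finite_range rep, fun I => ⟨rep (key I), ⟨_, rfl⟩, hkey _ _ ?_⟩⟩
  have h1 : ∃ J, key J = key I := ⟨I, rfl⟩
  simp only [rep, dif_pos h1]
  exact h1.choose_spec.symm

/-- restriction of a character to fewer ideals -/
def incl {S S' : Finset ℕ} (h : S ⊆ S') : idealsAway F S' →* idealsAway F S where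
  toFun I := ⟨I, I.2.1, fun p hp => I.2.2 p (h hp)⟩
  map_one' := rfl
  map_mul' _ _ := rfl

/-- the relevant Hecke characters -/
def heckeSet (F : Type) [Field F] [NumberField F] (S : Finset ℕ) (n w : ℕ) :
    Set (idealsAway F S →* ℂ) :=
  {χ | IsHecke S w χ ∧ (∀ I, χ I ≠ 0) ∧
    ∀ I, ∃ q : ℚ[X], q ≠ 0 ∧ q.natDegree ≤ n ∧ aeval (χ I) q = 0}

lemma isHecke_iff {S : Finset ℕ} {w : ℕ} {χ : idealsAway F S →* ℂ} :
    IsHecke S w χ ↔ ∃ m : ℕ, Supp S m ∧ ∃ e : (F →+* ℂ) → ℕ,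
      (∀ σ, e σ + e (ComplexEmbedding.conjugate σ) = w) ∧ HasType m e χ := by
  constructor
  · rintro ⟨m, h1, h2, e, h3, h4⟩
    exact ⟨m, ⟨h1, h2⟩, e, h3, h4⟩
  · rintro ⟨m, ⟨h1, h2⟩, e, h3, h4⟩
    exact ⟨m, h1, h2, e, h3, h4⟩

/-- finitely many characters with a given type -/
lemma finite_hasType (S : Finset ℕ) (m : ℕ) (hm : Supp S m) (e : (F →+* ℂ) → ℕ) :
    {χ : idealsAway F S →* ℂ | HasType m e χ}.Finite := by
  classical
  obtain ⟨G, hG, hGrep⟩ := exists_ray_reps (F := F) S m hm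
  obtain ⟨k, hk, hray⟩ := exists_pow_ideal_ray (F := F) S m hm
  choose γ hγ1 hγ2 hγ3 using hray
  have hfinG : Finite G := hG
  let V : G → Set ℂ := fun I => {z | z ^ k = nrm e (γ I.1 I.1.2)}
  have hV : ∀ I, (V I).Finite := by
    intro I
    have h1 : V I ⊆ ((X ^ k - C (nrm e (γ I.1 I.1.2)) : ℂ[X]).roots.toFinset : Set ℂ) := by
      intro z hz
      rw [Finset.mem_coe, Multiset.mem_toFinset, mem_roots (X_pow_sub_C_ne_zero hk _), IsRoot.def]
      simp only [eval_sub, eval_pow, eval_X, eval_C]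
      exact sub_eq_zero.2 hz
    exact (Finset.finite_toSet _).subset h1
  refine Set.Finite.of_injOn (f := fun (χ : idealsAway F S →* ℂ) (I : G) => χ I.1)
    (t := Set.pi Set.univ V) ?_ ?_ (Set.Finite.pi' hV |>.subset ?_)
  · intro χ hχ I _
    have h1 : Ideal.span {γ I.1 I.1.2} ∈ idealsAway F S := by
      rw [← hγ1]; exact pow_mem I.1.2 k
    have h2 : (I.1 ^ k : idealsAway F S) = ⟨Ideal.span {γ I.1 I.1.2}, h1⟩ :=
      Subtype.ext (hγ1 I.1 I.1.2)
    change (χ I.1) ^ k = _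
    rw [← map_pow, h2]
    exact hχ _ h1 (hγ2 _ _) (hγ3 _ _)
  · intro χ hχ χ' hχ' h
    ext I
    obtain ⟨I', hI', hII⟩ := hGrep I
    obtain ⟨u, v, hu, huv⟩ := hII.apply (e := e)
    have h1 := huv χ hχ
    have h2 := huv χ' hχ'
    have h3 : χ I' = χ' I' := congrFun h (⟨I', hI'⟩ : G)
    rw [h3, ← h2] at h1
    exact mul_left_cancel₀ hu h1
  · intro f hf I
    exact hf I (Set.mem_univ I)

/-- the set of relevant Hecke characters is finite -/
theorem finite_heckeSet (S : Finset ℕ) (hS : ∀ p ∈ S, p.Prime) (n w : ℕ) :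
    (heckeSet F S n w).Finite := by
  classical
  obtain ⟨M, hM, huni⟩ := exists_uniform_modulus (F := F) n
  let S' : Finset ℕ := S ∪ M.primeFactors
  have hSS' : S ⊆ S' := Finset.subset_union_left
  have hS' : ∀ p ∈ S', p.Prime := by
    intro p hp
    rcases Finset.mem_union.1 hp with h | h
    · exact hS p h
    · exact Nat.prime_of_mem_primeFactors h
  have hMS' : ∀ p, p.Prime → p ∣ M → p ∈ S' := fun p hp hpM =>
    Finset.mem_union_right _ (Nat.mem_primeFactors.2 ⟨hp, hpM, hM.ne'⟩)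
  have hSupp : Supp S' (M * ((∏ p ∈ S', p) * M) ^ 2) := by
    have h1 : Supp S' M := ⟨hM.ne', hMS'⟩
    have h2 : Supp S' (∏ p ∈ S', p) := by
      refine ⟨Finset.prod_ne_zero_iff.2 fun p hp => (hS' p hp).ne_zero, fun p hp hps => ?_⟩
      obtain ⟨q, hq, hpq⟩ := (hp.prime.dvd_finsetProd_iff _).1 hps
      rwa [(Nat.prime_dvd_prime_iff_eq hp (hS' q hq)).1 hpq]
    rw [sq]
    exact h1.mul ((h2.mul h1).mul (h2.mul h1))
  -- exponents are bounded
  have hE : {e : (F →+* ℂ) → ℕ | ∀ σ, e σ ≤ w}.Finite := by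
    have := Set.Finite.pi' (fun _ : (F →+* ℂ) => Set.finite_Iic w)
    exact this.subset fun e he σ => he σ
  have hT : (⋃ e ∈ {e : (F →+* ℂ) → ℕ | ∀ σ, e σ ≤ w},
      {χ : idealsAway F S' →* ℂ | HasType (M * ((∏ p ∈ S', p) * M) ^ 2) e χ}).Finite :=
    hE.biUnion fun e _ => finite_hasType S' _ hSupp e
  refine Set.Finite.of_injOn (f := fun χ : idealsAway F S →* ℂ => χ.comp (incl hSS')) ?_ ?_ hT
  · rintro χ ⟨h1, _, h3⟩
    obtain ⟨m, hm, e, he, hT⟩ := isHecke_iff.1 h1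
    have hm' : Supp S' m := ⟨hm.1, fun p hp hpm => hSS' (hm.2 p hp hpm)⟩
    refine Set.mem_biUnion (x := e) (fun σ => ?_) ?_
    · have := he σ; omega
    · refine huni S' hS' hMS' (χ.comp (incl hSS')) (fun I => h3 _) m hm' e ?_
      intro α h h4 h5
      exact hT α ⟨h.1, fun p hp => h.2 p (hSS' hp)⟩ h4 h5
  · rintro χ ⟨h1, _, _⟩ χ' ⟨h1', _, _⟩ h
    obtain ⟨m, hm, e, _, hT⟩ := isHecke_iff.1 h1
    obtain ⟨m', hm', e', _, hT'⟩ := isHecke_iff.1 h1'
    set N : ℕ := ∏ p ∈ M.primeFactors \ S, p with hN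
    have hN0 : N ≠ 0 := Finset.prod_ne_zero_iff.2 fun p hp =>
      (Nat.prime_of_mem_primeFactors (Finset.mem_sdiff.1 hp).1).ne_zero
    refine (ext_of_coprime hS (hm.mul hm') (hT.of_dvd (dvd_mul_right m m'))
      (hT'.of_dvd (dvd_mul_left m' m)) N hN0 ?_ ?_).2
    · intro p hp
      rw [hN]
      apply Nat.Coprime.prod_left
      intro q hq
      rw [Finset.mem_sdiff] at hq
      rw [Nat.coprime_primes (Nat.prime_of_mem_primeFactors hq.1) (hS p hp)]
      rintro rfl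
      exact hq.2 hp
    · intro I hI
      have hI' : (I : Ideal (𝓞 F)) ∈ idealsAway F S' := by
        refine ⟨I.2.1, fun p hp => ?_⟩
        rcases Finset.mem_union.1 hp with h2 | h2
        · exact I.2.2 p h2
        · by_cases h3 : p ∈ S
          · exact I.2.2 p h3
          · have h4 : p ∣ N := Finset.dvd_prod_of_mem (fun p => p) (Finset.mem_sdiff.2 ⟨h2, h3⟩)
            obtain ⟨c, hc⟩ := h4
            rw [hc, Nat.cast_mul, ← Ideal.span_singleton_mul_span_singleton] at hI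
            exact hI.of_mul_right_left
      exact DFunLike.congr_fun h (⟨I, hI'⟩ : idealsAway F S')

end AbMot
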