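import Mathlib

/-!
# Frobenius elements in infinite Galois groups over number fields
-/

open NumberField

namespace AbMot

/-- `σ` is an (arithmetic) Frobenius element at the prime `P` of `K`: there is a prime `𝔓` above `P`
of the ring of all algebraic integers of `Ω` with `σ x ≡ x ^ N(P)` modulo `𝔓` for all algebraic
integers `x` of `Ω`. -/
def IsFrobK {K Ω : Type} [Field K] [NumberField K] [Field Ω] [Algebra K Ω]
    (P : Ideal (𝓞 K)) (σ : Ω ≃ₐ[K] Ω) : Prop :=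
  ∃ 𝔓 : Ideal (integralClosure ℤ Ω), 𝔓.IsPrime ∧
    (∀ (x : 𝓞 K) (y : integralClosure ℤ Ω), (y : Ω) = algebraMap K Ω x → (x ∈ P ↔ y ∈ 𝔓)) ∧
    ∀ x y : integralClosure ℤ Ω, (y : Ω) = σ (x : Ω) → y - x ^ (Ideal.absNorm P) ∈ 𝔓

end AbMot
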