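import Pool.Agent.Helper40.AbMot.Main
import Pool.Agent.Helper40.AbMot.Core

/-!
# A universal generator of the algebra of Frobenius operators
-/

open NumberField Polynomial

namespace AbMot

variable {K : Type} [Field K] [NumberField K]

/-- there is a universal squarefree polynomial `f` such that the algebra of Frobenius operators of
every abelian `ℤ`-motive is generated by an integer matrix killed by `f` -/
theorem exists_generator (S : Finset ℕ) (hS : ∀ p ∈ S, p.Prime) (n w : ℕ) :
    ∃ f : ℤ[X], Squarefree (f.map (Int.castRingHom ℚ)) ∧ ∀ N : ZMotive K S n w,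
      ∃ A : Matrix (Fin n) (Fin n) ℤ, aeval A f = 0 ∧
        ∀ c : Matrix (Fin n) (Fin n) ℚ, c * rat A = rat A * c ↔
          ∀ I, c * (N.ψ I : Matrix (Fin n) (Fin n) ℚ) = (N.ψ I : Matrix (Fin n) (Fin n) ℚ) * c := by
  classical
  obtain ⟨D, c, hD, hc, hA⟩ := exists_universal (F := K) S hS n w
  choose A hA using hA
  have hfin := finite_heckeSet (F := K) S hS n w
  have hDC : (D : ℂ) ≠ 0 := by exact_mod_cast hD
  -- eigenvalues
  let z : (idealsAway K S →* ℂ) → ℂ := fun χ => (D : ℂ) * cval c χ
  have hzinj : Set.InjOn z (heckeSet K S n w) := by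
    intro χ hχ χ' hχ' h
    exact hc hχ hχ' (mul_left_cancel₀ hDC h)
  have hzalg : ∀ χ ∈ heckeSet K S n w, IsAlgebraic ℚ (z χ) := by
    intro χ hχ
    refine IsAlgebraic.mul (isAlgebraic_intCast D) ?_
    rw [cval, Finsupp.sum]
    rw [isAlgebraic_iff_isIntegral]
    refine IsIntegral.sum _ fun I _ => ?_
    rw [← isAlgebraic_iff_isIntegral]
    refine IsAlgebraic.mul (isAlgebraic_intCast _) ?_
    obtain ⟨q, hq0, _, hq⟩ := hχ.2.2 I
    exact ⟨q, hq0, hq⟩
  obtain ⟨f, hf, hfz⟩ := exists_squarefree_poly (hfin.toFinset.image z) (by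
    intro y hy
    obtain ⟨χ, hχ, rfl⟩ := Finset.mem_image.1 hy
    exact hzalg χ (hfin.mem_toFinset.1 hχ))
  -- complexification of `A M`
  have hAC : ∀ (M : ZMotive K S n w) (χ : Fin n → (idealsAway K S →* ℂ))
      (C : Matrix.GeneralLinearGroup (Fin n) ℂ),
      (∀ I, cplx n (M.ψ I : Matrix (Fin n) (Fin n) ℚ) = dHom C (fun i => χ i I)) →
      (A M).map (Int.castRingHom ℂ) = dHom C (fun i => z (χ i)) := by
    intro M χ C h
    have h1 : (A M).map (Int.castRingHom ℂ) = cplx n ((A M).map (Int.castRingHom ℚ)) := by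
      ext i j
      simp
    rw [h1, hA, map_zsmul, M.cplx_comb h, ← map_zsmul]
    congr 1
    funext i
    simp [z]
  refine ⟨f, hf, fun N => ⟨A N, ?_, fun k => ⟨fun hk I => ?_, fun hk => ?_⟩⟩⟩
  · obtain ⟨χ, C, hχ, hdiag⟩ := N.exists_diag
    have h1 := aeval_mapMat (Int.castRingHom ℂ) (A N) f
    have h2 : (Int.castRingHom ℂ).mapMatrix (A N) = dHom C (fun i => z (χ i)) := hAC N χ C hdiag
    rw [h2, aeval_dHom] at h1
    have h3 : (fun i => (f.map (Int.castRingHom ℂ)).eval (z (χ i))) = 0 := by
      funext i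
      have h4 := hfz (z (χ i)) (Finset.mem_image_of_mem z (hfin.mem_toFinset.2 (hχ i)))
      rw [eval_map]
      exact h4
    rw [h3, map_zero] at h1
    ext i j
    have h5 := congrFun (congrFun h1 i) j
    simpa using h5
  · -- interpolation
    obtain ⟨χ, C, hχ, hdiag⟩ := N.exists_diag
    let P : ℂ[X] := Lagrange.interpolate hfin.toFinset z (fun χ => χ I)
    have hP : ∀ χ ∈ heckeSet K S n w, P.eval (z χ) = χ I := fun χ hχ =>
      Lagrange.eval_interpolate_at_node (fun χ : idealsAway K S →* ℂ => χ I) (by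
        rw [hfin.coe_toFinset]; exact hzinj) (hfin.mem_toFinset.2 hχ)
    have e1 : cplx n (N.ψ I : Matrix (Fin n) (Fin n) ℚ) =
        aeval ((A N).map (Int.castRingHom ℂ)) P := by
      rw [hAC N χ C hdiag, aeval_dHom, hdiag]
      congr 1
      funext i
      exact (hP _ (hχ i)).symm
    have h1 : cplx n (rat (A N)) = (A N).map (Int.castRingHom ℂ) := by
      ext i j
      simp
    have h2 : cplx n k * (A N).map (Int.castRingHom ℂ) = (A N).map (Int.castRingHom ℂ) * cplx n k := by
      rw [← h1, ← map_mul, hk, map_mul]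
    apply cplx_injective n
    rw [map_mul, map_mul, e1]
    have h3 : Commute (cplx n k) ((A N).map (Int.castRingHom ℂ)) := h2
    have h4 : ∀ H : ℂ[X], Commute (cplx n k) (aeval ((A N).map (Int.castRingHom ℂ)) H) := by
      intro H
      induction H using Polynomial.induction_on' with
      | add p q hp hq => rw [map_add]; exact hp.add_right hq
      | monomial m a =>
        rw [aeval_monomial]
        have h5 : Commute (cplx n k) (algebraMap ℂ (Matrix (Fin n) (Fin n) ℂ) a) :=
          (Algebra.commutes a _).symm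
        exact h5.mul_right (h3.pow_right m)
    exact h4 P
  · have h1 : rat (A N) = D • N.comb c := hA N
    rw [h1, mul_smul_comm, smul_mul_assoc]
    congr 1
    rw [ZMotive.comb, Finsupp.sum, Finset.mul_sum, Finset.sum_mul]
    refine Finset.sum_congr rfl fun I _ => ?_
    rw [mul_smul_comm, smul_mul_assoc, hk]

end AbMot
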