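import Pool.Agent.Helper40.AbMot.Tup

/-!
# Lattices with a commutative semisimple operator and a finite group normalizing it
-/

open Polynomial Module Matrix

namespace AbMot

variable {G : Type} [Group G]

/-- rational version of an integer matrix -/
abbrev rat {m n : Type} (A : Matrix m n ℤ) : Matrix m n ℚ := A.map (Int.castRingHom ℚ)

/-- a tuple consisting of an operator `A` killed by `f` and a group acting with
`A ρ(g) = ρ(g) h_g(A)` -/
structure Good (f : ℤ[X]) (h : G → ℚ[X]) {m : Type} [Fintype m] [DecidableEq m]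
    (A : Option G → Matrix m m ℤ) : Prop where
  kill : aeval (A none) f = 0
  one : A (some 1) = 1
  mul : ∀ g g' : G, A (some (g * g')) = A (some g) * A (some g')
  rel : ∀ g : G, rat (A none) * rat (A (some g)) = rat (A (some g)) * aeval (rat (A none)) (h g)

lemma rat_mul {l m n : Type} [Fintype m] (A : Matrix l m ℤ) (B : Matrix m n ℤ) :
    rat (A * B) = rat A * rat B := Matrix.map_mul

lemma rat_one {m : Type} [DecidableEq m] : rat (1 : Matrix m m ℤ) = 1 := by
  ext i j
  simp only [rat, Matrix.map_apply, Matrix.one_apply]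
  split_ifs <;> simp

lemma rat_injective {m n : Type} : Function.Injective (rat : Matrix m n ℤ → Matrix m n ℚ) := by
  intro A B h
  ext i j
  have := congrFun (congrFun h i) j
  simpa using this

/-- equivalent tuples are conjugate -/
lemma IsoT.exists_conj {ι m n : Type} [Fintype m] [Fintype n] [DecidableEq m] [DecidableEq n]
    {A : ι → Matrix m m ℤ} {B : ι → Matrix n n ℤ} (h : IsoT A B) :
    ∃ (P : Matrix n m ℤ) (Q : Matrix m n ℤ), P * Q = 1 ∧ Q * P = 1 ∧ ∀ i, B i = P * A i * Q := by
  obtain ⟨e, he⟩ := h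
  let P : Matrix n m ℤ := LinearMap.toMatrix' e.toLinearMap
  let Q : Matrix m n ℤ := LinearMap.toMatrix' e.symm.toLinearMap
  have hPQ : P * Q = 1 := by
    simp only [P, Q]
    rw [← LinearMap.toMatrix'_comp]
    simp
  have hQP : Q * P = 1 := by
    simp only [P, Q]
    rw [← LinearMap.toMatrix'_comp]
    simp
  refine ⟨P, Q, hPQ, hQP, fun i => ?_⟩
  have h1 : B i * P = P * A i := by
    apply Matrix.toLin'.injective
    refine LinearMap.ext fun x => ?_
    rw [Matrix.toLin'_mul, Matrix.toLin'_mul, LinearMap.comp_apply, LinearMap.comp_apply]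
    simp only [P, Matrix.toLin'_toMatrix', Matrix.toLin'_apply]
    exact (he i x).symm
  rw [← h1, Matrix.mul_assoc, hPQ, Matrix.mul_one]

lemma aeval_conj {R : Type*} [CommRing R] {m n : Type} [Fintype m] [Fintype n] [DecidableEq m]
    [DecidableEq n] {P : Matrix n m R} {Q : Matrix m n R} (hPQ : P * Q = 1) (hQP : Q * P = 1)
    (A : Matrix m m R) (f : R[X]) : aeval (P * A * Q) f = P * aeval A f * Q := by
  induction f using Polynomial.induction_on' with
  | add p q hp hq => rw [map_add, map_add, hp, hq, Matrix.mul_add, Matrix.add_mul]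
  | monomial k a =>
    have hk : (P * A * Q) ^ k = P * A ^ k * Q := by
      induction k with
      | zero => simp [hPQ]
      | succ k ih =>
        rw [pow_succ, ih, pow_succ]
        calc P * A ^ k * Q * (P * A * Q) = P * A ^ k * (Q * P) * A * Q := by
              simp only [Matrix.mul_assoc]
          _ = _ := by rw [hQP, Matrix.mul_one]; simp only [Matrix.mul_assoc]
    rw [aeval_monomial, aeval_monomial, hk, Algebra.algebraMap_eq_smul_one,
      Algebra.algebraMap_eq_smul_one, smul_mul_assoc, smul_mul_assoc, one_mul, one_mul,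
      Matrix.mul_smul, Matrix.smul_mul]

lemma Good.of_iso {f : ℤ[X]} {h : G → ℚ[X]} {m n : Type} [Fintype m] [Fintype n] [DecidableEq m]
    [DecidableEq n] {A : Option G → Matrix m m ℤ} {B : Option G → Matrix n n ℤ}
    (hA : Good f h A) (hAB : IsoT A B) : Good f h B := by
  obtain ⟨P, Q, hPQ, hQP, hB⟩ := hAB.exists_conj
  have hQP' : rat Q * rat P = 1 := by rw [← rat_mul, hQP, rat_one]
  have hPQ' : rat P * rat Q = 1 := by rw [← rat_mul, hPQ, rat_one]
  constructor
  · rw [hB, aeval_conj hPQ hQP, hA.kill, Matrix.mul_zero, Matrix.zero_mul]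
  · rw [hB, hA.one, Matrix.mul_one, hPQ]
  · intro g g'
    rw [hB, hB, hB, hA.mul]
    calc P * (A (some g) * A (some g')) * Q = P * A (some g) * (1 : Matrix m m ℤ) * A (some g') * Q := by
          simp only [Matrix.mul_one, Matrix.mul_assoc]
      _ = _ := by rw [← hQP]; simp only [Matrix.mul_assoc]
  · intro g
    rw [hB, hB, rat_mul, rat_mul, rat_mul, rat_mul, aeval_conj hPQ' hQP']
    calc rat P * rat (A none) * rat Q * (rat P * rat (A (some g)) * rat Q)
        = rat P * rat (A none) * (rat Q * rat P) * rat (A (some g)) * rat Q := by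
          simp only [Matrix.mul_assoc]
      _ = rat P * (rat (A none) * rat (A (some g))) * rat Q := by
          rw [hQP', Matrix.mul_one]; simp only [Matrix.mul_assoc]
      _ = rat P * rat (A (some g)) * (rat Q * rat P) * aeval (rat (A none)) (h g) * rat Q := by
          rw [hA.rel g, hQP', Matrix.mul_one]; simp only [Matrix.mul_assoc]
      _ = _ := by simp only [Matrix.mul_assoc]

lemma aeval_blocksR {R : Type*} [CommRing R] {d e : Type} [Fintype d] [Fintype e] [DecidableEq d]
    [DecidableEq e] (A1 : Matrix d d R) (A2 : Matrix e e R) (B : Matrix d e R) (f : R[X]) :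
    ∃ X, aeval (fromBlocks A1 B 0 A2) f = fromBlocks (aeval A1 f) X 0 (aeval A2 f) := by
  induction f using Polynomial.induction_on' with
  | add p q hp hq =>
    obtain ⟨X, hX⟩ := hp
    obtain ⟨Y, hY⟩ := hq
    exact ⟨X + Y, by rw [map_add, hX, hY, fromBlocks_add, map_add, map_add, add_zero]⟩
  | monomial k a =>
    have h : ∃ X, (fromBlocks A1 B 0 A2) ^ k = fromBlocks (A1 ^ k) X 0 (A2 ^ k) := by
      induction k with
      | zero => exact ⟨0, by simp⟩
      | succ k ih =>
        obtain ⟨X, hX⟩ := ih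
        refine ⟨A1 ^ k * B + X * A2, ?_⟩
        rw [pow_succ, hX, fromBlocks_multiply]
        simp [pow_succ]
    obtain ⟨X, hX⟩ := h
    refine ⟨a • X, ?_⟩
    simp only [aeval_monomial, hX, Algebra.algebraMap_eq_smul_one, smul_mul_assoc, one_mul,
      fromBlocks_smul, smul_zero]

lemma rat_blocks {d e : Type} (A1 : Matrix d d ℤ) (A2 : Matrix e e ℤ) (B : Matrix d e ℤ) :
    rat (fromBlocks A1 B 0 A2) = fromBlocks (rat A1) (rat B) 0 (rat A2) := by
  rw [rat, Matrix.fromBlocks_map]
  congr 1

/-- the diagonal blocks of a good tuple are good -/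
lemma Good.blocks {f : ℤ[X]} {h : G → ℚ[X]} {d e : Type} [Fintype d] [Fintype e] [DecidableEq d]
    [DecidableEq e] {A1 : Option G → Matrix d d ℤ} {A2 : Option G → Matrix e e ℤ}
    {B : Option G → Matrix d e ℤ} (hA : Good f h (blockT A1 A2 B)) : Good f h A1 ∧ Good f h A2 := by
  have hk := hA.kill
  obtain ⟨X, hX⟩ := aeval_blocksR (A1 none) (A2 none) (B none) f
  have h1 := hA.one
  have hm := hA.mul
  have hr := hA.rel
  simp only [blockT] at hk h1 hm hr
  rw [hX] at hk
  have hrel : ∀ g, rat (A1 none) * rat (A1 (some g)) = rat (A1 (some g)) *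
      aeval (rat (A1 none)) (h g) ∧ rat (A2 none) * rat (A2 (some g)) = rat (A2 (some g)) *
      aeval (rat (A2 none)) (h g) := by
    intro g
    have h2 := hr g
    obtain ⟨Y, hY⟩ := aeval_blocksR (rat (A1 none)) (rat (A2 none)) (rat (B none)) (h g)
    rw [rat_blocks, rat_blocks, hY, fromBlocks_multiply, fromBlocks_multiply, fromBlocks_inj] at h2
    obtain ⟨h3, _, _, h4⟩ := h2
    simp only [Matrix.mul_zero, Matrix.zero_mul, add_zero, zero_add] at h3 h4
    exact ⟨h3, h4⟩
  have hmul : ∀ g g', A1 (some (g * g')) = A1 (some g) * A1 (some g') ∧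
      A2 (some (g * g')) = A2 (some g) * A2 (some g') := by
    intro g g'
    have h2 := hm g g'
    rw [fromBlocks_multiply, fromBlocks_inj] at h2
    obtain ⟨h3, _, _, h4⟩ := h2
    simp only [Matrix.mul_zero, Matrix.zero_mul, add_zero, zero_add] at h3 h4
    exact ⟨h3, h4⟩
  rw [← fromBlocks_one, fromBlocks_inj] at h1
  rw [← fromBlocks_zero, fromBlocks_inj] at hk
  exact ⟨⟨hk.1, h1.1, fun g g' => (hmul g g').1, fun g => (hrel g).1⟩,
    ⟨hk.2.2.2, h1.2.2.2, fun g g' => (hmul g g').2, fun g => (hrel g).2⟩⟩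

/-- Maschke: the class of the off-diagonal blocks of a good tuple is torsion -/
lemma Good.tor [Finite G] {f : ℤ[X]} (hf : Squarefree (f.map (Int.castRingHom ℚ))) {h : G → ℚ[X]}
    {d e : Type} [Fintype d] [Fintype e] [DecidableEq d]
    [DecidableEq e] {A1 : Option G → Matrix d d ℤ} {A2 : Option G → Matrix e e ℤ}
    {B : Option G → Matrix d e ℤ} (hA : Good f h (blockT A1 A2 B)) : TorT A1 A2 B := by
  classical
  have := Fintype.ofFinite G
  obtain ⟨hA1, hA2⟩ := hA.blocks
  -- splitting for `A`
  have hk : aeval (fromBlocks (rat (A1 none)) (rat (B none)) 0 (rat (A2 none)))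
      (f.map (Int.castRingHom ℚ)) = 0 := by
    rw [← rat_blocks]
    have h1 := aeval_mapMat (Int.castRingHom ℚ) (fromBlocks (A1 none) (B none) 0 (A2 none)) f
    have h2 : aeval (fromBlocks (A1 none) (B none) 0 (A2 none)) f = 0 := hA.kill
    rw [h2, map_zero] at h1
    exact h1.symm
  obtain ⟨X0, hX0⟩ := exists_syl_rat _ hf _ _ _ hk
  -- sections
  let E : Option G → Matrix (d ⊕ e) (d ⊕ e) ℚ := fun i => rat (blockT A1 A2 B i)
  have hE : ∀ i, E i = fromBlocks (rat (A1 i)) (rat (B i)) 0 (rat (A2 i)) := fun i =>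
    rat_blocks _ _ _
  let s0 : Matrix (d ⊕ e) e ℚ := fromRows (-X0) 1
  have hs0 : E none * s0 = s0 * rat (A2 none) := by
    rw [hE, fromBlocks_mul_fromRows, fromRows_mul, hX0]
    congr 1
    · simp only [Matrix.mul_neg, Matrix.mul_one, Matrix.neg_mul]
      abel
    · simp
  have hs0p : ∀ p : ℚ[X], aeval (E none) p * s0 = s0 * aeval (rat (A2 none)) p := by
    intro p
    induction p using Polynomial.induction_on' with
    | add p q hp hq => rw [map_add, map_add, Matrix.add_mul, Matrix.mul_add, hp, hq]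
    | monomial k a =>
      have hk : (E none) ^ k * s0 = s0 * (rat (A2 none)) ^ k := by
        induction k with
        | zero => simp
        | succ k ih =>
          rw [pow_succ, Matrix.mul_assoc, hs0, ← Matrix.mul_assoc, ih, Matrix.mul_assoc, ← pow_succ]
      rw [aeval_monomial, aeval_monomial, Algebra.algebraMap_eq_smul_one,
        Algebra.algebraMap_eq_smul_one, smul_mul_assoc, smul_mul_assoc, one_mul, one_mul,
        Matrix.smul_mul, Matrix.mul_smul, hk]
  let s : Matrix (d ⊕ e) e ℚ := ∑ g : G, E (some g) * s0 * rat (A2 (some g⁻¹))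
  have hEmul : ∀ g g', E (some (g * g')) = E (some g) * E (some g') := by
    intro g g'
    simp only [E]
    rw [← rat_mul, ← hA.mul]
  have hA2mul : ∀ g g', rat (A2 (some (g * g'))) = rat (A2 (some g)) * rat (A2 (some g')) := by
    intro g g'
    rw [← rat_mul, ← hA2.mul]
  have hA2one : rat (A2 (some 1)) = 1 := by rw [hA2.one, rat_one]
  have hsG : ∀ k : G, E (some k) * s = s * rat (A2 (some k)) := by
    intro k
    simp only [s]
    rw [Matrix.mul_sum, Matrix.sum_mul]
    rw [← Equiv.sum_comp (Equiv.mulLeft k)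
      (fun g => E (some g) * s0 * rat (A2 (some g⁻¹)) * rat (A2 (some k)))]
    refine Finset.sum_congr rfl fun g _ => ?_
    simp only [Equiv.coe_mulLeft]
    rw [hEmul, Matrix.mul_assoc _ (rat _) (rat _), ← hA2mul]
    have h1 : (k * g)⁻¹ * k = g⁻¹ := by group
    rw [h1]
    simp only [Matrix.mul_assoc]
  have hsA : E none * s = s * rat (A2 none) := by
    simp only [s]
    rw [Matrix.mul_sum, Matrix.sum_mul]
    refine Finset.sum_congr rfl fun g _ => ?_
    have h1 : E none * E (some g) = E (some g) * aeval (E none) (h g) := hA.rel g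
    have h2 : aeval (rat (A2 none)) (h g) * rat (A2 (some g⁻¹)) =
        rat (A2 (some g⁻¹)) * rat (A2 none) := by
      have h3 := hA2.rel g
      have h4 : rat (A2 (some g⁻¹)) * rat (A2 (some g)) = 1 := by
        rw [← hA2mul, inv_mul_cancel, hA2one]
      have h5 : rat (A2 (some g)) * rat (A2 (some g⁻¹)) = 1 := by
        rw [← hA2mul, mul_inv_cancel, hA2one]
      calc aeval (rat (A2 none)) (h g) * rat (A2 (some g⁻¹))
          = rat (A2 (some g⁻¹)) * (rat (A2 (some g)) * aeval (rat (A2 none)) (h g)) *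
            rat (A2 (some g⁻¹)) := by rw [← Matrix.mul_assoc, h4, Matrix.one_mul]
        _ = rat (A2 (some g⁻¹)) * rat (A2 none) * (rat (A2 (some g)) * rat (A2 (some g⁻¹))) := by
            rw [← h3]; simp only [Matrix.mul_assoc]
        _ = _ := by rw [h5, Matrix.mul_one]
    calc E none * (E (some g) * s0 * rat (A2 (some g⁻¹)))
        = (E none * E (some g)) * s0 * rat (A2 (some g⁻¹)) := by simp only [Matrix.mul_assoc]
      _ = E (some g) * (aeval (E none) (h g) * s0) * rat (A2 (some g⁻¹)) := by
          rw [h1]; simp only [Matrix.mul_assoc]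
      _ = E (some g) * s0 * (aeval (rat (A2 none)) (h g) * rat (A2 (some g⁻¹))) := by
          rw [hs0p]; simp only [Matrix.mul_assoc]
      _ = _ := by rw [h2]; simp only [Matrix.mul_assoc]
  have hs2 : s.toRows₂ = (Fintype.card G : ℚ) • (1 : Matrix e e ℚ) := by
    have h1 : ∀ g : G, (E (some g) * s0 * rat (A2 (some g⁻¹))).toRows₂ = 1 := by
      intro g
      rw [hE, fromBlocks_mul_fromRows, fromRows_mul, toRows₂_fromRows, Matrix.zero_mul, zero_add,
        Matrix.mul_one, ← hA2mul, mul_inv_cancel, hA2one]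
    ext i j
    have h2 : s.toRows₂ i j = ∑ g : G, (E (some g) * s0 * rat (A2 (some g⁻¹))).toRows₂ i j := by
      simp only [s, toRows₂, Matrix.of_apply, Matrix.sum_apply]
    rw [h2]
    simp only [h1]
    simp
  have hcard : (Fintype.card G : ℚ) ≠ 0 := by
    exact_mod_cast Fintype.card_ne_zero
  -- all blocks
  have hall : ∀ i, E i * s = s * rat (A2 i) := by
    intro i
    cases i with
    | none => exact hsA
    | some g => exact hsG g
  have hall2 : ∀ i, rat (A1 i) * s.toRows₁ + (Fintype.card G : ℚ) • rat (B i) =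
      s.toRows₁ * rat (A2 i) := by
    intro i
    have h1 := hall i
    rw [hE, ← fromRows_toRows s, fromBlocks_mul_fromRows, fromRows_mul, hs2] at h1
    have h2 := congrArg toRows₁ h1
    rw [toRows₁_fromRows, toRows₁_fromRows] at h2
    rw [← h2, Matrix.mul_smul, Matrix.mul_one]
  obtain ⟨k, hk0, Y, hY⟩ := exists_int_multiple s.toRows₁
  refine ⟨k * (Fintype.card G : ℤ), mul_ne_zero hk0 (by exact_mod_cast Fintype.card_ne_zero), -Y, ?_⟩
  funext i
  apply rat_injective
  have hY' : rat Y = (k : ℚ) • s.toRows₁ := by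
    ext a b
    simp [hY]
  have h1 : rat (((k * (Fintype.card G : ℤ)) • B) i) =
      (k : ℚ) • ((Fintype.card G : ℚ) • rat (B i)) := by
    ext a b
    simp [mul_assoc]
  have h2 : rat (sylT A1 A2 (-Y) i) = -(rat (A1 i) * rat Y) + rat Y * rat (A2 i) := by
    ext a b
    simp only [sylT, LinearMap.pi_apply, syl, LinearMap.coe_mk, AddHom.coe_mk, Matrix.mul_neg,
      Matrix.neg_mul, sub_neg_eq_add]
    simp [Matrix.mul_apply]
  rw [h1, h2, hY']
  have h3 : (Fintype.card G : ℚ) • rat (B i) = s.toRows₁ * rat (A2 i) - rat (A1 i) * s.toRows₁ := by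
    rw [← hall2 i]; abel
  rw [h3, smul_sub, Matrix.smul_mul, Matrix.mul_smul]
  abel

end AbMot
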