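import Pool.Agent.Helper40.AbMot.TGood

/-!
# Linear algebra: double centralizer of a semisimple operator, rational intertwiners, integrality
-/

open Polynomial Module Matrix

namespace AbMot

/-- a matrix commuting with the centralizer of a semisimple matrix is a polynomial in it -/
lemma exists_poly_of_commute {n : ℕ} {Aq : Matrix (Fin n) (Fin n) ℚ} {fq : ℚ[X]}
    (hf : Squarefree fq) (hA : aeval Aq fq = 0) (Z : Matrix (Fin n) (Fin n) ℚ)
    (hZ : ∀ c, c * Aq = Aq * c → c * Z = Z * c) : ∃ p : ℚ[X], Z = aeval Aq p := by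
  classical
  let φ : End ℚ (Fin n → ℚ) := Matrix.toLinAlgEquiv' Aq
  have hφ : ∀ p : ℚ[X], aeval φ p = Matrix.toLinAlgEquiv' (aeval Aq p) := by
    intro p
    exact Polynomial.aeval_algHom_apply
      (Matrix.toLinAlgEquiv' : Matrix (Fin n) (Fin n) ℚ ≃ₐ[ℚ] _).toAlgHom Aq p
  have hss : IsSemisimpleModule ℚ[X] (AEval' φ) :=
    End.isSemisimple_of_squarefree_aeval_eq_zero hf (by rw [hφ, hA, map_zero])
  let o : (Fin n → ℚ) ≃ₗ[ℚ] AEval' φ := AEval'.of φ
  have hoX : ∀ v, (X : ℚ[X]) • o v = o (Aq *ᵥ v) := by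
    intro v
    have h1 := Module.AEval'.X_smul_of (φ := φ) v
    rw [h1]
    rfl
  have hop : ∀ (p : ℚ[X]) v, p • o v = o ((aeval Aq p) *ᵥ v) := by
    intro p v
    have h1 := Module.AEval.of_aeval_smul (R := ℚ) (M := Fin n → ℚ) (a := φ) p v
    change o ((aeval φ p) • v) = p • o v at h1
    rw [← h1, hφ]
    rfl
  let F : AEval' φ →ₗ[End ℚ[X] (AEval' φ)] AEval' φ :=
    { toFun := fun x => o (Z *ᵥ o.symm x)
      map_add' := fun x y => by rw [map_add, Matrix.mulVec_add, map_add]
      map_smul' := fun e x => by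
        let c0 : (Fin n → ℚ) →ₗ[ℚ] (Fin n → ℚ) :=
          { toFun := fun v => o.symm (e (o v))
            map_add' := fun v w => by rw [map_add, map_add, map_add]
            map_smul' := fun r v => by
              have h1 : e (o (r • v)) = (C r : ℚ[X]) • e (o v) := by
                rw [← map_smul e, hop, aeval_C, Algebra.algebraMap_eq_smul_one,
                  Matrix.smul_mulVec, Matrix.one_mulVec]
              rw [h1]
              obtain ⟨w, hw⟩ := o.surjective (e (o v))
              rw [← hw, hop, aeval_C, Algebra.algebraMap_eq_smul_one,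
                  Matrix.smul_mulVec, Matrix.one_mulVec, o.symm_apply_apply, o.symm_apply_apply]
              rfl }
        let c : Matrix (Fin n) (Fin n) ℚ := LinearMap.toMatrix' c0
        have hc : ∀ v, c *ᵥ v = o.symm (e (o v)) := by
          intro v
          rw [← Matrix.toLin'_apply, Matrix.toLin'_toMatrix']
          rfl
        have hcA : c * Aq = Aq * c := by
          apply Matrix.toLin'.injective
          refine LinearMap.ext fun v => ?_
          rw [Matrix.toLin'_mul, Matrix.toLin'_mul, LinearMap.comp_apply, LinearMap.comp_apply]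
          simp only [Matrix.toLin'_apply]
          rw [hc, hc, ← hoX, map_smul]
          obtain ⟨w, hw⟩ := o.surjective (e (o v))
          rw [← hw, hoX, o.symm_apply_apply, o.symm_apply_apply]
        have hcZ := hZ c hcA
        obtain ⟨v, rfl⟩ := o.surjective x
        have h2 : e • o v = o (c *ᵥ v) := by
          rw [hc, o.apply_symm_apply]; rfl
        have h3 : (RingHom.id (End ℚ[X] (AEval' φ))) e • o (Z *ᵥ o.symm (o v)) =
            o (c *ᵥ (Z *ᵥ v)) := by
          rw [hc, o.apply_symm_apply, o.symm_apply_apply]; rfl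
        rw [h3, h2, o.symm_apply_apply, Matrix.mulVec_mulVec, Matrix.mulVec_mulVec, hcZ] }
  obtain ⟨p, hp⟩ := jacobson_density (R := ℚ[X]) (M := AEval' φ) F
    (Finset.univ.image fun i => o (Pi.single i 1))
  refine ⟨p, ?_⟩
  apply Matrix.toLin'.injective
  apply LinearMap.pi_ext'
  intro i
  ext1
  have h1 := hp (o (Pi.single i 1)) (Finset.mem_image_of_mem _ (Finset.mem_univ i))
  have h2 : o (Z *ᵥ (Pi.single i 1)) = o ((aeval Aq p) *ᵥ (Pi.single i 1)) := by
    rw [← hop, ← h1]
    change _ = o (Z *ᵥ o.symm (o (Pi.single i 1)))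
    rw [o.symm_apply_apply]
  have h3 := o.injective h2
  simpa using h3

/-- a linear system over `ℚ` on square matrices of the form `s c = v s` with an invertible
solution over an extension field has an invertible rational solution -/
lemma exists_rat_intertwiner {n : ℕ} {E : Type} [Field E] [Algebra ℚ E]
    (Φ : Set (Matrix (Fin n) (Fin n) ℚ × Matrix (Fin n) (Fin n) ℚ))
    (x : Matrix (Fin n) (Fin n) E) (hx : x.det ≠ 0)
    (h : ∀ q ∈ Φ, x * q.1.map (algebraMap ℚ E) = q.2.map (algebraMap ℚ E) * x) :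
    ∃ s : Matrix (Fin n) (Fin n) ℚ, s.det ≠ 0 ∧ ∀ q ∈ Φ, s * q.1 = q.2 * s := by
  classical
  let b := Basis.ofVectorSpace ℚ E
  let J := (Finset.univ : Finset (Fin n)).biUnion fun i => (Finset.univ : Finset (Fin n)).biUnion
    fun j => (b.repr (x i j)).support
  let xc : _ → Matrix (Fin n) (Fin n) ℚ := fun k => Matrix.of fun i j => b.repr (x i j) k
  have hJ : ∀ i j, (b.repr (x i j)).support ⊆ J := by
    intro i j k hk
    exact Finset.mem_biUnion.2 ⟨i, Finset.mem_univ _, Finset.mem_biUnion.2 ⟨j, Finset.mem_univ _, hk⟩⟩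
  have hsum : ∀ i j, x i j = ∑ k ∈ J, xc k i j • b k := by
    intro i j
    have h1 : x i j = (b.repr (x i j)).sum fun k a => a • b k := by
      have h2 := b.linearCombination_repr (x i j)
      rw [Finsupp.linearCombination_apply] at h2
      exact h2.symm
    rw [Finsupp.sum_of_support_subset _ (hJ i j) _ (fun k _ => zero_smul ℚ (b k))] at h1
    exact h1
  have hcomm : ∀ k, ∀ q ∈ Φ, xc k * q.1 = q.2 * xc k := by
    intro k q hq
    have h1 := h q hq
    ext i j
    have h2 := congrFun (congrFun h1 i) j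
    rw [Matrix.mul_apply, Matrix.mul_apply] at h2 ⊢
    have h3 := congrArg (fun y => b.repr y k) h2
    simp only [map_sum, Finsupp.coe_finsetSum, Finset.sum_apply, Matrix.map_apply] at h3
    have h4 : ∀ (r : ℚ) (y : E), b.repr (y * algebraMap ℚ E r) k = b.repr y k * r := by
      intro r y
      rw [mul_comm, ← Algebra.smul_def, map_smul, Finsupp.smul_apply, smul_eq_mul, mul_comm]
    have h5 : ∀ (r : ℚ) (y : E), b.repr (algebraMap ℚ E r * y) k = r * b.repr y k := by
      intro r y
      rw [← Algebra.smul_def, map_smul, Finsupp.smul_apply, smul_eq_mul]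
    simp only [h4, h5] at h3
    exact h3
  -- the polynomial
  let D : Matrix (Fin n) (Fin n) (MvPolynomial _ ℚ) := Matrix.of fun i j =>
    ∑ k ∈ J, MvPolynomial.C (xc k i j) * MvPolynomial.X k
  have hD : MvPolynomial.aeval b D.det = x.det := by
    rw [AlgHom.map_det]
    congr 1
    ext i j
    rw [hsum i j]
    simp only [D, AlgHom.mapMatrix_apply, Matrix.map_apply, Matrix.of_apply, map_sum, map_mul,
      MvPolynomial.algHom_C, MvPolynomial.aeval_X]
    refine Finset.sum_congr rfl fun k _ => ?_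
    rw [Algebra.smul_def]
  have hD0 : D.det ≠ 0 := by
    intro h0
    rw [h0, map_zero] at hD
    exact hx hD.symm
  have hex : ∃ t, MvPolynomial.eval t D.det ≠ 0 := by
    by_contra hcon
    push Not at hcon
    apply hD0
    apply MvPolynomial.funext
    intro t
    rw [hcon t, map_zero]
  obtain ⟨t, ht⟩ := hex
  refine ⟨∑ k ∈ J, t k • xc k, ?_, ?_⟩
  · rw [RingHom.map_det] at ht
    have h1 : (MvPolynomial.eval t).mapMatrix D = ∑ k ∈ J, t k • xc k := by
      ext i j
      rw [RingHom.mapMatrix_apply, Matrix.map_apply, Matrix.sum_apply]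
      simp only [D, Matrix.of_apply, map_sum, map_mul, MvPolynomial.eval_C, MvPolynomial.eval_X,
        Matrix.smul_apply, smul_eq_mul]
      exact Finset.sum_congr rfl fun k _ => mul_comm _ _
    rw [← h1]
    exact ht
  · intro q hq
    rw [Finset.sum_mul, Finset.mul_sum]
    refine Finset.sum_congr rfl fun k _ => ?_
    rw [smul_mul_assoc, mul_smul_comm, hcomm k q hq]

/-- a rational matrix which is `l`-integral for every `l` is integral -/
lemma exists_int_of_padic {n : ℕ} (M : Matrix (Fin n) (Fin n) ℚ)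
    (h : ∀ (l : ℕ) [Fact l.Prime], ∃ Y : Matrix (Fin n) (Fin n) ℤ_[l],
      M.map (algebraMap ℚ ℚ_[l]) = Y.map (algebraMap ℤ_[l] ℚ_[l])) :
    ∃ M' : Matrix (Fin n) (Fin n) ℤ, rat M' = M := by
  have hden : ∀ i j, (M i j).den = 1 := by
    intro i j
    by_contra hne
    obtain ⟨l, hl, hdvd⟩ := Nat.exists_prime_and_dvd hne
    have : Fact l.Prime := ⟨hl⟩
    obtain ⟨Y, hY⟩ := h l
    have h1 := congrFun (congrFun hY i) j
    rw [Matrix.map_apply, Matrix.map_apply] at h1
    have h2 : ‖((M i j : ℚ) : ℚ_[l])‖ ≤ 1 := by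
      have h3 : ((M i j : ℚ) : ℚ_[l]) = algebraMap ℚ ℚ_[l] (M i j) := rfl
      rw [h3, h1]
      exact (Y i j).2
    -- multiply by the denominator
    have h4 : ((M i j : ℚ) : ℚ_[l]) * ((M i j).den : ℚ_[l]) = ((M i j).num : ℚ_[l]) := by
      have h5 := Rat.mul_den_eq_num (M i j)
      exact_mod_cast congrArg (fun q : ℚ => (q : ℚ_[l])) h5
    have h5 : ‖((M i j).den : ℚ_[l])‖ < 1 := by
      have h6 := (Padic.norm_intCast_lt_one_iff (p := l) (k := ((M i j).den : ℤ))).2 (by exact_mod_cast hdvd)
      exact_mod_cast h6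
    have h6 : ‖((M i j).num : ℚ_[l])‖ < 1 := by
      rw [← h4, norm_mul]
      calc ‖((M i j : ℚ) : ℚ_[l])‖ * ‖((M i j).den : ℚ_[l])‖
          ≤ 1 * ‖((M i j).den : ℚ_[l])‖ := mul_le_mul_of_nonneg_right h2 (norm_nonneg _)
        _ < 1 := by rw [one_mul]; exact h5
    have h7 := (Padic.norm_intCast_lt_one_iff (p := l) (k := (M i j).num)).1 h6
    have h8 := (M i j).reduced
    have h9 : l ∣ (M i j).num.natAbs := Int.natCast_dvd.1 h7
    exact hl.one_lt.ne' (Nat.dvd_one.1 (h8 ▸ Nat.dvd_gcd h9 hdvd))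
  refine ⟨Matrix.of fun i j => (M i j).num, ?_⟩
  ext i j
  simp only [rat, Matrix.map_apply, Matrix.of_apply]
  have h1 := Rat.num_div_den (M i j)
  rw [hden i j] at h1
  simpa using h1

end AbMot
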