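import Pool.Agent.Helper40.AbMot.Gen
import Pool.Agent.Helper40.AbMot.Dens

/-!
# Finiteness of potentially abelian `ℤ`-motives
-/

open NumberField Polynomial

namespace AbMot

variable {F : Type} [Field F] [NumberField F] {K : IntermediateField F (AlgebraicClosure F)}
  [NumberField K] {S : Finset ℕ} {n w : ℕ}

/-- the family of representations transported by an integral change of basis -/
noncomputable def PMotive.tr (M : PMotive F K S n w) (u : Matrix.GeneralLinearGroup (Fin n) ℤ) :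
    Fam (AlgebraicClosure F ≃ₐ[F] AlgebraicClosure F) n := fun l _ =>
  (MulAut.conj (Matrix.GeneralLinearGroup.map (algebraMap ℤ ℤ_[l]) u)).toMonoidHom.comp (M.ρ l)

lemma PMotive.tr_mul (M : PMotive F K S n w) (u : Matrix.GeneralLinearGroup (Fin n) ℤ) (l : ℕ)
    [Fact l.Prime] (g : AlgebraicClosure F ≃ₐ[F] AlgebraicClosure F) :
    rl l (M.tr u) g * toQ l (rat (u : Matrix (Fin n) (Fin n) ℤ)) =
      toQ l (rat (u : Matrix (Fin n) (Fin n) ℤ)) *
        ofZ l (M.ρ l g : Matrix (Fin n) (Fin n) ℤ_[l]) := by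
  have h1 : M.tr u l g * Matrix.GeneralLinearGroup.map (algebraMap ℤ ℤ_[l]) u =
      Matrix.GeneralLinearGroup.map (algebraMap ℤ ℤ_[l]) u * M.ρ l g := by
    simp [PMotive.tr]
  have h2 := congrArg (fun x : Matrix.GeneralLinearGroup (Fin n) ℤ_[l] =>
    ofZ l (x : Matrix (Fin n) (Fin n) ℤ_[l])) h1
  simp only [Units.val_mul, ofZ_mul] at h2
  rw [toQ_rat]
  exact h2

lemma rat_unit_mul (u : Matrix.GeneralLinearGroup (Fin n) ℤ) :
    rat (u : Matrix (Fin n) (Fin n) ℤ) *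
      rat ((u⁻¹ : Matrix.GeneralLinearGroup (Fin n) ℤ) : Matrix (Fin n) (Fin n) ℤ) = 1 := by
  rw [← rat_mul, ← Units.val_mul, mul_inv_cancel, Units.val_one, rat_one]

lemma rat_unit_mul' (u : Matrix.GeneralLinearGroup (Fin n) ℤ) :
    rat ((u⁻¹ : Matrix.GeneralLinearGroup (Fin n) ℤ) : Matrix (Fin n) (Fin n) ℤ) *
      rat (u : Matrix (Fin n) (Fin n) ℤ) = 1 := by
  rw [← rat_mul, ← Units.val_mul, inv_mul_cancel, Units.val_one, rat_one]

lemma PMotive.tr_eq (M : PMotive F K S n w) (u : Matrix.GeneralLinearGroup (Fin n) ℤ) (l : ℕ)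
    [Fact l.Prime] (g : AlgebraicClosure F ≃ₐ[F] AlgebraicClosure F) :
    rl l (M.tr u) g = toQ l (rat (u : Matrix (Fin n) (Fin n) ℤ)) *
      ofZ l (M.ρ l g : Matrix (Fin n) (Fin n) ℤ_[l]) *
        toQ l (rat ((u⁻¹ : Matrix.GeneralLinearGroup (Fin n) ℤ) : Matrix (Fin n) (Fin n) ℤ)) := by
  rw [← M.tr_mul, Matrix.mul_assoc, ← toQ_mul, rat_unit_mul, toQ_one, Matrix.mul_one]

lemma PMotive.continuous_rl (M : PMotive F K S n w) (u : Matrix.GeneralLinearGroup (Fin n) ℤ)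
    (l : ℕ) [Fact l.Prime] : Continuous fun g => rl l (M.tr u) g := by
  have h1 : Continuous fun g => ofZ l (M.ρ l g : Matrix (Fin n) (Fin n) ℤ_[l]) := by
    have h2 : Continuous fun g => (M.ρ l g : Matrix (Fin n) (Fin n) ℤ_[l]) :=
      Units.continuous_val.comp (M.continuous l)
    exact h2.matrix_map continuous_subtype_val
  have h2 : (fun g => rl l (M.tr u) g) = fun g => toQ l (rat (u : Matrix (Fin n) (Fin n) ℤ)) *
      ofZ l (M.ρ l g : Matrix (Fin n) (Fin n) ℤ_[l]) *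
        toQ l (rat ((u⁻¹ : Matrix.GeneralLinearGroup (Fin n) ℤ) : Matrix (Fin n) (Fin n) ℤ)) :=
    funext fun g => M.tr_eq u l g
  rw [h2]
  exact (continuous_const.matrix_mul h1).matrix_mul continuous_const

/-- the elements of the Galois group of `K` act in the same way on two motives which are isomorphic
over `K`, and commute with the endomorphisms over `K` -/
lemma PMotive.dense (hWC : WeakChebotarev K (AlgebraicClosure F)) (hS : ∀ p ∈ S, p.Prime)
    (N : ZMotive K S n w) (M M' : PMotive F K S n w) (u u' : Matrix.GeneralLinearGroup (Fin n) ℤ)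
    (hu : ∀ I, rat (u : Matrix (Fin n) (Fin n) ℤ) * (M.base.ψ I : Matrix (Fin n) (Fin n) ℚ) =
      (N.ψ I : Matrix (Fin n) (Fin n) ℚ) * rat (u : Matrix (Fin n) (Fin n) ℤ))
    (hu' : ∀ I, rat (u' : Matrix (Fin n) (Fin n) ℤ) * (M'.base.ψ I : Matrix (Fin n) (Fin n) ℚ) =
      (N.ψ I : Matrix (Fin n) (Fin n) ℚ) * rat (u' : Matrix (Fin n) (Fin n) ℤ))
    (c : Matrix (Fin n) (Fin n) ℚ) (hc : ∀ I, c * (N.ψ I : Matrix (Fin n) (Fin n) ℚ) =
      (N.ψ I : Matrix (Fin n) (Fin n) ℚ) * c) (l : ℕ) [hl : Fact l.Prime]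
    (h : AlgebraicClosure F ≃ₐ[F] AlgebraicClosure F) (hh : h ∈ K.fixingSubgroup) :
    rl l (M.tr u) h * toQ l c = toQ l c * rl l (M'.tr u') h := by
  have hmul : ∀ (ρ : Fam (AlgebraicClosure F ≃ₐ[F] AlgebraicClosure F) n) (g g' : _),
      rl l ρ (g * g') = rl l ρ g * rl l ρ g' := by
    intro ρ g g'
    rw [← ofZ_mul, ← Units.val_mul, ← map_mul]
  have hone : ∀ (ρ : Fam (AlgebraicClosure F ≃ₐ[F] AlgebraicClosure F) n), rl l ρ 1 = 1 := by
    intro ρ
    rw [rl, map_one, Units.val_one, ofZ_one]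
  let Z : Subgroup (AlgebraicClosure F ≃ₐ[F] AlgebraicClosure F) :=
    { carrier := {g | rl l (M.tr u) g * toQ l c = toQ l c * rl l (M'.tr u') g}
      mul_mem' := by
        intro a b ha hb
        simp only [Set.mem_ofPred_eq] at ha hb ⊢
        rw [hmul, hmul, Matrix.mul_assoc, hb, ← Matrix.mul_assoc, ha, Matrix.mul_assoc]
      one_mem' := by
        simp only [Set.mem_ofPred_eq]
        rw [hone, hone, Matrix.one_mul, Matrix.mul_one]
      inv_mem' := by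
        intro a ha
        simp only [Set.mem_ofPred_eq] at ha ⊢
        have h1 : rl l (M.tr u) a⁻¹ * rl l (M.tr u) a = 1 := by
          rw [← hmul, inv_mul_cancel, hone]
        have h2 : rl l (M'.tr u') a * rl l (M'.tr u') a⁻¹ = 1 := by
          rw [← hmul, mul_inv_cancel, hone]
        calc rl l (M.tr u) a⁻¹ * toQ l c
            = rl l (M.tr u) a⁻¹ * (toQ l c * rl l (M'.tr u') a) * rl l (M'.tr u') a⁻¹ := by
              rw [Matrix.mul_assoc, Matrix.mul_assoc (toQ l c), h2, Matrix.mul_one]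
          _ = (rl l (M.tr u) a⁻¹ * rl l (M.tr u) a) * toQ l c * rl l (M'.tr u') a⁻¹ := by
              rw [← ha]; simp only [Matrix.mul_assoc]
          _ = _ := by rw [h1, Matrix.one_mul] }
  have hZ : IsClosed (Z : Set (AlgebraicClosure F ≃ₐ[F] AlgebraicClosure F)) := by
    have h1 : Continuous fun g => rl l (M.tr u) g * toQ l c :=
      (M.continuous_rl u l).matrix_mul continuous_const
    have h2 : Continuous fun g => toQ l c * rl l (M'.tr u') g :=
      continuous_const.matrix_mul (M'.continuous_rl u' l)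
    exact isClosed_eq h1 h2
  have hfr : ∀ (X : PMotive F K S n w) (x : Matrix.GeneralLinearGroup (Fin n) ℤ)
      (_ : ∀ I, rat (x : Matrix (Fin n) (Fin n) ℤ) * (X.base.ψ I : Matrix (Fin n) (Fin n) ℚ) =
        (N.ψ I : Matrix (Fin n) (Fin n) ℚ) * rat (x : Matrix (Fin n) (Fin n) ℤ))
      (P : idealsAway K S) (_ : (P : Ideal (𝓞 K)).IsPrime) (_ : (l : 𝓞 K) ∉ (P : Ideal (𝓞 K)))
      (σ) (_ : σ ∈ K.fixingSubgroup) (_ : IsFrob K (P : Ideal (𝓞 K)) σ),
      rl l (X.tr x) σ * toQ l (N.ψ P : Matrix (Fin n) (Fin n) ℚ) = 1 := by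
    intro X x hx P hP hlP σ hσ hF
    have h1 : ofZ l (X.ρ l σ : Matrix (Fin n) (Fin n) ℤ_[l]) *
        toQ l (X.base.ψ P : Matrix (Fin n) (Fin n) ℚ) = 1 := X.frob l P hP hlP σ hσ hF
    have h2 : rat ((x⁻¹ : Matrix.GeneralLinearGroup (Fin n) ℤ) : Matrix (Fin n) (Fin n) ℤ) *
        (N.ψ P : Matrix (Fin n) (Fin n) ℚ) = (X.base.ψ P : Matrix (Fin n) (Fin n) ℚ) *
        rat ((x⁻¹ : Matrix.GeneralLinearGroup (Fin n) ℤ) : Matrix (Fin n) (Fin n) ℤ) := by
      set y := rat ((x⁻¹ : Matrix.GeneralLinearGroup (Fin n) ℤ) : Matrix (Fin n) (Fin n) ℤ)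
      calc y * (N.ψ P : Matrix (Fin n) (Fin n) ℚ)
          = y * ((N.ψ P : Matrix (Fin n) (Fin n) ℚ) * rat (x : Matrix (Fin n) (Fin n) ℤ)) * y := by
            rw [Matrix.mul_assoc, Matrix.mul_assoc _ _ y, rat_unit_mul, Matrix.mul_one]
        _ = (y * rat (x : Matrix (Fin n) (Fin n) ℤ)) * (X.base.ψ P : Matrix (Fin n) (Fin n) ℚ) *
              y := by rw [← hx]; simp only [Matrix.mul_assoc]
        _ = _ := by rw [rat_unit_mul', Matrix.one_mul]
    rw [X.tr_eq, Matrix.mul_assoc, ← toQ_mul, h2, toQ_mul, ← Matrix.mul_assoc,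
      Matrix.mul_assoc (toQ l (rat _)), h1, Matrix.mul_one, ← toQ_mul, rat_unit_mul, toQ_one]
  have key := frob_dense_rel K hWC (insert l S) (by
    intro p hp
    rcases Finset.mem_insert.1 hp with rfl | hp
    · exact hl.out.ne_zero
    · exact (hS p hp).ne_zero) Z hZ (by
    intro P hP hP0 hPS σ hσ hF
    have hmax : P.IsMaximal := hP.isMaximal hP0
    have hPm : P ∈ idealsAway K S := by
      refine ⟨hP0, fun p hp => ?_⟩
      rw [Ideal.isCoprime_iff_sup_eq]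
      have h1 := hPS p (Finset.mem_insert_of_mem hp)
      have h2 := hmax.1.2 (P ⊔ Ideal.span {(p : 𝓞 K)}) (by
        refine lt_of_le_of_ne le_sup_left fun h3 => h1 ?_
        rw [h3]
        exact Ideal.mem_sup_right (Ideal.mem_span_singleton_self _))
      exact h2
    have hlP := hPS l (Finset.mem_insert_self l S)
    have e1 := hfr M u hu ⟨P, hPm⟩ hP hlP σ hσ hF
    have e2 := mul_eq_one_comm.1 (hfr M' u' hu' ⟨P, hPm⟩ hP hlP σ hσ hF)
    change rl l (M.tr u) σ * toQ l c = toQ l c * rl l (M'.tr u') σ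
    calc rl l (M.tr u) σ * toQ l c
        = rl l (M.tr u) σ * toQ l (c * (N.ψ ⟨P, hPm⟩ : Matrix (Fin n) (Fin n) ℚ)) *
            rl l (M'.tr u') σ := by
          rw [toQ_mul, Matrix.mul_assoc, Matrix.mul_assoc (toQ l c), e2, Matrix.mul_one]
      _ = (rl l (M.tr u) σ * toQ l (N.ψ ⟨P, hPm⟩ : Matrix (Fin n) (Fin n) ℚ)) * toQ l c *
            rl l (M'.tr u') σ := by rw [hc, toQ_mul]; simp only [Matrix.mul_assoc]
      _ = _ := by rw [e1, Matrix.one_mul])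
  exact key hh

/-- the motives with a given class over `K` -/
lemma finiteness_over (hWC : WeakChebotarev K (AlgebraicClosure F)) [IsGalois F K]
    (hS : ∀ p ∈ S, p.Prime) (𝒯 : Set (PMotive F K S n w))
    (h𝒯 : ∀ M ∈ 𝒯, ∀ M' ∈ 𝒯, M.Compatible M') (N : ZMotive K S n w) :
    ∃ T : Finset (PMotive F K S n w), (T : Set (PMotive F K S n w)) ⊆ 𝒯 ∧
      ∀ M ∈ 𝒯, M.base.Iso N → ∃ M' ∈ T, M.Iso M' := by
  classical
  obtain ⟨f, hf, hgen⟩ := exists_generator (K := K) S hS n w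
  obtain ⟨A, hA, hAc⟩ := hgen N
  have hfd : FiniteDimensional F K := FiniteDimensional.right ℚ F K
  have hHn : K.fixingSubgroup.Normal := (InfiniteGalois.normal_iff_isGalois K).2 inferInstance
  have hHf : Finite ((AlgebraicClosure F ≃ₐ[F] AlgebraicClosure F) ⧸ K.fixingSubgroup) :=
    Subgroup.quotient_finite_of_isOpen _ K.fixingSubgroup_isOpen
  have hHi : K.fixingSubgroup.FiniteIndex := Subgroup.finiteIndex_of_finite_quotient
  let u : PMotive F K S n w → Matrix.GeneralLinearGroup (Fin n) ℤ := fun M =>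
    if h : M.base.Iso N then h.choose else 1
  have hu : ∀ M : PMotive F K S n w, M.base.Iso N → ∀ I,
      rat (u M : Matrix (Fin n) (Fin n) ℤ) * (M.base.ψ I : Matrix (Fin n) (Fin n) ℚ) =
        (N.ψ I : Matrix (Fin n) (Fin n) ℚ) * rat (u M : Matrix (Fin n) (Fin n) ℤ) := by
    intro M hM I
    simp only [u, dif_pos hM]
    exact hM.choose_spec I
  have huinv : ∀ M : PMotive F K S n w, M.base.Iso N → ∀ I,
      rat (((u M)⁻¹ : Matrix.GeneralLinearGroup (Fin n) ℤ) : Matrix (Fin n) (Fin n) ℤ) *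
        (N.ψ I : Matrix (Fin n) (Fin n) ℚ) = (M.base.ψ I : Matrix (Fin n) (Fin n) ℚ) *
        rat (((u M)⁻¹ : Matrix.GeneralLinearGroup (Fin n) ℤ) : Matrix (Fin n) (Fin n) ℤ) := by
    intro M hM I
    set y := rat (((u M)⁻¹ : Matrix.GeneralLinearGroup (Fin n) ℤ) : Matrix (Fin n) (Fin n) ℤ)
    calc y * (N.ψ I : Matrix (Fin n) (Fin n) ℚ)
        = y * ((N.ψ I : Matrix (Fin n) (Fin n) ℚ) * rat (u M : Matrix (Fin n) (Fin n) ℤ)) * y := by
          rw [Matrix.mul_assoc, Matrix.mul_assoc _ _ y, rat_unit_mul, Matrix.mul_one]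
      _ = (y * rat (u M : Matrix (Fin n) (Fin n) ℤ)) * (M.base.ψ I : Matrix (Fin n) (Fin n) ℚ) *
            y := by rw [← hu M hM]; simp only [Matrix.mul_assoc]
      _ = _ := by rw [rat_unit_mul', Matrix.one_mul]
  let 𝒯N : Set (PMotive F K S n w) := {M | M ∈ 𝒯 ∧ M.base.Iso N}
  let 𝒮 : Set (Fam (AlgebraicClosure F ≃ₐ[F] AlgebraicClosure F) n) :=
    (fun M => M.tr (u M)) '' 𝒯N
  obtain ⟨T', hT'sub, hT'fin, hT'⟩ := core K.fixingSubgroup hf A hA 𝒮 (by
    rintro _ ⟨M, ⟨hM, hMN⟩, rfl⟩ _ ⟨M', ⟨hM', hMN'⟩, rfl⟩ g c hc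
    have hc' := (hAc c).1 hc
    obtain ⟨v0, hv0, hv0l⟩ := h𝒯 M hM M' hM' g
      (rat (((u M')⁻¹ : Matrix.GeneralLinearGroup (Fin n) ℤ) : Matrix (Fin n) (Fin n) ℤ) * c *
        rat (u M : Matrix (Fin n) (Fin n) ℤ)) (by
      intro I
      rw [Matrix.mul_assoc, hu M hMN, ← Matrix.mul_assoc, Matrix.mul_assoc _ c, hc',
        ← Matrix.mul_assoc, huinv M' hMN']
      simp only [Matrix.mul_assoc])
    refine ⟨rat (u M' : Matrix (Fin n) (Fin n) ℤ) * v0 *
      rat (((u M)⁻¹ : Matrix.GeneralLinearGroup (Fin n) ℤ) : Matrix (Fin n) (Fin n) ℤ), ?_, ?_⟩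
    · rw [hAc]
      intro I
      rw [Matrix.mul_assoc, huinv M hMN, ← Matrix.mul_assoc, Matrix.mul_assoc _ v0, hv0,
        ← Matrix.mul_assoc, hu M' hMN']
      simp only [Matrix.mul_assoc]
    · intro l _
      have h1 : ofZ l (M'.ρ l g : Matrix (Fin n) (Fin n) ℤ_[l]) * toQ l
          (rat (((u M')⁻¹ : Matrix.GeneralLinearGroup (Fin n) ℤ) : Matrix (Fin n) (Fin n) ℤ) * c *
            rat (u M : Matrix (Fin n) (Fin n) ℤ)) =
          toQ l v0 * ofZ l (M.ρ l g : Matrix (Fin n) (Fin n) ℤ_[l]) := hv0l l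
      have h2 : toQ l c = toQ l (rat (u M' : Matrix (Fin n) (Fin n) ℤ)) * toQ l
          (rat (((u M')⁻¹ : Matrix.GeneralLinearGroup (Fin n) ℤ) : Matrix (Fin n) (Fin n) ℤ) * c *
            rat (u M : Matrix (Fin n) (Fin n) ℤ)) * toQ l
          (rat (((u M)⁻¹ : Matrix.GeneralLinearGroup (Fin n) ℤ) : Matrix (Fin n) (Fin n) ℤ)) := by
        rw [← toQ_mul, ← toQ_mul]
        congr 1
        rw [Matrix.mul_assoc, Matrix.mul_assoc _ (rat (u M : Matrix (Fin n) (Fin n) ℤ)),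
          rat_unit_mul, Matrix.mul_one, ← Matrix.mul_assoc, rat_unit_mul, Matrix.one_mul]
      have h3 : toQ l (rat (((u M)⁻¹ : Matrix.GeneralLinearGroup (Fin n) ℤ) :
          Matrix (Fin n) (Fin n) ℤ)) * rl l (M.tr (u M)) g =
          ofZ l (M.ρ l g : Matrix (Fin n) (Fin n) ℤ_[l]) * toQ l (rat (((u M)⁻¹ :
            Matrix.GeneralLinearGroup (Fin n) ℤ) : Matrix (Fin n) (Fin n) ℤ)) := by
        rw [M.tr_eq, ← Matrix.mul_assoc, ← Matrix.mul_assoc, ← toQ_mul, rat_unit_mul', toQ_one,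
          Matrix.one_mul]
      have h4 := M'.tr_mul (u M') l g
      change rl l (M'.tr (u M')) g * toQ l c = toQ l (rat (u M' : Matrix (Fin n) (Fin n) ℤ) * v0 *
        rat (((u M)⁻¹ : Matrix.GeneralLinearGroup (Fin n) ℤ) : Matrix (Fin n) (Fin n) ℤ)) *
          rl l (M.tr (u M)) g
      rw [toQ_mul, toQ_mul]
      generalize toQ l (rat (((u M')⁻¹ : Matrix.GeneralLinearGroup (Fin n) ℤ) :
        Matrix (Fin n) (Fin n) ℤ) * c * rat (u M : Matrix (Fin n) (Fin n) ℤ)) = Q at h1 h2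
      generalize toQ l (rat (((u M)⁻¹ : Matrix.GeneralLinearGroup (Fin n) ℤ) :
        Matrix (Fin n) (Fin n) ℤ)) = y at h2 h3 ⊢
      generalize toQ l (rat (u M' : Matrix (Fin n) (Fin n) ℤ)) = U at h2 h4 ⊢
      rw [h2]
      calc rl l (M'.tr (u M')) g * (U * Q * y)
          = (rl l (M'.tr (u M')) g * U) * Q * y := by simp only [Matrix.mul_assoc]
        _ = U * (ofZ l (M'.ρ l g : Matrix (Fin n) (Fin n) ℤ_[l]) * Q) * y := by
            rw [h4]; simp only [Matrix.mul_assoc]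
        _ = U * toQ l v0 * (ofZ l (M.ρ l g : Matrix (Fin n) (Fin n) ℤ_[l]) * y) := by
            rw [h1]; simp only [Matrix.mul_assoc]
        _ = _ := by rw [← h3]; simp only [Matrix.mul_assoc]) (by
    rintro _ ⟨M, ⟨hM, hMN⟩, rfl⟩ _ ⟨M', ⟨hM', hMN'⟩, rfl⟩ h hh l _
    have h1 := PMotive.dense hWC hS N M M' (u M) (u M') (hu M hMN) (hu M' hMN') 1
      (fun I => by rw [Matrix.one_mul, Matrix.mul_one]) l h hh
    rw [toQ_one, Matrix.one_mul, Matrix.mul_one] at h1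
    apply Units.ext
    exact ofZ_injective l h1) (by
    rintro _ ⟨M, ⟨hM, hMN⟩, rfl⟩ h hh c hc l _
    exact PMotive.dense hWC hS N M M (u M) (u M) (hu M hMN) (hu M hMN) c ((hAc c).1 hc) l h hh)
  have hex : ∀ ρ ∈ T', ∃ M, (M ∈ 𝒯 ∧ M.base.Iso N) ∧ M.tr (u M) = ρ := fun ρ hρ => hT'sub hρ
  choose m hm1 hm2 using hex
  refine ⟨hT'fin.toFinset.attach.image fun ρ => m ρ.1 (hT'fin.mem_toFinset.1 ρ.2), ?_, ?_⟩
  · intro M hM
    rw [Finset.mem_coe, Finset.mem_image] at hM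
    obtain ⟨ρ, hρ, rfl⟩ := hM
    exact (hm1 ρ.1 (hT'fin.mem_toFinset.1 ρ.2)).1
  · intro M hM hMN
    obtain ⟨ρ', hρ', v, hvA, hv⟩ := hT' (M.tr (u M)) ⟨M, ⟨hM, hMN⟩, rfl⟩
    refine ⟨m ρ' hρ', Finset.mem_image.2 ⟨⟨ρ', hT'fin.mem_toFinset.2 hρ'⟩, Finset.mem_attach _ _,
      rfl⟩, ?_⟩
    obtain ⟨M', hM'⟩ : ∃ M', M' = m ρ' hρ' := ⟨_, rfl⟩
    have hM'N : M'.base.Iso N := by rw [hM']; exact (hm1 ρ' hρ').2
    have htr : M'.tr (u M') = ρ' := by rw [hM']; exact hm2 ρ' hρ'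
    rw [← hM']
    rw [← htr] at hv
    have hvN := (hAc (rat (v : Matrix (Fin n) (Fin n) ℤ))).1 (by
      rw [← rat_mul, ← rat_mul, hvA])
    have hvl : ∀ (l : ℕ) [Fact l.Prime] (g : AlgebraicClosure F ≃ₐ[F] AlgebraicClosure F),
        toQ l (rat (v : Matrix (Fin n) (Fin n) ℤ)) * rl l (M.tr (u M)) g =
          rl l (M'.tr (u M')) g * toQ l (rat (v : Matrix (Fin n) (Fin n) ℤ)) := by
      intro l _ g
      have h1 := congrArg (ofZ l) (hv l g)
      rw [ofZ_mul, ofZ_mul, ← toQ_rat] at h1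
      exact h1
    refine ⟨(u M')⁻¹ * v * u M, fun I => ?_, fun l _ g => ?_⟩
    · change rat (((u M')⁻¹ * v * u M : Matrix.GeneralLinearGroup (Fin n) ℤ) :
        Matrix (Fin n) (Fin n) ℤ) * (M.base.ψ I : Matrix (Fin n) (Fin n) ℚ) =
        (M'.base.ψ I : Matrix (Fin n) (Fin n) ℚ) *
        rat (((u M')⁻¹ * v * u M : Matrix.GeneralLinearGroup (Fin n) ℤ) :
        Matrix (Fin n) (Fin n) ℤ)
      rw [Units.val_mul, Units.val_mul, rat_mul, rat_mul, Matrix.mul_assoc, hu M hMN,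
        ← Matrix.mul_assoc, Matrix.mul_assoc _ (rat (v : Matrix (Fin n) (Fin n) ℤ)), hvN,
        ← Matrix.mul_assoc, huinv M' hM'N]
      simp only [Matrix.mul_assoc]
    · apply ofZ_injective l
      rw [ofZ_mul, ofZ_mul, ← toQ_rat, Units.val_mul, Units.val_mul, rat_mul, rat_mul, toQ_mul,
        toQ_mul, Matrix.mul_assoc, ← M.tr_mul, ← Matrix.mul_assoc,
        Matrix.mul_assoc _ (toQ l (rat (v : Matrix (Fin n) (Fin n) ℤ))), hvl, ← Matrix.mul_assoc]
      have h3 : toQ l (rat (((u M')⁻¹ : Matrix.GeneralLinearGroup (Fin n) ℤ) :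
          Matrix (Fin n) (Fin n) ℤ)) * rl l (M'.tr (u M')) g =
          ofZ l (M'.ρ l g : Matrix (Fin n) (Fin n) ℤ_[l]) * toQ l (rat (((u M')⁻¹ :
            Matrix.GeneralLinearGroup (Fin n) ℤ) : Matrix (Fin n) (Fin n) ℤ)) := by
        rw [M'.tr_eq, ← Matrix.mul_assoc, ← Matrix.mul_assoc, ← toQ_mul, rat_unit_mul', toQ_one,
          Matrix.one_mul]
      rw [h3]
      simp only [Matrix.mul_assoc]

/-- **Finiteness of potentially abelian `ℤ`-motives** -/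
theorem finiteness_potential (hWC : WeakChebotarev K (AlgebraicClosure F)) [IsGalois F K]
    (hS : ∀ p ∈ S, p.Prime) (𝒯 : Set (PMotive F K S n w))
    (h𝒯 : ∀ M ∈ 𝒯, ∀ M' ∈ 𝒯, M.Compatible M') :
    ∃ T : Finset (PMotive F K S n w), (T : Set (PMotive F K S n w)) ⊆ 𝒯 ∧
      ∀ M ∈ 𝒯, ∃ M' ∈ T, M.Iso M' := by
  classical
  obtain ⟨T1, hT1⟩ := finiteness (F := K) S hS n w
  choose TN hTN1 hTN2 using finiteness_over hWC hS 𝒯 h𝒯
  refine ⟨T1.biUnion TN, ?_, fun M hM => ?_⟩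
  · intro M hM
    rw [Finset.mem_coe, Finset.mem_biUnion] at hM
    obtain ⟨N, _, hMN⟩ := hM
    exact hTN1 N hMN
  · obtain ⟨N, hN, hMN⟩ := hT1 M.base
    obtain ⟨M', hM', hiso⟩ := hTN2 N M hM hMN
    exact ⟨M', Finset.mem_biUnion.2 ⟨N, hN, hM'⟩, hiso⟩

end AbMot
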