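import Pool.Agent.Helper40.AbMot.Defs

/-!
# Ray classes, and characters are determined by the ideals prime to a given integer
-/

open NumberField Polynomial

namespace AbMot

variable {F : Type} [Field F] [NumberField F]

omit [NumberField F] in
lemma coe_mul' (α β : 𝓞 F) : ((α * β : 𝓞 F) : F) = (α : F) * (β : F) :=
  map_mul (algebraMap (𝓞 F) F) α β

omit [NumberField F] in
lemma coe_add' (α β : 𝓞 F) : ((α + β : 𝓞 F) : F) = (α : F) + (β : F) :=
  map_add (algebraMap (𝓞 F) F) α β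

/-- the algebraic character with exponents `e` -/
noncomputable def nrm (e : (F →+* ℂ) → ℕ) (α : 𝓞 F) : ℂ := ∏ σ : F →+* ℂ, (σ (α : F)) ^ (e σ)

lemma nrm_mul (e : (F →+* ℂ) → ℕ) (α β : 𝓞 F) : nrm e (α * β) = nrm e α * nrm e β := by
  simp only [nrm, ← Finset.prod_mul_distrib]
  refine Finset.prod_congr rfl fun σ _ => ?_
  rw [coe_mul', map_mul, mul_pow]

lemma nrm_one (e : (F →+* ℂ) → ℕ) : nrm e (1 : 𝓞 F) = 1 := by
  simp [nrm]

lemma nrm_pow (e : (F →+* ℂ) → ℕ) (α : 𝓞 F) (k : ℕ) : nrm e (α ^ k) = nrm e α ^ k := by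
  induction k with
  | zero => simp [nrm_one]
  | succ k ih => rw [pow_succ, nrm_mul, ih, pow_succ]

lemma nrm_ne_zero (e : (F →+* ℂ) → ℕ) {α : 𝓞 F} (h : α ≠ 0) : nrm e α ≠ 0 := by
  refine Finset.prod_ne_zero_iff.2 fun σ _ => pow_ne_zero _ ?_
  rw [Ne, map_eq_zero]
  exact_mod_cast h

lemma TotPos.mul {α β : 𝓞 F} (ha : TotPos α) (hb : TotPos β) : TotPos (α * β) := by
  intro σ
  rw [coe_mul', map_mul]
  exact mul_pos (ha σ) (hb σ)

lemma totPos_one : TotPos (1 : 𝓞 F) := by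
  intro σ; simp

lemma TotPos.pow {α : 𝓞 F} (ha : TotPos α) (k : ℕ) : TotPos (α ^ k) := by
  induction k with
  | zero => rw [pow_zero]; exact totPos_one
  | succ k ih => rw [pow_succ]; exact ih.mul ha

lemma totPos_sq {α : 𝓞 F} (ha : α ≠ 0) : TotPos (α * α) := by
  intro σ
  rw [coe_mul', map_mul]
  refine mul_self_pos.2 ?_
  rw [Ne, map_eq_zero]
  exact_mod_cast ha

/-- `m` is a modulus supported on `S` -/
def Supp (S : Finset ℕ) (m : ℕ) : Prop := m ≠ 0 ∧ ∀ p : ℕ, p.Prime → p ∣ m → p ∈ S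

lemma Supp.mul {S : Finset ℕ} {m m' : ℕ} (h : Supp S m) (h' : Supp S m') : Supp S (m * m') := by
  refine ⟨mul_ne_zero h.1 h'.1, fun p hp hpm => ?_⟩
  rcases (hp.dvd_mul).1 hpm with h1 | h1
  · exact h.2 p hp h1
  · exact h'.2 p hp h1

lemma Supp.coprime {S : Finset ℕ} {m : ℕ} (h : Supp S m) {I : Ideal (𝓞 F)}
    (hI : I ∈ idealsAway F S) : IsCoprime I (Ideal.span {(m : 𝓞 F)}) := by
  obtain ⟨h0, h1⟩ := h
  induction m using Nat.recOnMul with
  | zero => exact absurd rfl h0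
  | one => rw [Nat.cast_one, Ideal.span_singleton_one, ← Ideal.one_eq_top]; exact isCoprime_one_right
  | prime p hp => exact hI.2 p (h1 p hp dvd_rfl)
  | mul a b iha ihb =>
    rw [Nat.cast_mul, ← Ideal.span_singleton_mul_span_singleton]
    refine IsCoprime.mul_right (iha (fun h => h0 (by rw [h, zero_mul])) ?_)
      (ihb (fun h => h0 (by rw [h, mul_zero])) ?_)
    · exact fun p hp hpa => h1 p hp (dvd_mul_of_dvd_left hpa b)
    · exact fun p hp hpb => h1 p hp (dvd_mul_of_dvd_right hpb a)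

/-- a power of every element prime to `m` is totally positive and congruent to `1` modulo `m` -/
lemma exists_pow_ray (m : ℕ) (hm : m ≠ 0) : ∃ k : ℕ, 0 < k ∧ ∀ α : 𝓞 F, α ≠ 0 →
    IsCoprime (Ideal.span {α}) (Ideal.span {(m : 𝓞 F)}) →
    (m : 𝓞 F) ∣ α ^ k - 1 ∧ TotPos (α ^ k) := by
  classical
  have hm' : (Ideal.span {(m : 𝓞 F)}) ≠ ⊥ := by
    rw [Ne, Ideal.span_singleton_eq_bot]
    exact_mod_cast hm
  have hfin : Finite (𝓞 F ⧸ Ideal.span {(m : 𝓞 F)}) := Ideal.finiteQuotientOfFreeOfNeBot _ hm'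
  have hfin' : Finite (𝓞 F ⧸ Ideal.span {(m : 𝓞 F)})ˣ := inferInstance
  let f := Nat.card (𝓞 F ⧸ Ideal.span {(m : 𝓞 F)})ˣ
  have hf : 0 < f := Nat.card_pos
  refine ⟨f * 2, by positivity, fun α hα hc => ?_⟩
  have hunit : IsUnit (Ideal.Quotient.mk (Ideal.span {(m : 𝓞 F)}) α) := by
    rw [Ideal.isCoprime_span_singleton_iff] at hc
    obtain ⟨a, b, hab⟩ := hc
    refine IsUnit.of_mul_eq_one (Ideal.Quotient.mk _ a) ?_
    rw [← map_mul, ← map_one (Ideal.Quotient.mk _), Ideal.Quotient.eq, Ideal.mem_span_singleton]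
    exact ⟨-b, by linear_combination hab⟩
  have h1 : (Ideal.Quotient.mk (Ideal.span {(m : 𝓞 F)}) α) ^ f = 1 := by
    obtain ⟨u, hu⟩ := hunit
    rw [← hu, ← Units.val_pow_eq_pow_val, pow_card_eq_one', Units.val_one]
  constructor
  · rw [← Ideal.mem_span_singleton, ← Ideal.Quotient.eq, map_pow, pow_mul, h1, one_pow, map_one]
  · rw [pow_mul, sq]
    exact totPos_sq (pow_ne_zero _ hα)

/-- a power of every ideal prime to `S` is principal, with a generator in the ray modulo `m` -/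
lemma exists_pow_ideal_ray (S : Finset ℕ) (m : ℕ) (hm : Supp S m) : ∃ k : ℕ, 0 < k ∧
    ∀ I : Ideal (𝓞 F), I ∈ idealsAway F S →
      ∃ γ : 𝓞 F, I ^ k = Ideal.span {γ} ∧ (m : 𝓞 F) ∣ γ - 1 ∧ TotPos γ := by
  classical
  obtain ⟨k, hk, h⟩ := exists_pow_ray (F := F) m hm.1
  let c := Nat.card (ClassGroup (𝓞 F))
  have hc : 0 < c := Nat.card_pos
  refine ⟨c * k, by positivity, fun I hI => ?_⟩
  have hI0 : I ∈ nonZeroDivisors (Ideal (𝓞 F)) := mem_nonZeroDivisors_of_ne_zero hI.1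
  have h1 : (I ^ c).IsPrincipal := by
    have h2 : ClassGroup.mk0 ((⟨I, hI0⟩ : nonZeroDivisors (Ideal (𝓞 F))) ^ c) = 1 := by
      rw [map_pow, pow_card_eq_one']
    rw [ClassGroup.mk0_eq_one_iff] at h2
    exact h2
  obtain ⟨α, hα⟩ := h1
  have hα' : I ^ c = Ideal.span {α} := hα
  have hIc : I ^ c ∈ idealsAway F S := pow_mem hI c
  have hα0 : α ≠ 0 := by
    rintro rfl
    apply hIc.1
    rw [hα']
    simp
  have h3 := h α hα0 (by rw [← hα']; exact hm.coprime hIc)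
  refine ⟨α ^ k, ?_, h3.1, h3.2⟩
  rw [pow_mul, hα', Ideal.span_singleton_pow]

lemma exists_add_nat_totPos (α : 𝓞 F) : ∃ c0 : ℕ, ∀ c : ℕ, c0 ≤ c → TotPos (α + (c : 𝓞 F)) := by
  classical
  obtain ⟨c0, hc0⟩ := exists_nat_gt (∑ σ : F →+* ℂ, ‖σ (α : F)‖)
  refine ⟨c0, fun c hc σ => ?_⟩
  let τ : F →+* ℂ := Complex.ofRealHom.comp σ
  have h1 : ‖τ (α : F)‖ ≤ ∑ σ : F →+* ℂ, ‖σ (α : F)‖ :=
    Finset.single_le_sum (f := fun σ : F →+* ℂ => ‖σ (α : F)‖) (fun _ _ => norm_nonneg _)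
      (Finset.mem_univ τ)
  have h2 : ‖τ (α : F)‖ = |σ (α : F)| := by
    simp [τ]
  have h3 : ((α + (c : 𝓞 F) : 𝓞 F) : F) = (α : F) + (c : F) := by
    rw [coe_add']
    congr 1
  rw [h3, map_add, map_natCast]
  have h4 : (c0 : ℝ) ≤ c := by exact_mod_cast hc
  have h5 := neg_abs_le (σ (α : F))
  linarith

/-- a totally positive primitive integer -/
lemma exists_primitive_totPos : ∃ θ : 𝓞 F, TotPos θ ∧
    Function.Injective (fun σ : F →+* ℂ => σ (θ : F)) := by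
  classical
  obtain ⟨α, hα⟩ := Field.exists_primitive_element ℚ F
  have halg : IsAlgebraic ℤ α := (IsFractionRing.isAlgebraic_iff ℤ ℚ F).2 (IsAlgebraic.of_finite ℚ α)
  obtain ⟨b, hb, hbα⟩ := halg.exists_integral_multiple
  let θ0 : 𝓞 F := ⟨b • α, hbα⟩
  have hθ0 : (θ0 : F) = b • α := rfl
  obtain ⟨c, hc⟩ := exists_add_nat_totPos θ0
  refine ⟨θ0 + (c : 𝓞 F), hc c le_rfl, ?_⟩
  intro σ τ hστ
  have h3 : ((θ0 + (c : 𝓞 F) : 𝓞 F) : F) = (b : F) * α + (c : F) := by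
    rw [coe_add', hθ0, zsmul_eq_mul]
    congr 1
  have h4 : σ α = τ α := by
    simp only [h3, map_add, map_mul, map_intCast, map_natCast] at hστ
    have hb' : (b : ℂ) ≠ 0 := by exact_mod_cast hb
    exact mul_left_cancel₀ hb' (add_right_cancel hστ)
  have h5 : Algebra.adjoin ℚ {α} = ⊤ := by
    rw [← IntermediateField.adjoin_simple_toSubalgebra_of_isAlgebraic (IsAlgebraic.of_finite ℚ α),
      hα, IntermediateField.top_toSubalgebra]
  have h6 : σ.toRatAlgHom = τ.toRatAlgHom := by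
    apply AlgHom.ext_of_adjoin_eq_top h5
    intro x hx
    rw [Set.mem_singleton_iff] at hx
    rw [hx]
    exact h4
  ext x
  exact DFunLike.congr_fun h6 x

/-- the exponents of an algebraic character are determined by its values on a ray -/
lemma exponents_eq {e e' : (F →+* ℂ) → ℕ} {m : ℕ} (hm : m ≠ 0)
    (h : ∀ α : 𝓞 F, α ≠ 0 → (m : 𝓞 F) ∣ α - 1 → TotPos α → nrm e α = nrm e' α) : e = e' := by
  classical
  obtain ⟨θ, hθ, hinj⟩ := exists_primitive_totPos (F := F)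
  let r : (F →+* ℂ) → ℂ := fun σ => -((m : ℂ) * σ (θ : F))
  have hr : Function.Injective r := by
    intro σ τ hστ
    apply hinj
    have hm' : (m : ℂ) ≠ 0 := by exact_mod_cast hm
    exact mul_left_cancel₀ hm' (neg_injective hστ)
  let R : ((F →+* ℂ) → ℕ) → ℂ[X] := fun e => ∏ σ : F →+* ℂ, (X - C (r σ)) ^ (e σ)
  have hR0 : ∀ e, R e ≠ 0 := fun e =>
    Finset.prod_ne_zero_iff.2 fun σ _ => pow_ne_zero _ (X_sub_C_ne_zero _)
  have hroots : ∀ e σ, (R e).roots.count (r σ) = e σ := by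
    intro e σ
    simp only [R]
    rw [roots_prod _ _ (hR0 e), Multiset.count_bind]
    simp only [roots_pow, roots_X_sub_C, Multiset.count_nsmul, Multiset.count_singleton]
    change ∑ τ : F →+* ℂ, _ = _
    rw [Finset.sum_eq_single σ]
    · simp
    · intro τ _ hτ
      rw [if_neg, mul_zero]
      intro h
      exact hτ (hr h).symm
    · intro h; exact absurd (Finset.mem_univ σ) h
  have heval : ∀ (e : (F →+* ℂ) → ℕ) (t : ℕ), (R e).eval ((1 : ℂ) + m * t) =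
      nrm e (1 + (m : 𝓞 F) * t + m * θ) := by
    intro e t
    simp only [R, eval_prod, eval_pow, eval_sub, eval_X, eval_C, nrm]
    refine Finset.prod_congr rfl fun σ _ => ?_
    congr 1
    have h3 : ((1 + (m : 𝓞 F) * t + m * θ : 𝓞 F) : F) = 1 + m * t + m * (θ : F) := by
      have := RingOfIntegers.coe_eq_algebraMap (1 + (m : 𝓞 F) * t + m * θ : 𝓞 F)
      rw [this]
      simp
    rw [h3]
    simp [r]
  obtain ⟨t0, ht0⟩ : ∃ t0 : ℕ, ∀ t : ℕ, 1 + (m : 𝓞 F) * ((t0 + t : ℕ) : 𝓞 F) + m * θ ≠ 0 := by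
    by_cases hex : ∃ t1 : ℕ, 1 + (m : 𝓞 F) * (t1 : 𝓞 F) + m * θ = 0
    · obtain ⟨t1, ht1⟩ := hex
      refine ⟨t1 + 1, fun t h => ?_⟩
      have h1 : (m : 𝓞 F) * ((t + 1 : ℕ) : 𝓞 F) = 0 := by
        push_cast at h ⊢
        linear_combination h - ht1
      rw [mul_eq_zero] at h1
      rcases h1 with h1 | h1
      · exact hm (by exact_mod_cast h1)
      · exact Nat.succ_ne_zero t (by exact_mod_cast h1)
    · push Not at hex
      exact ⟨0, fun t => hex _⟩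
  have hRR : R e = R e' := by
    apply Polynomial.eq_of_infinite_eval_eq
    refine Set.Infinite.mono (s := Set.range fun t : ℕ => (1 : ℂ) + m * ((t0 + t : ℕ) : ℂ)) ?_ ?_
    · rintro _ ⟨t', rfl⟩
      obtain ⟨t, ht⟩ : ∃ t, t = t0 + t' := ⟨_, rfl⟩
      have ht0' := ht0 t'
      rw [← ht] at ht0'
      simp only [← ht]
      rw [Set.mem_ofPred_eq, heval, heval]
      apply h _ ht0'
      · exact ⟨(t : 𝓞 F) + θ, by ring⟩
      · have h1 : TotPos (1 + (m : 𝓞 F) * (t : 𝓞 F)) := by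
          intro σ
          have h3 : ((1 + (m : 𝓞 F) * (t : 𝓞 F) : 𝓞 F) : F) = 1 + m * t := by
            have := RingOfIntegers.coe_eq_algebraMap (1 + (m : 𝓞 F) * (t : 𝓞 F) : 𝓞 F)
            rw [this]
            simp
          rw [h3]
          simp only [map_add, map_one, map_mul, map_natCast]
          positivity
        have h2 : TotPos ((m : 𝓞 F) * θ) := by
          intro σ
          rw [coe_mul', map_mul]
          have h3 : ((m : 𝓞 F) : F) = (m : F) := map_natCast (algebraMap (𝓞 F) F) m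
          rw [h3, map_natCast]
          have h4 : (0 : ℝ) < m := by exact_mod_cast Nat.pos_of_ne_zero hm
          exact mul_pos h4 (hθ σ)
        intro σ
        rw [coe_add', map_add]
        exact add_pos (h1 σ) (h2 σ)
    · apply Set.infinite_range_of_injective
      intro s t hst
      have hm' : (m : ℂ) ≠ 0 := by exact_mod_cast hm
      have h1 := mul_left_cancel₀ hm' (add_left_cancel hst)
      have h2 : t0 + s = t0 + t := by exact_mod_cast h1
      omega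
  funext σ
  rw [← hroots e σ, hRR, hroots]

lemma exists_add_mul_totPos (β : 𝓞 F) (q : ℕ) (hq : q ≠ 0) :
    ∃ c : ℕ, TotPos (β + (c : 𝓞 F) * (q : 𝓞 F)) ∧ β + (c : 𝓞 F) * (q : 𝓞 F) ≠ 0 := by
  obtain ⟨c0, hc0⟩ := exists_add_nat_totPos β
  have hpos : ∀ c : ℕ, c0 ≤ c → TotPos (β + (c : 𝓞 F) * (q : 𝓞 F)) := by
    intro c hc
    rw [← Nat.cast_mul]
    exact hc0 _ (hc.trans (Nat.le_mul_of_pos_right c (Nat.pos_of_ne_zero hq)))
  by_cases h : β + (c0 : 𝓞 F) * (q : 𝓞 F) = 0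
  · refine ⟨c0 + 1, hpos _ (Nat.le_succ _), ?_⟩
    have h1 : β + ((c0 + 1 : ℕ) : 𝓞 F) * (q : 𝓞 F) = (q : 𝓞 F) := by
      push_cast
      linear_combination h
    rw [h1]
    exact_mod_cast hq
  · exact ⟨c0, hpos _ le_rfl, h⟩

/-- `χ` agrees with the algebraic character of exponents `e` on the ray modulo `m` -/
def HasType {S : Finset ℕ} (m : ℕ) (e : (F →+* ℂ) → ℕ) (χ : idealsAway F S →* ℂ) : Prop :=
  ∀ (α : 𝓞 F) (h : Ideal.span {α} ∈ idealsAway F S), (m : 𝓞 F) ∣ α - 1 → TotPos α →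
    χ ⟨Ideal.span {α}, h⟩ = nrm e α

lemma HasType.of_dvd {S : Finset ℕ} {m m' : ℕ} {e : (F →+* ℂ) → ℕ} {χ : idealsAway F S →* ℂ}
    (h : HasType m e χ) (hm : m ∣ m') : HasType m' e χ := by
  intro α hα h1 h2
  exact h α hα (dvd_trans (Nat.cast_dvd_cast hm) h1) h2

lemma span_mem_idealsAway {S : Finset ℕ} {α : 𝓞 F} (h0 : α ≠ 0)
    (h : ((∏ p ∈ S, p : ℕ) : 𝓞 F) ∣ α - 1) : Ideal.span {α} ∈ idealsAway F S := by
  refine ⟨by rwa [Ne, Ideal.span_singleton_eq_bot], fun p hp => ?_⟩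
  rw [Ideal.isCoprime_span_singleton_iff]
  have h1 : (p : 𝓞 F) ∣ α - 1 :=
    dvd_trans (Nat.cast_dvd_cast (Finset.dvd_prod_of_mem (fun p => p) hp)) h
  obtain ⟨b, hb⟩ := h1
  exact ⟨1, -b, by linear_combination hb⟩

/-- the transport of an ideal prime to `S` into an ideal prime to `S` and to `N` along a ray -/
lemma exists_transport (S : Finset ℕ) (hS : ∀ p ∈ S, p.Prime) (m : ℕ) (hm : Supp S m) (N : ℕ)
    (hN : N ≠ 0) (hNS : ∀ p ∈ S, Nat.Coprime N p) (I : idealsAway F S) :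
    ∃ (β γ : 𝓞 F) (hβ : Ideal.span {β} ∈ idealsAway F S) (hγ : Ideal.span {γ} ∈ idealsAway F S)
      (I' : idealsAway F S), (m : 𝓞 F) ∣ β - 1 ∧ TotPos β ∧ (m : 𝓞 F) ∣ γ - 1 ∧ TotPos γ ∧
      IsCoprime (I' : Ideal (𝓞 F)) (Ideal.span {(N : 𝓞 F)}) ∧
      (⟨Ideal.span {β}, hβ⟩ : idealsAway F S) * I = (⟨Ideal.span {γ}, hγ⟩ : idealsAway F S) * I' := by
  classical
  set s : ℕ := ∏ p ∈ S, p with hs
  have hs0 : s ≠ 0 := Finset.prod_ne_zero_iff.2 fun p hp => (hS p hp).ne_zero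
  have hsS : Supp S s := by
    refine ⟨hs0, fun p hp hps => ?_⟩
    obtain ⟨q, hq, hpq⟩ := (hp.prime.dvd_finsetProd_iff _).1 hps
    rwa [(Nat.prime_dvd_prime_iff_eq hp (hS q hq)).1 hpq]
  set M : ℕ := m * s with hM
  have hMS : Supp S M := hm.mul hsS
  obtain ⟨k, hk, hray⟩ := exists_pow_ideal_ray (F := F) S M hMS
  obtain ⟨γ, hIk, hγ1, hγ2⟩ := hray I I.2
  obtain ⟨k', rfl⟩ : ∃ k', k = k' + 1 := ⟨k - 1, by omega⟩
  let J : Ideal (𝓞 F) := (I : Ideal (𝓞 F)) ^ k'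
  have hJ : J ∈ idealsAway F S := pow_mem I.2 k'
  have hJ0 : J ≠ ⊥ := hJ.1
  let A : Ideal (𝓞 F) := J * Ideal.span {(N : 𝓞 F)}
  have hN0 : Ideal.span {(N : 𝓞 F)} ≠ ⊥ := by
    rw [Ne, Ideal.span_singleton_eq_bot]; exact_mod_cast hN
  have hA0 : A ≠ 0 := mul_ne_zero hJ0 hN0
  have hAJ : A ≤ J := Ideal.mul_le_left
  obtain ⟨a, ha⟩ := IsDedekindDomain.exists_sup_span_eq hAJ hA0
  have haJ : a ∈ J := by
    rw [← ha]; exact Ideal.mem_sup_right (Ideal.mem_span_singleton_self a)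
  -- chinese remainder
  have hNM : IsCoprime (Ideal.span {(N : 𝓞 F)}) (Ideal.span {(M : 𝓞 F)}) := by
    apply hMS.coprime
    refine ⟨hN0, fun p hp => ?_⟩
    rw [Ideal.isCoprime_span_singleton_iff]
    have h1 : IsCoprime (N : ℤ) (p : ℤ) := Nat.isCoprime_iff_coprime.2 (hNS p hp)
    have h2 := h1.map (Int.castRingHom (𝓞 F))
    simpa using h2
  have hcop : IsCoprime A (Ideal.span {(M : 𝓞 F)}) := (hMS.coprime hJ).mul_left hNM
  obtain ⟨x, hx, y, hy, hxy⟩ := Ideal.isCoprime_iff_exists.1 hcop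
  let β0 : 𝓞 F := a * y + x
  have hβ0a : β0 - a ∈ A := by
    have : β0 - a = (1 - a) * x := by
      simp only [β0]; linear_combination a * hxy
    rw [this]; exact A.mul_mem_left _ hx
  have hβ01 : (M : 𝓞 F) ∣ β0 - 1 := by
    rw [← Ideal.mem_span_singleton]
    have : β0 - 1 = (a - 1) * y := by
      simp only [β0]; linear_combination hxy
    rw [this]; exact Ideal.mul_mem_left _ _ hy
  let q : ℕ := Ideal.absNorm J * N * M
  have hq : q ≠ 0 := by
    refine mul_ne_zero (mul_ne_zero ?_ hN) hMS.1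
    rw [Ne, Ideal.absNorm_eq_zero_iff]; exact hJ0
  have hqA : (q : 𝓞 F) ∈ A := by
    have h1 : ((Ideal.absNorm J : ℕ) : 𝓞 F) ∈ J := Ideal.absNorm_mem J
    have h2 : (q : 𝓞 F) = (((Ideal.absNorm J : ℕ) : 𝓞 F) * (N : 𝓞 F)) * (M : 𝓞 F) := by
      simp only [q]; push_cast; ring
    rw [h2]
    exact A.mul_mem_right _ (Ideal.mul_mem_mul h1 (Ideal.mem_span_singleton_self _))
  obtain ⟨c, hcpos, hc0⟩ := exists_add_mul_totPos β0 q hq
  set β : 𝓞 F := β0 + (c : 𝓞 F) * (q : 𝓞 F) with hβ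
  have hβa : β - a ∈ A := by
    have : β - a = (β0 - a) + (c : 𝓞 F) * (q : 𝓞 F) := by rw [hβ]; ring
    rw [this]; exact A.add_mem hβ0a (A.mul_mem_left _ hqA)
  have hβ1 : (M : 𝓞 F) ∣ β - 1 := by
    have : β - 1 = (β0 - 1) + (M : 𝓞 F) * ((c : 𝓞 F) * ((Ideal.absNorm J : ℕ) : 𝓞 F) * (N : 𝓞 F)) := by
      rw [hβ]; simp only [q]; push_cast; ring
    rw [this]; exact dvd_add hβ01 (dvd_mul_right _ _)
  have hβJ : β ∈ J := by
    have : β = (β - a) + a := by ring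
    rw [this]; exact J.add_mem (hAJ hβa) haJ
  have hsup : A ⊔ Ideal.span {β} = J := by
    apply le_antisymm
    · refine sup_le hAJ ?_
      rw [Ideal.span_le, Set.singleton_subset_iff]; exact hβJ
    · conv_lhs => rw [← ha]
      refine sup_le le_sup_left ?_
      rw [Ideal.span_le, Set.singleton_subset_iff]
      have : a = β - (β - a) := by ring
      rw [this]
      exact Ideal.sub_mem _ (Ideal.mem_sup_right (Ideal.mem_span_singleton_self β))
        (Ideal.mem_sup_left hβa)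
  obtain ⟨I', hI'⟩ : J ∣ Ideal.span {β} := by
    rw [Ideal.dvd_span_singleton]; exact hβJ
  have hMm : ((m : ℕ) : 𝓞 F) ∣ (M : 𝓞 F) := ⟨(s : 𝓞 F), by rw [hM]; push_cast; ring⟩
  have hMs : ((s : ℕ) : 𝓞 F) ∣ (M : 𝓞 F) := ⟨(m : 𝓞 F), by rw [hM]; push_cast; ring⟩
  have hβmem : Ideal.span {β} ∈ idealsAway F S := span_mem_idealsAway hc0 (dvd_trans hMs hβ1)
  have hγmem : Ideal.span {γ} ∈ idealsAway F S := by
    rw [← hIk]; exact pow_mem I.2 _
  have hI'mem : I' ∈ idealsAway F S := by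
    refine ⟨?_, fun p hp => ?_⟩
    · rintro rfl
      apply hβmem.1
      rw [hI']; exact Ideal.mul_bot J
    · have h1 := hβmem.2 p hp
      rw [hI'] at h1
      exact h1.of_mul_left_right
  have hI'N : IsCoprime I' (Ideal.span {(N : 𝓞 F)}) := by
    have h1 : J * (Ideal.span {(N : 𝓞 F)} ⊔ I') = J * ⊤ := by
      rw [Ideal.mul_sup, ← hI', Ideal.mul_top]; exact hsup
    have h2 := mul_left_cancel₀ hJ0 h1
    rw [Ideal.isCoprime_iff_sup_eq, sup_comm]; exact h2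
  refine ⟨β, γ, hβmem, hγmem, ⟨I', hI'mem⟩, dvd_trans hMm hβ1, hcpos, dvd_trans hMm hγ1, hγ2,
    hI'N, ?_⟩
  apply Subtype.ext
  change Ideal.span {β} * (I : Ideal (𝓞 F)) = Ideal.span {γ} * I'
  rw [← hIk, hI', pow_succ]
  simp only [J]
  ring

/-- two algebraic Hecke characters which agree on all ideals prime to `N` are equal -/
theorem ext_of_coprime {S : Finset ℕ} (hS : ∀ p ∈ S, p.Prime) {χ χ' : idealsAway F S →* ℂ}
    {m : ℕ} (hm : Supp S m) {e e' : (F →+* ℂ) → ℕ} (hχ : HasType m e χ)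
    (hχ' : HasType m e' χ') (N : ℕ) (hN : N ≠ 0) (hNS : ∀ p ∈ S, Nat.Coprime N p)
    (h : ∀ I : idealsAway F S, IsCoprime (I : Ideal (𝓞 F)) (Ideal.span {(N : 𝓞 F)}) →
      χ I = χ' I) : e = e' ∧ χ = χ' := by
  classical
  set s : ℕ := ∏ p ∈ S, p with hs
  have hs0 : s ≠ 0 := Finset.prod_ne_zero_iff.2 fun p hp => (hS p hp).ne_zero
  have hee : e = e' := by
    apply exponents_eq (m := m * N * s) (mul_ne_zero (mul_ne_zero hm.1 hN) hs0)
    intro α hα0 hα hαpos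
    have h1 : (s : 𝓞 F) ∣ α - 1 := dvd_trans ⟨((m * N : ℕ) : 𝓞 F), by push_cast; ring⟩ hα
    have h2 : (N : 𝓞 F) ∣ α - 1 := dvd_trans ⟨((m * s : ℕ) : 𝓞 F), by push_cast; ring⟩ hα
    have h3 : (m : 𝓞 F) ∣ α - 1 := dvd_trans ⟨((N * s : ℕ) : 𝓞 F), by push_cast; ring⟩ hα
    have hmem := span_mem_idealsAway hα0 h1
    rw [← hχ α hmem h3 hαpos, ← hχ' α hmem h3 hαpos]
    apply h
    rw [Ideal.isCoprime_span_singleton_iff]
    obtain ⟨b, hb⟩ := h2
    exact ⟨1, -b, by linear_combination hb⟩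
  subst hee
  refine ⟨rfl, ?_⟩
  ext I
  obtain ⟨β, γ, hβ, hγ, I', hβ1, hβ2, hγ1, hγ2, hI'N, hI⟩ :=
    exists_transport S hS m hm N hN hNS I
  have h1 := congrArg χ hI
  have h2 := congrArg χ' hI
  rw [map_mul, map_mul, hχ β hβ hβ1 hβ2, hχ γ hγ hγ1 hγ2, h I' hI'N] at h1
  rw [map_mul, map_mul, hχ' β hβ hβ1 hβ2, hχ' γ hγ hγ1 hγ2, ← h1] at h2
  have hβ0 : β ≠ 0 := by
    rintro rfl
    apply hβ.1
    simp
  exact (mul_left_cancel₀ (nrm_ne_zero e hβ0) h2).symm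

end AbMot
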