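import Pool.Agent.Helper40.AbMot.FinHecke
import Pool.Agent.Helper40.AbMot.JZ

/-!
# Separation of finitely many characters, and the localizations of `ℤ`
-/

open NumberField Polynomial

namespace AbMot

/-- finitely many distinct functions are separated by an integral linear combination of values -/
lemma exists_sep {ι : Type*} (X : Finset (ι → ℂ)) :
    ∃ c : ι →₀ ℤ, Set.InjOn (fun χ : ι → ℂ => c.sum fun i z => (z : ℂ) * χ i) X := by
  classical
  let W : (ι → ℂ) × (ι → ℂ) → Subspace ℚ (ι →₀ ℚ) := fun p =>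
    LinearMap.ker (Finsupp.lsum ℚ fun i => (LinearMap.toSpanSingleton ℚ ℂ (p.1 i - p.2 i)))
  let s : Finset (Subspace ℚ (ι →₀ ℚ)) := (X.offDiag).image W
  have hs : ⊤ ∉ s := by
    intro h
    obtain ⟨p, hp, hW⟩ := Finset.mem_image.1 h
    have hne := (Finset.mem_offDiag.1 hp).2.2
    apply hne
    funext i
    have h1 : (Finsupp.single i (1 : ℚ)) ∈ W p := by rw [hW]; trivial
    rw [LinearMap.mem_ker] at h1
    simp at h1
    exact sub_eq_zero.1 h1
  obtain ⟨c, hc⟩ : ∃ c : ι →₀ ℚ, c ∉ ⋃ p ∈ s, (p : Set (ι →₀ ℚ)) := by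
    by_contra hcon
    push Not at hcon
    exact Subspace.biUnion_ne_univ_of_top_notMem hs (Set.eq_univ_of_forall hcon)
  -- clear denominators
  let D : ℕ := ∏ i ∈ c.support, (c i).den
  have hD : D ≠ 0 := Finset.prod_ne_zero_iff.2 fun i _ => (c i).den_nz
  have hint : ∀ i, ∃ z : ℤ, (z : ℚ) = D * c i := by
    intro i
    by_cases hi : i ∈ c.support
    · obtain ⟨b, hb⟩ : (c i).den ∣ D := Finset.dvd_prod_of_mem (fun i => (c i).den) hi
      refine ⟨b * (c i).num, ?_⟩
      rw [hb]
      push_cast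
      have h2 : ((c i).den : ℚ) * c i = (c i).num := Rat.den_mul_eq_num _
      linear_combination (-(b : ℚ)) * h2
    · rw [Finsupp.notMem_support_iff] at hi
      exact ⟨0, by rw [hi]; simp⟩
  choose z hz using hint
  have hz0 : ∀ i, z i = 0 → c i = 0 := by
    intro i h
    have h1 := hz i
    rw [h, Int.cast_zero] at h1
    have h2 : (D : ℚ) ≠ 0 := by exact_mod_cast hD
    exact (mul_eq_zero.1 h1.symm).resolve_left h2
  let c' : ι →₀ ℤ := Finsupp.onFinset c.support z (by
    intro i hi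
    rw [Finsupp.mem_support_iff]
    intro h
    apply hi
    have h1 := hz i
    rw [h, mul_zero] at h1
    exact_mod_cast h1)
  refine ⟨c', ?_⟩
  intro χ hχ χ' hχ' h
  by_contra hne
  apply hc
  refine Set.mem_biUnion (x := W (χ, χ')) ?_ ?_
  · exact Finset.mem_image_of_mem W (Finset.mem_offDiag.2 ⟨hχ, hχ', hne⟩)
  · rw [SetLike.mem_coe, LinearMap.mem_ker]
    simp only at h
    have key : ∀ f : ι → ℂ, (c'.sum fun i z => (z : ℂ) * f i) =
        (D : ℂ) * ∑ i ∈ c.support, (c i : ℂ) * f i := by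
      intro f
      rw [Finsupp.onFinset_sum _ (fun i => by simp), Finset.mul_sum]
      refine Finset.sum_congr rfl fun i _ => ?_
      have h1 : ((z i : ℤ) : ℂ) = (D : ℂ) * ((c i : ℚ) : ℂ) := by
        have := congrArg (fun q : ℚ => (q : ℂ)) (hz i)
        simpa using this
      rw [h1]; ring
    rw [key, key] at h
    have hD' : (D : ℂ) ≠ 0 := by exact_mod_cast hD
    have h2 := mul_left_cancel₀ hD' h
    rw [Finsupp.lsum_apply, Finsupp.sum]
    simp only [LinearMap.toSpanSingleton_apply]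
    have h3 : ∀ i ∈ c.support, (c i) • (χ i - χ' i) = (c i : ℂ) * χ i - (c i : ℂ) * χ' i := by
      intro i _
      rw [Rat.smul_def]; ring
    rw [Finset.sum_congr rfl h3, Finset.sum_sub_distrib, h2, sub_self]

/-- the subring `ℤ_(l)` of `ℚ` -/
def locRing (l : ℕ) (hl : l.Prime) : Subring ℚ where
  carrier := {q | ¬ l ∣ q.den}
  mul_mem' := by
    intro a b ha hb h
    rcases (hl.dvd_mul).1 (h.trans (Rat.mul_den_dvd a b)) with h1 | h1
    · exact ha h1
    · exact hb h1
  one_mem' := by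
    intro h
    exact hl.one_lt.ne' (Nat.dvd_one.1 (by simpa using h))
  add_mem' := by
    intro a b ha hb h
    rcases (hl.dvd_mul).1 (h.trans (Rat.add_den_dvd a b)) with h1 | h1
    · exact ha h1
    · exact hb h1
  zero_mem' := by
    intro h
    exact hl.one_lt.ne' (Nat.dvd_one.1 (by simpa using h))
  neg_mem' := by
    intro a ha h
    apply ha
    simpa using h

/-- matrices over `ℤ_(l)` -/
def locMat (l : ℕ) (hl : l.Prime) (n : ℕ) : Subring (Matrix (Fin n) (Fin n) ℚ) :=
  RingHom.range ((locRing l hl).subtype.mapMatrix (m := Fin n))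

lemma mem_locMat {l : ℕ} (hl : l.Prime) {n : ℕ} {A : Matrix (Fin n) (Fin n) ℚ} :
    A ∈ locMat l hl n ↔ ∀ i j, ¬ l ∣ (A i j).den := by
  constructor
  · rintro ⟨B, rfl⟩ i j
    exact (B i j).2
  · intro h
    refine ⟨fun i j => ⟨A i j, h i j⟩, ?_⟩
    ext i j
    rfl

lemma aeval_mem_locMat {l : ℕ} (hl : l.Prime) {n : ℕ} {A : Matrix (Fin n) (Fin n) ℚ}
    (hA : A ∈ locMat l hl n) (g : ℤ[X]) : aeval A g ∈ locMat l hl n := by
  induction g using Polynomial.induction_on' with
  | add p q hp hq => rw [map_add]; exact add_mem hp hq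
  | monomial k a =>
    rw [aeval_monomial]
    refine mul_mem ?_ (pow_mem hA k)
    have : (algebraMap ℤ (Matrix (Fin n) (Fin n) ℚ)) a = a • (1 : Matrix (Fin n) (Fin n) ℚ) :=
      Algebra.algebraMap_eq_smul_one a
    rw [this]
    exact zsmul_mem (one_mem _) a

/-- a rational matrix which is integral at every prime is integral -/
lemma exists_int_of_forall_loc {n : ℕ} {A : Matrix (Fin n) (Fin n) ℚ}
    (h : ∀ (l : ℕ) (hl : l.Prime), A ∈ locMat l hl n) :
    ∃ B : Matrix (Fin n) (Fin n) ℤ, B.map (Int.castRingHom ℚ) = A := by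
  have h1 : ∀ i j, (A i j).den = 1 := by
    intro i j
    by_contra hne
    obtain ⟨l, hl, hdvd⟩ := Nat.exists_prime_and_dvd hne
    exact (mem_locMat hl).1 (h l hl) i j hdvd
  refine ⟨fun i j => (A i j).num, ?_⟩
  ext i j
  simp only [Int.coe_castRingHom]
  exact Rat.coe_int_num_of_den_eq_one (h1 i j)

end AbMot
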