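import Pool.Agent.Helper40.AbMot.Good

/-!
# Finitely many simple rational types
-/

open Polynomial Module Matrix

namespace AbMot

/-- simple rational tuples -/
def SimpleQ {ι n : Type} [Fintype n] (A : ι → Matrix n n ℚ) : Prop :=
  ∀ W : Submodule ℚ (n → ℚ), (∀ i, ∀ w ∈ W, A i *ᵥ w ∈ W) → W = ⊥ ∨ W = ⊤

/-- isomorphism of rational tuples -/
def IsoQ {ι m n : Type} [Fintype m] [Fintype n] (A : ι → Matrix m m ℚ) (B : ι → Matrix n n ℚ) :
    Prop := ∃ e : (m → ℚ) ≃ₗ[ℚ] (n → ℚ), ∀ i x, e (A i *ᵥ x) = B i *ᵥ (e x)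

/-- a finite-dimensional space with operators has finitely many simple quotients of
dimension `n` -/
lemma finite_quotients {ι : Type} {n : ℕ} (hn : 0 < n) (r : ℕ) :
    ∀ (I : Type) [AddCommGroup I] [Module ℚ I] [FiniteDimensional ℚ I] (_ : finrank ℚ I = r)
      (T : ι → I →ₗ[ℚ] I), ∃ R : Set (ι → Matrix (Fin n) (Fin n) ℚ), R.Finite ∧
        (∀ B ∈ R, SimpleQ B) ∧
        ∀ A, SimpleQ A → (∃ φ : I →ₗ[ℚ] (Fin n → ℚ), Function.Surjective φ ∧
          ∀ i x, φ (T i x) = A i *ᵥ φ x) → ∃ B ∈ R, IsoQ A B := by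
  classical
  induction r using Nat.strong_induction_on with
  | _ r ih =>
  intro I _ _ _ hr T
  by_cases hex : ∃ A0 : ι → Matrix (Fin n) (Fin n) ℚ, SimpleQ A0 ∧
      ∃ φ : I →ₗ[ℚ] (Fin n → ℚ), Function.Surjective φ ∧ ∀ i x, φ (T i x) = A0 i *ᵥ φ x
  · obtain ⟨A0, hA0, φ0, hφ0s, hφ0⟩ := hex
    let N : Submodule ℚ I := LinearMap.ker φ0
    have hNst : ∀ i, ∀ x ∈ N, T i x ∈ N := by
      intro i x hx
      rw [LinearMap.mem_ker] at hx ⊢
      rw [hφ0, hx, Matrix.mulVec_zero]
    have hNlt : finrank ℚ N < r := by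
      have h1 := LinearMap.finrank_range_add_finrank_ker φ0
      have h2 : finrank ℚ (LinearMap.range φ0) = n := by
        rw [LinearMap.range_eq_top.2 hφ0s]
        simp
      have h3 : finrank ℚ (LinearMap.ker φ0) = finrank ℚ N := rfl
      omega
    obtain ⟨R, hR, hRs, hRA⟩ := ih (finrank ℚ N) hNlt N rfl
      (fun i => (T i).restrict (hNst i))
    refine ⟨insert A0 R, hR.insert A0, ?_, ?_⟩
    · intro B hB
      rcases hB with rfl | hB
      · exact hA0
      · exact hRs B hB
    · rintro A hA ⟨φ, hφs, hφ⟩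
      by_cases hN : ∀ x ∈ N, φ x = 0
      · -- φ factors through φ0
        refine ⟨A0, Set.mem_insert A0 R, ?_⟩
        obtain ⟨σ, hσ⟩ := φ0.exists_rightInverse_of_surjective (LinearMap.range_eq_top.2 hφ0s)
        have hσ' : ∀ y, φ0 (σ y) = y := fun y => LinearMap.congr_fun hσ y
        -- the map ψ : A0 → A
        let ψ : (Fin n → ℚ) →ₗ[ℚ] (Fin n → ℚ) := φ ∘ₗ σ
        have hψ0 : ∀ x, ψ (φ0 x) = φ x := by
          intro x
          have h1 : σ (φ0 x) - x ∈ N := by
            rw [LinearMap.mem_ker, map_sub, hσ', sub_self]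
          have h2 := hN _ h1
          rw [map_sub] at h2
          exact sub_eq_zero.1 h2
        have hψs : Function.Surjective ψ := by
          intro y
          obtain ⟨x, hx⟩ := hφs y
          exact ⟨φ0 x, by rw [hψ0, hx]⟩
        have hψi : Function.Injective ψ := LinearMap.injective_iff_surjective.2 hψs
        let e : (Fin n → ℚ) ≃ₗ[ℚ] (Fin n → ℚ) := LinearEquiv.ofBijective ψ ⟨hψi, hψs⟩
        have he : ∀ i x, e (A0 i *ᵥ x) = A i *ᵥ e x := by
          intro i x
          obtain ⟨y, rfl⟩ := hφ0s x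
          rw [← hφ0]
          change ψ (φ0 (T i y)) = A i *ᵥ ψ (φ0 y)
          rw [hψ0, hψ0, hφ]
        refine ⟨e.symm, fun i x => ?_⟩
        apply e.injective
        rw [he]; simp
      · -- φ is surjective on N
        have hsurj : Function.Surjective (φ.domRestrict N) := by
          have h1 : LinearMap.range (φ.domRestrict N) = ⊥ ∨
              LinearMap.range (φ.domRestrict N) = ⊤ := by
            apply hA
            rintro i _ ⟨x, rfl⟩
            exact ⟨⟨T i x, hNst i x x.2⟩, by simp [hφ]⟩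
          rcases h1 with h1 | h1
          · exfalso
            apply hN
            intro x hx
            have h2 : φ.domRestrict N ⟨x, hx⟩ ∈ LinearMap.range (φ.domRestrict N) := ⟨_, rfl⟩
            rw [h1, Submodule.mem_bot] at h2
            exact h2
          · exact LinearMap.range_eq_top.1 h1
        obtain ⟨B, hB, hAB⟩ := hRA A hA ⟨φ.domRestrict N, hsurj, fun i x => by
          simp [LinearMap.restrict_apply, hφ]⟩
        exact ⟨B, Set.mem_insert_of_mem A0 hB, hAB⟩
  · refine ⟨∅, Set.finite_empty, fun B hB => absurd hB (Set.notMem_empty B), fun A hA hφ => ?_⟩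
    exact absurd ⟨A, hA, hφ⟩ hex

variable {G : Type} [Group G]

/-- good tuples have finitely many simple rational types -/
lemma Good.finite_types [Finite G] {f : ℤ[X]} (hf : Squarefree (f.map (Int.castRingHom ℚ)))
    (h : G → ℚ[X]) {n : ℕ} (hn : 0 < n) :
    ∃ R : Set (Option G → Matrix (Fin n) (Fin n) ℚ), R.Finite ∧ (∀ B ∈ R, SimpleQ B) ∧
      ∀ A : Option G → Matrix (Fin n) (Fin n) ℤ, Good f h A → SimpleT A →
        ∃ B ∈ R, IsoQ (fun i => rat (A i)) B := by
  classical
  have := Fintype.ofFinite G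
  set fq := f.map (Int.castRingHom ℚ) with hfq
  have hfq0 : fq ≠ 0 := hf.ne_zero
  -- the universal modules
  have hU : ∀ p : ℚ[X], p ∈ UniqueFactorizationMonoid.normalizedFactors fq →
      ∃ R : Set (Option G → Matrix (Fin n) (Fin n) ℚ), R.Finite ∧ (∀ B ∈ R, SimpleQ B) ∧
        ∀ A : Option G → Matrix (Fin n) (Fin n) ℤ, Good f h A → SimpleT A →
          (∃ w : Fin n → ℚ, w ≠ 0 ∧ aeval (rat (A none)) p *ᵥ w = 0) →
          ∃ B ∈ R, IsoQ (fun i => rat (A i)) B := by
    intro p hp
    have hirr := UniqueFactorizationMonoid.irreducible_of_normalized_factor p hp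
    have hpm : p.Monic := by
      rw [← UniqueFactorizationMonoid.normalize_normalized_factor p hp]
      exact Polynomial.monic_normalize hirr.ne_zero
    have hfd : FiniteDimensional ℚ (AdjoinRoot p) := (AdjoinRoot.powerBasis hirr.ne_zero).finite
    let I := G → AdjoinRoot p
    let T : Option G → I →ₗ[ℚ] I := fun i => match i with
      | none => LinearMap.pi fun g =>
          (LinearMap.mulLeft ℚ (AdjoinRoot.mk p (h g))) ∘ₗ LinearMap.proj g
      | some k => LinearMap.pi fun g => LinearMap.proj (k⁻¹ * g)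
    obtain ⟨R, hR, hRs, hRA⟩ := finite_quotients (ι := Option G) hn (finrank ℚ I) I rfl T
    refine ⟨R, hR, hRs, fun A hA hsimple ⟨w, hw0, hpw⟩ => hRA _ hsimple ?_⟩
    set Aq : Matrix (Fin n) (Fin n) ℚ := rat (A none) with hAq
    let ev : ℚ[X] →ₗ[ℚ] (Fin n → ℚ) :=
      { toFun := fun g => (aeval Aq g) *ᵥ w
        map_add' := fun g h => by rw [map_add, Matrix.add_mulVec]
        map_smul' := fun r g => by rw [map_smul, Matrix.smul_mulVec]; rfl }
    have hev_mod : ∀ g : ℚ[X], ev (g %ₘ p) = ev g := by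
      intro g
      have h1 : g = g %ₘ p + (g /ₘ p) * p := by
        rw [mul_comm]; exact (Polynomial.modByMonic_add_div g p).symm
      have h2 : ev ((g /ₘ p) * p) = 0 := by
        change (aeval Aq ((g /ₘ p) * p)) *ᵥ w = 0
        rw [map_mul, ← Matrix.mulVec_mulVec, hpw, Matrix.mulVec_zero]
      conv_rhs => rw [h1, map_add, h2, add_zero]
    let κ : AdjoinRoot p →ₗ[ℚ] (Fin n → ℚ) := ev ∘ₗ (AdjoinRoot.modByMonicHom hpm)
    have hκmk : ∀ g : ℚ[X], κ (AdjoinRoot.mk p g) = (aeval Aq g) *ᵥ w := by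
      intro g
      change ev (AdjoinRoot.modByMonicHom hpm (AdjoinRoot.mk p g)) = ev g
      rw [AdjoinRoot.modByMonicHom_mk, hev_mod]
    let φ : I →ₗ[ℚ] (Fin n → ℚ) := ∑ g : G, (Matrix.toLin' (rat (A (some g)))) ∘ₗ κ ∘ₗ
      (LinearMap.proj g)
    have hφ : ∀ v : I, φ v = ∑ g : G, rat (A (some g)) *ᵥ κ (v g) := by
      intro v
      simp only [φ, LinearMap.sum_apply, LinearMap.comp_apply, Matrix.toLin'_apply]
      rfl
    have hAone : rat (A (some 1)) = 1 := by rw [hA.one, rat_one]
    have hAmul : ∀ g g', rat (A (some (g * g'))) = rat (A (some g)) * rat (A (some g')) := by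
      intro g g'
      rw [← rat_mul, ← hA.mul]
    have hequiv : ∀ i x, φ (T i x) = rat (A i) *ᵥ φ x := by
      intro i x
      rw [hφ, hφ, Matrix.mulVec_sum]
      cases i with
      | none =>
        refine Finset.sum_congr rfl fun g _ => ?_
        change rat (A (some g)) *ᵥ κ (AdjoinRoot.mk p (h g) * x g) = _
        obtain ⟨q, hq⟩ := AdjoinRoot.mk_surjective (x g)
        rw [← hq, ← map_mul, hκmk, hκmk, Matrix.mulVec_mulVec, Matrix.mulVec_mulVec,
          Matrix.mulVec_mulVec, map_mul, ← Matrix.mul_assoc, ← hA.rel g, Matrix.mul_assoc]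
      | some k =>
        rw [← Equiv.sum_comp (Equiv.mulLeft k)]
        refine Finset.sum_congr rfl fun g _ => ?_
        change rat (A (some (k * g))) *ᵥ κ (x (k⁻¹ * (k * g))) = _
        rw [inv_mul_cancel_left, hAmul, Matrix.mulVec_mulVec]
    have hsurj : Function.Surjective φ := by
      have h1 : LinearMap.range φ = ⊥ ∨ LinearMap.range φ = ⊤ := by
        apply hsimple
        rintro i _ ⟨x, rfl⟩
        exact ⟨T i x, hequiv i x⟩
      rcases h1 with h1 | h1
      · exfalso
        have h2 : φ (Pi.single 1 (AdjoinRoot.mk p 1)) = w := by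
          rw [hφ, Finset.sum_eq_single 1]
          · rw [Pi.single_eq_same, hAone, Matrix.one_mulVec, hκmk, map_one, Matrix.one_mulVec]
          · intro g _ hg
            rw [Pi.single_eq_of_ne hg, map_zero, Matrix.mulVec_zero]
          · intro hg; exact absurd (Finset.mem_univ _) hg
        have h3 : w ∈ LinearMap.range φ := ⟨_, h2⟩
        rw [h1, Submodule.mem_bot] at h3
        exact hw0 h3
      · exact LinearMap.range_eq_top.1 h1
    exact ⟨φ, hsurj, hequiv⟩
  choose! R hR hRs hRA using hU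
  refine ⟨⋃ p ∈ ((UniqueFactorizationMonoid.normalizedFactors fq).toFinset : Set ℚ[X]), R p,
    ?_, ?_, ?_⟩
  · refine (Finset.finite_toSet _).biUnion fun p hp => ?_
    rw [Finset.mem_coe, Multiset.mem_toFinset] at hp
    exact hR p hp
  · intro B hB
    simp only [Set.mem_iUnion] at hB
    obtain ⟨p, hp, hB⟩ := hB
    rw [Finset.mem_coe, Multiset.mem_toFinset] at hp
    exact hRs p hp B hB
  · intro A hA hsimple
    set Aq : Matrix (Fin n) (Fin n) ℚ := rat (A none) with hAq
    have hfAq : aeval Aq fq = 0 := by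
      have h1 := aeval_mapMat (Int.castRingHom ℚ) (A none) f
      rw [hA.kill, map_zero] at h1
      exact h1.symm
    have hex : ∃ p ∈ UniqueFactorizationMonoid.normalizedFactors fq, ∃ v : Fin n → ℚ, v ≠ 0 ∧
        (aeval Aq p) *ᵥ v = 0 := by
      by_contra hcon
      push Not at hcon
      have hprod : ∀ s : Multiset ℚ[X],
          (∀ p ∈ s, p ∈ UniqueFactorizationMonoid.normalizedFactors fq) →
          ∀ v : Fin n → ℚ, (aeval Aq s.prod) *ᵥ v = 0 → v = 0 := by
        intro s
        induction s using Multiset.induction_on with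
        | empty => intro _ v hv; simpa using hv
        | cons p s ihs =>
          intro hs v hv
          rw [Multiset.prod_cons, mul_comm, map_mul, ← Matrix.mulVec_mulVec] at hv
          have h1 := ihs (fun q hq => hs q (Multiset.mem_cons_of_mem hq)) _ hv
          by_contra hv0
          exact hcon p (hs p (Multiset.mem_cons_self p s)) v hv0 h1
      obtain ⟨u, hu⟩ := UniqueFactorizationMonoid.prod_normalizedFactors hfq0
      have h1 : ∀ v : Fin n → ℚ, v = 0 := by
        intro v
        apply hprod _ (fun p hp => hp) v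
        have h2 : (UniqueFactorizationMonoid.normalizedFactors fq).prod = fq * (↑u⁻¹ : ℚ[X]) :=
          (Units.eq_mul_inv_iff_mul_eq u).2 hu
        rw [h2, map_mul, hfAq, Matrix.zero_mul, Matrix.zero_mulVec]
      have h3 := h1 (fun _ => 1)
      have h4 := congrFun h3 ⟨0, hn⟩
      simp at h4
    obtain ⟨p, hp, w, hw0, hpw⟩ := hex
    obtain ⟨B, hB, hAB⟩ := hRA p hp A hA hsimple ⟨w, hw0, hpw⟩
    refine ⟨B, Set.mem_biUnion (x := p) ?_ hB, hAB⟩
    rw [Finset.mem_coe, Multiset.mem_toFinset]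
    exact hp

end AbMot
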