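import Pool.Agent.Helper40.AbMot.Lat

/-!
# The theorem of Jordan and Zassenhaus for crossed products
-/

open Polynomial Module Matrix

namespace AbMot

variable {G : Type} [Group G]

/-- a tuple consisting of an operator `A` killed by `f` and operators `t_g` with `t_1 = N`,
`t_g t_g' = ε_(g,g')(A) t_(gg')` and `A t_g = t_g h_g(A)` -/
structure TGood (f : ℤ[X]) (N : ℤ) (h : G → ℚ[X]) (ε ε' : G → G → ℚ[X]) {m : Type} [Fintype m]
    [DecidableEq m] (A : Option G → Matrix m m ℤ) : Prop where
  kill : aeval (A none) f = 0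
  one : rat (A (some 1)) = (N : ℚ) • (1 : Matrix m m ℚ)
  mul : ∀ g g' : G, rat (A (some g)) * rat (A (some g')) =
    aeval (rat (A none)) (ε g g') * rat (A (some (g * g')))
  inv : ∀ g g' : G, aeval (rat (A none)) (ε g g') * aeval (rat (A none)) (ε' g g') = 1
  rel : ∀ g : G, rat (A none) * rat (A (some g)) = rat (A (some g)) * aeval (rat (A none)) (h g)

lemma TGood.of_iso {f : ℤ[X]} {N : ℤ} {h : G → ℚ[X]} {ε ε' : G → G → ℚ[X]} {m n : Type}
    [Fintype m] [Fintype n] [DecidableEq m] [DecidableEq n] {A : Option G → Matrix m m ℤ}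
    {B : Option G → Matrix n n ℤ} (hA : TGood f N h ε ε' A) (hAB : IsoT A B) :
    TGood f N h ε ε' B := by
  obtain ⟨P, Q, hPQ, hQP, hB⟩ := hAB.exists_conj
  have hQP' : rat Q * rat P = 1 := by rw [← rat_mul, hQP, rat_one]
  have hPQ' : rat P * rat Q = 1 := by rw [← rat_mul, hPQ, rat_one]
  have hr : ∀ i, rat (B i) = rat P * rat (A i) * rat Q := by
    intro i
    rw [hB, rat_mul, rat_mul]
  have hc : ∀ X Y : Matrix m m ℚ, (rat P * X * rat Q) * (rat P * Y * rat Q) =
      rat P * (X * Y) * rat Q := by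
    intro X Y
    calc (rat P * X * rat Q) * (rat P * Y * rat Q)
        = rat P * X * (rat Q * rat P) * Y * rat Q := by simp only [Matrix.mul_assoc]
      _ = _ := by rw [hQP', Matrix.mul_one]; simp only [Matrix.mul_assoc]
  have ha : ∀ p : ℚ[X], aeval (rat (B none)) p = rat P * aeval (rat (A none)) p * rat Q := by
    intro p
    rw [hr, aeval_conj hPQ' hQP']
  constructor
  · rw [hB, aeval_conj hPQ hQP, hA.kill, Matrix.mul_zero, Matrix.zero_mul]
  · rw [hr, hA.one, Matrix.mul_smul, Matrix.mul_one, Matrix.smul_mul, hPQ']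
  · intro g g'
    rw [ha, hr, hr, hr, hc, hc, hA.mul]
  · intro g g'
    rw [ha, ha, hc, hA.inv, Matrix.mul_one, hPQ']
  · intro g
    rw [ha, hr, hr, hc, hc, hA.rel]

/-- the diagonal blocks of a good tuple are good -/
lemma TGood.blocks {f : ℤ[X]} {N : ℤ} {h : G → ℚ[X]} {ε ε' : G → G → ℚ[X]} {d e : Type}
    [Fintype d] [Fintype e] [DecidableEq d] [DecidableEq e] {A1 : Option G → Matrix d d ℤ}
    {A2 : Option G → Matrix e e ℤ} {B : Option G → Matrix d e ℤ}
    (hA : TGood f N h ε ε' (blockT A1 A2 B)) : TGood f N h ε ε' A1 ∧ TGood f N h ε ε' A2 := by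
  have hk := hA.kill
  obtain ⟨X, hX⟩ := aeval_blocksR (A1 none) (A2 none) (B none) f
  have h1 := hA.one
  have hm := hA.mul
  have hi := hA.inv
  have hr := hA.rel
  simp only [blockT] at hk h1 hm hr hi
  rw [hX] at hk
  have hrel : ∀ g, rat (A1 none) * rat (A1 (some g)) = rat (A1 (some g)) *
      aeval (rat (A1 none)) (h g) ∧ rat (A2 none) * rat (A2 (some g)) = rat (A2 (some g)) *
      aeval (rat (A2 none)) (h g) := by
    intro g
    have h2 := hr g
    obtain ⟨Y, hY⟩ := aeval_blocksR (rat (A1 none)) (rat (A2 none)) (rat (B none)) (h g)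
    rw [rat_blocks, rat_blocks, hY, fromBlocks_multiply, fromBlocks_multiply, fromBlocks_inj] at h2
    obtain ⟨h3, _, _, h4⟩ := h2
    simp only [Matrix.mul_zero, Matrix.zero_mul, add_zero, zero_add] at h3 h4
    exact ⟨h3, h4⟩
  have hmul : ∀ g g', rat (A1 (some g)) * rat (A1 (some g')) =
      aeval (rat (A1 none)) (ε g g') * rat (A1 (some (g * g'))) ∧
      rat (A2 (some g)) * rat (A2 (some g')) =
      aeval (rat (A2 none)) (ε g g') * rat (A2 (some (g * g'))) := by
    intro g g'
    have h2 := hm g g'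
    obtain ⟨Y, hY⟩ := aeval_blocksR (rat (A1 none)) (rat (A2 none)) (rat (B none)) (ε g g')
    rw [rat_blocks, rat_blocks, rat_blocks, rat_blocks, hY, fromBlocks_multiply,
      fromBlocks_multiply, fromBlocks_inj] at h2
    obtain ⟨h3, _, _, h4⟩ := h2
    simp only [Matrix.mul_zero, Matrix.zero_mul, add_zero, zero_add] at h3 h4
    exact ⟨h3, h4⟩
  have hinv : ∀ g g', aeval (rat (A1 none)) (ε g g') * aeval (rat (A1 none)) (ε' g g') = 1 ∧
      aeval (rat (A2 none)) (ε g g') * aeval (rat (A2 none)) (ε' g g') = 1 := by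
    intro g g'
    have h2 := hi g g'
    obtain ⟨Y, hY⟩ := aeval_blocksR (rat (A1 none)) (rat (A2 none)) (rat (B none)) (ε g g')
    obtain ⟨Z, hZ⟩ := aeval_blocksR (rat (A1 none)) (rat (A2 none)) (rat (B none)) (ε' g g')
    rw [rat_blocks, hY, hZ, fromBlocks_multiply, ← fromBlocks_one, fromBlocks_inj] at h2
    obtain ⟨h3, _, _, h4⟩ := h2
    simp only [Matrix.mul_zero, Matrix.zero_mul, add_zero, zero_add] at h3 h4
    exact ⟨h3, h4⟩
  have hone : rat (A1 (some 1)) = (N : ℚ) • (1 : Matrix d d ℚ) ∧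
      rat (A2 (some 1)) = (N : ℚ) • (1 : Matrix e e ℚ) := by
    rw [rat_blocks, ← fromBlocks_one, fromBlocks_smul, fromBlocks_inj] at h1
    exact ⟨h1.1, h1.2.2.2⟩
  rw [← fromBlocks_zero, fromBlocks_inj] at hk
  exact ⟨⟨hk.1, hone.1, fun g g' => (hmul g g').1, fun g g' => (hinv g g').1,
      fun g => (hrel g).1⟩,
    ⟨hk.2.2.2, hone.2, fun g g' => (hmul g g').2, fun g g' => (hinv g g').2,
      fun g => (hrel g).2⟩⟩

/-- the operators `t_g` are invertible -/
lemma TGood.exists_inv {f : ℤ[X]} {N : ℤ} (hN : N ≠ 0) {h : G → ℚ[X]} {ε ε' : G → G → ℚ[X]}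
    {m : Type} [Fintype m] [DecidableEq m] {A : Option G → Matrix m m ℤ}
    (hA : TGood f N h ε ε' A) (g : G) :
    ∃ V : Matrix m m ℚ, rat (A (some g)) * V = 1 ∧ V * rat (A (some g)) = 1 := by
  have hNq : (N : ℚ) ≠ 0 := by exact_mod_cast hN
  have h1 : rat (A (some g)) * ((N : ℚ)⁻¹ • (rat (A (some g⁻¹)) *
      aeval (rat (A none)) (ε' g g⁻¹))) = 1 := by
    rw [Matrix.mul_smul, ← Matrix.mul_assoc, hA.mul, mul_inv_cancel, hA.one, Matrix.mul_smul,
      Matrix.mul_one, Matrix.smul_mul, hA.inv, smul_smul, inv_mul_cancel₀ hNq, one_smul]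
  exact ⟨_, h1, mul_eq_one_comm.1 h1⟩

lemma aeval_intertwine {m k : Type} [Fintype m] [Fintype k] [DecidableEq m] [DecidableEq k]
    {E : Matrix m m ℚ} {F : Matrix k k ℚ} {s : Matrix m k ℚ} (hs : E * s = s * F) (p : ℚ[X]) :
    aeval E p * s = s * aeval F p := by
  induction p using Polynomial.induction_on' with
  | add p q hp hq => rw [map_add, map_add, Matrix.add_mul, Matrix.mul_add, hp, hq]
  | monomial k a =>
    have hk : E ^ k * s = s * F ^ k := by
      induction k with
      | zero => simp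
      | succ k ih =>
        rw [pow_succ, Matrix.mul_assoc, hs, ← Matrix.mul_assoc, ih, Matrix.mul_assoc, ← pow_succ]
    rw [aeval_monomial, aeval_monomial, Algebra.algebraMap_eq_smul_one,
      Algebra.algebraMap_eq_smul_one, smul_mul_assoc, smul_mul_assoc, one_mul, one_mul,
      Matrix.smul_mul, Matrix.mul_smul, hk]

/-- Maschke: the class of the off-diagonal blocks of a good tuple is torsion -/
lemma TGood.tor [Finite G] {f : ℤ[X]} (hf : Squarefree (f.map (Int.castRingHom ℚ))) {N : ℤ}
    (hN : N ≠ 0) {h : G → ℚ[X]} {ε ε' : G → G → ℚ[X]}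
    {d e : Type} [Fintype d] [Fintype e] [DecidableEq d]
    [DecidableEq e] {A1 : Option G → Matrix d d ℤ} {A2 : Option G → Matrix e e ℤ}
    {B : Option G → Matrix d e ℤ} (hA : TGood f N h ε ε' (blockT A1 A2 B)) : TorT A1 A2 B := by
  classical
  have := Fintype.ofFinite G
  obtain ⟨hA1, hA2⟩ := hA.blocks
  -- splitting for `A`
  have hk : aeval (fromBlocks (rat (A1 none)) (rat (B none)) 0 (rat (A2 none)))
      (f.map (Int.castRingHom ℚ)) = 0 := by
    rw [← rat_blocks]
    have h1 := aeval_mapMat (Int.castRingHom ℚ) (fromBlocks (A1 none) (B none) 0 (A2 none)) f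
    have h2 : aeval (fromBlocks (A1 none) (B none) 0 (A2 none)) f = 0 := hA.kill
    rw [h2, map_zero] at h1
    exact h1.symm
  obtain ⟨X0, hX0⟩ := exists_syl_rat _ hf _ _ _ hk
  -- sections
  let E : Option G → Matrix (d ⊕ e) (d ⊕ e) ℚ := fun i => rat (blockT A1 A2 B i)
  have hE : ∀ i, E i = fromBlocks (rat (A1 i)) (rat (B i)) 0 (rat (A2 i)) := fun i =>
    rat_blocks _ _ _
  let s0 : Matrix (d ⊕ e) e ℚ := fromRows (-X0) 1
  have hs0 : E none * s0 = s0 * rat (A2 none) := by
    rw [hE, fromBlocks_mul_fromRows, fromRows_mul, hX0]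
    congr 1
    · simp only [Matrix.mul_neg, Matrix.mul_one, Matrix.neg_mul]
      abel
    · simp
  choose V hV1 hV2 using fun g => hA2.exists_inv hN g
  let Xs : G → Matrix (d ⊕ e) e ℚ := fun g => E (some g) * s0 * V g
  have hX : ∀ g, E none * Xs g = Xs g * rat (A2 none) := by
    intro g
    have h1 : E none * E (some g) = E (some g) * aeval (E none) (h g) := hA.rel g
    have h2 : aeval (rat (A2 none)) (h g) * V g = V g * rat (A2 none) := by
      have h3 := hA2.rel g
      calc aeval (rat (A2 none)) (h g) * V g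
          = V g * (rat (A2 (some g)) * aeval (rat (A2 none)) (h g)) * V g := by
            rw [← Matrix.mul_assoc, hV2, Matrix.one_mul]
        _ = V g * rat (A2 none) * (rat (A2 (some g)) * V g) := by
            rw [← h3]; simp only [Matrix.mul_assoc]
        _ = _ := by rw [hV1, Matrix.mul_one]
    calc E none * (E (some g) * s0 * V g)
        = (E none * E (some g)) * s0 * V g := by simp only [Matrix.mul_assoc]
      _ = E (some g) * (aeval (E none) (h g) * s0) * V g := by
          rw [h1]; simp only [Matrix.mul_assoc]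
      _ = E (some g) * s0 * (aeval (rat (A2 none)) (h g) * V g) := by
          rw [aeval_intertwine hs0]; simp only [Matrix.mul_assoc]
      _ = _ := by rw [h2]; simp only [Xs, Matrix.mul_assoc]
  have hXk : ∀ k g, E (some k) * Xs g = Xs (k * g) * rat (A2 (some k)) := by
    intro k g
    have h1 : E (some k) * E (some g) = aeval (E none) (ε k g) * E (some (k * g)) := hA.mul k g
    have h2 : rat (A2 (some k)) = aeval (rat (A2 none)) (ε k g) * rat (A2 (some (k * g))) * V g := by
      rw [← hA2.mul, Matrix.mul_assoc, hV1, Matrix.mul_one]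
    calc E (some k) * (E (some g) * s0 * V g)
        = (E (some k) * E (some g)) * s0 * V g := by simp only [Matrix.mul_assoc]
      _ = aeval (E none) (ε k g) * (E (some (k * g)) * s0) * V g := by
          rw [h1]; simp only [Matrix.mul_assoc]
      _ = aeval (E none) (ε k g) * (E (some (k * g)) * s0 * (V (k * g) *
            rat (A2 (some (k * g))))) * V g := by rw [hV2, Matrix.mul_one]
      _ = aeval (E none) (ε k g) * Xs (k * g) * rat (A2 (some (k * g))) * V g := by
          simp only [Xs, Matrix.mul_assoc]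
      _ = Xs (k * g) * (aeval (rat (A2 none)) (ε k g) * rat (A2 (some (k * g))) * V g) := by
          rw [aeval_intertwine (hX (k * g))]; simp only [Matrix.mul_assoc]
      _ = _ := by rw [← h2]
  let s : Matrix (d ⊕ e) e ℚ := ∑ g : G, Xs g
  have hsG : ∀ k : G, E (some k) * s = s * rat (A2 (some k)) := by
    intro k
    simp only [s]
    rw [Matrix.mul_sum, Matrix.sum_mul]
    rw [← Equiv.sum_comp (Equiv.mulLeft k) (fun g => Xs g * rat (A2 (some k)))]
    refine Finset.sum_congr rfl fun g _ => ?_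
    rw [hXk]
    rfl
  have hsA : E none * s = s * rat (A2 none) := by
    simp only [s]
    rw [Matrix.mul_sum, Matrix.sum_mul]
    exact Finset.sum_congr rfl fun g _ => hX g
  have hs2 : s.toRows₂ = (Fintype.card G : ℚ) • (1 : Matrix e e ℚ) := by
    have h1 : ∀ g : G, (Xs g).toRows₂ = 1 := by
      intro g
      simp only [Xs]
      rw [hE, fromBlocks_mul_fromRows, fromRows_mul, toRows₂_fromRows, Matrix.zero_mul, zero_add,
        Matrix.mul_one, hV1]
    ext i j
    have h2 : s.toRows₂ i j = ∑ g : G, (Xs g).toRows₂ i j := by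
      simp only [s, toRows₂, Matrix.of_apply, Matrix.sum_apply]
    rw [h2]
    simp only [h1]
    simp
  have hcard : (Fintype.card G : ℚ) ≠ 0 := by
    exact_mod_cast Fintype.card_ne_zero
  -- all blocks
  have hall : ∀ i, E i * s = s * rat (A2 i) := by
    intro i
    cases i with
    | none => exact hsA
    | some g => exact hsG g
  have hall2 : ∀ i, rat (A1 i) * s.toRows₁ + (Fintype.card G : ℚ) • rat (B i) =
      s.toRows₁ * rat (A2 i) := by
    intro i
    have h1 := hall i
    rw [hE, ← fromRows_toRows s, fromBlocks_mul_fromRows, fromRows_mul, hs2] at h1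
    have h2 := congrArg toRows₁ h1
    rw [toRows₁_fromRows, toRows₁_fromRows] at h2
    rw [← h2, Matrix.mul_smul, Matrix.mul_one]
  obtain ⟨k, hk0, Y, hY⟩ := exists_int_multiple s.toRows₁
  refine ⟨k * (Fintype.card G : ℤ), mul_ne_zero hk0 (by exact_mod_cast Fintype.card_ne_zero), -Y, ?_⟩
  funext i
  apply rat_injective
  have hY' : rat Y = (k : ℚ) • s.toRows₁ := by
    ext a b
    simp [hY]
  have h1 : rat (((k * (Fintype.card G : ℤ)) • B) i) =
      (k : ℚ) • ((Fintype.card G : ℚ) • rat (B i)) := by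
    ext a b
    simp [mul_assoc]
  have h2 : rat (sylT A1 A2 (-Y) i) = -(rat (A1 i) * rat Y) + rat Y * rat (A2 i) := by
    ext a b
    simp only [sylT, LinearMap.pi_apply, syl, LinearMap.coe_mk, AddHom.coe_mk, Matrix.mul_neg,
      Matrix.neg_mul, sub_neg_eq_add]
    simp [Matrix.mul_apply]
  rw [h1, h2, hY']
  have h3 : (Fintype.card G : ℚ) • rat (B i) = s.toRows₁ * rat (A2 i) - rat (A1 i) * s.toRows₁ := by
    rw [← hall2 i]; abel
  rw [h3, smul_sub, Matrix.smul_mul, Matrix.mul_smul]
  abel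

/-- good tuples have finitely many simple rational types -/
lemma TGood.finite_types [Finite G] {f : ℤ[X]} (hf : Squarefree (f.map (Int.castRingHom ℚ)))
    {N : ℤ} (hN : N ≠ 0) (h : G → ℚ[X]) (ε ε' : G → G → ℚ[X]) {n : ℕ} (hn : 0 < n) :
    ∃ R : Set (Option G → Matrix (Fin n) (Fin n) ℚ), R.Finite ∧ (∀ B ∈ R, SimpleQ B) ∧
      ∀ A : Option G → Matrix (Fin n) (Fin n) ℤ, TGood f N h ε ε' A → SimpleT A →
        ∃ B ∈ R, IsoQ (fun i => rat (A i)) B := by
  classical
  have := Fintype.ofFinite G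
  have hNq : (N : ℚ) ≠ 0 := by exact_mod_cast hN
  set fq := f.map (Int.castRingHom ℚ) with hfq
  have hfq0 : fq ≠ 0 := hf.ne_zero
  -- the universal modules
  have hU : ∀ p : ℚ[X], p ∈ UniqueFactorizationMonoid.normalizedFactors fq →
      ∃ R : Set (Option G → Matrix (Fin n) (Fin n) ℚ), R.Finite ∧ (∀ B ∈ R, SimpleQ B) ∧
        ∀ A : Option G → Matrix (Fin n) (Fin n) ℤ, TGood f N h ε ε' A → SimpleT A →
          (∃ w : Fin n → ℚ, w ≠ 0 ∧ aeval (rat (A none)) p *ᵥ w = 0) →
          ∃ B ∈ R, IsoQ (fun i => rat (A i)) B := by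
    intro p hp
    have hirr := UniqueFactorizationMonoid.irreducible_of_normalized_factor p hp
    have hpm : p.Monic := by
      rw [← UniqueFactorizationMonoid.normalize_normalized_factor p hp]
      exact Polynomial.monic_normalize hirr.ne_zero
    have hfd : FiniteDimensional ℚ (AdjoinRoot p) := (AdjoinRoot.powerBasis hirr.ne_zero).finite
    let I := G → AdjoinRoot p
    let T : Option G → I →ₗ[ℚ] I := fun i => match i with
      | none => LinearMap.pi fun g =>
          (LinearMap.mulLeft ℚ (AdjoinRoot.mk p (h g))) ∘ₗ LinearMap.proj g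
      | some k => LinearMap.pi fun g =>
          (LinearMap.mulLeft ℚ (AdjoinRoot.mk p ((ε k (k⁻¹ * g)).comp (h g)))) ∘ₗ
            LinearMap.proj (k⁻¹ * g)
    obtain ⟨R, hR, hRs, hRA⟩ := finite_quotients (ι := Option G) hn (finrank ℚ I) I rfl T
    refine ⟨R, hR, hRs, fun A hA hsimple ⟨w, hw0, hpw⟩ => hRA _ hsimple ?_⟩
    set Aq : Matrix (Fin n) (Fin n) ℚ := rat (A none) with hAq
    let ev : ℚ[X] →ₗ[ℚ] (Fin n → ℚ) :=
      { toFun := fun g => (aeval Aq g) *ᵥ w
        map_add' := fun g h => by rw [map_add, Matrix.add_mulVec]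
        map_smul' := fun r g => by rw [map_smul, Matrix.smul_mulVec]; rfl }
    have hev_mod : ∀ g : ℚ[X], ev (g %ₘ p) = ev g := by
      intro g
      have h1 : g = g %ₘ p + (g /ₘ p) * p := by
        rw [mul_comm]; exact (Polynomial.modByMonic_add_div g p).symm
      have h2 : ev ((g /ₘ p) * p) = 0 := by
        change (aeval Aq ((g /ₘ p) * p)) *ᵥ w = 0
        rw [map_mul, ← Matrix.mulVec_mulVec, hpw, Matrix.mulVec_zero]
      conv_rhs => rw [h1, map_add, h2, add_zero]
    let κ : AdjoinRoot p →ₗ[ℚ] (Fin n → ℚ) := ev ∘ₗ (AdjoinRoot.modByMonicHom hpm)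
    have hκmk : ∀ g : ℚ[X], κ (AdjoinRoot.mk p g) = (aeval Aq g) *ᵥ w := by
      intro g
      change ev (AdjoinRoot.modByMonicHom hpm (AdjoinRoot.mk p g)) = ev g
      rw [AdjoinRoot.modByMonicHom_mk, hev_mod]
    let φ : I →ₗ[ℚ] (Fin n → ℚ) := ∑ g : G, (Matrix.toLin' (rat (A (some g)))) ∘ₗ κ ∘ₗ
      (LinearMap.proj g)
    have hφ : ∀ v : I, φ v = ∑ g : G, rat (A (some g)) *ᵥ κ (v g) := by
      intro v
      simp only [φ, LinearMap.sum_apply, LinearMap.comp_apply, Matrix.toLin'_apply]
      rfl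
    have hAint : ∀ (g : G) (q : ℚ[X]), aeval Aq q * rat (A (some g)) =
        rat (A (some g)) * aeval Aq (q.comp (h g)) := by
      intro g q
      rw [Polynomial.aeval_comp]
      exact aeval_intertwine (hA.rel g) q
    have hequiv : ∀ i x, φ (T i x) = rat (A i) *ᵥ φ x := by
      intro i x
      rw [hφ, hφ, Matrix.mulVec_sum]
      cases i with
      | none =>
        refine Finset.sum_congr rfl fun g _ => ?_
        change rat (A (some g)) *ᵥ κ (AdjoinRoot.mk p (h g) * x g) = _
        obtain ⟨q, hq⟩ := AdjoinRoot.mk_surjective (x g)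
        rw [← hq, ← map_mul, hκmk, hκmk, Matrix.mulVec_mulVec, Matrix.mulVec_mulVec,
          Matrix.mulVec_mulVec, map_mul, ← Matrix.mul_assoc, ← hA.rel g, Matrix.mul_assoc]
      | some k =>
        rw [← Equiv.sum_comp (Equiv.mulLeft k)]
        refine Finset.sum_congr rfl fun g _ => ?_
        change rat (A (some (k * g))) *ᵥ κ (AdjoinRoot.mk p ((ε k (k⁻¹ * (k * g))).comp
          (h (k * g))) * x (k⁻¹ * (k * g))) = _
        rw [inv_mul_cancel_left]
        obtain ⟨q, hq⟩ := AdjoinRoot.mk_surjective (x g)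
        rw [← hq, ← map_mul, hκmk, hκmk, Matrix.mulVec_mulVec, Matrix.mulVec_mulVec,
          Matrix.mulVec_mulVec, map_mul, ← Matrix.mul_assoc, ← hAint, ← hA.mul,
          Matrix.mul_assoc]
    have hsurj : Function.Surjective φ := by
      have h1 : LinearMap.range φ = ⊥ ∨ LinearMap.range φ = ⊤ := by
        apply hsimple
        rintro i _ ⟨x, rfl⟩
        exact ⟨T i x, hequiv i x⟩
      rcases h1 with h1 | h1
      · exfalso
        have h2 : φ (Pi.single 1 (AdjoinRoot.mk p 1)) = (N : ℚ) • w := by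
          rw [hφ, Finset.sum_eq_single 1]
          · rw [Pi.single_eq_same, hA.one, hκmk, map_one, Matrix.one_mulVec, Matrix.smul_mulVec,
              Matrix.one_mulVec]
          · intro g _ hg
            rw [Pi.single_eq_of_ne hg, map_zero, Matrix.mulVec_zero]
          · intro hg; exact absurd (Finset.mem_univ _) hg
        have h3 : (N : ℚ) • w ∈ LinearMap.range φ := ⟨_, h2⟩
        rw [h1, Submodule.mem_bot] at h3
        exact hw0 ((smul_eq_zero.1 h3).resolve_left hNq)
      · exact LinearMap.range_eq_top.1 h1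
    exact ⟨φ, hsurj, hequiv⟩
  choose! R hR hRs hRA using hU
  refine ⟨⋃ p ∈ ((UniqueFactorizationMonoid.normalizedFactors fq).toFinset : Set ℚ[X]), R p,
    ?_, ?_, ?_⟩
  · refine (Finset.finite_toSet _).biUnion fun p hp => ?_
    rw [Finset.mem_coe, Multiset.mem_toFinset] at hp
    exact hR p hp
  · intro B hB
    simp only [Set.mem_iUnion] at hB
    obtain ⟨p, hp, hB⟩ := hB
    rw [Finset.mem_coe, Multiset.mem_toFinset] at hp
    exact hRs p hp B hB
  · intro A hA hsimple
    set Aq : Matrix (Fin n) (Fin n) ℚ := rat (A none) with hAq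
    have hfAq : aeval Aq fq = 0 := by
      have h1 := aeval_mapMat (Int.castRingHom ℚ) (A none) f
      rw [hA.kill, map_zero] at h1
      exact h1.symm
    have hex : ∃ p ∈ UniqueFactorizationMonoid.normalizedFactors fq, ∃ v : Fin n → ℚ, v ≠ 0 ∧
        (aeval Aq p) *ᵥ v = 0 := by
      by_contra hcon
      push Not at hcon
      have hprod : ∀ s : Multiset ℚ[X],
          (∀ p ∈ s, p ∈ UniqueFactorizationMonoid.normalizedFactors fq) →
          ∀ v : Fin n → ℚ, (aeval Aq s.prod) *ᵥ v = 0 → v = 0 := by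
        intro s
        induction s using Multiset.induction_on with
        | empty => intro _ v hv; simpa using hv
        | cons p s ihs =>
          intro hs v hv
          rw [Multiset.prod_cons, mul_comm, map_mul, ← Matrix.mulVec_mulVec] at hv
          have h1 := ihs (fun q hq => hs q (Multiset.mem_cons_of_mem hq)) _ hv
          by_contra hv0
          exact hcon p (hs p (Multiset.mem_cons_self p s)) v hv0 h1
      obtain ⟨u, hu⟩ := UniqueFactorizationMonoid.prod_normalizedFactors hfq0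
      have h1 : ∀ v : Fin n → ℚ, v = 0 := by
        intro v
        apply hprod _ (fun p hp => hp) v
        have h2 : (UniqueFactorizationMonoid.normalizedFactors fq).prod = fq * (↑u⁻¹ : ℚ[X]) :=
          (Units.eq_mul_inv_iff_mul_eq u).2 hu
        rw [h2, map_mul, hfAq, Matrix.zero_mul, Matrix.zero_mulVec]
      have h3 := h1 (fun _ => 1)
      have h4 := congrFun h3 ⟨0, hn⟩
      simp at h4
    obtain ⟨p, hp, w, hw0, hpw⟩ := hex
    obtain ⟨B, hB, hAB⟩ := hRA p hp A hA hsimple ⟨w, hw0, hpw⟩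
    refine ⟨B, Set.mem_biUnion (x := p) ?_ hB, hAB⟩
    rw [Finset.mem_coe, Multiset.mem_toFinset]
    exact hp

/-- **Jordan-Zassenhaus** for crossed products -/
theorem finT_tgood [Finite G] {f : ℤ[X]} (hf : Squarefree (f.map (Int.castRingHom ℚ))) {N : ℤ}
    (hN : N ≠ 0) (h : G → ℚ[X]) (ε ε' : G → G → ℚ[X]) (n : ℕ) :
    FinT (fun A : Option G → Matrix (Fin n) (Fin n) ℤ => TGood f N h ε ε' A) := by
  refine jzT (fun n A => TGood f N h ε ε' A) ?_ ?_ ?_ n
  · intro n d e A A1 A2 B hA hAB
    exact (hA.of_iso hAB).blocks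
  · intro n d e A A1 A2 B hA hAB
    exact (hA.of_iso hAB).tor hf hN
  · intro n hn
    obtain ⟨R, hR, hRs, hRA⟩ := TGood.finite_types hf hN h ε ε' hn
    refine (FinT.union hR fun B hB => finT_of_isoQ hn B (hRs B hB)).mono ?_
    rintro A ⟨hA, hs⟩
    exact hRA A hA hs

end AbMot
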