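import Pool.Agent.Helper40.AbMot.JZ

/-!
# Tuples of integer matrices: the inductive part of the Jordan-Zassenhaus theorem
-/

open Polynomial Module Matrix

namespace AbMot

/-- equivalence of tuples of integer matrices -/
def IsoT {ι m n : Type} [Fintype m] [Fintype n] (A : ι → Matrix m m ℤ) (B : ι → Matrix n n ℤ) :
    Prop := ∃ e : (m → ℤ) ≃ₗ[ℤ] (n → ℤ), ∀ i x, e (A i *ᵥ x) = B i *ᵥ (e x)

section
variable {ι m n k : Type} [Fintype m] [Fintype n] [Fintype k]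

lemma IsoT.refl (A : ι → Matrix m m ℤ) : IsoT A A := ⟨LinearEquiv.refl ℤ _, fun _ _ => rfl⟩

lemma IsoT.symm {A : ι → Matrix m m ℤ} {B : ι → Matrix n n ℤ} (h : IsoT A B) : IsoT B A := by
  obtain ⟨e, he⟩ := h
  refine ⟨e.symm, fun i x => ?_⟩
  apply e.injective
  rw [he]; simp

lemma IsoT.trans {A : ι → Matrix m m ℤ} {B : ι → Matrix n n ℤ} {C : ι → Matrix k k ℤ}
    (h : IsoT A B) (h' : IsoT B C) : IsoT A C := by
  obtain ⟨e, he⟩ := h
  obtain ⟨e', he'⟩ := h'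
  refine ⟨e.trans e', fun i x => ?_⟩
  simp [he, he']

end

/-- a property of tuples which only holds on finitely many classes -/
def FinT {ι n : Type} [Fintype n] (P : (ι → Matrix n n ℤ) → Prop) : Prop :=
  ∃ T : Set (ι → Matrix n n ℤ), T.Finite ∧ ∀ A, P A → ∃ B ∈ T, IsoT A B

section
variable {ι n : Type} [Fintype n]

lemma FinT.mono {P Q : (ι → Matrix n n ℤ) → Prop} (h : FinT Q) (hPQ : ∀ A, P A → Q A) :
    FinT P := by
  obtain ⟨T, hT, h⟩ := h
  exact ⟨T, hT, fun A hA => h A (hPQ A hA)⟩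

lemma FinT.union {κ : Type*} {I : Set κ} (hI : I.Finite) {P : κ → (ι → Matrix n n ℤ) → Prop}
    (h : ∀ i ∈ I, FinT (P i)) : FinT (fun A => ∃ i ∈ I, P i A) := by
  choose! T hT h using h
  refine ⟨⋃ i ∈ I, T i, hI.biUnion hT, ?_⟩
  rintro A ⟨i, hi, hA⟩
  obtain ⟨B, hB, hAB⟩ := h i hi A hA
  exact ⟨B, Set.mem_biUnion hi hB, hAB⟩

lemma FinT.of_key {κ : Type*} {K : Set κ} (hK : K.Finite)
    {P : (ι → Matrix n n ℤ) → Prop} (rel : κ → (ι → Matrix n n ℤ) → Prop)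
    (h1 : ∀ A, P A → ∃ k ∈ K, rel k A)
    (h2 : ∀ k A B, rel k A → rel k B → IsoT A B) : FinT P := by
  classical
  let c : κ → (ι → Matrix n n ℤ) := fun k => if h : ∃ A, rel k A then h.choose else 0
  refine ⟨c '' K, hK.image c, fun A hA => ?_⟩
  obtain ⟨k, hk, hkA⟩ := h1 A hA
  refine ⟨c k, ⟨k, hk, rfl⟩, h2 k A (c k) hkA ?_⟩
  have h : ∃ A, rel k A := ⟨A, hkA⟩
  simp only [c, dif_pos h]
  exact h.choose_spec

lemma FinT.or {P Q : (ι → Matrix n n ℤ) → Prop} (hP : FinT P) (hQ : FinT Q) :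
    FinT (fun A => P A ∨ Q A) := by
  obtain ⟨T, hT, h⟩ := hP
  obtain ⟨T', hT', h'⟩ := hQ
  refine ⟨T ∪ T', hT.union hT', ?_⟩
  rintro A (hA | hA)
  · obtain ⟨B, hB, hAB⟩ := h A hA
    exact ⟨B, Or.inl hB, hAB⟩
  · obtain ⟨B, hB, hAB⟩ := h' A hA
    exact ⟨B, Or.inr hB, hAB⟩

end

/-- block triangular tuples -/
def blockT {ι d e : Type} (A1 : ι → Matrix d d ℤ) (A2 : ι → Matrix e e ℤ)
    (B : ι → Matrix d e ℤ) : ι → Matrix (d ⊕ e) (d ⊕ e) ℤ :=
  fun i => fromBlocks (A1 i) (B i) 0 (A2 i)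

/-- the Sylvester operator for tuples -/
def sylT {ι d e : Type} [Fintype d] [Fintype e] (A1 : ι → Matrix d d ℤ) (A2 : ι → Matrix e e ℤ) :
    Matrix d e ℤ →ₗ[ℤ] (ι → Matrix d e ℤ) :=
  LinearMap.pi fun i => syl (A1 i) (A2 i)

lemma isoT_blocks_of_syl {ι d e : Type} [Fintype d] [Fintype e] [DecidableEq d] [DecidableEq e]
    (A1 : ι → Matrix d d ℤ) (A2 : ι → Matrix e e ℤ) (B : ι → Matrix d e ℤ) (Y : Matrix d e ℤ) :
    IsoT (blockT A1 A2 B) (blockT A1 A2 (B + sylT A1 A2 Y)) := by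
  let U : Matrix (d ⊕ e) (d ⊕ e) ℤ := fromBlocks 1 (-Y) 0 1
  let V : Matrix (d ⊕ e) (d ⊕ e) ℤ := fromBlocks 1 Y 0 1
  have hUV : U * V = 1 := by simp [U, V, fromBlocks_multiply]
  have hVU : V * U = 1 := by simp [U, V, fromBlocks_multiply]
  refine ⟨LinearEquiv.ofLinearMap (Matrix.toLin' U) (Matrix.toLin' V) ?_ ?_, ?_⟩
  · rw [← Matrix.toLin'_mul, hUV, Matrix.toLin'_one]
  · rw [← Matrix.toLin'_mul, hVU, Matrix.toLin'_one]
  · intro i x
    simp only [LinearEquiv.coe_ofLinearMap, Matrix.toLin'_apply, Matrix.mulVec_mulVec, blockT]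
    congr 1
    simp only [U, fromBlocks_multiply, sylT, LinearMap.pi_apply, Pi.add_apply, syl,
      LinearMap.coe_mk, AddHom.coe_mk]
    simp only [Matrix.one_mul, Matrix.mul_zero, Matrix.zero_mul, Matrix.mul_one, add_zero,
      zero_add, Matrix.neg_mul, Matrix.mul_neg, neg_zero]
    congr 1
    abel

lemma isoT_blocks_of_iso {ι d e d' e' : Type} [Fintype d] [Fintype e] [DecidableEq d]
    [DecidableEq e] [Fintype d'] [Fintype e'] [DecidableEq d'] [DecidableEq e']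
    {A1 : ι → Matrix d d ℤ} {A2 : ι → Matrix e e ℤ} {A1' : ι → Matrix d' d' ℤ}
    {A2' : ι → Matrix e' e' ℤ} (B : ι → Matrix d e ℤ) (h1 : IsoT A1 A1') (h2 : IsoT A2 A2') :
    ∃ B', IsoT (blockT A1 A2 B) (blockT A1' A2' B') := by
  obtain ⟨e1, he1⟩ := h1
  obtain ⟨e2, he2⟩ := h2
  let B' : ι → Matrix d' e' ℤ := fun i => LinearMap.toMatrix' (e1.toLinearMap ∘ₗ
    (Matrix.toLin' (B i)) ∘ₗ e2.symm.toLinearMap)
  refine ⟨B', ((LinearEquiv.sumArrowLequivProdArrow d e ℤ ℤ).trans (e1.prodCongr e2)).trans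
    (LinearEquiv.sumArrowLequivProdArrow d' e' ℤ ℤ).symm, ?_⟩
  intro i x
  obtain ⟨y, z, rfl⟩ : ∃ y z, x = Sum.elim y z := ⟨x ∘ Sum.inl, x ∘ Sum.inr, by
    ext i; cases i <;> rfl⟩
  simp only [blockT]
  rw [fromBlocks_mulVec]
  have hB : B' i *ᵥ e2 z = e1 (B i *ᵥ z) := by
    rw [← Matrix.toLin'_apply]
    simp [B']
  ext j
  cases j with
  | inl j =>
    simp [LinearEquiv.trans_apply, LinearEquiv.sumArrowLequivProdArrow, Equiv.sumArrowEquivProdArrow,
      fromBlocks_mulVec, hB, he1]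
  | inr j =>
    simp [LinearEquiv.trans_apply, LinearEquiv.sumArrowLequivProdArrow, Equiv.sumArrowEquivProdArrow,
      fromBlocks_mulVec, he2]

/-- a pure stable sublattice gives a block triangular form -/
lemma exists_blockT {ι : Type} {n : ℕ} (A : ι → Matrix (Fin n) (Fin n) ℤ)
    (N : Submodule ℤ (Fin n → ℤ)) (hN : ∀ i, ∀ x ∈ N, A i *ᵥ x ∈ N)
    (htf : ∀ (k : ℤ) (x : Fin n → ℤ), k ≠ 0 → k • x ∈ N → x ∈ N)
    (hN0 : N ≠ ⊥) (hN1 : N ≠ ⊤) :
    ∃ d e : ℕ, 0 < d ∧ 0 < e ∧ d + e = n ∧ ∃ (A1 : ι → Matrix (Fin d) (Fin d) ℤ)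
      (A2 : ι → Matrix (Fin e) (Fin e) ℤ) (B : ι → Matrix (Fin d) (Fin e) ℤ),
      IsoT A (blockT A1 A2 B) := by
  classical
  have htf' : Module.IsTorsionFree ℤ ((Fin n → ℤ) ⧸ N) := by
    constructor
    intro k hk x y hxy
    have hk0 : k ≠ 0 := hk.ne_zero
    obtain ⟨x, rfl⟩ := N.mkQ_surjective x
    obtain ⟨y, rfl⟩ := N.mkQ_surjective y
    have h1 : N.mkQ (k • (x - y)) = 0 := by
      simp only [map_smul, map_sub, smul_sub]
      exact sub_eq_zero.2 hxy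
    rw [Submodule.mkQ_apply, Submodule.Quotient.mk_eq_zero] at h1
    have h2 := htf k _ hk0 h1
    rw [← sub_eq_zero, ← map_sub, Submodule.mkQ_apply, Submodule.Quotient.mk_eq_zero]
    exact h2
  have hfree : Module.Free ℤ ((Fin n → ℤ) ⧸ N) := Module.free_of_finite_type_torsion_free'
  have hfreeN : Module.Free ℤ N := inferInstance
  have hfinN : Module.Finite ℤ N := inferInstance
  obtain ⟨s, hs⟩ := Module.projective_lifting_property N.mkQ LinearMap.id N.mkQ_surjective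
  have hs' : ∀ q, N.mkQ (s q) = q := fun q => LinearMap.congr_fun hs q
  have hcompl : IsCompl N (LinearMap.range s) := by
    constructor
    · rw [Submodule.disjoint_def]
      rintro x hx ⟨q, rfl⟩
      have h1 := hs' q
      rw [Submodule.mkQ_apply, (Submodule.Quotient.mk_eq_zero N).2 hx] at h1
      rw [← h1, map_zero]
    · rw [codisjoint_iff, eq_top_iff]
      intro x _
      have h1 : x - s (N.mkQ x) ∈ N := by
        rw [← Submodule.Quotient.mk_eq_zero, ← Submodule.mkQ_apply, map_sub, hs', sub_self]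
      have h2 : x = (x - s (N.mkQ x)) + s (N.mkQ x) := by abel
      rw [h2]
      exact Submodule.add_mem_sup h1 ⟨_, rfl⟩
  have hsinj : Function.Injective s := fun x y hxy => by rw [← hs' x, ← hs' y, hxy]
  let bN := Module.finBasis ℤ N
  let bQ := Module.finBasis ℤ ((Fin n → ℤ) ⧸ N)
  let b : Basis (Fin (finrank ℤ N) ⊕ Fin (finrank ℤ ((Fin n → ℤ) ⧸ N))) ℤ (Fin n → ℤ) :=
    (bN.prod (bQ.map (LinearEquiv.ofInjective s hsinj))).map
      (Submodule.prodEquivOfIsCompl N (LinearMap.range s) hcompl)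
  have hbinl : ∀ i, b (Sum.inl i) ∈ N := by
    intro i
    simp [b]
  have hrepr : ∀ x ∈ N, ∀ j, b.repr x (Sum.inr j) = 0 := by
    intro x hx j
    have h1 : (Submodule.prodEquivOfIsCompl N (LinearMap.range s) hcompl).symm x = (⟨x, hx⟩, 0) := by
      rw [LinearEquiv.symm_apply_eq]
      simp
    simp [b, h1]
  let C : ι → Matrix _ _ ℤ := fun i => LinearMap.toMatrix b b (Matrix.toLin' (A i))
  have hiso : IsoT A C := by
    refine ⟨b.equivFun, fun i x => ?_⟩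
    have h1 := LinearMap.toMatrix_mulVec_repr b b (Matrix.toLin' (A i)) x
    simp only [Basis.equivFun_apply, C]
    rw [h1, Matrix.toLin'_apply]
  have hC21 : ∀ i, (C i).toBlocks₂₁ = 0 := by
    intro k
    ext i j
    simp only [C, Matrix.toBlocks₂₁, Matrix.of_apply, LinearMap.toMatrix_apply, Matrix.zero_apply,
      Matrix.toLin'_apply]
    exact hrepr _ (hN k _ (hbinl j)) i
  refine ⟨finrank ℤ N, finrank ℤ ((Fin n → ℤ) ⧸ N), ?_, ?_, ?_, fun i => (C i).toBlocks₁₁,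
    fun i => (C i).toBlocks₂₂, fun i => (C i).toBlocks₁₂, ?_⟩
  · rw [Module.finrank_pos_iff (R := ℤ)]
    exact Submodule.nontrivial_iff_ne_bot.2 hN0
  · rw [Module.finrank_pos_iff (R := ℤ)]
    exact Submodule.Quotient.nontrivial_iff.2 hN1
  · rw [add_comm, Submodule.finrank_quotient_add_finrank]
    simp
  · have h1 : blockT (fun i => (C i).toBlocks₁₁) (fun i => (C i).toBlocks₂₂)
        (fun i => (C i).toBlocks₁₂) = C := by
      funext i
      simp only [blockT]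
      rw [← hC21 i, Matrix.fromBlocks_toBlocks]
    rw [h1]
    exact hiso

/-- a family of lattices with operators is simple (rationally) -/
def SimpleT {ι : Type} {n : ℕ} (A : ι → Matrix (Fin n) (Fin n) ℤ) : Prop :=
  ∀ W : Submodule ℚ (Fin n → ℚ),
    (∀ i, ∀ w ∈ W, (A i).map (Int.castRingHom ℚ) *ᵥ w ∈ W) → W = ⊥ ∨ W = ⊤

/-- the class of the off-diagonal blocks is torsion -/
def TorT {ι d e : Type} [Fintype d] [Fintype e] (A1 : ι → Matrix d d ℤ) (A2 : ι → Matrix e e ℤ)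
    (B : ι → Matrix d e ℤ) : Prop := ∃ k : ℤ, k ≠ 0 ∧ ∃ Y : Matrix d e ℤ, k • B = sylT A1 A2 Y

/-- extensions with fixed diagonal blocks and torsion class fall into finitely many classes -/
lemma finT_blocks {ι : Type} [Finite ι] {n d e : ℕ} (A1 : ι → Matrix (Fin d) (Fin d) ℤ)
    (A2 : ι → Matrix (Fin e) (Fin e) ℤ) :
    FinT (fun A : ι → Matrix (Fin n) (Fin n) ℤ =>
      ∃ B, TorT A1 A2 B ∧ IsoT A (blockT A1 A2 B)) := by
  classical
  have := Fintype.ofFinite ι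
  let H := ι → Matrix (Fin d) (Fin e) ℤ
  let R : Submodule ℤ H := LinearMap.range (sylT A1 A2)
  have hfin : Finite (Submodule.torsion ℤ (H ⧸ R)) := by
    apply Module.finite_of_fg_torsion
    exact Submodule.torsion_isTorsion
  refine FinT.of_key (κ := H ⧸ R) (K := (Submodule.torsion ℤ (H ⧸ R) : Set (H ⧸ R)))
    (Set.toFinite _) (fun q A => ∃ B, R.mkQ B = q ∧ IsoT A (blockT A1 A2 B)) ?_ ?_
  · rintro A ⟨B, ⟨k, hk, Y, hY⟩, hB⟩
    refine ⟨R.mkQ B, ?_, B, rfl, hB⟩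
    rw [SetLike.mem_coe, Submodule.mem_torsion_iff]
    refine ⟨⟨k, mem_nonZeroDivisors_of_ne_zero hk⟩, ?_⟩
    change k • R.mkQ B = 0
    rw [← map_smul, hY, Submodule.mkQ_apply, Submodule.Quotient.mk_eq_zero]
    exact ⟨Y, rfl⟩
  · rintro q A A' ⟨B, hB, hA⟩ ⟨B', hB', hA'⟩
    have h1 : R.mkQ B' = R.mkQ B := by rw [hB, hB']
    rw [Submodule.mkQ_apply, Submodule.mkQ_apply, Submodule.Quotient.eq] at h1
    obtain ⟨Y, hY⟩ := h1
    have h2 : B' = B + sylT A1 A2 Y := by rw [hY]; abel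
    refine hA.trans ?_
    refine IsoT.trans ?_ hA'.symm
    rw [h2]
    exact isoT_blocks_of_syl A1 A2 B Y

/-- the inductive part of the Jordan-Zassenhaus theorem -/
theorem jzT {ι : Type} [Finite ι] (P : ∀ n : ℕ, (ι → Matrix (Fin n) (Fin n) ℤ) → Prop)
    (hblock : ∀ n d e (A : ι → Matrix (Fin n) (Fin n) ℤ) (A1 : ι → Matrix (Fin d) (Fin d) ℤ)
      (A2 : ι → Matrix (Fin e) (Fin e) ℤ) (B : ι → Matrix (Fin d) (Fin e) ℤ), P n A →
      IsoT A (blockT A1 A2 B) → P d A1 ∧ P e A2)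
    (htor : ∀ n d e (A : ι → Matrix (Fin n) (Fin n) ℤ) (A1 : ι → Matrix (Fin d) (Fin d) ℤ)
      (A2 : ι → Matrix (Fin e) (Fin e) ℤ) (B : ι → Matrix (Fin d) (Fin e) ℤ), P n A →
      IsoT A (blockT A1 A2 B) → TorT A1 A2 B)
    (hsimple : ∀ n, 0 < n → FinT (fun A => P n A ∧ SimpleT A)) (n : ℕ) : FinT (P n) := by
  classical
  induction n using Nat.strong_induction_on with
  | _ n ih =>
  rcases Nat.eq_zero_or_pos n with rfl | hn
  · refine ⟨Set.univ, ?_, fun A _ => ⟨A, Set.mem_univ _, IsoT.refl A⟩⟩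
    exact Set.toFinite _
  have ih' : ∀ m, ∃ T : Set (ι → Matrix (Fin m) (Fin m) ℤ), T.Finite ∧
      (m < n → ∀ A : ι → Matrix (Fin m) (Fin m) ℤ, P m A → ∃ B ∈ T, IsoT A B) := by
    intro m
    by_cases hm : m < n
    · obtain ⟨T, hT, h⟩ := ih m hm
      exact ⟨T, hT, fun _ => h⟩
    · exact ⟨∅, Set.finite_empty, fun h => absurd h hm⟩
  choose T hT hTA using ih'
  have case2 : FinT (fun A : ι → Matrix (Fin n) (Fin n) ℤ =>
      ∃ q ∈ ((Finset.range n ×ˢ Finset.range n : Finset (ℕ × ℕ)) : Set (ℕ × ℕ)),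
        ∃ A1 ∈ T q.1, ∃ A2 ∈ T q.2, ∃ B, TorT A1 A2 B ∧ IsoT A (blockT A1 A2 B)) := by
    refine FinT.union (Finset.finite_toSet _) fun q _ => ?_
    refine FinT.union (hT q.1) fun A1 _ => ?_
    refine FinT.union (hT q.2) fun A2 _ => ?_
    exact finT_blocks A1 A2
  refine ((hsimple n hn).or case2).mono ?_
  intro A hA
  by_cases hs : SimpleT A
  · left; exact ⟨hA, hs⟩
  · right
    unfold SimpleT at hs
    push Not at hs
    obtain ⟨W, hWst, hW0, hW1⟩ := hs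
    let inc : (Fin n → ℤ) →ₗ[ℤ] (Fin n → ℚ) :=
      { toFun := fun m i => (m i : ℚ)
        map_add' := fun x y => by ext i; simp
        map_smul' := fun r x => by ext i; simp }
    have hincA : ∀ k m, inc (A k *ᵥ m) = (A k).map (Int.castRingHom ℚ) *ᵥ (inc m) := by
      intro k m
      ext i
      simp [inc, Matrix.mulVec, dotProduct]
    let N : Submodule ℤ (Fin n → ℤ) := (W.restrictScalars ℤ).comap inc
    have hmemN : ∀ m, m ∈ N ↔ inc m ∈ W := fun m => Iff.rfl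
    have hNst : ∀ i, ∀ x ∈ N, A i *ᵥ x ∈ N := by
      intro i x hx
      rw [hmemN, hincA]
      exact hWst i _ hx
    have hNtf : ∀ (k : ℤ) (x : Fin n → ℤ), k ≠ 0 → k • x ∈ N → x ∈ N := by
      intro k x hk hx
      rw [hmemN] at hx ⊢
      have hkq : (k : ℚ) ≠ 0 := by exact_mod_cast hk
      have h1 : inc x = (k : ℚ)⁻¹ • inc (k • x) := by
        ext i
        simp [inc, hkq]
      rw [h1]
      exact W.smul_mem _ hx
    have hN0 : N ≠ ⊥ := by
      intro hN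
      apply hW0
      rw [eq_bot_iff]
      intro w hw
      obtain ⟨k, hk, Y, hY⟩ := exists_int_multiple (fun i (_ : Fin 1) => w i)
      have h1 : inc (fun i => Y i 0) = (k : ℚ) • w := by
        ext i
        simp [inc, hY]
      have h2 : (fun i => Y i 0) ∈ N := by
        rw [hmemN, h1]; exact W.smul_mem _ hw
      rw [hN, Submodule.mem_bot] at h2
      rw [h2, map_zero] at h1
      have hkq : (k : ℚ) ≠ 0 := by exact_mod_cast hk
      rw [Submodule.mem_bot]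
      exact (smul_eq_zero.1 h1.symm).resolve_left hkq
    have hN1 : N ≠ ⊤ := by
      intro hN
      apply hW1
      rw [eq_top_iff]
      intro w _
      have h1 : w = ∑ i, w i • inc (Pi.single i 1) := by
        ext j
        simp [inc, Pi.single_apply]
      rw [h1]
      refine W.sum_mem fun i _ => W.smul_mem _ ?_
      rw [← hmemN, hN]
      trivial
    obtain ⟨d, e, hd, he, hde, A1, A2, B, hB⟩ := exists_blockT A N hNst hNtf hN0 hN1
    obtain ⟨hP1, hP2⟩ := hblock n d e A A1 A2 B hA hB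
    obtain ⟨A1', hA1', hiso1⟩ := hTA d (by omega) A1 hP1
    obtain ⟨A2', hA2', hiso2⟩ := hTA e (by omega) A2 hP2
    obtain ⟨B', hB'⟩ := isoT_blocks_of_iso B hiso1 hiso2
    refine ⟨(d, e), ?_, A1', hA1', A2', hA2', B', ?_, hB.trans hB'⟩
    · simp only [Finset.coe_product, Set.mem_prod, Finset.coe_range, Set.mem_Iio]
      omega
    · exact htor n d e A A1' A2' B' hA (hB.trans hB')

end AbMot
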